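import Pool.Agent.HMA.Mat

/-! the explicit functions: definitions -/

open MeasureTheory Filter Topology Set Matrix
open scoped Manifold ContDiff ENNReal ComplexOrder

namespace HMA

/-- golden ratio -/
noncomputable def gr : ℝ := Real.goldenRatio

/-- `|θ|²`, `θ = (1, gr)` -/
noncomputable def tau : ℝ := 1 + gr ^ 2

theorem tau_pos : 0 < tau := by unfold tau; positivity

theorem tau_gt : 2 < tau := by
  have h : 1 < gr := Real.one_lt_goldenRatio
  unfold tau; nlinarith

/-- sign of the sheet: `false` = total space of the line bundle `L` (fibre coordinate `w`), `true` =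
total space of the dual (fibre coordinate `1/w`) -/
noncomputable def sg (s : Bool) : ℝ := if s then -1 else 1

/-- `|x|²`, `x = Re z` -/
def xx (p : E3) : ℝ := (p 0).re ^ 2 + (p 1).re ^ 2

/-- the invariant `ρ = π|x|² + log|w|` (in the second sheet `ρ = π|x|² - log|w|`) -/
noncomputable def rho (s : Bool) (p : E3) : ℝ := Real.pi * xx p + sg s * Real.log ‖p 2‖

/-- the functions `1 + |w|² exp (2π|x|²)` and `exp (2π|x|²) + |w|²` -/
noncomputable def NN (s : Bool) (p : E3) : ℝ :=
  if s then Real.exp (2 * Real.pi * xx p) + ‖p 2‖ ^ 2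
  else 1 + ‖p 2‖ ^ 2 * Real.exp (2 * Real.pi * xx p)

theorem NN_pos (s : Bool) (p : E3) : 0 < NN s p := by
  unfold NN; split_ifs <;> positivity

/-- density of the volume form -/
noncomputable def theta (s : Bool) (p : E3) : ℝ := Real.exp (2 * Real.pi * xx p) / NN s p ^ 2

theorem theta_pos (s : Bool) (p : E3) : 0 < theta s p := by
  have := NN_pos s p
  unfold theta; positivity

/-- local potential of the semi-positive form -/
noncomputable def uW (s : Bool) (p : E3) : ℝ :=
  Real.pi * ((p 0).re + gr * (p 1).re) ^ 2 + 1 / 2 * Real.log (NN s p)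

/-- local potential of the Kaehler form -/
noncomputable def uK (s : Bool) (p : E3) : ℝ :=
  Real.pi * xx p + 1 / 2 * Real.log (NN s p)

/-- fibre potential as a function of `ρ` -/
noncomputable def vv (r : ℝ) : ℝ := 1 / 2 * Real.log (1 + Real.exp (2 * r))

/-- its derivative -/
noncomputable def yy (r : ℝ) : ℝ := Real.exp (2 * r) / (1 + Real.exp (2 * r))

/-- its second derivative -/
noncomputable def v2 (r : ℝ) : ℝ := 2 * yy r * (1 - yy r)

/-- the complex factor of automorphy `exp (-2π(a z₀ + b z₁) - π(a² + b²))` -/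
noncomputable def cf (p : E3) (a b : ℤ) : ℂ :=
  Complex.exp (-(2 * Real.pi * (a * p 0 + b * p 1)) - Real.pi * (a ^ 2 + b ^ 2))

/-- the deck transformations and transition maps; `w' = c w`, `w/c`, `1/(c w)`, `c/w` -/
noncomputable def GG (a b c d : ℤ) (s t : Bool) (p : E3) : E3 :=
  ![p 0 + (a + c * Complex.I), p 1 + (b + d * Complex.I),
    if s then (if t then p 2 / cf p a b else cf p a b / p 2)
    else (if t then 1 / (cf p a b * p 2) else cf p a b * p 2)]

/-- lift of a function of `(x, ρ)` to the sheets, value `0` on `{w = 0}` -/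
noncomputable def lft (h : ℝ → ℝ → ℝ → ℝ) (s : Bool) (p : E3) : ℝ :=
  if p 2 = 0 then 0 else h (p 0).re (p 1).re (rho s p)

end HMA
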