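import Pool.Agent.HMA.Base

/-! module BASEA: the scalar functions vv, yy, v2 -/

open MeasureTheory Filter Topology Set Matrix
open scoped Manifold ContDiff ENNReal ComplexOrder

namespace HMA

theorem yy_pos (r : ℝ) : 0 < yy r := by
  unfold yy; positivity

theorem yy_lt_one (r : ℝ) : yy r < 1 := by
  unfold yy
  rw [div_lt_one (by positivity)]
  linarith

theorem BASEA_v2_eq (r : ℝ) : v2 r = 2 * Real.exp (2 * r) / (1 + Real.exp (2 * r)) ^ 2 := by
  have h : 0 < 1 + Real.exp (2 * r) := by positivity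
  unfold v2 yy
  field_simp
  ring

theorem v2_pos (r : ℝ) : 0 < v2 r := by
  rw [BASEA_v2_eq]; positivity

theorem BASEA_hasDerivAt (r : ℝ) :
    HasDerivAt (fun r => 1 + Real.exp (2 * r)) (2 * Real.exp (2 * r)) r := by
  have h1 : HasDerivAt (fun r : ℝ => 2 * r) 2 r := by
    simpa using (hasDerivAt_id r).const_mul 2
  have h2 := h1.exp.const_add 1
  rw [mul_comm] at h2
  exact h2

theorem hasDerivAt_vv (r : ℝ) : HasDerivAt vv (yy r) r := by
  have h : 0 < 1 + Real.exp (2 * r) := by positivity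
  have h1 := ((BASEA_hasDerivAt r).log h.ne').const_mul (1 / 2)
  have h2 : 1 / 2 * (2 * Real.exp (2 * r) / (1 + Real.exp (2 * r))) = yy r := by
    unfold yy; ring
  rw [h2] at h1
  exact h1

theorem hasDerivAt_yy (r : ℝ) : HasDerivAt yy (v2 r) r := by
  have h : 0 < 1 + Real.exp (2 * r) := by positivity
  have h1 : HasDerivAt (fun r : ℝ => 2 * r) 2 r := by
    simpa using (hasDerivAt_id r).const_mul 2
  have h3 := h1.exp.div (BASEA_hasDerivAt r) h.ne'
  have h2 : (Real.exp (2 * r) * 2 * (1 + Real.exp (2 * r)) -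
      Real.exp (2 * r) * (2 * Real.exp (2 * r))) / (1 + Real.exp (2 * r)) ^ 2 = v2 r := by
    rw [BASEA_v2_eq]
    ring
  rw [h2] at h3
  exact h3

theorem contDiff_vv : ContDiff ℝ ∞ vv := by
  unfold vv
  refine contDiff_const.mul (ContDiff.log (by fun_prop) fun x => ?_)
  have h : 0 < 1 + Real.exp (2 * x) := by positivity
  exact h.ne'

theorem contDiff_yy : ContDiff ℝ ∞ yy := by
  unfold yy
  refine ContDiff.div (by fun_prop) (by fun_prop) fun x => ?_
  have h : 0 < 1 + Real.exp (2 * x) := by positivity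
  exact h.ne'

theorem vv_nonneg (r : ℝ) : 0 ≤ vv r := by
  have h : 0 < Real.exp (2 * r) := Real.exp_pos _
  unfold vv
  have := Real.log_nonneg (show (1 : ℝ) ≤ 1 + Real.exp (2 * r) by linarith)
  linarith

theorem vv_le (r : ℝ) : vv r ≤ Real.exp (2 * r) / 2 := by
  have h : 0 < 1 + Real.exp (2 * r) := by positivity
  have := Real.log_le_sub_one_of_pos h
  unfold vv
  linarith

theorem yy_le_exp (r : ℝ) : yy r ≤ Real.exp (2 * r) := by
  have h : 0 < Real.exp (2 * r) := Real.exp_pos _
  unfold yy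
  exact div_le_self h.le (by linarith)

/-- `v''(a) / v''(b) ≤ exp (2|a-b|)`, as `v'' = 1/(2 cosh²)` -/
theorem v2_ratio (a b : ℝ) : v2 a / v2 b ≤ Real.exp (2 * |a - b|) := by
  rw [div_le_iff₀ (v2_pos b), BASEA_v2_eq, BASEA_v2_eq]
  have ha : 0 < Real.exp (2 * a) := Real.exp_pos _
  have hb : 0 < Real.exp (2 * b) := Real.exp_pos _
  set A := Real.exp (2 * a) with hA
  set B := Real.exp (2 * b) with hB
  rw [← mul_div_assoc, div_le_div_iff₀ (by positivity) (by positivity)]
  rcases le_total b a with h | h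
  · have h1 : |a - b| = a - b := abs_of_nonneg (by linarith)
    have h2 : Real.exp (2 * |a - b|) * (2 * B) = 2 * A := by
      rw [h1, hA, hB, mul_left_comm, ← Real.exp_add]
      congr 2
      ring
    have h3 : B ≤ A := Real.exp_le_exp.2 (by linarith)
    rw [h2]
    have h4 : (1 + B) ^ 2 ≤ (1 + A) ^ 2 := pow_le_pow_left₀ (by positivity) (by linarith) 2
    exact mul_le_mul_of_nonneg_left h4 (by positivity)
  · have h1 : |a - b| = b - a := by rw [abs_of_nonpos (by linarith)]; ring
    set D := Real.exp (2 * |a - b|) with hD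
    have hD1 : 1 ≤ D := by
      rw [hD]
      exact Real.one_le_exp (by positivity)
    have h2 : B = D * A := by
      rw [hA, hB, hD, h1, ← Real.exp_add]
      congr 1
      ring
    have h3 : 1 + B ≤ D * (1 + A) := by rw [h2]; linarith
    have h4 : (1 + B) ^ 2 ≤ (D * (1 + A)) ^ 2 := pow_le_pow_left₀ (by positivity) h3 2
    calc 2 * A * (1 + B) ^ 2 ≤ 2 * A * (D * (1 + A)) ^ 2 :=
          mul_le_mul_of_nonneg_left h4 (by positivity)
      _ = D * (2 * B) * (1 + A) ^ 2 := by rw [h2]; ring

/-- the tangent line inequality for the convex function `vv` -/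
theorem vv_tangent (r s : ℝ) : vv r + yy r * (s - r) ≤ vv s := by
  have hr : 0 < 1 + Real.exp (2 * r) := by positivity
  have hs : 0 < 1 + Real.exp (2 * s) := by positivity
  have hy := yy_pos r
  have hy1 := yy_lt_one r
  have h := convexOn_exp.2 (mem_univ (2 * (s - r))) (mem_univ (0 : ℝ)) hy.le
    (show 0 ≤ 1 - yy r by linarith) (by ring)
  simp only [smul_eq_mul, mul_zero, add_zero, Real.exp_zero, mul_one] at h
  have h2 : yy r * Real.exp (2 * (s - r)) + (1 - yy r) =
      (1 + Real.exp (2 * s)) / (1 + Real.exp (2 * r)) := by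
    have h3 : Real.exp (2 * r) * Real.exp (2 * (s - r)) = Real.exp (2 * s) := by
      rw [← Real.exp_add]
      congr 1
      ring
    unfold yy
    field_simp
    rw [h3]
    ring
  rw [h2] at h
  have h4 := Real.log_le_log (Real.exp_pos _) h
  rw [Real.log_exp, Real.log_div hs.ne' hr.ne'] at h4
  unfold vv
  linarith

end HMA
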