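import Pool.Agent.HMA.Calc

/-! module CALC2: Levi form, cut-off functions -/

open MeasureTheory Filter Topology Set Matrix
open scoped Manifold ContDiff ENNReal ComplexOrder

namespace HMA

variable {n : ℕ}

private theorem calc2_D2_add_left (u : Cn n → ℝ) (p v v' w : Cn n) :
    D2 u p (v + v') w = D2 u p v w + D2 u p v' w := by
  unfold D2; rw [map_add]; rfl

private theorem calc2_D2_add_right (u : Cn n → ℝ) (p v w w' : Cn n) :
    D2 u p v (w + w') = D2 u p v w + D2 u p v w' := by
  unfold D2; rw [map_add]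

private theorem calc2_D2_smul_left (u : Cn n → ℝ) (p v w : Cn n) (c : ℝ) :
    D2 u p (c • v) w = c * D2 u p v w := by
  unfold D2; rw [map_smul]; rfl

private theorem calc2_D2_smul_right (u : Cn n → ℝ) (p v w : Cn n) (c : ℝ) :
    D2 u p v (c • w) = c * D2 u p v w := by
  unfold D2; rw [map_smul]; rfl

private theorem calc2_D2_sum_left (u : Cn n → ℝ) (p : Cn n) {ι : Type} (s : Finset ι)
    (v : ι → Cn n) (w : Cn n) : D2 u p (∑ i ∈ s, v i) w = ∑ i ∈ s, D2 u p (v i) w := by
  unfold D2; rw [map_sum]; simp

private theorem calc2_D2_sum_right (u : Cn n → ℝ) (p : Cn n) {ι : Type} (s : Finset ι)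
    (v : Cn n) (w : ι → Cn n) : D2 u p v (∑ i ∈ s, w i) = ∑ i ∈ s, D2 u p v (w i) := by
  unfold D2; rw [map_sum]

private theorem calc2_decomp (b : Cn n) : b = ∑ i, ((b i).re • (Pi.single i 1 : Cn n) +
    (b i).im • (Pi.single i Complex.I : Cn n)) := by
  funext j
  rw [Finset.sum_apply, Finset.sum_eq_single j]
  · simp only [Pi.add_apply, Pi.smul_apply, Pi.single_eq_same, Complex.real_smul, mul_one]
    exact (Complex.re_add_im _).symm
  · intro i _ hij
    simp [Pi.single_eq_of_ne (Ne.symm hij)]
  · intro h; exact absurd (Finset.mem_univ _) h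

private theorem calc2_expand (u : Cn n → ℝ) (p : Cn n) (x y x' y' : Fin n → ℝ) :
    D2 u p (∑ i, (x i • (Pi.single i 1 : Cn n) + y i • (Pi.single i Complex.I : Cn n)))
      (∑ i, (x' i • (Pi.single i 1 : Cn n) + y' i • (Pi.single i Complex.I : Cn n))) =
    ∑ i, ∑ j, (x i * x' j * D2 u p (Pi.single i 1) (Pi.single j 1)
      + x i * y' j * D2 u p (Pi.single i 1) (Pi.single j Complex.I)
      + y i * x' j * D2 u p (Pi.single i Complex.I) (Pi.single j 1)
      + y i * y' j * D2 u p (Pi.single i Complex.I) (Pi.single j Complex.I)) := by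
  rw [calc2_D2_sum_left]
  refine Finset.sum_congr rfl fun i _ => ?_
  rw [calc2_D2_sum_right]
  refine Finset.sum_congr rfl fun j _ => ?_
  rw [calc2_D2_add_left, calc2_D2_add_right, calc2_D2_add_right]
  simp only [calc2_D2_smul_left, calc2_D2_smul_right]
  ring

/-- The Levi form through the second derivative. -/
theorem cHess_levi {u : Cn n → ℝ} {p : Cn n} (hu : ContDiffAt ℝ 2 u p) (b : Cn n) :
    ((D2 u p b b + D2 u p (Complex.I • b) (Complex.I • b) : ℝ) : ℂ) =
      4 * ∑ i, ∑ j, b i * cHess u p i j * star (b j) := by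
  have hI : Complex.I • b = ∑ i, ((-(b i).im) • (Pi.single i 1 : Cn n) +
      (b i).re • (Pi.single i Complex.I : Cn n)) := by
    have h := calc2_decomp (Complex.I • b)
    refine h.trans (Finset.sum_congr rfl fun i _ => ?_)
    simp [Pi.smul_apply, smul_eq_mul, Complex.mul_re, Complex.mul_im]
  have h1 : D2 u p b b = _ := (congrArg₂ (D2 u p) (calc2_decomp b) (calc2_decomp b)).trans
    (calc2_expand u p (fun i => (b i).re) (fun i => (b i).im) (fun i => (b i).re)
      (fun i => (b i).im))
  have h2 : D2 u p (Complex.I • b) (Complex.I • b) = _ :=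
    (congrArg₂ (D2 u p) hI hI).trans
    (calc2_expand u p (fun i => -(b i).im) (fun i => (b i).re) (fun i => -(b i).im)
      (fun i => (b i).re))
  -- the antisymmetric part vanishes
  set P : Fin n → Fin n → ℝ := fun i j => D2 u p (Pi.single i 1) (Pi.single j 1)
    + D2 u p (Pi.single i Complex.I) (Pi.single j Complex.I) with hP
  set Q : Fin n → Fin n → ℝ := fun i j => D2 u p (Pi.single i 1) (Pi.single j Complex.I)
    - D2 u p (Pi.single i Complex.I) (Pi.single j 1) with hQ
  have hPs : ∀ i j, P i j = P j i := by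
    intro i j
    simp only [hP]
    rw [D2_symm hu (Pi.single i 1) (Pi.single j 1),
      D2_symm hu (Pi.single i Complex.I) (Pi.single j Complex.I)]
  have hQs : ∀ i j, Q i j = - Q j i := by
    intro i j
    simp only [hQ]
    rw [D2_symm hu (Pi.single i 1) (Pi.single j Complex.I),
      D2_symm hu (Pi.single i Complex.I) (Pi.single j 1)]
    ring
  have hanti : ∑ i, ∑ j, (((b i).re * (b j).re + (b i).im * (b j).im) * Q i j
      + ((b i).im * (b j).re - (b i).re * (b j).im) * P i j) = 0 := by
    have hs : ∑ i, ∑ j, (((b i).re * (b j).re + (b i).im * (b j).im) * Q i j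
      + ((b i).im * (b j).re - (b i).re * (b j).im) * P i j) =
      - ∑ i, ∑ j, (((b i).re * (b j).re + (b i).im * (b j).im) * Q i j
      + ((b i).im * (b j).re - (b i).re * (b j).im) * P i j) := by
      conv_lhs => rw [Finset.sum_comm]
      rw [← Finset.sum_neg_distrib]
      refine Finset.sum_congr rfl fun i _ => ?_
      rw [← Finset.sum_neg_distrib]
      refine Finset.sum_congr rfl fun j _ => ?_
      rw [hQs j i, hPs j i]
      ring
    linarith
  have hre : D2 u p b b + D2 u p (Complex.I • b) (Complex.I • b) =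
      ∑ i, ∑ j, (((b i).re * (b j).re + (b i).im * (b j).im) * P i j
        - ((b i).im * (b j).re - (b i).re * (b j).im) * Q i j) := by
    rw [h1, h2, ← Finset.sum_add_distrib]
    refine Finset.sum_congr rfl fun i _ => ?_
    rw [← Finset.sum_add_distrib]
    refine Finset.sum_congr rfl fun j _ => ?_
    simp only [hP, hQ]
    ring
  have hterm : ∀ i j, 4 * (b i * cHess u p i j * star (b j)) =
      (((((b i).re * (b j).re + (b i).im * (b j).im) * P i j
        - ((b i).im * (b j).re - (b i).re * (b j).im) * Q i j : ℝ)) : ℂ)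
      + ((((b i).re * (b j).re + (b i).im * (b j).im) * Q i j
        + ((b i).im * (b j).re - (b i).re * (b j).im) * P i j : ℝ) : ℂ) * Complex.I := by
    intro i j
    have hc : 4 * cHess u p i j = ((P i j : ℝ) : ℂ) + ((Q i j : ℝ) : ℂ) * Complex.I := by
      simp only [cHess, hP, hQ]
      ring
    have h4 : 4 * (b i * cHess u p i j * star (b j)) =
        b i * star (b j) * (4 * cHess u p i j) := by ring
    rw [h4, hc]
    apply Complex.ext
    · simp only [RCLike.star_def, Complex.mul_re, Complex.mul_im, Complex.add_re, Complex.add_im,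
        Complex.conj_re, Complex.conj_im, Complex.ofReal_re, Complex.ofReal_im, Complex.I_re,
        Complex.I_im]
      ring
    · simp only [RCLike.star_def, Complex.mul_re, Complex.mul_im, Complex.add_re, Complex.add_im,
        Complex.conj_re, Complex.conj_im, Complex.ofReal_re, Complex.ofReal_im, Complex.I_re,
        Complex.I_im]
      ring
  rw [Finset.mul_sum]
  simp only [Finset.mul_sum]
  rw [Finset.sum_congr rfl fun i _ => Finset.sum_congr rfl fun j _ => hterm i j]
  simp only [Finset.sum_add_distrib]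
  rw [hre]
  have hz : ∑ i, ∑ j, ((((b i).re * (b j).re + (b i).im * (b j).im) * Q i j
        + ((b i).im * (b j).re - (b i).re * (b j).im) * P i j : ℝ) : ℂ) * Complex.I = 0 := by
    have := congrArg (fun x : ℝ => (x : ℂ) * Complex.I) hanti
    simp only [Complex.ofReal_zero, zero_mul] at this
    rw [← this]
    push_cast
    rw [Finset.sum_mul]
    refine Finset.sum_congr rfl fun i _ => ?_
    rw [Finset.sum_mul]
  rw [hz, add_zero]
  push_cast
  rfl

/-- If the second derivative is a sum of terms `c k • α_k(v) α_k(w)` with real linear forms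
`α_k(v) = Re (∑ a_j v_j)` and of a term `Re (c v_j w_j)`, the complex Hessian is
`(1/4) ∑ c_k a_k a_kᴴ`. -/
theorem cHess_of_D2 {u : Cn n → ℝ} {p : Cn n} {ι : Type} [Fintype ι] (c : ι → ℝ)
    (a : ι → Fin n → ℂ) (e : ℂ) (j : Fin n)
    (h : ∀ v w : Cn n, D2 u p v w =
      ∑ k, c k * (∑ i, a k i * v i).re * (∑ i, a k i * w i).re + (e * v j * w j).re) :
    cHess u p = (1 / 4 : ℂ) • ∑ k, (c k : ℂ) • vecMulVec (a k) (star (a k)) := by
  have hs : ∀ (k : ι) (i : Fin n) (z : ℂ), ∑ l, a k l * (Pi.single i z : Cn n) l = a k i * z := by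
    intro k i z
    rw [Finset.sum_eq_single i]
    · simp
    · intro l _ hl; simp [Pi.single_eq_of_ne hl]
    · intro h; exact absurd (Finset.mem_univ _) h
  ext α β
  simp only [cHess, h, hs]
  rw [Matrix.smul_apply, Matrix.sum_apply]
  simp only [Matrix.smul_apply, vecMulVec_apply, Pi.star_apply, smul_eq_mul]
  have e1 : ∀ z w : ℂ, (e * (Pi.single α z : Cn n) j * (Pi.single β w : Cn n) j).re =
      (if j = α ∧ j = β then (e * z * w).re else 0) := by
    intro z w
    by_cases h1 : j = α
    · by_cases h2 : j = β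
      · subst h1; subst h2; simp
      · simp [Pi.single_eq_of_ne h2, h2]
    · simp [Pi.single_eq_of_ne h1, h1]
  simp only [e1]
  have e2 : ∀ k, (c k : ℂ) * (a k α * star (a k β)) =
      (((c k * (a k α * 1).re * (a k β * 1).re + c k * (a k α * Complex.I).re *
        (a k β * Complex.I).re : ℝ)) : ℂ) +
      ((c k * (a k α * 1).re * (a k β * Complex.I).re - c k * (a k α * Complex.I).re *
        (a k β * 1).re : ℝ) : ℂ) * Complex.I := by
    intro k
    apply Complex.ext
    · simp only [RCLike.star_def, Complex.mul_re, Complex.mul_im, Complex.add_re, Complex.add_im,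
        Complex.conj_re, Complex.conj_im, Complex.ofReal_re, Complex.ofReal_im, Complex.I_re,
        Complex.I_im, Complex.one_re, Complex.one_im]
      ring
    · simp only [RCLike.star_def, Complex.mul_re, Complex.mul_im, Complex.add_re, Complex.add_im,
        Complex.conj_re, Complex.conj_im, Complex.ofReal_re, Complex.ofReal_im, Complex.I_re,
        Complex.I_im, Complex.one_re, Complex.one_im]
      ring
  rw [Finset.sum_congr rfl fun k _ => e2 k]
  have e3 : ∀ z : ℂ, (e * 1 * 1).re + (e * Complex.I * Complex.I).re = 0 := by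
    intro _
    simp [Complex.mul_re, Complex.mul_im]
  rw [Finset.sum_add_distrib, ← Finset.sum_mul, ← Complex.ofReal_sum, ← Complex.ofReal_sum,
    Finset.sum_add_distrib, Finset.sum_sub_distrib]
  split_ifs with hij
  · have e4 : (e * Complex.I * Complex.I).re = - (e * 1 * 1).re := by
      have := e3 0; linarith
    have e5 : (e * 1 * Complex.I).re = (e * Complex.I * 1).re := by
      simp [Complex.mul_re, Complex.mul_im]
    rw [e4, e5]
    push_cast
    ring
  · push_cast
    ring

/-- smooth cut-off functions -/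
theorem exists_cutoff {W K : Set E3} (hW : IsOpen W) (hK : IsCompact K) (hKW : K ⊆ W) :
    ∃ χ : E3 → ℝ, ContDiff ℝ ∞ χ ∧ HasCompactSupport χ ∧ tsupport χ ⊆ W ∧
      (∀ p, 0 ≤ χ p ∧ χ p ≤ 1) ∧ ∀ p ∈ K, χ p = 1 := by
  obtain ⟨K', hK', hKK', hK'W⟩ := exists_compact_between hK hW hKW
  obtain ⟨f, hf0, hf1, hf⟩ := exists_contMDiffMap_zero_one_of_isClosed (n := (⊤ : ℕ∞))
    (modelWithCornersSelf ℝ E3) (isOpen_interior (s := K')).isClosed_compl hK.isClosed
    (by
      rw [Set.disjoint_left]
      intro x hx hxK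
      exact hx (hKK' hxK))
  have hsupp : tsupport (f : E3 → ℝ) ⊆ K' := by
    refine closure_minimal ?_ hK'.isClosed
    intro x hx
    by_contra hxK
    exact hx (hf0 (fun h => hxK (interior_subset h)))
  refine ⟨f, f.contMDiff.contDiff, ?_, hsupp.trans hK'W, fun p => hf p, fun p hp => hf1 hp⟩
  exact HasCompactSupport.of_support_subset_isCompact hK' ((subset_tsupport _).trans hsupp)

/-- smooth functions on an open set coincide near a compact subset with smooth functions of
compact support -/
theorem exists_extension {W K : Set E3} (hW : IsOpen W) (hK : IsCompact K) (hKW : K ⊆ W)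
    {u : E3 → ℝ} (hu : ContDiffOn ℝ ∞ u W) :
    ∃ v : E3 → ℝ, ContDiff ℝ ∞ v ∧ HasCompactSupport v ∧ ∀ p ∈ K, v =ᶠ[𝓝 p] u := by
  obtain ⟨K', hK', hKK', hK'W⟩ := exists_compact_between hK hW hKW
  obtain ⟨χ, hχ, hχc, hχW, _, hχ1⟩ := exists_cutoff hW hK' hK'W
  refine ⟨fun p => χ p * u p, ?_, hχc.mul_right, ?_⟩
  · rw [contDiff_iff_contDiffAt]
    intro p
    by_cases hp : p ∈ W
    · exact hχ.contDiffAt.mul (hu.contDiffAt (hW.mem_nhds hp))
    · have hp' : p ∉ tsupport χ := fun h => hp (hχW h)
      have h0 := notMem_tsupport_iff_eventuallyEq.1 hp'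
      have : (fun q => χ q * u q) =ᶠ[𝓝 p] fun _ => (0 : ℝ) := by
        filter_upwards [h0] with q hq
        rw [hq]; simp
      exact contDiffAt_const.congr_of_eventuallyEq this
  · intro p hp
    filter_upwards [isOpen_interior.mem_nhds (hKK' hp)] with q hq
    rw [hχ1 q (interior_subset hq), one_mul]

end HMA
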