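import Pool.Agent.HMA.BaseA
import Pool.Agent.HMA.Calc2

/-! module BASEB: smoothness and derivatives of the explicit functions -/

open MeasureTheory Filter Topology Set Matrix
open scoped Manifold ContDiff ENNReal ComplexOrder

namespace HMA

theorem BaseB_contDiff_re (i : Fin 3) : ContDiff ℝ ∞ (fun p : E3 => (p i).re) :=
  Complex.reCLM.contDiff.comp (contDiff_apply ℝ ℂ i)

theorem BaseB_contDiff_xx : ContDiff ℝ ∞ (xx : E3 → ℝ) := by
  unfold xx
  exact ((BaseB_contDiff_re 0).pow 2).add ((BaseB_contDiff_re 1).pow 2)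

theorem BaseB_contDiff_nsq : ContDiff ℝ ∞ (fun p : E3 => ‖p 2‖ ^ 2) :=
  (contDiff_apply ℝ ℂ (2 : Fin 3)).norm_sq ℝ

theorem BaseB_contDiff_exp : ContDiff ℝ ∞ (fun p : E3 => Real.exp (2 * Real.pi * xx p)) :=
  Real.contDiff_exp.comp (contDiff_const.mul BaseB_contDiff_xx)

theorem contDiff_NN (s : Bool) : ContDiff ℝ ∞ (NN s) := by
  cases s with
  | true =>
    have h : NN true = fun p : E3 => Real.exp (2 * Real.pi * xx p) + ‖p 2‖ ^ 2 := by
      funext p
      simp [NN]
    rw [h]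
    exact BaseB_contDiff_exp.add BaseB_contDiff_nsq
  | false =>
    have h : NN false = fun p : E3 => 1 + ‖p 2‖ ^ 2 * Real.exp (2 * Real.pi * xx p) := by
      funext p
      simp [NN]
    rw [h]
    exact contDiff_const.add (BaseB_contDiff_nsq.mul BaseB_contDiff_exp)

theorem BaseB_contDiff_logNN (s : Bool) : ContDiff ℝ ∞ (fun p => Real.log (NN s p)) :=
  (contDiff_NN s).log fun p => (NN_pos s p).ne'

theorem contDiff_uW (s : Bool) : ContDiff ℝ ∞ (uW s) := by
  unfold uW
  exact (contDiff_const.mul (((BaseB_contDiff_re 0).add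
    (contDiff_const.mul (BaseB_contDiff_re 1))).pow 2)).add
    (contDiff_const.mul (BaseB_contDiff_logNN s))

theorem contDiff_uK (s : Bool) : ContDiff ℝ ∞ (uK s) := by
  unfold uK
  exact (contDiff_const.mul BaseB_contDiff_xx).add (contDiff_const.mul (BaseB_contDiff_logNN s))

theorem contDiff_theta (s : Bool) : ContDiff ℝ ∞ (theta s) := by
  unfold theta
  exact BaseB_contDiff_exp.div ((contDiff_NN s).pow 2) fun p => pow_ne_zero 2 (NN_pos s p).ne'

theorem BaseB_sg_sq (s : Bool) : sg s * sg s = 1 := by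
  cases s <;> simp [sg]

theorem BaseB_sg_le (s : Bool) (x : ℝ) (hx : 0 ≤ x) : sg s * x ≤ x := by
  cases s
  · simp [sg]
  · simp only [sg, if_true]
    linarith

/-- `ρ → -∞` at `{w = 0}` in the first sheet, `ρ → ∞` in the second -/
theorem rho_near_zero (s : Bool) (p : E3) (hp : p 2 = 0) (B : ℝ) :
    ∀ᶠ q in 𝓝 p, q 2 ≠ 0 → B < - sg s * rho s q := by
  have h1 : Tendsto (fun q : E3 => ‖q 2‖) (𝓝 p) (𝓝 ‖p 2‖) :=
    ((continuous_apply (2 : Fin 3)).norm).continuousAt
  rw [hp, norm_zero] at h1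
  have h2 : Tendsto (xx : E3 → ℝ) (𝓝 p) (𝓝 (xx p)) := BaseB_contDiff_xx.continuous.continuousAt
  filter_upwards [h1.eventually_lt_const (Real.exp_pos (-(B + Real.pi * (xx p + 1)))),
    h2.eventually_lt_const (lt_add_one (xx p))] with q h3 h4 h5
  have h6 : Real.log ‖q 2‖ < -(B + Real.pi * (xx p + 1)) := by
    rw [Real.log_lt_iff_lt_exp (norm_pos_iff.mpr h5)]
    exact h3
  have h7 : sg s * (Real.pi * xx q) ≤ Real.pi * xx q := by
    apply BaseB_sg_le
    have : 0 ≤ xx q := by unfold xx; positivity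
    positivity
  have h8 : Real.pi * xx q < Real.pi * (xx p + 1) := mul_lt_mul_of_pos_left h4 Real.pi_pos
  have h9 : - sg s * rho s q = - (sg s * (Real.pi * xx q)) - Real.log ‖q 2‖ := by
    unfold rho
    linear_combination (-Real.log ‖q 2‖) * BaseB_sg_sq s
  rw [h9]
  linarith

theorem contDiffAt_rho (s : Bool) {p : E3} (hp : p 2 ≠ 0) : ContDiffAt ℝ ∞ (rho s) p := by
  unfold rho
  have h1 : ContDiffAt ℝ ∞ (fun q : E3 => ‖q 2‖) p :=
    (contDiff_apply ℝ ℂ (2 : Fin 3)).contDiffAt.norm ℝ hp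
  exact (contDiffAt_const.mul BaseB_contDiff_xx.contDiffAt).add
    (contDiffAt_const.mul (h1.log (norm_ne_zero_iff.mpr hp)))

/-- the derivative of `log |q 2|` as a continuous linear map -/
noncomputable def BaseB_L (p : E3) : E3 →L[ℝ] ℝ :=
  Complex.reCLM.comp ((ContinuousLinearMap.mul ℝ ℂ (p 2)⁻¹).comp
    (ContinuousLinearMap.proj (R := ℝ) (φ := fun _ : Fin 3 => ℂ) 2))

theorem BaseB_L_apply (p v : E3) : BaseB_L p v = (v 2 / p 2).re := by
  change ((p 2)⁻¹ * v 2).re = _
  rw [div_eq_inv_mul]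

theorem BaseB_hasFDerivAt_log {p : E3} (hp : p 2 ≠ 0) :
    HasFDerivAt (fun q : E3 => Real.log ‖q 2‖) (BaseB_L p) p := by
  have h0 : HasFDerivAt (fun q : E3 => q 2)
      (ContinuousLinearMap.proj (R := ℝ) (φ := fun _ : Fin 3 => ℂ) 2) p :=
    (ContinuousLinearMap.proj (R := ℝ) (φ := fun _ : Fin 3 => ℂ) 2).hasFDerivAt
  have h1 := h0.norm_sq
  have hne : ‖p 2‖ ^ 2 ≠ 0 := pow_ne_zero 2 (norm_ne_zero_iff.mpr hp)
  have h2 := (h1.log hne).const_mul (1 / 2)
  have h3 : (fun q : E3 => Real.log ‖q 2‖) = fun q : E3 => 1 / 2 * Real.log (‖q 2‖ ^ 2) := by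
    funext q
    rw [Real.log_pow]
    push_cast
    ring
  rw [h3]
  refine h2.congr_fderiv (ContinuousLinearMap.ext fun v => ?_)
  rw [BaseB_L_apply]
  simp only [_root_.smul_apply, ContinuousLinearMap.comp_apply,
    ContinuousLinearMap.proj_apply, innerSL_apply_apply, smul_eq_mul, Complex.inner]
  rw [Complex.div_re, ← Complex.normSq_eq_norm_sq]
  have hn : Complex.normSq (p 2) ≠ 0 := (Complex.normSq_pos.mpr hp).ne'
  simp only [Complex.mul_re, Complex.conj_re, Complex.conj_im]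
  field_simp
  ring

theorem BaseB_hasFDerivAt_re (i : Fin 3) (p : E3) :
    HasFDerivAt (fun q : E3 => (q i).re) (Complex.reCLM.comp
      (ContinuousLinearMap.proj (R := ℝ) (φ := fun _ : Fin 3 => ℂ) i)) p :=
  (Complex.reCLM.comp
      (ContinuousLinearMap.proj (R := ℝ) (φ := fun _ : Fin 3 => ℂ) i)).hasFDerivAt

theorem fderiv_rho (s : Bool) {p : E3} (hp : p 2 ≠ 0) (v : E3) :
    fderiv ℝ (rho s) p v =
      (2 * Real.pi * (p 0).re * v 0 + 2 * Real.pi * (p 1).re * v 1 + sg s * v 2 / p 2).re := by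
  have h0 := (BaseB_hasFDerivAt_re 0 p).pow 2
  have h1 := (BaseB_hasFDerivAt_re 1 p).pow 2
  have h2 := (((h0.add h1).const_mul Real.pi).add ((BaseB_hasFDerivAt_log hp).const_mul (sg s)))
  have h3 : HasFDerivAt (rho s) _ p := h2
  rw [h3.fderiv]
  simp only [_root_.add_apply, _root_.smul_apply,
    ContinuousLinearMap.comp_apply, ContinuousLinearMap.proj_apply, smul_eq_mul,
    Complex.reCLM_apply, BaseB_L_apply, Complex.add_re]
  have e0 : (2 * (Real.pi : ℂ) * ((p 0).re : ℂ) * v 0).re = 2 * Real.pi * (p 0).re * (v 0).re := by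
    have : (2 * (Real.pi : ℂ) * ((p 0).re : ℂ) * v 0) =
        ((2 * Real.pi * (p 0).re : ℝ) : ℂ) * v 0 := by push_cast; ring
    rw [this, Complex.re_ofReal_mul]
  have e1 : (2 * (Real.pi : ℂ) * ((p 1).re : ℂ) * v 1).re = 2 * Real.pi * (p 1).re * (v 1).re := by
    have : (2 * (Real.pi : ℂ) * ((p 1).re : ℂ) * v 1) =
        ((2 * Real.pi * (p 1).re : ℝ) : ℂ) * v 1 := by push_cast; ring
    rw [this, Complex.re_ofReal_mul]
  have e2 : ((sg s : ℂ) * v 2 / p 2).re = sg s * (v 2 / p 2).re := by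
    rw [mul_div_assoc, Complex.re_ofReal_mul]
  rw [e0, e1, e2]
  simp only [nsmul_eq_mul]
  push_cast
  ring

/-- the second derivative through directional derivatives -/
theorem BaseB_D2_eq {u : E3 → ℝ} {p : E3} (hu : ContDiffAt ℝ 2 u p) (v w : E3) :
    D2 u p v w = fderiv ℝ (fun q => fderiv ℝ u q w) p v := by
  have h : DifferentiableAt ℝ (fderiv ℝ u) p := Calc_fd hu
  unfold D2
  rw [fderiv_clm_apply h (differentiableAt_const w)]
  simp

theorem BaseB_hasFDerivAt_div {p : E3} (hp : p 2 ≠ 0) (w : ℂ) :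
    HasFDerivAt (fun q : E3 => (w / q 2).re) (Complex.reCLM.comp
      ((ContinuousLinearMap.mul ℝ ℂ (-(w / p 2 ^ 2))).comp
        (ContinuousLinearMap.proj (R := ℝ) (φ := fun _ : Fin 3 => ℂ) 2))) p := by
  have h0 : HasFDerivAt (fun q : E3 => q 2)
      (ContinuousLinearMap.proj (R := ℝ) (φ := fun _ : Fin 3 => ℂ) 2) p :=
    (ContinuousLinearMap.proj (R := ℝ) (φ := fun _ : Fin 3 => ℂ) 2).hasFDerivAt
  have h1 : HasDerivAt (fun z : ℂ => w / z) (-(w / p 2 ^ 2)) (p 2) := by
    have h2 := (hasDerivAt_inv hp).const_mul w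
    have h3 : (fun z : ℂ => w / z) = fun z : ℂ => w * z⁻¹ := by
      funext z
      rw [div_eq_mul_inv]
    rw [h3]
    refine h2.congr_deriv ?_
    rw [div_eq_mul_inv]
    ring
  have h2 : HasFDerivAt (fun z : ℂ => w / z)
      (ContinuousLinearMap.mul ℝ ℂ (-(w / p 2 ^ 2))) (p 2) := by
    have h3 := h1.hasFDerivAt.restrictScalars ℝ
    refine h3.congr_fderiv (ContinuousLinearMap.ext fun z => ?_)
    simp [mul_comm]
  have h3 := h2.comp p h0
  exact Complex.reCLM.hasFDerivAt.comp p h3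

theorem BaseB_ne_eventually {p : E3} (hp : p 2 ≠ 0) : ∀ᶠ q : E3 in 𝓝 p, q 2 ≠ 0 :=
  (continuous_apply (2 : Fin 3)).continuousAt.eventually_ne hp

theorem D2_rho (s : Bool) {p : E3} (hp : p 2 ≠ 0) (v w : E3) :
    D2 (rho s) p v w = 2 * Real.pi * ((v 0).re * (w 0).re + (v 1).re * (w 1).re)
      - sg s * (v 2 * w 2 / p 2 ^ 2).re := by
  rw [BaseB_D2_eq ((contDiffAt_rho s hp).of_le (by norm_cast))]
  have h1 : (fun q => fderiv ℝ (rho s) q w) =ᶠ[𝓝 p] fun q : E3 =>
      2 * Real.pi * (w 0).re * (q 0).re + 2 * Real.pi * (w 1).re * (q 1).re +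
        sg s * (w 2 / q 2).re := by
    filter_upwards [BaseB_ne_eventually hp] with q hq
    rw [fderiv_rho s hq, Complex.add_re, Complex.add_re]
    have e0 : (2 * (Real.pi : ℂ) * ((q 0).re : ℂ) * w 0).re =
        2 * Real.pi * (q 0).re * (w 0).re := by
      have : (2 * (Real.pi : ℂ) * ((q 0).re : ℂ) * w 0) =
          ((2 * Real.pi * (q 0).re : ℝ) : ℂ) * w 0 := by push_cast; ring
      rw [this, Complex.re_ofReal_mul]
    have e1 : (2 * (Real.pi : ℂ) * ((q 1).re : ℂ) * w 1).re =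
        2 * Real.pi * (q 1).re * (w 1).re := by
      have : (2 * (Real.pi : ℂ) * ((q 1).re : ℂ) * w 1) =
          ((2 * Real.pi * (q 1).re : ℝ) : ℂ) * w 1 := by push_cast; ring
      rw [this, Complex.re_ofReal_mul]
    have e2 : ((sg s : ℂ) * w 2 / q 2).re = sg s * (w 2 / q 2).re := by
      rw [mul_div_assoc, Complex.re_ofReal_mul]
    rw [e0, e1, e2]
    ring
  rw [h1.fderiv_eq]
  have h2 := (((BaseB_hasFDerivAt_re 0 p).const_mul (2 * Real.pi * (w 0).re)).add
    ((BaseB_hasFDerivAt_re 1 p).const_mul (2 * Real.pi * (w 1).re))).add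
    ((BaseB_hasFDerivAt_div hp (w 2)).const_mul (sg s))
  have h3 : HasFDerivAt (fun q : E3 =>
      2 * Real.pi * (w 0).re * (q 0).re + 2 * Real.pi * (w 1).re * (q 1).re +
        sg s * (w 2 / q 2).re) _ p := h2
  rw [h3.fderiv]
  simp only [_root_.add_apply, _root_.smul_apply,
    ContinuousLinearMap.comp_apply, ContinuousLinearMap.proj_apply, smul_eq_mul,
    Complex.reCLM_apply, ContinuousLinearMap.mul_apply']
  have e3 : -(w 2 / p 2 ^ 2) * v 2 = -(v 2 * w 2 / p 2 ^ 2) := by ring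
  rw [e3, Complex.neg_re]
  ring

theorem BaseB_exp_rho (s : Bool) {p : E3} (hp : p 2 ≠ 0) :
    Real.exp (2 * rho s p) = if s then Real.exp (2 * Real.pi * xx p) / ‖p 2‖ ^ 2
      else ‖p 2‖ ^ 2 * Real.exp (2 * Real.pi * xx p) := by
  have hn : 0 < ‖p 2‖ := norm_pos_iff.mpr hp
  have h1 : Real.exp (2 * Real.log ‖p 2‖) = ‖p 2‖ ^ 2 := by
    rw [mul_comm, Real.exp_mul, Real.exp_log hn]
    norm_cast
  cases s with
  | true =>
    simp only [if_true]
    rw [← h1, ← Real.exp_sub]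
    congr 1
    unfold rho
    simp only [sg, if_true]
    ring
  | false =>
    simp only [Bool.false_eq_true, if_false]
    rw [← h1, ← Real.exp_add]
    congr 1
    unfold rho
    simp only [sg, Bool.false_eq_true, if_false]
    ring

theorem BaseB_NN_eq (s : Bool) {p : E3} (hp : p 2 ≠ 0) :
    NN s p = (1 + Real.exp (2 * rho s p)) * (if s then ‖p 2‖ ^ 2 else 1) := by
  have hn : 0 < ‖p 2‖ := norm_pos_iff.mpr hp
  rw [BaseB_exp_rho s hp]
  cases s with
  | true =>
    simp only [NN, if_true]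
    field_simp
    ring
  | false =>
    simp only [NN, Bool.false_eq_true, if_false]
    ring

/-- off `{w = 0}`: `(1/2) log N = v(ρ)` in the first sheet, `v(ρ) + log |w|` in the second -/
theorem log_NN (s : Bool) {p : E3} (hp : p 2 ≠ 0) :
    1 / 2 * Real.log (NN s p) = vv (rho s p) + (if s then Real.log ‖p 2‖ else 0) := by
  have hn : 0 < ‖p 2‖ := norm_pos_iff.mpr hp
  have he : 0 < 1 + Real.exp (2 * rho s p) := by positivity
  rw [BaseB_NN_eq s hp]
  unfold vv
  cases s with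
  | true =>
    simp only [if_true]
    rw [Real.log_mul he.ne' (by positivity), Real.log_pow]
    push_cast
    ring
  | false =>
    simp only [Bool.false_eq_true, if_false]
    rw [mul_one, add_zero]

theorem theta_eq (s : Bool) {p : E3} (hp : p 2 ≠ 0) :
    theta s p = v2 (rho s p) / (2 * ‖p 2‖ ^ 2) := by
  have hn : 0 < ‖p 2‖ := norm_pos_iff.mpr hp
  have he : 0 < 1 + Real.exp (2 * rho s p) := by positivity
  have hv : v2 (rho s p) = 2 * Real.exp (2 * rho s p) / (1 + Real.exp (2 * rho s p)) ^ 2 := by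
    unfold v2 yy
    field_simp
    ring
  rw [hv]
  unfold theta
  rw [BaseB_NN_eq s hp]
  have hE := BaseB_exp_rho s hp
  cases s with
  | true =>
    simp only [if_true] at hE ⊢
    have h2 : Real.exp (2 * Real.pi * xx p) = Real.exp (2 * rho true p) * ‖p 2‖ ^ 2 := by
      rw [hE]
      field_simp
    rw [h2]
    field_simp
  | false =>
    simp only [Bool.false_eq_true, if_false] at hE ⊢
    have h2 : Real.exp (2 * Real.pi * xx p) = Real.exp (2 * rho false p) / ‖p 2‖ ^ 2 := by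
      rw [hE]
      field_simp
    rw [h2]
    field_simp

theorem BaseB_D2_ph (α β γ κ : ℝ) (p : E3) (h : κ = 0 ∨ p 2 ≠ 0) (v w : E3) :
    D2 (fun q : E3 => α * (q 0).re + β * (q 1).re + γ + κ * Real.log ‖q 2‖) p v w =
      - κ * (v 2 * w 2 / p 2 ^ 2).re := by
  have hA : ∀ q : E3, HasFDerivAt (fun q : E3 => α * (q 0).re + β * (q 1).re + γ)
      (α • (Complex.reCLM.comp (ContinuousLinearMap.proj (R := ℝ) (φ := fun _ : Fin 3 => ℂ) 0)) +
        β • (Complex.reCLM.comp (ContinuousLinearMap.proj (R := ℝ) (φ := fun _ : Fin 3 => ℂ) 1)))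
      q := fun q =>
    (((BaseB_hasFDerivAt_re 0 q).const_mul α).add
      ((BaseB_hasFDerivAt_re 1 q).const_mul β)).add_const γ
  rcases h with h | h
  · subst h
    have h1 : (fun q : E3 => α * (q 0).re + β * (q 1).re + γ + 0 * Real.log ‖q 2‖) =
        fun q : E3 => α * (q 0).re + β * (q 1).re + γ := by
      funext q
      ring
    rw [h1]
    unfold D2
    have h2 : fderiv ℝ (fun q : E3 => α * (q 0).re + β * (q 1).re + γ) = fun _ =>
        (α • (Complex.reCLM.comp (ContinuousLinearMap.proj (R := ℝ) (φ := fun _ : Fin 3 => ℂ) 0)) +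
        β • (Complex.reCLM.comp
          (ContinuousLinearMap.proj (R := ℝ) (φ := fun _ : Fin 3 => ℂ) 1))) := by
      funext q
      exact (hA q).fderiv
    rw [h2]
    simp
  · have hd : ∀ q : E3, q 2 ≠ 0 → HasFDerivAt
        (fun q : E3 => α * (q 0).re + β * (q 1).re + γ + κ * Real.log ‖q 2‖) _ q := fun q hq =>
      (hA q).add ((BaseB_hasFDerivAt_log hq).const_mul κ)
    have hsm : ContDiffAt ℝ 2
        (fun q : E3 => α * (q 0).re + β * (q 1).re + γ + κ * Real.log ‖q 2‖) p := by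
      have h1 : ContDiffAt ℝ 2 (fun q : E3 => ‖q 2‖) p :=
        (contDiff_apply ℝ ℂ (2 : Fin 3)).contDiffAt.norm ℝ h
      have hle : (2 : WithTop ℕ∞) ≤ ((⊤ : ℕ∞) : WithTop ℕ∞) := by norm_cast
      exact (((contDiffAt_const.mul ((BaseB_contDiff_re 0).contDiffAt.of_le hle)).add
        (contDiffAt_const.mul ((BaseB_contDiff_re 1).contDiffAt.of_le hle))).add
          contDiffAt_const).add (contDiffAt_const.mul (h1.log (norm_ne_zero_iff.mpr h)))
    rw [BaseB_D2_eq hsm]
    have h1 : (fun q => fderiv ℝ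
        (fun q : E3 => α * (q 0).re + β * (q 1).re + γ + κ * Real.log ‖q 2‖) q w) =ᶠ[𝓝 p]
        fun q : E3 => (α * (w 0).re + β * (w 1).re) + κ * (w 2 / q 2).re := by
      filter_upwards [BaseB_ne_eventually h] with q hq
      rw [(hd q hq).fderiv]
      simp only [_root_.add_apply, _root_.smul_apply,
        ContinuousLinearMap.comp_apply, ContinuousLinearMap.proj_apply, smul_eq_mul,
        Complex.reCLM_apply, BaseB_L_apply]
    rw [h1.fderiv_eq]
    have h3 := ((BaseB_hasFDerivAt_div h (w 2)).const_mul κ).const_add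
      (α * (w 0).re + β * (w 1).re)
    rw [h3.fderiv]
    simp only [_root_.smul_apply,
      ContinuousLinearMap.comp_apply, ContinuousLinearMap.proj_apply, smul_eq_mul,
      Complex.reCLM_apply, ContinuousLinearMap.mul_apply']
    have e3 : -(w 2 / p 2 ^ 2) * v 2 = -(v 2 * w 2 / p 2 ^ 2) := by ring
    rw [e3, Complex.neg_re]
    ring

/-- affine functions of `x` plus multiples of `log|w|` are pluriharmonic -/
theorem cHess_pluriharmonic (α β γ κ : ℝ) (p : E3) (h : κ = 0 ∨ p 2 ≠ 0) :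
    cHess (fun q : E3 => α * (q 0).re + β * (q 1).re + γ + κ * Real.log ‖q 2‖) p = 0 := by
  funext a b
  unfold cHess
  simp only [BaseB_D2_ph α β γ κ p h, Matrix.zero_apply]
  have key : ∀ x y : ℂ, (Pi.single a x : E3) 2 * (Pi.single b y : E3) 2 =
      x * y * ((Pi.single a (1 : ℂ) : E3) 2 * (Pi.single b (1 : ℂ) : E3) 2) := by
    intro x y
    simp only [Pi.single_apply]
    split_ifs <;> ring
  set X : ℂ := (Pi.single a (1 : ℂ) : E3) 2 * (Pi.single b (1 : ℂ) : E3) 2 with hX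
  have k2 : (Pi.single a Complex.I : E3) 2 * (Pi.single b Complex.I : E3) 2 / p 2 ^ 2 =
      -(X / p 2 ^ 2) := by
    rw [key, Complex.I_mul_I]
    ring
  have k3 : (Pi.single a (1 : ℂ) : E3) 2 * (Pi.single b Complex.I : E3) 2 / p 2 ^ 2 =
      Complex.I * X / p 2 ^ 2 := by
    rw [key]
    ring
  have k4 : (Pi.single a Complex.I : E3) 2 * (Pi.single b (1 : ℂ) : E3) 2 / p 2 ^ 2 =
      Complex.I * X / p 2 ^ 2 := by
    rw [key]
    ring
  rw [k2, k3, k4, Complex.neg_re]
  have e2 : ∀ x : ℝ, -κ * x + -κ * -x = 0 := fun x => by ring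
  rw [e2, sub_self]
  simp

end HMA
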