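import Pool.Agent.HMA.BaseB

/-! module BASEK: positivity of the Kaehler form -/

open MeasureTheory Filter Topology Set Matrix
open scoped Manifold ContDiff ENNReal ComplexOrder

namespace HMA

theorem BaseK_D2_line {n : ℕ} {u : Cn n → ℝ} (hu : ContDiff ℝ ∞ u) (p b : Cn n)
    (φ1 : ℝ → ℝ) (φ2 : ℝ) (h1 : ∀ t, HasDerivAt (fun t : ℝ => u (p + t • b)) (φ1 t) t)
    (h2 : HasDerivAt φ1 φ2 0) : D2 u p b b = φ2 := by
  have hline : ∀ t : ℝ, HasDerivAt (fun t : ℝ => p + t • b) b t := by
    intro t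
    have := ((hasDerivAt_id t).smul_const b).const_add p
    simpa using this
  have hd : Differentiable ℝ u := hu.differentiable (by simp)
  have hd2 : Differentiable ℝ (fderiv ℝ u) :=
    (hu.fderiv_right (m := ∞) (by simp)).differentiable (by simp)
  have e1 : ∀ t : ℝ, φ1 t = fderiv ℝ u (p + t • b) b := by
    intro t
    have h3 : HasDerivAt (fun t : ℝ => u (p + t • b)) (fderiv ℝ u (p + t • b) b) t :=
      (hd _).hasFDerivAt.comp_hasDerivAt t (hline t)
    exact (h1 t).unique h3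
  have e2 : HasDerivAt (fun t : ℝ => fderiv ℝ u (p + t • b) b)
      (fderiv ℝ (fderiv ℝ u) p b b) 0 := by
    have h4 : HasDerivAt (fun t : ℝ => fderiv ℝ u (p + t • b))
        (fderiv ℝ (fderiv ℝ u) p b) 0 := by
      have h5 : HasFDerivAt (fderiv ℝ u) (fderiv ℝ (fderiv ℝ u) p) (p + (0 : ℝ) • b) := by
        rw [zero_smul, add_zero]
        exact (hd2 p).hasFDerivAt
      exact h5.comp_hasDerivAt 0 (hline 0)
    have h6 := h4.clm_apply (hasDerivAt_const (0 : ℝ) b)
    simpa using h6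
  have e3 : φ1 = fun t : ℝ => fderiv ℝ u (p + t • b) b := funext e1
  rw [e3] at h2
  exact (h2.unique e2).symm

/-- second derivative of the sheet potential along a line, written with real numbers -/
theorem BaseK_deriv (x0 x1 b0 b1 : ℝ) (N N1 : ℝ → ℝ) (N2 : ℝ) (hpos : ∀ t, 0 < N t)
    (hN : ∀ t, HasDerivAt N (N1 t) t) (hN1 : HasDerivAt N1 N2 0) :
    (∀ t, HasDerivAt (fun t : ℝ => Real.pi * ((x0 + t * b0) ^ 2 + (x1 + t * b1) ^ 2)
        + 1 / 2 * Real.log (N t))
      (Real.pi * (2 * (x0 + t * b0) * b0 + 2 * (x1 + t * b1) * b1) + 1 / 2 * (N1 t / N t)) t) ∧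
    HasDerivAt (fun t : ℝ => Real.pi * (2 * (x0 + t * b0) * b0 + 2 * (x1 + t * b1) * b1)
        + 1 / 2 * (N1 t / N t))
      (Real.pi * (2 * b0 ^ 2 + 2 * b1 ^ 2)
        + 1 / 2 * (N2 / N 0 - N1 0 ^ 2 / N 0 ^ 2)) 0 := by
  have hl : ∀ (x b t : ℝ), HasDerivAt (fun t : ℝ => x + t * b) b t := by
    intro x b t
    have := ((hasDerivAt_id t).mul_const b).const_add x
    simpa using this
  constructor
  · intro t
    have h1 := ((hl x0 b0 t).pow 2).add ((hl x1 b1 t).pow 2)
    have h2 := (h1.const_mul Real.pi).add (((hN t).log (hpos t).ne').const_mul (1 / 2))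
    refine h2.congr_deriv ?_
    simp
  · have h1 := (((hl x0 b0 0).const_mul 2).mul_const b0).add
      (((hl x1 b1 0).const_mul 2).mul_const b1)
    have h2 := (h1.const_mul Real.pi).add ((hN1.div (hN 0) (hpos 0).ne').const_mul (1 / 2))
    refine h2.congr_deriv ?_
    have := (hpos 0).ne'
    field_simp

theorem BaseK_xx (p b : E3) (t : ℝ) :
    xx (p + t • b) = ((p 0).re + t * (b 0).re) ^ 2 + ((p 1).re + t * (b 1).re) ^ 2 := by
  simp [xx]

theorem BaseK_norm (p b : E3) (t : ℝ) :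
    ‖(p + t • b) 2‖ ^ 2 = ((p 2).re + t * (b 2).re) ^ 2 + ((p 2).im + t * (b 2).im) ^ 2 := by
  rw [← Complex.normSq_eq_norm_sq, Complex.normSq_apply]
  simp
  ring

theorem BaseK_q (x0 x1 b0 b1 t : ℝ) :
    HasDerivAt (fun t : ℝ => Real.exp (2 * Real.pi * ((x0 + t * b0) ^ 2 + (x1 + t * b1) ^ 2)))
      (Real.exp (2 * Real.pi * ((x0 + t * b0) ^ 2 + (x1 + t * b1) ^ 2)) *
        (4 * Real.pi * ((x0 + t * b0) * b0 + (x1 + t * b1) * b1))) t := by
  have hl : ∀ (x b t : ℝ), HasDerivAt (fun t : ℝ => x + t * b) b t := by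
    intro x b t
    have := ((hasDerivAt_id t).mul_const b).const_add x
    simpa using this
  have h1 := ((hl x0 b0 t).pow 2).add ((hl x1 b1 t).pow 2)
  have h2 := (h1.const_mul (2 * Real.pi)).exp
  refine h2.congr_deriv ?_
  simp
  ring

/-- the second derivative of `uK` along a line, first sheet -/
theorem BaseK_false (p b : E3) :
    D2 (uK false) p b b = Real.pi * (2 * (b 0).re ^ 2 + 2 * (b 1).re ^ 2) +
      1 / 2 * ((Real.exp (2 * Real.pi * xx p) *
          ((16 * Real.pi ^ 2 * ((p 0).re * (b 0).re + (p 1).re * (b 1).re) ^ 2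
            + 4 * Real.pi * ((b 0).re ^ 2 + (b 1).re ^ 2)) * ((p 2).re ^ 2 + (p 2).im ^ 2)
            + 16 * Real.pi * ((p 0).re * (b 0).re + (p 1).re * (b 1).re) *
              ((p 2).re * (b 2).re + (p 2).im * (b 2).im)
            + 2 * ((b 2).re ^ 2 + (b 2).im ^ 2))) / NN false p
        - (Real.exp (2 * Real.pi * xx p) *
          (2 * ((p 2).re * (b 2).re + (p 2).im * (b 2).im)
            + 4 * Real.pi * ((p 0).re * (b 0).re + (p 1).re * (b 1).re) *
              ((p 2).re ^ 2 + (p 2).im ^ 2))) ^ 2 / NN false p ^ 2) := by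
  have hl : ∀ (x b t : ℝ), HasDerivAt (fun t : ℝ => x + t * b) b t := by
    intro x b t
    have := ((hasDerivAt_id t).mul_const b).const_add x
    simpa using this
  set x0 := (p 0).re
  set x1 := (p 1).re
  set b0 := (b 0).re
  set b1 := (b 1).re
  set a := (p 2).re
  set c := (p 2).im
  set ba := (b 2).re
  set bc := (b 2).im
  let E : ℝ → ℝ := fun t => Real.exp (2 * Real.pi * ((x0 + t * b0) ^ 2 + (x1 + t * b1) ^ 2))
  let r : ℝ → ℝ := fun t => (a + t * ba) ^ 2 + (c + t * bc) ^ 2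
  let S : ℝ → ℝ := fun t => 4 * Real.pi * ((x0 + t * b0) * b0 + (x1 + t * b1) * b1)
  let P : ℝ → ℝ := fun t => 2 * (a + t * ba) * ba + 2 * (c + t * bc) * bc
  have hE : ∀ t, HasDerivAt E (E t * S t) t := fun t => BaseK_q x0 x1 b0 b1 t
  have hr : ∀ t, HasDerivAt r (P t) t := by
    intro t
    refine (((hl a ba t).pow 2).add ((hl c bc t).pow 2)).congr_deriv ?_
    simp [P]
  have hS : ∀ t, HasDerivAt S (4 * Real.pi * (b0 ^ 2 + b1 ^ 2)) t := by
    intro t
    refine ((((hl x0 b0 t).mul_const b0).add ((hl x1 b1 t).mul_const b1)).const_mul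
      (4 * Real.pi)).congr_deriv ?_
    ring
  have hP : ∀ t, HasDerivAt P (2 * (ba ^ 2 + bc ^ 2)) t := by
    intro t
    refine ((((hl a ba t).const_mul 2).mul_const ba).add
      (((hl c bc t).const_mul 2).mul_const bc)).congr_deriv ?_
    ring
  have hN : ∀ t, HasDerivAt (fun t => 1 + r t * E t) (P t * E t + r t * (E t * S t)) t := by
    intro t
    exact ((hr t).mul (hE t)).const_add 1
  have hN1 := ((hP 0).mul (hE 0)).add ((hr 0).mul ((hE 0).mul (hS 0)))
  have hpos : ∀ t, 0 < 1 + r t * E t := by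
    intro t
    have h1 : 0 ≤ r t := by positivity
    have h2 : 0 < E t := Real.exp_pos _
    positivity
  obtain ⟨k1, k2⟩ := BaseK_deriv x0 x1 b0 b1 _ _ _ hpos hN hN1
  have hu : ∀ t : ℝ, uK false (p + t • b) =
      Real.pi * ((x0 + t * b0) ^ 2 + (x1 + t * b1) ^ 2) + 1 / 2 * Real.log (1 + r t * E t) := by
    intro t
    simp only [uK, NN, Bool.false_eq_true, if_false]
    rw [BaseK_xx, BaseK_norm]
  rw [BaseK_D2_line (contDiff_uK false) p b _ _ (fun t => by rw [funext hu]; exact k1 t) k2]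
  have e0 : NN false p = 1 + r 0 * E 0 := by
    have := BaseK_norm p b 0
    have h3 := BaseK_xx p b 0
    rw [zero_smul, add_zero] at this h3
    simp only [NN, Bool.false_eq_true, if_false, r, E]
    rw [this, h3]
  have e1 : Real.exp (2 * Real.pi * xx p) = E 0 := by
    have h3 := BaseK_xx p b 0
    rw [zero_smul, add_zero] at h3
    simp only [E]
    rw [h3]
  rw [e0, e1]
  have r0 : r 0 = a ^ 2 + c ^ 2 := by simp [r]
  have S0 : S 0 = 4 * Real.pi * (x0 * b0 + x1 * b1) := by simp [S]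
  have P0 : P 0 = 2 * (a * ba + c * bc) := by simp [P]; ring
  simp only [Pi.mul_apply]
  rw [r0, S0, P0]
  ring

/-- the second derivative of `uK` along a line, second sheet -/
theorem BaseK_true (p b : E3) :
    D2 (uK true) p b b = Real.pi * (2 * (b 0).re ^ 2 + 2 * (b 1).re ^ 2) +
      1 / 2 * ((Real.exp (2 * Real.pi * xx p) *
          (16 * Real.pi ^ 2 * ((p 0).re * (b 0).re + (p 1).re * (b 1).re) ^ 2
            + 4 * Real.pi * ((b 0).re ^ 2 + (b 1).re ^ 2))
            + 2 * ((b 2).re ^ 2 + (b 2).im ^ 2)) / NN true p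
        - (Real.exp (2 * Real.pi * xx p) *
            (4 * Real.pi * ((p 0).re * (b 0).re + (p 1).re * (b 1).re))
            + 2 * ((p 2).re * (b 2).re + (p 2).im * (b 2).im)) ^ 2 / NN true p ^ 2) := by
  have hl : ∀ (x b t : ℝ), HasDerivAt (fun t : ℝ => x + t * b) b t := by
    intro x b t
    have := ((hasDerivAt_id t).mul_const b).const_add x
    simpa using this
  set x0 := (p 0).re
  set x1 := (p 1).re
  set b0 := (b 0).re
  set b1 := (b 1).re
  set a := (p 2).re
  set c := (p 2).im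
  set ba := (b 2).re
  set bc := (b 2).im
  let E : ℝ → ℝ := fun t => Real.exp (2 * Real.pi * ((x0 + t * b0) ^ 2 + (x1 + t * b1) ^ 2))
  let r : ℝ → ℝ := fun t => (a + t * ba) ^ 2 + (c + t * bc) ^ 2
  let S : ℝ → ℝ := fun t => 4 * Real.pi * ((x0 + t * b0) * b0 + (x1 + t * b1) * b1)
  let P : ℝ → ℝ := fun t => 2 * (a + t * ba) * ba + 2 * (c + t * bc) * bc
  have hE : ∀ t, HasDerivAt E (E t * S t) t := fun t => BaseK_q x0 x1 b0 b1 t
  have hr : ∀ t, HasDerivAt r (P t) t := by
    intro t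
    refine (((hl a ba t).pow 2).add ((hl c bc t).pow 2)).congr_deriv ?_
    simp [P]
  have hS : ∀ t, HasDerivAt S (4 * Real.pi * (b0 ^ 2 + b1 ^ 2)) t := by
    intro t
    refine ((((hl x0 b0 t).mul_const b0).add ((hl x1 b1 t).mul_const b1)).const_mul
      (4 * Real.pi)).congr_deriv ?_
    ring
  have hP : ∀ t, HasDerivAt P (2 * (ba ^ 2 + bc ^ 2)) t := by
    intro t
    refine ((((hl a ba t).const_mul 2).mul_const ba).add
      (((hl c bc t).const_mul 2).mul_const bc)).congr_deriv ?_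
    ring
  have hN : ∀ t, HasDerivAt (fun t => E t + r t) (E t * S t + P t) t := by
    intro t
    exact (hE t).add (hr t)
  have hN1 := ((hE 0).mul (hS 0)).add (hP 0)
  have hpos : ∀ t, 0 < E t + r t := by
    intro t
    have h1 : 0 ≤ r t := by positivity
    have h2 : 0 < E t := Real.exp_pos _
    positivity
  obtain ⟨k1, k2⟩ := BaseK_deriv x0 x1 b0 b1 _ _ _ hpos hN hN1
  have hu : ∀ t : ℝ, uK true (p + t • b) =
      Real.pi * ((x0 + t * b0) ^ 2 + (x1 + t * b1) ^ 2) + 1 / 2 * Real.log (E t + r t) := by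
    intro t
    simp only [uK, NN, if_true]
    rw [BaseK_xx, BaseK_norm]
  rw [BaseK_D2_line (contDiff_uK true) p b _ _ (fun t => by rw [funext hu]; exact k1 t) k2]
  have e0 : NN true p = E 0 + r 0 := by
    have := BaseK_norm p b 0
    have h3 := BaseK_xx p b 0
    rw [zero_smul, add_zero] at this h3
    simp only [NN, if_true, r, E]
    rw [this, h3]
  have e1 : Real.exp (2 * Real.pi * xx p) = E 0 := by
    have h3 := BaseK_xx p b 0
    rw [zero_smul, add_zero] at h3
    simp only [E]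
    rw [h3]
  rw [e0, e1]
  have r0 : r 0 = a ^ 2 + c ^ 2 := by simp [r]
  have S0 : S 0 = 4 * Real.pi * (x0 * b0 + x1 * b1) := by simp [S]
  have P0 : P 0 = 2 * (a * ba + c * bc) := by simp [P]; ring
  rw [r0, S0, P0]
  ring

theorem BaseK_norm0 (p : E3) : ‖p 2‖ ^ 2 = (p 2).re ^ 2 + (p 2).im ^ 2 := by
  rw [← Complex.normSq_eq_norm_sq, Complex.normSq_apply]
  ring

/-- the Levi form of `uK`, first sheet -/
theorem BaseK_levi_false (p b : E3) :
    D2 (uK false) p b b + D2 (uK false) p (Complex.I • b) (Complex.I • b) =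
      2 * Real.pi * ((b 0).re ^ 2 + (b 0).im ^ 2 + (b 1).re ^ 2 + (b 1).im ^ 2) *
        (1 + ‖p 2‖ ^ 2 * Real.exp (2 * Real.pi * xx p) / NN false p)
      + 2 * (Real.exp (2 * Real.pi * xx p) / NN false p ^ 2) *
        (((b 2).re + 2 * Real.pi * ((p 2).re * ((p 0).re * (b 0).re + (p 1).re * (b 1).re)
            - (p 2).im * ((p 0).re * (b 0).im + (p 1).re * (b 1).im))) ^ 2
          + ((b 2).im + 2 * Real.pi * ((p 2).re * ((p 0).re * (b 0).im + (p 1).re * (b 1).im)
            + (p 2).im * ((p 0).re * (b 0).re + (p 1).re * (b 1).re))) ^ 2) := by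
  rw [BaseK_false, BaseK_false]
  have hN : NN false p = 1 + ((p 2).re ^ 2 + (p 2).im ^ 2) * Real.exp (2 * Real.pi * xx p) := by
    simp only [NN, Bool.false_eq_true, if_false]
    rw [BaseK_norm0]
  have hN0 : NN false p ≠ 0 := (NN_pos false p).ne'
  rw [BaseK_norm0]
  simp only [Pi.smul_apply, smul_eq_mul, Complex.mul_re, Complex.mul_im, Complex.I_re,
    Complex.I_im, zero_mul, one_mul, zero_sub, zero_add]
  generalize NN false p = N at *
  generalize Real.exp (2 * Real.pi * xx p) = E at *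
  field_simp
  rw [hN]
  ring

/-- the Levi form of `uK`, second sheet -/
theorem BaseK_levi_true (p b : E3) :
    D2 (uK true) p b b + D2 (uK true) p (Complex.I • b) (Complex.I • b) =
      2 * Real.pi * ((b 0).re ^ 2 + (b 0).im ^ 2 + (b 1).re ^ 2 + (b 1).im ^ 2) *
        (1 + Real.exp (2 * Real.pi * xx p) / NN true p)
      + 2 * (Real.exp (2 * Real.pi * xx p) / NN true p ^ 2) *
        (((b 2).re - 2 * Real.pi * ((p 2).re * ((p 0).re * (b 0).re + (p 1).re * (b 1).re)
            - (p 2).im * ((p 0).re * (b 0).im + (p 1).re * (b 1).im))) ^ 2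
          + ((b 2).im - 2 * Real.pi * ((p 2).re * ((p 0).re * (b 0).im + (p 1).re * (b 1).im)
            + (p 2).im * ((p 0).re * (b 0).re + (p 1).re * (b 1).re))) ^ 2) := by
  rw [BaseK_true, BaseK_true]
  have hN : NN true p = Real.exp (2 * Real.pi * xx p) + ((p 2).re ^ 2 + (p 2).im ^ 2) := by
    simp only [NN, if_true]
    rw [BaseK_norm0]
  have hN0 : NN true p ≠ 0 := (NN_pos true p).ne'
  simp only [Pi.smul_apply, smul_eq_mul, Complex.mul_re, Complex.mul_im, Complex.I_re,
    Complex.I_im, zero_mul, one_mul, zero_sub, zero_add]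
  generalize NN true p = N at *
  generalize Real.exp (2 * Real.pi * xx p) = E at *
  field_simp
  rw [hN]
  ring

/-- positivity of forms of this shape -/
theorem BaseK_pos (k θ : ℝ) (hk : 0 < k) (hθ : 0 < θ) (b : E3) (hb : b ≠ 0) (L : E3 → ℂ)
    (hL : b 0 = 0 → b 1 = 0 → L b = 0) :
    0 < k * ((b 0).re ^ 2 + (b 0).im ^ 2 + (b 1).re ^ 2 + (b 1).im ^ 2)
      + θ * (((b 2).re + (L b).re) ^ 2 + ((b 2).im + (L b).im) ^ 2) := by
  by_cases h : b 0 = 0 ∧ b 1 = 0
  · obtain ⟨h0, h1⟩ := h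
    have h2 : b 2 ≠ 0 := by
      intro h2
      apply hb
      funext i
      fin_cases i <;> simp [h0, h1, h2]
    have h3 : 0 < (b 2).re ^ 2 + (b 2).im ^ 2 := by
      have := Complex.normSq_pos.mpr h2
      rw [Complex.normSq_apply] at this
      nlinarith
    rw [hL h0 h1, h0, h1]
    simp only [Complex.zero_re, Complex.zero_im, add_zero]
    positivity
  · have h3 : 0 < (b 0).re ^ 2 + (b 0).im ^ 2 + (b 1).re ^ 2 + (b 1).im ^ 2 := by
      by_cases h0 : b 0 = 0
      · have h1 : b 1 ≠ 0 := fun h1 => h ⟨h0, h1⟩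
        have := Complex.normSq_pos.mpr h1
        rw [Complex.normSq_apply] at this
        nlinarith [sq_nonneg (b 0).re, sq_nonneg (b 0).im]
      · have := Complex.normSq_pos.mpr h0
        rw [Complex.normSq_apply] at this
        nlinarith [sq_nonneg (b 1).re, sq_nonneg (b 1).im]
    have h4 : 0 ≤ θ * (((b 2).re + (L b).re) ^ 2 + ((b 2).im + (L b).im) ^ 2) := by positivity
    have h5 := mul_pos hk h3
    linarith

theorem BaseK_levi_pos (s : Bool) (p b : E3) (hb : b ≠ 0) :
    0 < D2 (uK s) p b b + D2 (uK s) p (Complex.I • b) (Complex.I • b) := by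
  have hN := NN_pos s p
  have hE : 0 < Real.exp (2 * Real.pi * xx p) := Real.exp_pos _
  have hpi := Real.pi_pos
  cases s
  · rw [BaseK_levi_false]
    have h := BaseK_pos (2 * Real.pi *
        (1 + ‖p 2‖ ^ 2 * Real.exp (2 * Real.pi * xx p) / NN false p))
      (2 * (Real.exp (2 * Real.pi * xx p) / NN false p ^ 2)) (by positivity) (by positivity)
      b hb (fun b => 2 * Real.pi * p 2 * ((p 0).re * b 0 + (p 1).re * b 1)) (by
        intro h0 h1
        simp [h0, h1])
    refine lt_of_lt_of_eq h ?_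
    simp
    ring
  · rw [BaseK_levi_true]
    have h := BaseK_pos (2 * Real.pi *
        (1 + Real.exp (2 * Real.pi * xx p) / NN true p))
      (2 * (Real.exp (2 * Real.pi * xx p) / NN true p ^ 2)) (by positivity) (by positivity)
      b hb (fun b => - (2 * Real.pi * p 2 * ((p 0).re * b 0 + (p 1).re * b 1))) (by
        intro h0 h1
        simp [h0, h1])
    refine lt_of_lt_of_eq h ?_
    simp
    ring

/-- the form `dd^c uK` is a Kaehler form -/
theorem posDef_uK (s : Bool) (p : E3) : (cHess (uK s) p).PosDef := by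
  have hu : ContDiffAt ℝ 2 (uK s) p := (contDiff_infty.1 (contDiff_uK s) 2).contDiffAt
  refine Matrix.PosDef.of_dotProduct_mulVec_pos (cHess_isHermitian hu) ?_
  intro x hx
  have hb : (star x : E3) ≠ 0 := by
    intro h
    apply hx
    have := congrArg star h
    simpa using this
  have h1 := BaseK_levi_pos s p (star x) hb
  have h2 := cHess_levi hu (star x)
  have h3 : star x ⬝ᵥ (cHess (uK s) p *ᵥ x) =
      ∑ i, ∑ j, (star x) i * cHess (uK s) p i j * star ((star x) j) := by
    simp only [dotProduct, mulVec, Finset.mul_sum, Pi.star_apply, star_star, mul_assoc]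
  rw [h3]
  have h4 : ∑ i, ∑ j, (star x) i * cHess (uK s) p i j * star ((star x) j) =
      (((D2 (uK s) p (star x) (star x)
        + D2 (uK s) p (Complex.I • star x) (Complex.I • star x)) / 4 : ℝ) : ℂ) := by
    rw [Complex.ofReal_div, h2]
    push_cast
    ring
  rw [h4]
  exact_mod_cast (by positivity : (0:ℝ) < (D2 (uK s) p (star x) (star x)
        + D2 (uK s) p (Complex.I • star x) (Complex.I • star x)) / 4)

end HMA
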