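import Pool.Agent.HMA.Cut

/-! module BUMP: the periodic profile -/

open MeasureTheory Filter Topology Set Matrix
open scoped Manifold ContDiff ENNReal ComplexOrder

namespace HMA

namespace BumpAux

open CutAux

lemma S_symm (t : ℝ) : S t + S (1 - t) = 1 := by
  have h := Real.smoothTransition.pos_denom t
  have h2 := Real.smoothTransition.pos_denom (1 - t)
  show Real.smoothTransition t + Real.smoothTransition (1 - t) = 1
  unfold Real.smoothTransition
  rw [sub_sub_cancel] at h2 ⊢
  field_simp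
  ring

/-- the derivative of the profile -/
noncomputable def g (t : ℝ) : ℝ := S ((1 + t) / 2) - 1 / 2

lemma g_contDiff : ContDiff ℝ ∞ g := by
  unfold g
  exact (S_contDiff.comp (by fun_prop)).sub contDiff_const

lemma g_neg (t : ℝ) : g (-t) = - g t := by
  have h := S_symm ((1 + t) / 2)
  have e : 1 - (1 + t) / 2 = (1 + -t) / 2 := by ring
  rw [e] at h
  unfold g
  linarith

lemma g_le (t : ℝ) : g t ≤ 1 / 2 := by
  have := Real.smoothTransition.le_one ((1 + t) / 2)
  unfold g
  show Real.smoothTransition _ - 1 / 2 ≤ 1 / 2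
  linarith

lemma g_one {t : ℝ} (ht : 1 ≤ t) : g t = 1 / 2 := by
  have := Real.smoothTransition.one_of_one_le (x := (1 + t) / 2) (by linarith)
  unfold g
  show Real.smoothTransition _ - 1 / 2 = 1 / 2
  rw [this]; norm_num

lemma g_nonneg {t : ℝ} (ht : 0 ≤ t) : 0 ≤ g t := by
  have h := g_neg 0
  have h0 : g 0 = 0 := by rw [neg_zero] at h; linarith
  rw [← h0]
  unfold g
  have := Real.smoothTransition.monotone (a := (1 + 0) / 2) (b := (1 + t) / 2) (by linarith)
  show Real.smoothTransition _ - 1 / 2 ≤ Real.smoothTransition _ - 1 / 2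
  linarith

lemma g_deriv (t : ℝ) : HasDerivAt g (deriv S ((1 + t) / 2) / 2) t := by
  have h1 : HasDerivAt (fun t : ℝ => (1 + t) / 2) (1 / 2) t := by
    have := ((hasDerivAt_id t).const_add 1).div_const 2
    simpa using this
  have h2 : HasDerivAt S (deriv S ((1 + t) / 2)) ((1 + t) / 2) :=
    (S_contDiff.differentiable (by simp)).differentiableAt.hasDerivAt
  have h3 := (h2.comp t h1).sub_const (1 / 2)
  have e : deriv S ((1 + t) / 2) * (1 / 2) = deriv S ((1 + t) / 2) / 2 := by ring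
  rw [e] at h3
  exact h3

lemma S1_nonneg (t : ℝ) : 0 ≤ deriv S t := by
  have h : Monotone S := Real.smoothTransition.monotone
  exact h.deriv_nonneg

/-- the convex function `η` -/
noncomputable def eta (x : ℝ) : ℝ := 1 / 2 + ∫ t in (1 : ℝ)..x, g t

lemma eta_deriv (x : ℝ) : HasDerivAt eta (g x) x := by
  have hc : Continuous g := g_contDiff.continuous
  have := intervalIntegral.integral_hasDerivAt_right (hc.intervalIntegrable 1 x)
    (hc.stronglyMeasurableAtFilter _ _) hc.continuousAt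
  exact this.const_add (1 / 2)

lemma deriv_eta : deriv eta = g := funext fun x => (eta_deriv x).deriv

lemma eta_contDiff : ContDiff ℝ ∞ eta := by
  rw [contDiff_infty_iff_deriv]
  refine ⟨fun x => (eta_deriv x).differentiableAt, ?_⟩
  rw [deriv_eta]
  exact g_contDiff

lemma eta_neg (x : ℝ) : eta (-x) = eta x := by
  have h : ∀ x, HasDerivAt (fun x => eta (-x) - eta x) 0 x := by
    intro x
    have h1 := (eta_deriv (-x)).comp x (hasDerivAt_neg x)
    have h2 := h1.sub (eta_deriv x)
    have e : g (-x) * -1 - g x = 0 := by rw [g_neg]; ring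
    rw [e] at h2
    exact h2
  have h3 : (fun x => eta (-x) - eta x) x = (fun x => eta (-x) - eta x) 0 := by
    apply is_const_of_deriv_eq_zero (fun y => (h y).differentiableAt) (fun y => (h y).deriv)
  simp only [neg_zero, sub_self] at h3
  linarith

lemma eta_one : eta 1 = 1 / 2 := by unfold eta; simp

lemma eta_ge_one {x : ℝ} (hx : 1 ≤ x) : eta x = x / 2 := by
  unfold eta
  have : ∫ t in (1 : ℝ)..x, g t = ∫ t in (1 : ℝ)..x, (1 / 2 : ℝ) := by
    apply intervalIntegral.integral_congr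
    intro t ht
    rw [uIcc_of_le hx] at ht
    exact g_one ht.1
  rw [this, intervalIntegral.integral_const, smul_eq_mul]
  ring

lemma eta_abs_ge {x : ℝ} (hx : 1 ≤ |x|) : eta x = |x| / 2 := by
  rcases le_abs.1 hx with h | h
  · rw [abs_of_nonneg (by linarith), eta_ge_one h]
  · rw [abs_of_nonpos (by linarith), ← eta_neg, eta_ge_one h]

lemma eta_bounds_nonneg {x : ℝ} (h0 : 0 ≤ x) (h1 : x ≤ 1) : x / 2 ≤ eta x ∧ eta x ≤ 1 / 2 := by
  have hc : Continuous g := g_contDiff.continuous
  have e : eta x = 1 / 2 - ∫ t in x..(1 : ℝ), g t := by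
    unfold eta
    rw [intervalIntegral.integral_symm]
    ring
  have hlo : 0 ≤ ∫ t in x..(1 : ℝ), g t := by
    apply intervalIntegral.integral_nonneg h1
    intro t ht
    exact g_nonneg (h0.trans ht.1)
  have hhi : ∫ t in x..(1 : ℝ), g t ≤ ∫ t in x..(1 : ℝ), (1 / 2 : ℝ) := by
    apply intervalIntegral.integral_mono_on h1 (hc.intervalIntegrable _ _)
      (continuous_const.intervalIntegrable _ _)
    intro t _
    exact g_le t
  rw [intervalIntegral.integral_const, smul_eq_mul] at hhi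
  constructor <;> linarith

lemma eta_bounds {x : ℝ} (h : |x| ≤ 1) : |x| / 2 ≤ eta x ∧ eta x ≤ 1 / 2 := by
  rcases le_total 0 x with h0 | h0
  · rw [abs_of_nonneg h0] at h ⊢
    exact eta_bounds_nonneg h0 h
  · rw [abs_of_nonpos h0] at h ⊢
    rw [← eta_neg]
    exact eta_bounds_nonneg (by linarith) h

/-- one period -/
noncomputable def h (s x : ℝ) : ℝ := s * eta (x / s) - x ^ 2 / 2

lemma h_contDiff (s : ℝ) : ContDiff ℝ ∞ (h s) := by
  unfold h
  exact (contDiff_const.mul (eta_contDiff.comp (by fun_prop))).sub (by fun_prop)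

lemma h_outer {s x : ℝ} (hs : 0 < s) (hx : s ≤ |x|) : h s x = |x| / 2 - x ^ 2 / 2 := by
  unfold h
  have e : |x / s| = |x| / s := by rw [abs_div, abs_of_pos hs]
  have h1 : 1 ≤ |x / s| := by rw [e, le_div_iff₀ hs]; linarith
  rw [eta_abs_ge h1, e]
  field_simp

lemma h_inner {s x : ℝ} (hs : 0 < s) (hx : |x| ≤ s) :
    |x| / 2 - x ^ 2 / 2 ≤ h s x ∧ h s x ≤ s / 2 := by
  unfold h
  have e : |x / s| = |x| / s := by rw [abs_div, abs_of_pos hs]
  have h1 : |x / s| ≤ 1 := by rw [e, div_le_iff₀ hs]; linarith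
  obtain ⟨h2, h3⟩ := eta_bounds h1
  rw [e] at h2
  have h4 : |x| / 2 ≤ s * eta (x / s) := by
    have := mul_le_mul_of_nonneg_left h2 hs.le
    have e2 : s * (|x| / s / 2) = |x| / 2 := by field_simp
    linarith
  have h5 : s * eta (x / s) ≤ s * (1 / 2) := mul_le_mul_of_nonneg_left h3 hs.le
  have h6 := sq_nonneg x
  constructor <;> linarith

lemma h_deriv {s : ℝ} (hs : 0 < s) (x : ℝ) : HasDerivAt (h s) (g (x / s) - x) x := by
  unfold h
  have h1 : HasDerivAt (fun x : ℝ => x / s) (1 / s) x := by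
    simpa using (hasDerivAt_id x).div_const s
  have h2 := ((eta_deriv (x / s)).comp x h1).const_mul s
  have h3 := h2.sub ((hasDerivAt_pow 2 x).div_const 2)
  have e : s * (g (x / s) * (1 / s)) - (2 : ℕ) * x ^ (2 - 1) / 2 = g (x / s) - x := by
    field_simp
    norm_num
    ring
  rw [e] at h3
  exact h3

lemma h_deriv2 {s : ℝ} (hs : 0 < s) (x : ℝ) :
    deriv (deriv (h s)) x = deriv S ((1 + x / s) / 2) / 2 / s - 1 := by
  have e : deriv (h s) = fun x => g (x / s) - x := funext fun x => (h_deriv hs x).deriv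
  rw [e]
  have h1 : HasDerivAt (fun x : ℝ => x / s) (1 / s) x := by
    simpa using (hasDerivAt_id x).div_const s
  have h2 := ((g_deriv (x / s)).comp x h1).sub (hasDerivAt_id x)
  have h3 := h2.deriv
  have e2 : (fun x => g (x / s) - x) = (g ∘ fun x => x / s) - id := by
    funext y; simp
  rw [e2, h3]
  ring

/-- the periodic function -/
noncomputable def P (s x : ℝ) : ℝ := h s (x - round x)

lemma P_eq {s : ℝ} (hs : 0 < s) (hs4 : s ≤ 1 / 4) (n : ℤ) {x : ℝ} (hx : |x - n| < 3 / 4) :
    P s x = h s (x - n) := by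
  unfold P
  by_cases hn : round x = n
  · rw [hn]
  · have h1 := abs_sub_round x
    have h2 : (1 : ℝ) ≤ |((round x : ℤ) : ℝ) - n| := by
      have : (1 : ℤ) ≤ |round x - n| := Int.one_le_abs (sub_ne_zero.2 hn)
      exact_mod_cast this
    rw [abs_lt] at hx
    rw [abs_le] at h1
    have h3 : ((round x : ℤ) : ℝ) - n < 2 := by linarith
    have h4 : -2 < ((round x : ℤ) : ℝ) - n := by linarith
    have h5 : round x - n < 2 := by exact_mod_cast h3
    have h6 : -2 < round x - n := by exact_mod_cast h4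
    have h7 : round x = n + 1 ∨ round x = n - 1 := by
      have : round x - n ≠ 0 := sub_ne_zero.2 hn
      omega
    rcases h7 with h7 | h7
    · rw [h7] at h1 ⊢
      push_cast at h1 ⊢
      have a1 : x - (n + 1) ≤ 0 := by linarith
      have a2 : 0 ≤ x - n := by linarith
      rw [h_outer hs (by rw [abs_of_nonpos a1]; linarith),
        h_outer hs (by rw [abs_of_nonneg a2]; linarith), abs_of_nonpos a1, abs_of_nonneg a2]
      ring
    · rw [h7] at h1 ⊢
      push_cast at h1 ⊢
      have a1 : 0 ≤ x - (n - 1) := by linarith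
      have a2 : x - n ≤ 0 := by linarith
      rw [h_outer hs (by rw [abs_of_nonneg a1]; linarith),
        h_outer hs (by rw [abs_of_nonpos a2]; linarith), abs_of_nonneg a1, abs_of_nonpos a2]
      ring

lemma P_eventually {s : ℝ} (hs : 0 < s) (hs4 : s ≤ 1 / 4) (x : ℝ) :
    P s =ᶠ[𝓝 x] fun y => h s (y - round x) := by
  have h1 := abs_sub_round x
  have : ∀ᶠ y : ℝ in 𝓝 x, |y - ((round x : ℤ) : ℝ)| < 3 / 4 := by
    have hc : ContinuousAt (fun y : ℝ => |y - ((round x : ℤ) : ℝ)|) x := by fun_prop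
    exact hc.eventually_lt_const (lt_of_le_of_lt h1 (by norm_num))
  filter_upwards [this] with y hy
  exact P_eq hs hs4 _ hy

lemma P_contDiff {s : ℝ} (hs : 0 < s) (hs4 : s ≤ 1 / 4) : ContDiff ℝ ∞ (P s) := by
  rw [contDiff_iff_contDiffAt]
  intro x
  refine ContDiffAt.congr_of_eventuallyEq ?_ (P_eventually hs hs4 x)
  exact ((h_contDiff s).comp (by fun_prop)).contDiffAt

lemma P_deriv2 {s : ℝ} (hs : 0 < s) (hs4 : s ≤ 1 / 4) (x : ℝ) :
    deriv (deriv (P s)) x = deriv (deriv (h s)) (x - round x) := by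
  have h1 := (P_eventually hs hs4 x).deriv.deriv_eq
  rw [h1]
  have e1 : deriv (fun y => h s (y - (round x : ℤ))) = fun y => deriv (h s) (y - (round x : ℤ)) :=
    funext fun y => deriv_comp_sub_const (f := h s) (a := ((round x : ℤ) : ℝ)) y
  rw [e1]
  exact deriv_comp_sub_const (f := deriv (h s)) (a := ((round x : ℤ) : ℝ)) x

end BumpAux

open BumpAux CutAux in
/-- `P(x) = s η(x/s) - x²/2` on `[-1/2, 1/2]`, extended periodically, where
`η(x) = 1/2 + ∫_1^x (S((1+t)/2) - 1/2) dt`, `S = Real.smoothTransition`. -/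
theorem exists_bump : ∃ C1 : ℝ, 0 ≤ C1 ∧ ∀ s : ℝ, 0 < s → s ≤ 1 / 4 →
    ∃ P : ℝ → ℝ, ContDiff ℝ ∞ P ∧ (∀ ξ, P (ξ + 1) = P ξ) ∧ (∀ ξ, 0 ≤ P ξ ∧ P ξ ≤ 1 / 8) ∧
      P (1 / 2) = 1 / 8 ∧
      (∀ ξ, -1 ≤ deriv (deriv P) ξ ∧ deriv (deriv P) ξ ≤ C1 / s) ∧
      ∀ ξ, deriv (deriv P) ξ = -1 ∨ P ξ ≤ s / 2 := by
  obtain ⟨M, hM, hM1, -⟩ := exists_bound
  refine ⟨M, hM.le, fun s hs hs4 => ⟨BumpAux.P s, P_contDiff hs hs4, ?_, ?_, ?_, ?_, ?_⟩⟩
  · intro ξ
    unfold BumpAux.P
    rw [round_add_one]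
    congr 1
    push_cast
    ring
  · intro ξ
    have h1 := abs_sub_round ξ
    unfold BumpAux.P
    set u := ξ - (round ξ : ℤ) with hu
    have e : u ^ 2 = |u| ^ 2 := (sq_abs u).symm
    have h0 := abs_nonneg u
    have hb : 0 ≤ |u| / 2 - u ^ 2 / 2 := by rw [e]; nlinarith
    rcases le_total s |u| with h2 | h2
    · rw [h_outer hs h2]
      refine ⟨hb, ?_⟩
      rw [e]
      nlinarith [sq_nonneg (|u| - 1 / 2)]
    · obtain ⟨h3, h4⟩ := h_inner hs h2
      constructor <;> linarith
  · have h1 : BumpAux.P s (1 / 2) = h s (1 / 2 - (0 : ℤ)) :=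
      P_eq hs hs4 0 (by norm_num [abs_lt])
    rw [h1, h_outer hs (by norm_num; linarith)]
    norm_num
  · intro ξ
    rw [P_deriv2 hs hs4, h_deriv2 hs]
    have h1 := S1_nonneg ((1 + (ξ - (round ξ : ℤ)) / s) / 2)
    have h2 := hM1 ((1 + (ξ - (round ξ : ℤ)) / s) / 2)
    rw [abs_of_nonneg h1] at h2
    constructor
    · have : 0 ≤ deriv S ((1 + (ξ - (round ξ : ℤ)) / s) / 2) / 2 / s := by positivity
      linarith
    · have : deriv S ((1 + (ξ - (round ξ : ℤ)) / s) / 2) / 2 / s ≤ M / s := by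
        apply div_le_div_of_nonneg_right _ hs.le
        linarith
      linarith
  · intro ξ
    rcases le_total s |ξ - (round ξ : ℤ)| with h2 | h2
    · left
      rw [P_deriv2 hs hs4, h_deriv2 hs]
      set u := ξ - (round ξ : ℤ) with hu
      have h3 : deriv S ((1 + u / s) / 2) = 0 := by
        apply S1_zero
        rcases le_abs.1 h2 with h | h
        · right
          have : 1 ≤ u / s := by rw [le_div_iff₀ hs]; linarith
          linarith
        · left
          have : u / s ≤ -1 := by rw [div_le_iff₀ hs]; linarith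
          linarith
      rw [h3]
      simp
    · right
      exact (h_inner hs h2).2

end HMA
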