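import Pool.Agent.HMA.IBP

/-! module CLN: Chern-Levine-Nirenberg estimate -/

open MeasureTheory Filter Topology Set Matrix
open scoped Manifold ContDiff ENNReal ComplexOrder

namespace HMA

private theorem CLN_cHess_zero (p : E3) : cHess (fun _ : E3 => (0 : ℝ)) p = 0 := by
  have h1 : fderiv ℝ (fun _ : E3 => (0 : ℝ)) = fun _ => 0 := by
    funext q
    simp
  ext a b
  simp [cHess, D2, h1]

private theorem CLN_cHess_off {Z : E3 → ℝ} {p : E3} (hp : p ∉ tsupport Z) : cHess Z p = 0 := by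
  rw [cHess_congr (v := fun _ => (0 : ℝ)) (notMem_tsupport_iff_eventuallyEq.mp hp)]
  exact CLN_cHess_zero p

private theorem CLN_cont {u : E3 → ℝ} (hu : ContDiff ℝ ∞ u) (a b : Fin 3) :
    Continuous fun p => cHess u p a b :=
  continuousOn_univ.mp (continuousOn_cHess isOpen_univ hu.contDiffOn a b)

private theorem CLN_bound {Z : E3 → ℝ} (hZ : ContDiff ℝ ∞ Z) (hZc : HasCompactSupport Z) :
    ∃ c : ℝ, 0 ≤ c ∧ ∀ p a b, ‖cHess Z p a b‖ ≤ c := by
  have h : ∀ a b : Fin 3, ∃ c : ℝ, ∀ p, ‖cHess Z p a b‖ ≤ c := by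
    intro a b
    refine (CLN_cont hZ a b).bounded_above_of_compact_support ?_
    refine HasCompactSupport.intro hZc.isCompact (fun p hp => ?_)
    rw [CLN_cHess_off hp]
    rfl
  choose c hc using h
  have hc0 : ∀ a b, 0 ≤ c a b := fun a b => (norm_nonneg _).trans (hc a b 0)
  refine ⟨∑ a, ∑ b, c a b, Finset.sum_nonneg fun a _ => Finset.sum_nonneg fun b _ => hc0 a b,
    fun p a b => (hc a b p).trans ?_⟩
  refine (Finset.single_le_sum (f := fun b => c a b) (fun b _ => hc0 a b)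
    (Finset.mem_univ b)).trans ?_
  exact Finset.single_le_sum (f := fun a => ∑ b, c a b)
    (fun a _ => Finset.sum_nonneg fun b _ => hc0 a b) (Finset.mem_univ a)

private theorem CLN_MD_cont {A B C : E3 → Matrix (Fin 3) (Fin 3) ℂ}
    (hA : ∀ a b, Continuous fun p => A p a b) (hB : ∀ a b, Continuous fun p => B p a b)
    (hC : ∀ a b, Continuous fun p => C p a b) :
    Continuous fun p => (MD (A p) (B p) (C p)).re := by
  refine Complex.continuous_re.comp ?_
  unfold MD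
  refine continuous_const.mul ?_
  refine continuous_finsetSum _ fun σ _ => continuous_finsetSum _ fun π _ => ?_
  exact continuous_const.mul (((hA _ _).mul (hB _ _)).mul (hC _ _))

private theorem CLN_MD_zero (B C : Matrix (Fin 3) (Fin 3) ℂ) : MD 0 B C = 0 := by
  have := MD_smul 0 0 B C
  simpa using this

private theorem CLN_int {Z : E3 → ℝ} {A B C : E3 → Matrix (Fin 3) (Fin 3) ℂ}
    (hZ : Continuous Z) (hZc : HasCompactSupport Z)
    (hA : ∀ a b, Continuous fun p => A p a b) (hB : ∀ a b, Continuous fun p => B p a b)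
    (hC : ∀ a b, Continuous fun p => C p a b) :
    Integrable fun p => Z p * (MD (A p) (B p) (C p)).re :=
  (hZ.mul (CLN_MD_cont hA hB hC)).integrable_of_hasCompactSupport hZc.mul_right

private theorem CLN_step {Z Z' g : E3 → ℝ} {B C : E3 → Matrix (Fin 3) (Fin 3) ℂ} {c δ : ℝ}
    (hZs : ContDiff ℝ ∞ Z) (hc0 : 0 ≤ c)
    (hc : ∀ p a b, ‖cHess Z p a b‖ ≤ c) (hδ : 0 ≤ δ) (hg : ∀ p ∈ tsupport Z, |g p| ≤ δ)
    (hZ1 : ∀ p ∈ tsupport Z, Z' p = 1) (hZ0 : ∀ p, 0 ≤ Z' p)
    (hB : ∀ p ∈ tsupport Z', (B p).PosSemidef) (hC : ∀ p ∈ tsupport Z', (C p).PosSemidef)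
    (hint : Integrable fun p => Z' p * (MD 1 (B p) (C p)).re) :
    |∫ p, g p * (MD (cHess Z p) (B p) (C p)).re| ≤
      δ * (3 * c) * ∫ p, Z' p * (MD 1 (B p) (C p)).re := by
  rw [← integral_const_mul, ← Real.norm_eq_abs]
  refine norm_integral_le_of_norm_le (hint.const_mul _) (Eventually.of_forall fun p => ?_)
  rw [Real.norm_eq_abs, abs_mul]
  by_cases hp : p ∈ tsupport Z
  · have hp' : p ∈ tsupport Z' := by
      refine subset_tsupport _ ?_
      rw [Function.mem_support, hZ1 p hp]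
      norm_num
    rw [hZ1 p hp, one_mul]
    have hherm : (cHess Z p).IsHermitian :=
      cHess_isHermitian (hZs.contDiffAt.of_le (by
        have h : ((2 : ℕ∞) : WithTop ℕ∞) ≤ ((⊤ : ℕ∞) : WithTop ℕ∞) :=
          WithTop.coe_le_coe.mpr le_top
        exact h))
    obtain ⟨h1, h2⟩ := posSemidef_of_entry_le hherm (hc p)
    have h3 := MD_abs_le h1 h2 (hB p hp') (hC p hp')
    calc |g p| * |(MD (cHess Z p) (B p) (C p)).re|
        ≤ δ * (3 * c * (MD 1 (B p) (C p)).re) :=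
          mul_le_mul (hg p hp) h3 (abs_nonneg _) hδ
      _ = δ * (3 * c) * (MD 1 (B p) (C p)).re := by ring
  · rw [CLN_cHess_off hp, CLN_MD_zero]
    simp only [Complex.zero_re, abs_zero, mul_zero]
    by_cases hp' : p ∈ tsupport Z'
    · have h1 : 0 ≤ (MD 1 (B p) (C p)).re :=
        MD_nonneg Matrix.PosSemidef.one (hB p hp') (hC p hp')
      have := hZ0 p
      positivity
    · rw [image_eq_zero_of_notMem_tsupport hp']
      simp

/-- the function `|z|²` -/
private noncomputable def CLN_q (p : E3) : ℝ := ∑ i, ((p i).re ^ 2 + (p i).im ^ 2)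

private noncomputable def CLN_r (i : Fin 3) : E3 →L[ℝ] ℝ :=
  Complex.reCLM.comp (ContinuousLinearMap.proj (R := ℝ) (φ := fun _ : Fin 3 => ℂ) i)

private noncomputable def CLN_m (i : Fin 3) : E3 →L[ℝ] ℝ :=
  Complex.imCLM.comp (ContinuousLinearMap.proj (R := ℝ) (φ := fun _ : Fin 3 => ℂ) i)

private theorem CLN_q_smooth : ContDiff ℝ ∞ CLN_q := by
  have : CLN_q = fun p => ∑ i, ((CLN_r i p) ^ 2 + (CLN_m i p) ^ 2) := rfl
  rw [this]
  refine ContDiff.sum fun i _ => ?_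
  exact ((CLN_r i).contDiff.pow 2).add ((CLN_m i).contDiff.pow 2)

private theorem CLN_q_fderiv : fderiv ℝ CLN_q =
    fun p => ∑ i, ((2 * CLN_r i p) • CLN_r i + (2 * CLN_m i p) • CLN_m i) := by
  funext p
  have h : HasFDerivAt CLN_q
      (∑ i, ((2 * CLN_r i p) • CLN_r i + (2 * CLN_m i p) • CLN_m i)) p := by
    have : CLN_q = fun p => ∑ i, ((CLN_r i p) ^ 2 + (CLN_m i p) ^ 2) := rfl
    rw [this]
    refine HasFDerivAt.fun_sum fun i _ => ?_
    have h1 := ((CLN_r i).hasFDerivAt (x := p)).pow 2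
    have h2 := ((CLN_m i).hasFDerivAt (x := p)).pow 2
    simpa using h1.fun_add h2
  exact h.fderiv

private theorem CLN_q_D2 (p v w : E3) : D2 CLN_q p v w =
    ∑ i, (2 * CLN_r i v * CLN_r i w + 2 * CLN_m i v * CLN_m i w) := by
  unfold D2
  rw [CLN_q_fderiv]
  have h : HasFDerivAt
      (fun p : E3 => ∑ i, ((2 * CLN_r i p) • CLN_r i + (2 * CLN_m i p) • CLN_m i))
      (∑ i, (((2 : ℝ) • CLN_r i).smulRight (CLN_r i) + ((2 : ℝ) • CLN_m i).smulRight (CLN_m i)))
      p := by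
    refine HasFDerivAt.fun_sum fun i _ => ?_
    have h1 := (((CLN_r i).hasFDerivAt (x := p)).const_mul 2).smul_const (CLN_r i)
    have h2 := (((CLN_m i).hasFDerivAt (x := p)).const_mul 2).smul_const (CLN_m i)
    exact h1.add h2
  rw [h.fderiv]
  simp [ContinuousLinearMap.smulRight_apply]

private theorem CLN_q_cHess (p : E3) : cHess CLN_q p = 1 := by
  ext a b
  simp only [cHess, CLN_q_D2]
  fin_cases a <;> fin_cases b <;>
    simp [CLN_r, CLN_m, Fin.sum_univ_three] <;> norm_num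

theorem cln {W : Set E3} (hW : IsOpen W) {χ : E3 → ℝ} (hχ : ContDiff ℝ ∞ χ)
    (hχc : HasCompactSupport χ) (hs : tsupport χ ⊆ W) :
    ∃ (L : Set E3) (C : ℝ), IsCompact L ∧ L ⊆ W ∧ 0 ≤ C ∧
      ∀ (h v w : E3 → ℝ) (M ε : ℝ), 0 ≤ M → 0 ≤ ε → ContDiffOn ℝ ∞ h W → SmoothPshOn v W →
        SmoothPshOn w W → (∀ p ∈ L, |v p| ≤ M) → (∀ p ∈ L, |w p| ≤ M) →
        (∀ p ∈ L, |h p| ≤ ε) →
        |∫ p, χ p * (MD (cHess h p) (cHess v p) (cHess w p)).re| ≤ C * ε * M ^ 2 := by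
  obtain ⟨Z1, hZ1, hZ1c, hZ1s, hZ1b, hZ1o⟩ := exists_cutoff hW hχc.isCompact hs
  obtain ⟨Z2, hZ2, hZ2c, hZ2s, hZ2b, hZ2o⟩ := exists_cutoff hW hZ1c.isCompact hZ1s
  obtain ⟨c0, hc0, hb0⟩ := CLN_bound hχ hχc
  obtain ⟨c1, hc1, hb1⟩ := CLN_bound hZ1 hZ1c
  have hone : ∀ {Z Z' : E3 → ℝ}, (∀ p ∈ tsupport Z, Z' p = 1) → tsupport Z ⊆ tsupport Z' := by
    intro Z Z' h p hp
    refine subset_tsupport _ ?_
    rw [Function.mem_support, h p hp]
    norm_num
  have h01 : tsupport χ ⊆ tsupport Z1 := hone hZ1o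
  have h12 : tsupport Z1 ⊆ tsupport Z2 := hone hZ2o
  set c2 : ℝ := ∫ p, |(MD (cHess Z2 p) 1 1).re| with hc2
  have hc2' : 0 ≤ c2 := integral_nonneg fun p => abs_nonneg _
  have hconst : ∀ a b : Fin 3, Continuous fun _ : E3 => (1 : Matrix (Fin 3) (Fin 3) ℂ) a b :=
    fun a b => continuous_const
  refine ⟨tsupport Z2, (3 * c0) * (3 * c1) * c2, hZ2c.isCompact, hZ2s, by positivity, ?_⟩
  intro h v w M ε hM hε hh hv hw hvM hwM hhε
  obtain ⟨h', hh', hh'c, hhe⟩ := exists_extension hW hZ2c.isCompact hZ2s hh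
  obtain ⟨v', hv', hv'c, hve⟩ := exists_extension hW hZ2c.isCompact hZ2s hv.1
  obtain ⟨w', hw', hw'c, hwe⟩ := exists_extension hW hZ2c.isCompact hZ2s hw.1
  have hVp : ∀ p ∈ tsupport Z2, (cHess v' p).PosSemidef := by
    intro p hp
    rw [cHess_congr (hve p hp)]
    exact hv.2 p (hZ2s hp)
  have hWp : ∀ p ∈ tsupport Z2, (cHess w' p).PosSemidef := by
    intro p hp
    rw [cHess_congr (hwe p hp)]
    exact hw.2 p (hZ2s hp)
  have e0 : ∫ p, χ p * (MD (cHess h p) (cHess v p) (cHess w p)).re =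
      ∫ p, χ p * (MD (cHess h' p) (cHess v' p) (cHess w' p)).re := by
    congr 1
    funext p
    by_cases hp : p ∈ tsupport χ
    · have hp2 := h12 (h01 hp)
      rw [cHess_congr (hhe p hp2), cHess_congr (hve p hp2), cHess_congr (hwe p hp2)]
    · rw [image_eq_zero_of_notMem_tsupport hp]
      simp
  rw [e0, ibp hχ hχc hh' hv' hw']
  have s1 := CLN_step (Z := χ) (Z' := Z1) (g := h') (B := fun p => cHess v' p)
    (C := fun p => cHess w' p) hχ hc0 hb0 hε
    (fun p hp => by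
      rw [(hhe p (h12 (h01 hp))).self_of_nhds]
      exact hhε p (h12 (h01 hp)))
    hZ1o (fun p => (hZ1b p).1) (fun p hp => hVp p (h12 hp)) (fun p hp => hWp p (h12 hp))
    (CLN_int hZ1.continuous hZ1c hconst (CLN_cont hv') (CLN_cont hw'))
  have e1 : ∫ p, Z1 p * (MD 1 (cHess v' p) (cHess w' p)).re =
      ∫ p, v' p * (MD (cHess Z1 p) 1 (cHess w' p)).re := by
    have := ibp hZ1 hZ1c hv' CLN_q_smooth hw'
    simp only [CLN_q_cHess] at this
    rw [← this]
    congr 1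
    funext p
    rw [MD_swap12]
  have s2 := CLN_step (Z := Z1) (Z' := Z2) (g := v') (B := fun _ => 1)
    (C := fun p => cHess w' p) hZ1 hc1 hb1 hM
    (fun p hp => by
      rw [(hve p (h12 hp)).self_of_nhds]
      exact hvM p (h12 hp))
    hZ2o (fun p => (hZ2b p).1) (fun p _ => Matrix.PosSemidef.one) (fun p hp => hWp p hp)
    (CLN_int hZ2.continuous hZ2c hconst hconst (CLN_cont hw'))
  have e2 : ∫ p, Z2 p * (MD 1 1 (cHess w' p)).re =
      ∫ p, w' p * (MD (cHess Z2 p) 1 1).re := by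
    have := ibp hZ2 hZ2c hw' CLN_q_smooth CLN_q_smooth
    simp only [CLN_q_cHess] at this
    rw [← this]
    congr 1
    funext p
    rw [MD_swap23, MD_swap12]
  have s3 : ∫ p, w' p * (MD (cHess Z2 p) 1 1).re ≤ M * c2 := by
    rw [hc2, ← integral_const_mul]
    have hi : Integrable fun p => (MD (cHess Z2 p) 1 1).re := by
      refine (CLN_MD_cont (CLN_cont hZ2) hconst hconst).integrable_of_hasCompactSupport ?_
      refine HasCompactSupport.intro hZ2c.isCompact (fun p hp => ?_)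
      rw [CLN_cHess_off hp, CLN_MD_zero]
      rfl
    refine (le_abs_self _).trans ?_
    rw [← Real.norm_eq_abs]
    refine norm_integral_le_of_norm_le (hi.abs.const_mul M) (Eventually.of_forall fun p => ?_)
    rw [Real.norm_eq_abs, abs_mul]
    by_cases hp : p ∈ tsupport Z2
    · refine mul_le_mul_of_nonneg_right ?_ (abs_nonneg _)
      rw [(hwe p hp).self_of_nhds]
      exact hwM p hp
    · rw [CLN_cHess_off hp, CLN_MD_zero]
      simp
  have t2 : ∫ p, Z1 p * (MD 1 (cHess v' p) (cHess w' p)).re ≤ M * (3 * c1) * (M * c2) := by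
    rw [e1]
    refine (le_abs_self _).trans (s2.trans ?_)
    refine mul_le_mul_of_nonneg_left ?_ (by positivity)
    rw [e2]
    exact s3
  refine s1.trans ?_
  calc ε * (3 * c0) * ∫ p, Z1 p * (MD 1 (cHess v' p) (cHess w' p)).re
      ≤ ε * (3 * c0) * (M * (3 * c1) * (M * c2)) :=
        mul_le_mul_of_nonneg_left t2 (by positivity)
    _ = 3 * c0 * (3 * c1) * c2 * ε * M ^ 2 := by ring

end HMA
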