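import Pool.Agent.HMA.Mat

/-! module CALC: calculus of the complex Hessian -/

open MeasureTheory Filter Topology Set Matrix
open scoped Manifold ContDiff ENNReal ComplexOrder

namespace HMA

variable {n : ℕ}

theorem Calc_D2_congr {u v : Cn n → ℝ} {p : Cn n} (h : u =ᶠ[𝓝 p] v) (a b : Cn n) :
    D2 u p a b = D2 v p a b := by
  unfold D2
  rw [(h.fderiv).fderiv_eq]

theorem cHess_congr {u v : Cn n → ℝ} {p : Cn n} (h : u =ᶠ[𝓝 p] v) : cHess u p = cHess v p := by
  funext a b
  unfold cHess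
  simp only [Calc_D2_congr h]

theorem maDens_congr {u v : Cn n → ℝ} {p : Cn n} (h : u =ᶠ[𝓝 p] v) : maDens u p = maDens v p := by
  unfold maDens
  rw [cHess_congr h]

theorem Calc_ev {u : Cn n → ℝ} {p : Cn n} (hu : ContDiffAt ℝ 2 u p) :
    ∀ᶠ q in 𝓝 p, DifferentiableAt ℝ u q := by
  have h := hu.eventually (by simp)
  filter_upwards [h] with q hq
  exact hq.differentiableAt (by simp)

theorem Calc_fd {u : Cn n → ℝ} {p : Cn n} (hu : ContDiffAt ℝ 2 u p) :
    DifferentiableAt ℝ (fderiv ℝ u) p := by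
  have h : ContDiffAt ℝ 1 (fderiv ℝ u) p := hu.fderiv_right (by norm_num)
  exact h.differentiableAt (by simp)

theorem D2_add {u v : Cn n → ℝ} {p : Cn n} (hu : ContDiffAt ℝ 2 u p) (hv : ContDiffAt ℝ 2 v p)
    (a b : Cn n) : D2 (fun q => u q + v q) p a b = D2 u p a b + D2 v p a b := by
  have h1 : fderiv ℝ (fun q => u q + v q) =ᶠ[𝓝 p] fun q => fderiv ℝ u q + fderiv ℝ v q := by
    filter_upwards [Calc_ev hu, Calc_ev hv] with q h1 h2
    exact fderiv_fun_add h1 h2
  unfold D2
  rw [h1.fderiv_eq, fderiv_fun_add (Calc_fd hu) (Calc_fd hv)]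
  rfl

theorem Calc_D2_const_mul {u : Cn n → ℝ} {p : Cn n} (c : ℝ) (hu : ContDiffAt ℝ 2 u p)
    (a b : Cn n) : D2 (fun q => c * u q) p a b = c * D2 u p a b := by
  have h1 : fderiv ℝ (fun q => c * u q) =ᶠ[𝓝 p] fun q => c • fderiv ℝ u q := by
    filter_upwards [Calc_ev hu] with q h1
    exact fderiv_const_mul h1 c
  unfold D2
  rw [h1.fderiv_eq, fderiv_fun_const_smul (Calc_fd hu) c]
  rfl

theorem cHess_add {u v : Cn n → ℝ} {p : Cn n} (hu : ContDiffAt ℝ 2 u p)
    (hv : ContDiffAt ℝ 2 v p) : cHess (fun q => u q + v q) p = cHess u p + cHess v p := by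
  funext a b
  rw [Matrix.add_apply]
  unfold cHess
  simp only [D2_add hu hv]
  push_cast
  ring

theorem cHess_const_mul {u : Cn n → ℝ} {p : Cn n} (c : ℝ) (hu : ContDiffAt ℝ 2 u p) :
    cHess (fun q => c * u q) p = (c : ℂ) • cHess u p := by
  funext a b
  rw [Matrix.smul_apply]
  unfold cHess
  simp only [Calc_D2_const_mul c hu, smul_eq_mul]
  push_cast
  ring

theorem cHess_sub {u v : Cn n → ℝ} {p : Cn n} (hu : ContDiffAt ℝ 2 u p)
    (hv : ContDiffAt ℝ 2 v p) : cHess (fun q => u q - v q) p = cHess u p - cHess v p := by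
  have h1 : (fun q => u q - v q) = fun q => u q + (-1) * v q := by
    funext q
    ring
  have h2 : ContDiffAt ℝ 2 (fun q => (-1) * v q) p := contDiffAt_const.mul hv
  rw [h1, cHess_add hu h2, cHess_const_mul (-1) hv]
  push_cast
  rw [neg_one_smul, sub_eq_add_neg]

theorem cHess_add_const (u : Cn n → ℝ) (c : ℝ) (p : Cn n) :
    cHess (fun q => u q + c) p = cHess u p := by
  have h : fderiv ℝ (fun q => u q + c) = fderiv ℝ u := by
    funext q
    exact fderiv_add_const c
  funext a b
  unfold cHess D2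
  rw [h]

theorem D2_symm {u : Cn n → ℝ} {p : Cn n} (hu : ContDiffAt ℝ 2 u p) (a b : Cn n) :
    D2 u p a b = D2 u p b a := by
  have h := hu.isSymmSndFDerivAt (by simp)
  exact h a b

theorem cHess_isHermitian {u : Cn n → ℝ} {p : Cn n} (hu : ContDiffAt ℝ 2 u p) :
    (cHess u p).IsHermitian := by
  ext a b
  rw [Matrix.conjTranspose_apply]
  unfold cHess
  rw [D2_symm hu (Pi.single b 1) (Pi.single a 1),
    D2_symm hu (Pi.single b Complex.I) (Pi.single a Complex.I),
    D2_symm hu (Pi.single b 1) (Pi.single a Complex.I),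
    D2_symm hu (Pi.single b Complex.I) (Pi.single a 1)]
  apply Complex.ext
  · simp
  · simp

theorem Calc_continuousOn_D2 {u : Cn n → ℝ} {V : Set (Cn n)} (hV : IsOpen V)
    (hu : ContDiffOn ℝ ∞ u V) (a b : Cn n) : ContinuousOn (fun p => D2 u p a b) V := by
  have h1 : ContDiffOn ℝ ∞ (fderiv ℝ u) V := hu.fderiv_of_isOpen hV (by simp)
  have h2 : ContDiffOn ℝ ∞ (fderiv ℝ (fderiv ℝ u)) V := h1.fderiv_of_isOpen hV (by simp)
  have h3 : ContinuousOn (fderiv ℝ (fderiv ℝ u)) V := h2.continuousOn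
  exact (h3.clm_apply continuousOn_const).clm_apply continuousOn_const

/-- the entries of the complex Hessian of a smooth function are continuous -/
theorem continuousOn_cHess {u : Cn n → ℝ} {V : Set (Cn n)} (hV : IsOpen V)
    (hu : ContDiffOn ℝ ∞ u V) (a b : Fin n) : ContinuousOn (fun p => cHess u p a b) V := by
  unfold cHess
  have h := fun x y => Calc_continuousOn_D2 hV hu x y
  refine ContinuousOn.div_const ?_ _
  refine ContinuousOn.add ?_ (ContinuousOn.mul ?_ continuousOn_const)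
  · exact Complex.continuous_ofReal.comp_continuousOn ((h _ _).add (h _ _))
  · exact Complex.continuous_ofReal.comp_continuousOn ((h _ _).sub (h _ _))

theorem Calc_continuousOn_cHess' {u : Cn n → ℝ} {V : Set (Cn n)} (hV : IsOpen V)
    (hu : ContDiffOn ℝ ∞ u V) : ContinuousOn (fun p => cHess u p) V := by
  refine continuousOn_pi.2 fun a => continuousOn_pi.2 fun b => ?_
  exact continuousOn_cHess hV hu a b

theorem continuousOn_maDens {u : Cn n → ℝ} {V : Set (Cn n)} (hV : IsOpen V)
    (hu : ContDiffOn ℝ ∞ u V) : ContinuousOn (maDens u) V := by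
  unfold maDens
  have h1 : Continuous fun M : Matrix (Fin n) (Fin n) ℂ => M.det.re :=
    Complex.continuous_re.comp (Continuous.matrix_det continuous_id)
  exact continuousOn_const.mul (h1.comp_continuousOn (Calc_continuousOn_cHess' hV hu))

theorem Calc_isClosed_posSemidef : IsClosed {M : Matrix (Fin n) (Fin n) ℂ | M.PosSemidef} := by
  have h : {M : Matrix (Fin n) (Fin n) ℂ | M.PosSemidef} =
      {M | M.conjTranspose = M} ∩ ⋂ x : Fin n → ℂ, {M | 0 ≤ star x ⬝ᵥ (M *ᵥ x)} := by
    ext M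
    simp only [Set.mem_ofPred_eq, Set.mem_inter_iff, Set.mem_iInter]
    rw [Matrix.posSemidef_iff_dotProduct_mulVec]
    rfl
  rw [h]
  refine IsClosed.inter ?_ (isClosed_iInter fun x => ?_)
  · exact isClosed_eq (Continuous.matrix_conjTranspose continuous_id) continuous_id
  · have h1 : Continuous fun M : Matrix (Fin n) (Fin n) ℂ => star x ⬝ᵥ (M *ᵥ x) :=
      Continuous.dotProduct continuous_const
        (Continuous.matrix_mulVec continuous_id continuous_const)
    exact isClosed_Ici.preimage h1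

/-- positivity passes to the closure: used at the points of `{w = 0}` -/
theorem posSemidef_of_dense {u : Cn n → ℝ} {V : Set (Cn n)} (hV : IsOpen V)
    (hu : ContDiffOn ℝ ∞ u V) {S : Set (Cn n)} (hS : V ⊆ closure (S ∩ V))
    (h : ∀ p ∈ S ∩ V, (cHess u p).PosSemidef) : ∀ p ∈ V, (cHess u p).PosSemidef := by
  intro p hp
  have h1 := hS hp
  have h2 : Tendsto (fun q => cHess u q) (𝓝[S ∩ V] p) (𝓝 (cHess u p)) :=
    ((Calc_continuousOn_cHess' hV hu) p hp).mono_left (nhdsWithin_mono p inter_subset_right)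
  have : (𝓝[S ∩ V] p).NeBot := mem_closure_iff_nhdsWithin_neBot.1 h1
  refine Calc_isClosed_posSemidef.mem_of_tendsto h2 ?_
  filter_upwards [self_mem_nhdsWithin] with q hq
  exact h q hq

end HMA
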