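import Pool.Agent.HMA.CLN

/-! module CONV: convergence of Monge-Ampere measures under locally uniform convergence -/

open MeasureTheory Filter Topology Set Matrix
open scoped Manifold ContDiff ENNReal ComplexOrder

namespace HMA

private theorem Conv_le : (2 : WithTop ℕ∞) ≤ ((⊤ : ℕ∞) : WithTop ℕ∞) := by
  have h : ((2 : ℕ∞) : WithTop ℕ∞) ≤ ((⊤ : ℕ∞) : WithTop ℕ∞) :=
    WithTop.coe_le_coe.mpr le_top
  exact h

private theorem Conv_c2 {W : Set E3} (hW : IsOpen W) {u : E3 → ℝ} (hu : ContDiffOn ℝ ∞ u W)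
    {p : E3} (hp : p ∈ W) : ContDiffAt ℝ 2 u p :=
  ((hu p hp).contDiffAt (hW.mem_nhds hp)).of_le Conv_le

private theorem Conv_int {W : Set E3} (hW : IsOpen W) {χ f : E3 → ℝ} (hχ : Continuous χ)
    (hχc : HasCompactSupport χ) (hs : tsupport χ ⊆ W) (hf : ContinuousOn f W) :
    Integrable fun p => χ p * f p := by
  have hc : Continuous fun p => χ p * f p := by
    rw [continuous_iff_continuousAt]
    intro p
    by_cases hp : p ∈ tsupport χ
    · exact hχ.continuousAt.mul (hf.continuousAt (hW.mem_nhds (hs hp)))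
    · have h1 := notMem_tsupport_iff_eventuallyEq.mp hp
      have h2 : (fun p => χ p * f p) =ᶠ[𝓝 p] fun _ => 0 := by
        filter_upwards [h1] with q hq
        rw [hq]
        simp
      exact continuousAt_const.congr h2.symm
  exact hc.integrable_of_hasCompactSupport hχc.mul_right

private theorem Conv_MD {W : Set E3} {A B C : E3 → Matrix (Fin 3) (Fin 3) ℂ}
    (hA : ∀ a b, ContinuousOn (fun p => A p a b) W) (hB : ∀ a b, ContinuousOn (fun p => B p a b) W)
    (hC : ∀ a b, ContinuousOn (fun p => C p a b) W) :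
    ContinuousOn (fun p => (MD (A p) (B p) (C p)).re) W := by
  refine Complex.continuous_re.comp_continuousOn ?_
  unfold MD
  refine continuousOn_const.mul ?_
  refine continuousOn_finsetSum _ fun σ _ => continuousOn_finsetSum _ fun π _ => ?_
  exact continuousOn_const.mul (((hA _ _).mul (hB _ _)).mul (hC _ _))

theorem ma_diff_tendsto {W : Set E3} (hW : IsOpen W) {v w : ℕ → E3 → ℝ}
    (hv : ∀ j, SmoothPshOn (v j) W) (hw : ∀ j, SmoothPshOn (w j) W)
    (hbd : ∀ K ⊆ W, IsCompact K → ∃ C : ℝ, ∀ j, ∀ p ∈ K, |v j p| ≤ C ∧ |w j p| ≤ C)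
    (hun : ∀ K ⊆ W, IsCompact K → ∀ ε > 0, ∀ᶠ j in atTop, ∀ p ∈ K, |v j p - w j p| ≤ ε)
    {χ : E3 → ℝ} (hχ : ContDiff ℝ ∞ χ) (hχc : HasCompactSupport χ) (hs : tsupport χ ⊆ W) :
    Tendsto (fun j => (∫ p, χ p * maDens (v j) p) - ∫ p, χ p * maDens (w j) p) atTop (𝓝 0) := by
  obtain ⟨L, C, hL, hLW, hC, hmain⟩ := cln hW hχ hχc hs
  obtain ⟨M0, hM0⟩ := hbd L hLW hL
  set M : ℝ := max M0 0 with hM
  have hMv : ∀ j, ∀ p ∈ L, |v j p| ≤ M := fun j p hp => (hM0 j p hp).1.trans (le_max_left _ _)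
  have hMw : ∀ j, ∀ p ∈ L, |w j p| ≤ M := fun j p hp => (hM0 j p hp).2.trans (le_max_left _ _)
  have hMp : 0 ≤ M := le_max_right _ _
  set κ : ℝ := ((Nat.factorial 3 : ℕ) : ℝ) * (2 / Real.pi) ^ 3 with hκ
  have hκ0 : 0 ≤ κ := by positivity
  have key : ∀ j, (∫ p, χ p * maDens (v j) p) - ∫ p, χ p * maDens (w j) p =
      κ * ((∫ p, χ p * (MD (cHess (fun q => v j q - w j q) p) (cHess (v j) p)
        (cHess (v j) p)).re) +
      (∫ p, χ p * (MD (cHess (fun q => v j q - w j q) p) (cHess (v j) p)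
        (cHess (w j) p)).re) +
      (∫ p, χ p * (MD (cHess (fun q => v j q - w j q) p) (cHess (w j) p)
        (cHess (w j) p)).re)) := by
    intro j
    have hd : ContDiffOn ℝ ∞ (fun q => v j q - w j q) W := (hv j).1.sub (hw j).1
    have cD := fun a b => continuousOn_cHess hW hd a b
    have cV := fun a b => continuousOn_cHess hW (hv j).1 a b
    have cW := fun a b => continuousOn_cHess hW (hw j).1 a b
    rw [← integral_sub (Conv_int hW hχ.continuous hχc hs (continuousOn_maDens hW (hv j).1))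
      (Conv_int hW hχ.continuous hχc hs (continuousOn_maDens hW (hw j).1))]
    have i1 := Conv_int hW hχ.continuous hχc hs (Conv_MD cD cV cV)
    have i2 := Conv_int hW hχ.continuous hχc hs (Conv_MD cD cV cW)
    have i3 := Conv_int hW hχ.continuous hχc hs (Conv_MD cD cW cW)
    have i12 := integral_add i1 i2
    have i123 := integral_add (i1.add i2) i3
    simp only [Pi.add_apply] at i123
    rw [← i12, ← i123]
    rw [← integral_const_mul]
    congr 1
    funext p
    by_cases hp : p ∈ tsupport χ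
    · have hpW := hs hp
      have h1 : cHess (fun q => v j q - w j q) p = cHess (v j) p - cHess (w j) p :=
        cHess_sub (Conv_c2 hW (hv j).1 hpW) (Conv_c2 hW (hw j).1 hpW)
      have h2 := congrArg Complex.re (det_sub_det (cHess (v j) p) (cHess (w j) p))
      rw [← h1] at h2
      simp only [Complex.sub_re, Complex.add_re] at h2
      simp only [maDens]
      rw [← hκ]
      linear_combination (χ p * κ) * h2
    · rw [image_eq_zero_of_notMem_tsupport hp]
      simp
  rw [Metric.tendsto_atTop]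
  intro δ hδ
  set ε : ℝ := δ / (2 * (3 * κ * C * M ^ 2 + 1)) with hε
  have hden : 0 < 3 * κ * C * M ^ 2 + 1 := by positivity
  have hε0 : 0 < ε := by positivity
  obtain ⟨N, hN⟩ := (eventually_atTop.mp (hun L hLW hL ε hε0))
  refine ⟨N, fun j hj => ?_⟩
  rw [Real.dist_eq, sub_zero, key j, abs_mul, abs_of_nonneg hκ0]
  have hd : ContDiffOn ℝ ∞ (fun q => v j q - w j q) W := (hv j).1.sub (hw j).1
  have b1 := hmain (fun q => v j q - w j q) (v j) (v j) M ε hMp hε0.le hd (hv j) (hv j)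
    (hMv j) (hMv j) (hN j hj)
  have b2 := hmain (fun q => v j q - w j q) (v j) (w j) M ε hMp hε0.le hd (hv j) (hw j)
    (hMv j) (hMw j) (hN j hj)
  have b3 := hmain (fun q => v j q - w j q) (w j) (w j) M ε hMp hε0.le hd (hw j) (hw j)
    (hMw j) (hMw j) (hN j hj)
  refine lt_of_le_of_lt (mul_le_mul_of_nonneg_left
    ((abs_add_three _ _ _).trans (add_le_add (add_le_add b1 b2) b3)) hκ0) ?_
  have h4 : κ * (C * ε * M ^ 2 + C * ε * M ^ 2 + C * ε * M ^ 2) =
      (3 * κ * C * M ^ 2) * ε := by ring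
  rw [h4]
  calc (3 * κ * C * M ^ 2) * ε ≤ (3 * κ * C * M ^ 2 + 1) * ε :=
        mul_le_mul_of_nonneg_right (by linarith) hε0.le
    _ = δ / 2 := by
        rw [hε]
        field_simp
    _ < δ := by linarith

/-- The criterion for `(dd^c u)³ = μ`. -/
theorem isBT_of_approx {V : Set E3} (hV : IsOpen V) {u : E3 → ℝ} {μ : Measure E3}
    {w : ℕ → E3 → ℝ} (hw : ∀ j, SmoothPshOn (w j) V) (hanti : ∀ p ∈ V, Antitone fun j => w j p)
    (hunif : TendstoUniformlyOn w u atTop V)
    (hlim : ∀ χ : E3 → ℝ, ContDiff ℝ ∞ χ → HasCompactSupport χ → tsupport χ ⊆ V →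
      Tendsto (fun j => ∫ p, χ p * maDens (w j) p) atTop (𝓝 (∫ p, χ p ∂μ))) :
    IsBT u V μ := by
  have hpt : ∀ p ∈ V, Tendsto (fun j => w j p) atTop (𝓝 (u p)) :=
    fun p hp => hunif.tendsto_at hp
  have hucont : ContinuousOn u V :=
    hunif.continuousOn (Frequently.of_forall fun j => (hw j).1.continuousOn)
  refine ⟨?_, fun p hp => ⟨V, subset_rfl, hV, hp, w, hw, hanti, hpt⟩⟩
  intro W hWV hW v hv χ hχ hχc hs
  obtain ⟨hvs, hva, hvt⟩ := hv
  have hws : ∀ j, SmoothPshOn (w j) W :=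
    fun j => ⟨(hw j).1.mono hWV, fun p hp => (hw j).2 p (hWV hp)⟩
  have hbd : ∀ K ⊆ W, IsCompact K → ∃ C : ℝ, ∀ j, ∀ p ∈ K, |v j p| ≤ C ∧ |w j p| ≤ C := by
    intro K hKW hK
    obtain ⟨C1, hC1⟩ := hK.exists_bound_of_continuousOn (hucont.mono (hKW.trans hWV))
    obtain ⟨C2, hC2⟩ := hK.exists_bound_of_continuousOn ((hvs 0).1.continuousOn.mono hKW)
    obtain ⟨C3, hC3⟩ := hK.exists_bound_of_continuousOn ((hws 0).1.continuousOn.mono hKW)
    refine ⟨max C1 (max C2 C3), fun j p hp => ?_⟩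
    have e1 := abs_le.mp (hC1 p hp)
    have e2 := abs_le.mp (hC2 p hp)
    have e3 := abs_le.mp (hC3 p hp)
    have m1 : C1 ≤ max C1 (max C2 C3) := le_max_left _ _
    have m2 : C2 ≤ max C1 (max C2 C3) := (le_max_left _ _).trans (le_max_right _ _)
    have m3 : C3 ≤ max C1 (max C2 C3) := (le_max_right _ _).trans (le_max_right _ _)
    have l1 : u p ≤ v j p := (hva p (hKW hp)).le_of_tendsto (hvt p (hKW hp)) j
    have l2 : v j p ≤ v 0 p := hva p (hKW hp) (Nat.zero_le j)
    have l3 : u p ≤ w j p := (hanti p (hWV (hKW hp))).le_of_tendsto (hpt p (hWV (hKW hp))) j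
    have l4 : w j p ≤ w 0 p := hanti p (hWV (hKW hp)) (Nat.zero_le j)
    constructor <;> rw [abs_le] <;> constructor <;> linarith [e1.1, e1.2, e2.1, e2.2, e3.1, e3.2]
  have hun : ∀ K ⊆ W, IsCompact K → ∀ ε > 0, ∀ᶠ j in atTop, ∀ p ∈ K, |v j p - w j p| ≤ ε := by
    intro K hKW hK ε hε
    have h1 : TendstoUniformlyOn v u atTop K :=
      Antitone.tendstoUniformlyOn_of_forall_tendsto hK
        (fun j => (hvs j).1.continuousOn.mono hKW) (fun p hp => hva p (hKW hp))
        (hucont.mono (hKW.trans hWV)) (fun p hp => hvt p (hKW hp))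
    have h2 : TendstoUniformlyOn w u atTop K := hunif.mono (hKW.trans hWV)
    rw [Metric.tendstoUniformlyOn_iff] at h1 h2
    filter_upwards [h1 (ε / 2) (by positivity), h2 (ε / 2) (by positivity)] with j a1 a2 p hp
    have c1 := a1 p hp
    have c2 := a2 p hp
    rw [Real.dist_eq] at c1 c2
    have d1 := abs_lt.mp c1
    have d2 := abs_lt.mp c2
    rw [abs_le]
    constructor <;> linarith [d1.1, d1.2, d2.1, d2.2]
  have h0 := ma_diff_tendsto hW hvs hws hbd hun hχ hχc hs
  have h1 := hlim χ hχ hχc (hs.trans hWV)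
  have h2 := h0.add h1
  simpa using h2

theorem IsBT.restrict {V V' : Set E3} {u : E3 → ℝ} {μ : Measure E3} (h : IsBT u V μ)
    (hV' : IsOpen V') (hVV : V' ⊆ V) : IsBT u V' (μ.restrict V') := by
  refine ⟨?_, ?_⟩
  · intro W hWV hW v hv χ hχ hχc hs
    have h1 := h.1 W (hWV.trans hVV) hW v hv χ hχ hχc hs
    have h2 : ∫ p in V', χ p ∂μ = ∫ p, χ p ∂μ := by
      refine setIntegral_eq_integral_of_forall_compl_eq_zero fun p hp => ?_
      exact image_eq_zero_of_notMem_tsupport fun hp' => hp (hWV (hs hp'))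
    rw [h2]
    exact h1
  · intro p hp
    obtain ⟨W, hWV, hW, hpW, v, hv1, hv2, hv3⟩ := h.2 p (hVV hp)
    refine ⟨W ∩ V', inter_subset_right, hW.inter hV', ⟨hpW, hp⟩, v, ?_, ?_, ?_⟩
    · intro j
      exact ⟨(hv1 j).1.mono inter_subset_left, fun q hq => (hv1 j).2 q hq.1⟩
    · exact fun q hq => hv2 q hq.1
    · exact fun q hq => hv3 q hq.1

end HMA
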