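import Pool.Agent.HMA.Base

/-! module CUT: cut-off functions with controlled derivatives -/

open MeasureTheory Filter Topology Set Matrix
open scoped Manifold ContDiff ENNReal ComplexOrder

namespace HMA

namespace CutAux

/-- the smooth transition -/
noncomputable abbrev S : ℝ → ℝ := Real.smoothTransition

lemma S_contDiff : ContDiff ℝ ∞ S := Real.smoothTransition.contDiff

lemma S1_contDiff : ContDiff ℝ ∞ (deriv S) := by
  have h := S_contDiff
  have := (contDiff_infty_iff_deriv.1 h).2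
  exact this

lemma S2_contDiff : ContDiff ℝ ∞ (deriv (deriv S)) := (contDiff_infty_iff_deriv.1 S1_contDiff).2

lemma zero_of_lt {f : ℝ → ℝ} {c : ℝ} (s : Set ℝ) (hs : IsOpen s) (h : ∀ x ∈ s, f x = c) :
    ∀ x ∈ s, deriv f x = 0 := by
  intro x hx
  have : f =ᶠ[𝓝 x] fun _ => c := by
    filter_upwards [hs.mem_nhds hx] with y hy using h y hy
  rw [this.deriv_eq]
  simp

lemma S1_zero (t : ℝ) (ht : t ≤ 0 ∨ 1 ≤ t) : deriv S t = 0 := by
  have h0 : ∀ x ∈ Iio (0 : ℝ), deriv S x = 0 :=
    zero_of_lt (c := 0) _ isOpen_Iio (fun x hx => Real.smoothTransition.zero_of_nonpos (le_of_lt hx))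
  have h1 : ∀ x ∈ Ioi (1 : ℝ), deriv S x = 0 :=
    zero_of_lt (c := 1) _ isOpen_Ioi (fun x hx => Real.smoothTransition.one_of_one_le (le_of_lt hx))
  have hc : Continuous (deriv S) := S1_contDiff.continuous
  rcases ht with ht | ht
  · have hcl : IsClosed {x | deriv S x = 0} := isClosed_eq hc continuous_const
    have : closure (Iio (0 : ℝ)) ⊆ {x | deriv S x = 0} := hcl.closure_subset_iff.2 h0
    rw [closure_Iio] at this
    exact this ht
  · have hcl : IsClosed {x | deriv S x = 0} := isClosed_eq hc continuous_const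
    have : closure (Ioi (1 : ℝ)) ⊆ {x | deriv S x = 0} := hcl.closure_subset_iff.2 h1
    rw [closure_Ioi] at this
    exact this ht

lemma S2_zero (t : ℝ) (ht : t ≤ 0 ∨ 1 ≤ t) : deriv (deriv S) t = 0 := by
  have h0 : ∀ x ∈ Iio (0 : ℝ), deriv (deriv S) x = 0 :=
    zero_of_lt (c := 0) _ isOpen_Iio (fun x hx => S1_zero x (Or.inl (le_of_lt hx)))
  have h1 : ∀ x ∈ Ioi (1 : ℝ), deriv (deriv S) x = 0 :=
    zero_of_lt (c := 0) _ isOpen_Ioi (fun x hx => S1_zero x (Or.inr (le_of_lt hx)))
  have hc : Continuous (deriv (deriv S)) := S2_contDiff.continuous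
  rcases ht with ht | ht
  · have hcl : IsClosed {x | deriv (deriv S) x = 0} := isClosed_eq hc continuous_const
    have : closure (Iio (0 : ℝ)) ⊆ {x | deriv (deriv S) x = 0} := hcl.closure_subset_iff.2 h0
    rw [closure_Iio] at this
    exact this ht
  · have hcl : IsClosed {x | deriv (deriv S) x = 0} := isClosed_eq hc continuous_const
    have : closure (Ioi (1 : ℝ)) ⊆ {x | deriv (deriv S) x = 0} := hcl.closure_subset_iff.2 h1
    rw [closure_Ioi] at this
    exact this ht

lemma exists_bound : ∃ M : ℝ, 0 < M ∧ (∀ t, |deriv S t| ≤ M) ∧ (∀ t, |deriv (deriv S) t| ≤ M) := by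
  obtain ⟨M1, h1⟩ := isCompact_Icc.exists_bound_of_continuousOn (s := Icc (0 : ℝ) 1)
    S1_contDiff.continuous.continuousOn
  obtain ⟨M2, h2⟩ := isCompact_Icc.exists_bound_of_continuousOn (s := Icc (0 : ℝ) 1)
    S2_contDiff.continuous.continuousOn
  refine ⟨max 1 (max M1 M2), by positivity, ?_, ?_⟩
  · intro t
    by_cases ht : t ∈ Icc (0 : ℝ) 1
    · exact (h1 t ht).trans ((le_max_left _ _).trans (le_max_right _ _))
    · rw [mem_Icc, not_and_or] at ht
      rw [S1_zero t (by rcases ht with h | h <;> [left; right] <;> linarith)]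
      simp
  · intro t
    by_cases ht : t ∈ Icc (0 : ℝ) 1
    · exact (h2 t ht).trans ((le_max_right _ _).trans (le_max_right _ _))
    · rw [mem_Icc, not_and_or] at ht
      rw [S2_zero t (by rcases ht with h | h <;> [left; right] <;> linarith)]
      simp

end CutAux

open CutAux in
/-- `σ(r) = S(ε (r - r0)) S((r1 - r)/β)`, `S = Real.smoothTransition`. -/
theorem exists_cut : ∃ M : ℝ, 0 < M ∧ ∀ r0 r1 ε β : ℝ, 0 < ε → 0 < β → r0 + 1 / ε ≤ r1 - β →
    ∃ σ : ℝ → ℝ, ContDiff ℝ ∞ σ ∧ (∀ r, 0 ≤ σ r ∧ σ r ≤ 1) ∧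
      (∀ r, r ∉ Ioo r0 r1 → σ r = 0 ∧ deriv σ r = 0) ∧
      (∀ r, r0 + 1 / ε ≤ r → r ≤ r1 - β → σ r = 1 ∧ deriv σ r = 0 ∧ deriv (deriv σ) r = 0) ∧
      (∀ r, r ≤ r0 + 1 / ε → |deriv σ r| ≤ M * ε ∧ |deriv (deriv σ) r| ≤ M * ε ^ 2) ∧
      (∀ r, r1 - β ≤ r → |deriv σ r| ≤ M / β ∧ |deriv (deriv σ) r| ≤ M / β ^ 2) := by
  obtain ⟨M, hM, hM1, hM2⟩ := exists_bound
  refine ⟨M, hM, ?_⟩
  intro r0 r1 ε β hε hβ hle
  set p : ℝ → ℝ := fun r => ε * (r - r0) with hp
  set q : ℝ → ℝ := fun r => (r1 - r) / β with hq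
  have hpd : ∀ r, HasDerivAt p ε r := fun r => by
    have := ((hasDerivAt_id r).sub_const r0).const_mul ε
    simpa using this
  have hqd : ∀ r, HasDerivAt q (-(1 / β)) r := fun r => by
    have := ((hasDerivAt_id r).const_sub r1).div_const β
    rw [show -(1 / β) = -1 / β by ring]
    exact this
  have hpc : ContDiff ℝ ∞ p := by rw [hp]; fun_prop
  have hqc : ContDiff ℝ ∞ q := by rw [hq]; fun_prop
  have hS : ∀ t, HasDerivAt S (deriv S t) t := fun t =>
    (S_contDiff.differentiable (by simp)).differentiableAt.hasDerivAt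
  have hS1 : ∀ t, HasDerivAt (deriv S) (deriv (deriv S) t) t := fun t =>
    (S1_contDiff.differentiable (by simp)).differentiableAt.hasDerivAt
  have hA : ∀ r, HasDerivAt (fun r => S (p r)) (deriv S (p r) * ε) r := fun r =>
    (hS (p r)).comp r (hpd r)
  have hB : ∀ r, HasDerivAt (fun r => S (q r)) (deriv S (q r) * (-(1 / β))) r := fun r =>
    (hS (q r)).comp r (hqd r)
  have hA1 : ∀ r, HasDerivAt (fun r => deriv S (p r)) (deriv (deriv S) (p r) * ε) r := fun r =>
    (hS1 (p r)).comp r (hpd r)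
  have hB1 : ∀ r, HasDerivAt (fun r => deriv S (q r)) (deriv (deriv S) (q r) * (-(1 / β))) r :=
    fun r => (hS1 (q r)).comp r (hqd r)
  set σ : ℝ → ℝ := fun r => S (p r) * S (q r) with hσ
  have hd : ∀ r, deriv σ r = deriv S (p r) * ε * S (q r) + S (p r) * (deriv S (q r) * (-(1 / β))) :=
    fun r => ((hA r).mul (hB r)).deriv
  have hd' : deriv σ = fun r => deriv S (p r) * ε * S (q r) +
      S (p r) * (deriv S (q r) * (-(1 / β))) := funext hd
  have hdd : ∀ r, deriv (deriv σ) r =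
      (deriv (deriv S) (p r) * ε * ε * S (q r) + deriv S (p r) * ε * (deriv S (q r) * (-(1 / β)))) +
      (deriv S (p r) * ε * (deriv S (q r) * (-(1 / β))) +
        S (p r) * (deriv (deriv S) (q r) * (-(1 / β)) * (-(1 / β)))) := by
    intro r
    rw [hd']
    exact ((((hA1 r).mul_const ε).mul (hB r)).add
      ((hA r).mul ((hB1 r).mul_const (-(1 / β))))).deriv
  have hp1 : ∀ r, r0 + 1 / ε ≤ r → 1 ≤ p r := by
    intro r hr
    have : 1 / ε ≤ r - r0 := by linarith
    rw [div_le_iff₀ hε] at this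
    simp only [hp]
    linarith [mul_comm ε (r - r0)]
  have hq1 : ∀ r, r ≤ r1 - β → 1 ≤ q r := by
    intro r hr
    simp only [hq]
    rw [le_div_iff₀ hβ]
    linarith
  have hp0 : ∀ r, r ≤ r0 → p r ≤ 0 := by
    intro r hr
    simp only [hp]
    exact mul_nonpos_of_nonneg_of_nonpos hε.le (by linarith)
  have hq0 : ∀ r, r1 ≤ r → q r ≤ 0 := by
    intro r hr
    simp only [hq]
    exact div_nonpos_of_nonpos_of_nonneg (by linarith) hβ.le
  have hone : ∀ t, 1 ≤ t → S t = 1 := fun t ht => Real.smoothTransition.one_of_one_le ht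
  have hzero : ∀ t, t ≤ 0 → S t = 0 := fun t ht => Real.smoothTransition.zero_of_nonpos ht
  have habs : ∀ t, |S t| ≤ 1 := fun t => by
    rw [abs_of_nonneg (Real.smoothTransition.nonneg t)]
    exact Real.smoothTransition.le_one t
  refine ⟨σ, (S_contDiff.comp hpc).mul (S_contDiff.comp hqc), ?_, ?_, ?_, ?_, ?_⟩
  · intro r
    refine ⟨mul_nonneg (Real.smoothTransition.nonneg _) (Real.smoothTransition.nonneg _), ?_⟩
    exact mul_le_one₀ (Real.smoothTransition.le_one _) (Real.smoothTransition.nonneg _)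
      (Real.smoothTransition.le_one _)
  · intro r hr
    rw [mem_Ioo, not_and_or, not_lt, not_lt] at hr
    rcases hr with hr | hr
    · have h := hp0 r hr
      rw [hd r]
      simp only [hσ, hzero _ h, S1_zero _ (Or.inl h)]
      simp
    · have h := hq0 r hr
      rw [hd r]
      simp only [hσ, hzero _ h, S1_zero _ (Or.inl h)]
      simp
  · intro r h1 h2
    have h3 := hp1 r h1
    have h4 := hq1 r h2
    rw [hd r, hdd r]
    simp only [hσ, hone _ h3, hone _ h4, S1_zero _ (Or.inr h3), S1_zero _ (Or.inr h4),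
      S2_zero _ (Or.inr h3), S2_zero _ (Or.inr h4)]
    simp
  · intro r h1
    have h4 := hq1 r (h1.trans hle)
    rw [hd r, hdd r]
    simp only [hone _ h4, S1_zero _ (Or.inr h4), S2_zero _ (Or.inr h4)]
    simp only [mul_one, zero_mul, mul_zero, add_zero]
    constructor
    · rw [abs_mul, abs_of_pos hε]
      exact mul_le_mul_of_nonneg_right (hM1 _) hε.le
    · rw [abs_mul, abs_mul, abs_of_pos hε, mul_assoc, ← pow_two]
      exact mul_le_mul_of_nonneg_right (hM2 _) (by positivity)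
  · intro r h1
    have h3 := hp1 r (hle.trans h1)
    rw [hd r, hdd r]
    simp only [hone _ h3, S1_zero _ (Or.inr h3), S2_zero _ (Or.inr h3)]
    simp only [zero_mul, zero_add, one_mul]
    constructor
    · rw [abs_mul, abs_neg, abs_of_pos (by positivity : (0 : ℝ) < 1 / β), div_eq_mul_one_div M β]
      exact mul_le_mul_of_nonneg_right (hM1 _) (by positivity)
    · rw [abs_mul, abs_mul, abs_neg, abs_of_pos (by positivity : (0 : ℝ) < 1 / β)]
      have : M / β ^ 2 = M * (1 / β) * (1 / β) := by field_simp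
      rw [this]
      exact mul_le_mul_of_nonneg_right (mul_le_mul_of_nonneg_right (hM2 _) (by positivity))
        (by positivity)

end HMA
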