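import Mathlib

/-!
# Monge-Ampere equations on compact complex manifolds: definitions

General definitions used in the statement about Hoelder continuity of solutions of complex
Monge-Ampere equations in semi-positive and big classes.
-/

open MeasureTheory Filter Topology Set Matrix
open scoped Manifold ContDiff ENNReal ComplexOrder

namespace HMA

/-- The model space of complex manifolds of dimension `n`. -/
abbrev Cn (n : ℕ) := Fin n → ℂ

/-- The real second derivative `D²u(p)(v, w)` of a real function on `ℂⁿ`. -/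
noncomputable def D2 {n : ℕ} (u : Cn n → ℝ) (p v w : Cn n) : ℝ :=
  fderiv ℝ (fderiv ℝ u) p v w

/-- The complex Hessian `(∂²u / ∂z_a ∂z̄_b)(p)` of a real function on `ℂⁿ`. -/
noncomputable def cHess {n : ℕ} (u : Cn n → ℝ) (p : Cn n) : Matrix (Fin n) (Fin n) ℂ :=
  fun a b =>
    (((D2 u p (Pi.single a 1) (Pi.single b 1)
        + D2 u p (Pi.single a Complex.I) (Pi.single b Complex.I) : ℝ) : ℂ)
      + ((D2 u p (Pi.single a 1) (Pi.single b Complex.I)
        - D2 u p (Pi.single a Complex.I) (Pi.single b 1) : ℝ) : ℂ) * Complex.I) / 4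

/-- The density of the Monge-Ampere measure `(dd^c u)ⁿ` of a smooth function with respect to
Lebesgue measure; `dd^c = (i/π) ∂∂̄`, so that `(dd^c u)ⁿ = n! (2/π)ⁿ det(u_{ab̄}) dLeb`. -/
noncomputable def maDens {n : ℕ} (u : Cn n → ℝ) (p : Cn n) : ℝ :=
  (n.factorial : ℝ) * (2 / Real.pi) ^ n * (cHess u p).det.re

/-- Smooth plurisubharmonic functions on the open set `V`. -/
def SmoothPshOn {n : ℕ} (u : Cn n → ℝ) (V : Set (Cn n)) : Prop :=
  ContDiffOn ℝ ∞ u V ∧ ∀ p ∈ V, (cHess u p).PosSemidef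

/-- Plurisubharmonic (real valued) functions on the open set `V`: upper semicontinuous, and the
sub-mean value inequality holds on all complex discs contained in `V`. -/
def PshOn {n : ℕ} (u : Cn n → ℝ) (V : Set (Cn n)) : Prop :=
  UpperSemicontinuousOn u V ∧
    ∀ a ∈ V, ∀ b : Cn n, (∀ s : ℂ, ‖s‖ ≤ 1 → a + s • b ∈ V) →
      u a ≤ Real.circleAverage (fun s : ℂ => u (a + s • b)) 0 1

/-- `v 0 ≥ v 1 ≥ ...` is a sequence of smooth plurisubharmonic functions on `W` which decreases
pointwise to `u`. -/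
def DecreasesTo {n : ℕ} (v : ℕ → Cn n → ℝ) (u : Cn n → ℝ) (W : Set (Cn n)) : Prop :=
  (∀ j, SmoothPshOn (v j) W) ∧ (∀ p ∈ W, Antitone fun j => v j p) ∧
    ∀ p ∈ W, Tendsto (fun j => v j p) atTop (𝓝 (u p))

/-- `μ` is the Bedford-Taylor Monge-Ampere measure `(dd^c u)ⁿ` of the locally bounded
plurisubharmonic function `u` on the open set `V`: whenever smooth plurisubharmonic functions
`v j` decrease to `u` on an open set `W ⊆ V`, the measures `(dd^c v j)ⁿ` converge weakly to
`μ` on `W`; and such sequences exist near every point of `V`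
(so that `μ` is determined on `V`). -/
def IsBT {n : ℕ} (u : Cn n → ℝ) (V : Set (Cn n)) (μ : Measure (Cn n)) : Prop :=
  (∀ W ⊆ V, IsOpen W → ∀ v : ℕ → Cn n → ℝ, DecreasesTo v u W →
    ∀ χ : Cn n → ℝ, ContDiff ℝ ∞ χ → HasCompactSupport χ → tsupport χ ⊆ W →
      Tendsto (fun j => ∫ p, χ p * maDens (v j) p) atTop (𝓝 (∫ p, χ p ∂μ))) ∧
  (∀ p ∈ V, ∃ W ⊆ V, IsOpen W ∧ p ∈ W ∧ ∃ v : ℕ → Cn n → ℝ, DecreasesTo v u W)

section Manifold

variable {n : ℕ} {X : Type} [TopologicalSpace X] [ChartedSpace (Cn n) X]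

/-- A smooth closed real `(1,1)`-form on a complex manifold `X`, given by smooth real potentials
in the charts of the atlas, `ω = dd^c (pot e)` in the chart `e`; on overlaps the difference of two
potentials is pluriharmonic. -/
structure ClosedForm (n : ℕ) (X : Type) [TopologicalSpace X] [ChartedSpace (Cn n) X] where
  /-- the potential in the chart `e` -/
  pot : OpenPartialHomeomorph X (Cn n) → Cn n → ℝ
  /-- the potentials are smooth -/
  smooth : ∀ e ∈ atlas (Cn n) X, ContDiffOn ℝ ∞ (pot e) e.target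
  /-- the `(1,1)`-forms `dd^c (pot e)` agree on the overlaps of the charts -/
  compat : ∀ e ∈ atlas (Cn n) X, ∀ e' ∈ atlas (Cn n) X, ∀ p ∈ e.target, e.symm p ∈ e'.source →
    cHess (fun q => pot e q - pot e' (e' (e.symm q))) p = 0

/-- The form is semi-positive. -/
def ClosedForm.SemiPositive (Ω : ClosedForm n X) : Prop :=
  ∀ e ∈ atlas (Cn n) X, ∀ p ∈ e.target, (cHess (Ω.pot e) p).PosSemidef

/-- The form is positive, that is, it is a Kaehler form. -/
def ClosedForm.IsKaehler (Ω : ClosedForm n X) : Prop :=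
  ∀ e ∈ atlas (Cn n) X, ∀ p ∈ e.target, (cHess (Ω.pot e) p).PosDef

variable [MeasurableSpace X]

/-- `ν` is given by a smooth positive volume form. -/
def IsSmoothVolume (n : ℕ) {X : Type} [TopologicalSpace X] [ChartedSpace (Cn n) X]
    [MeasurableSpace X] (ν : Measure X) : Prop :=
  ∀ e ∈ atlas (Cn n) X, ∃ θ : Cn n → ℝ, ContDiffOn ℝ ∞ θ e.target ∧ (∀ p ∈ e.target, 0 < θ p) ∧
    (ν.restrict e.source).map e =
      (volume.restrict e.target).withDensity fun p => ENNReal.ofReal (θ p)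

/-- `ν` is the measure given by the top power `ωⁿ`. -/
def ClosedForm.IsTopPower (Ω : ClosedForm n X) (ν : Measure X) : Prop :=
  ∀ e ∈ atlas (Cn n) X, (ν.restrict e.source).map e =
    (volume.restrict e.target).withDensity fun p => ENNReal.ofReal (maDens (Ω.pot e) p)

/-- `φ` is `ω`-plurisubharmonic. -/
def ClosedForm.IsPsh (Ω : ClosedForm n X) (φ : X → ℝ) : Prop :=
  ∀ e ∈ atlas (Cn n) X, PshOn (fun p => Ω.pot e p + φ (e.symm p)) e.target

/-- `(ω + dd^c φ)ⁿ = ν` in the sense of Bedford and Taylor. -/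
def ClosedForm.SolvesMA (Ω : ClosedForm n X) (φ : X → ℝ) (ν : Measure X) : Prop :=
  ∀ e ∈ atlas (Cn n) X,
    IsBT (fun p => Ω.pot e p + φ (e.symm p)) e.target ((ν.restrict e.source).map e)

end Manifold

section Hoelder

variable {n : ℕ} {X : Type} [TopologicalSpace X]

/-- The distance function `d` is locally bounded by a constant times the euclidean distance in the
charts. Every Riemannian distance has this property. -/
def LipschitzInCharts (n : ℕ) {X : Type} [TopologicalSpace X] [ChartedSpace (Cn n) X]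
    (d : X → X → ℝ) : Prop :=
  (∀ x y, 0 ≤ d x y) ∧ ∀ e ∈ atlas (Cn n) X, ∀ x ∈ e.source, ∃ U ∈ 𝓝 x, ∃ L : ℝ,
    ∀ y ∈ U, ∀ z ∈ U, y ∈ e.source → z ∈ e.source → d y z ≤ L * ‖e y - e z‖

/-- Hoelder continuity with respect to `d`. -/
def HoelderWrt {X : Type} (d : X → X → ℝ) (φ : X → ℝ) : Prop :=
  ∃ C α : ℝ, 0 < α ∧ ∀ x y, |φ x - φ y| ≤ C * d x y ^ α

/-- Local Hoelder continuity in charts. -/
def LocallyHoelderInCharts (n : ℕ) {X : Type} [TopologicalSpace X] [ChartedSpace (Cn n) X]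
    (φ : X → ℝ) : Prop :=
  ∀ e ∈ atlas (Cn n) X, ∀ x ∈ e.source, ∃ U ∈ 𝓝 x, ∃ C α : ℝ, 0 < α ∧
    ∀ y ∈ U, ∀ z ∈ U, y ∈ e.source → z ∈ e.source → |φ y - φ z| ≤ C * ‖e y - e z‖ ^ α

end Hoelder

end HMA
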