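import Pool.Agent.HMA.FamDefs

/-! module FAMA: elementary properties of families of modes -/

open MeasureTheory Filter Topology Set Matrix
open scoped Manifold ContDiff ENNReal ComplexOrder

namespace HMA

namespace Fam

variable (F : Fam)

/-- the intervals are ordered -/
theorem r1_lt_r0 {i j : ℕ} (h : i < j) : (F.md j).r1 < (F.md i).r0 := by
  induction j with
  | zero => omega
  | succ j ih =>
    rcases Nat.lt_or_ge i j with h' | h'
    · have h1 := ih h'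
      have h2 := F.sep j
      have h3 := (F.md j).r01
      linarith
    · have h4 : i = j := by omega
      subst h4
      exact F.sep _

theorem disj_Icc {i j : ℕ} (h : i ≠ j) {ρ : ℝ} (hj : ρ ∈ Icc (F.md j).r0 (F.md j).r1) :
    ρ ∉ Icc (F.md i).r0 (F.md i).r1 := by
  intro hi
  rcases lt_or_gt_of_ne h with h' | h'
  · have h1 := F.r1_lt_r0 h'
    have h2 := hj.2
    have h3 := hi.1
    linarith
  · have h1 := F.r1_lt_r0 h'
    have h2 := hj.1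
    have h3 := hi.2
    linarith

theorem ev_Icc (S : Finset ℕ) (ρ0 : ℝ) (h : ∀ i ∈ S, ρ0 ∉ Icc (F.md i).r0 (F.md i).r1) :
    ∀ᶠ ρ in 𝓝 ρ0, ∀ i ∈ S, ρ ∉ Icc (F.md i).r0 (F.md i).r1 := by
  rw [Filter.eventually_all_finset]
  intro i hi
  have h1 : IsOpen (Icc (F.md i).r0 (F.md i).r1)ᶜ := isClosed_Icc.isOpen_compl
  exact h1.mem_nhds (h i hi)

theorem notIoo {a b ρ : ℝ} (h : ρ ∉ Icc a b) : ρ ∉ Ioo a b := fun h' => h (Ioo_subset_Icc_self h')

/-- near every `ρ0` a partial sum is given by a single mode (possibly the trivial one) -/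
theorem loc (J : ℕ) (ρ0 : ℝ) : ∃ m : Mode F.C, ∀ᶠ ρ in 𝓝 ρ0, ∀ x0 x1,
    F.phiJ J x0 x1 ρ = m.phi (m.xi x0 x1) ρ ∧ F.fJ J x0 x1 ρ = m.f (m.xi x0 x1) ρ := by
  by_cases hj : ∃ j ∈ Finset.range J, ρ0 ∈ Icc (F.md j).r0 (F.md j).r1
  · obtain ⟨j, hjJ, hj⟩ := hj
    refine ⟨F.md j, ?_⟩
    have hev := F.ev_Icc ((Finset.range J).erase j) ρ0 (by
      intro i hi
      exact F.disj_Icc (Finset.ne_of_mem_erase hi) hj)
    filter_upwards [hev] with ρ hρ x0 x1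
    constructor
    · unfold phiJ
      rw [Finset.sum_eq_single j]
      · intro i hi hij
        exact LD.phi_out _ (notIoo (hρ i (Finset.mem_erase.2 ⟨hij, hi⟩)))
      · intro h
        exact absurd hjJ h
    · unfold fJ
      rw [Finset.sum_eq_single j]
      · ring
      · intro i hi hij
        rw [Mode.f_out _ (notIoo (hρ i (Finset.mem_erase.2 ⟨hij, hi⟩))), sub_self]
      · intro h
        exact absurd hjJ h
  · push Not at hj
    refine ⟨Mode.triv F.C F.hC, ?_⟩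
    filter_upwards [F.ev_Icc (Finset.range J) ρ0 hj] with ρ hρ x0 x1
    constructor
    · rw [Mode.triv_phi]
      unfold phiJ
      apply Finset.sum_eq_zero
      intro i hi
      exact LD.phi_out _ (notIoo (hρ i hi))
    · rw [Mode.triv_f]
      unfold fJ
      rw [Finset.sum_eq_zero, add_zero]
      intro i hi
      rw [Mode.f_out _ (notIoo (hρ i hi)), sub_self]

/-- the partial sums are stationary on `ρ ≥ ρ0` -/
theorem stab (ρ0 : ℝ) : ∃ J, ∀ J' ≥ J, ∀ x0 x1 ρ, ρ0 ≤ ρ →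
    F.phiT x0 x1 ρ = F.phiJ J' x0 x1 ρ ∧ F.fT x0 x1 ρ = F.fJ J' x0 x1 ρ := by
  have h1 : ∀ᶠ j in atTop, (F.md j).r1 < ρ0 := F.r1_lim.eventually (eventually_lt_atBot ρ0)
  obtain ⟨J, hJ⟩ := eventually_atTop.1 h1
  refine ⟨J, fun J' hJ' x0 x1 ρ hρ => ?_⟩
  have h2 : ∀ j, j ∉ Finset.range J' → ρ ∉ Ioo (F.md j).r0 (F.md j).r1 := by
    intro j hj h3
    have h4 : J' ≤ j := by simpa using hj
    have h5 := hJ j (le_trans hJ' h4)
    have h6 := h3.2
    linarith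
  constructor
  · unfold phiT phiJ
    apply tsum_eq_sum
    intro j hj
    exact LD.phi_out _ (h2 j hj)
  · unfold fT fJ
    congr 1
    apply tsum_eq_sum
    intro j hj
    rw [Mode.f_out _ (h2 j hj), sub_self]

theorem phiJ_out (J : ℕ) : ∃ B : ℝ, ∀ x0 x1 ρ, B < |ρ| → F.phiJ J x0 x1 ρ = 0 ∧
    F.fJ J x0 x1 ρ = fB ρ := by
  refine ⟨∑ j ∈ Finset.range J, (|(F.md j).r0| + |(F.md j).r1|), fun x0 x1 ρ hρ => ?_⟩
  have h2 : ∀ j ∈ Finset.range J, ρ ∉ Ioo (F.md j).r0 (F.md j).r1 := by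
    intro j hj h3
    have h4 : |(F.md j).r0| + |(F.md j).r1|
        ≤ ∑ j ∈ Finset.range J, (|(F.md j).r0| + |(F.md j).r1|) :=
      Finset.single_le_sum (f := fun j => |(F.md j).r0| + |(F.md j).r1|)
        (fun i _ => by positivity) hj
    have h5 : |ρ| ≤ |(F.md j).r0| + |(F.md j).r1| := by
      rw [abs_le]
      have h6 := neg_abs_le (F.md j).r0
      have h7 := le_abs_self (F.md j).r1
      have h8 := abs_nonneg (F.md j).r0
      have h9 := abs_nonneg (F.md j).r1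
      constructor
      · linarith [h3.1]
      · linarith [h3.2]
    linarith
  constructor
  · unfold phiJ
    exact Finset.sum_eq_zero fun j hj => LD.phi_out _ (h2 j hj)
  · unfold fJ
    rw [Finset.sum_eq_zero, add_zero]
    intro j hj
    rw [Mode.f_out _ (h2 j hj), sub_self]

theorem phiJ_nonneg (J : ℕ) (x0 x1 ρ : ℝ) : 0 ≤ F.phiJ J x0 x1 ρ :=
  Finset.sum_nonneg fun _ _ => LD.phi_nonneg _ _ _

theorem phiJ_succ_le (J : ℕ) (x0 x1 ρ : ℝ) :
    F.phiJ (J + 1) x0 x1 ρ + F.c (J + 1) ≤ F.phiJ J x0 x1 ρ + F.c J := by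
  have h1 := F.phi_le J ((F.md J).xi x0 x1) ρ
  unfold phiJ
  rw [Finset.sum_range_succ]
  linarith

theorem c_anti : Antitone F.c := by
  apply antitone_nat_of_succ_le
  intro n
  have h1 := F.phi_le n 0 0
  have h2 := LD.phi_nonneg (F.md n).toLD 0 0
  linarith

theorem c_nonneg (J : ℕ) : 0 ≤ F.c J :=
  F.c_anti.le_of_tendsto F.c_lim J

theorem phiJ_mono (x0 x1 ρ : ℝ) : Monotone fun J => F.phiJ J x0 x1 ρ := by
  apply monotone_nat_of_le_succ
  intro n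
  unfold phiJ
  rw [Finset.sum_range_succ]
  have h2 := LD.phi_nonneg (F.md n).toLD ((F.md n).xi x0 x1) ρ
  linarith

theorem phiJ_c_anti (x0 x1 ρ : ℝ) : Antitone fun J => F.phiJ J x0 x1 ρ + F.c J :=
  antitone_nat_of_succ_le fun n => F.phiJ_succ_le n x0 x1 ρ

theorem phiJ_le_phiT (J : ℕ) (x0 x1 ρ : ℝ) : F.phiJ J x0 x1 ρ ≤ F.phiT x0 x1 ρ := by
  obtain ⟨J0, h⟩ := F.stab ρ
  rw [(h (max J0 J) (le_max_left _ _) x0 x1 ρ le_rfl).1]
  exact F.phiJ_mono x0 x1 ρ (le_max_right _ _)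

theorem phiT_le (J : ℕ) (x0 x1 ρ : ℝ) : F.phiT x0 x1 ρ ≤ F.phiJ J x0 x1 ρ + F.c J := by
  obtain ⟨J0, h⟩ := F.stab ρ
  rw [(h (max J0 J) (le_max_left _ _) x0 x1 ρ le_rfl).1]
  have h1 := F.phiJ_c_anti x0 x1 ρ (le_max_right J0 J)
  have h2 := F.c_nonneg (max J0 J)
  simp only at h1
  linarith

theorem mode_le_phiT (j : ℕ) (x0 x1 ρ : ℝ) :
    (F.md j).phi ((F.md j).xi x0 x1) ρ ≤ F.phiT x0 x1 ρ := by
  refine le_trans ?_ (F.phiJ_le_phiT (j + 1) x0 x1 ρ)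
  have h1 := F.phiJ_nonneg j x0 x1 ρ
  unfold phiJ at h1 ⊢
  rw [Finset.sum_range_succ]
  linarith

theorem xi_add {C : ℝ} (m : Mode C) (x0 x1 : ℝ) (a b : ℤ) :
    m.xi (x0 + a) (x1 + b) = m.xi x0 x1 + ((m.k0 * a + m.k1 * b : ℤ) : ℝ) := by
  unfold Mode.xi
  push_cast
  ring

theorem phiT_per (x0 x1 ρ : ℝ) (a b : ℤ) : F.phiT (x0 + a) (x1 + b) ρ = F.phiT x0 x1 ρ := by
  unfold phiT
  congr 1
  funext j
  rw [xi_add, Mode.phi_per]

theorem fT_per (x0 x1 ρ : ℝ) (a b : ℤ) : F.fT (x0 + a) (x1 + b) ρ = F.fT x0 x1 ρ := by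
  unfold fT
  congr 2
  funext j
  rw [xi_add, Mode.f_per]

theorem fJ_nonneg (J : ℕ) (x0 x1 ρ : ℝ) : 0 ≤ F.fJ J x0 x1 ρ := by
  obtain ⟨m, hm⟩ := F.loc J ρ
  rw [(hm.self_of_nhds x0 x1).2]
  exact m.f_nonneg _ _

theorem fJ_le (J : ℕ) (x0 x1 ρ : ℝ) : F.fJ J x0 x1 ρ ≤ 12 / Real.pi * F.C := by
  obtain ⟨m, hm⟩ := F.loc J ρ
  rw [(hm.self_of_nhds x0 x1).2]
  exact m.f_le _ _

theorem fT_nonneg (x0 x1 ρ : ℝ) : 0 ≤ F.fT x0 x1 ρ := by
  obtain ⟨J0, h⟩ := F.stab ρ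
  rw [(h J0 le_rfl x0 x1 ρ le_rfl).2]
  exact F.fJ_nonneg _ _ _ _

theorem fT_le (x0 x1 ρ : ℝ) : F.fT x0 x1 ρ ≤ 12 / Real.pi * F.C := by
  obtain ⟨J0, h⟩ := F.stab ρ
  rw [(h J0 le_rfl x0 x1 ρ le_rfl).2]
  exact F.fJ_le _ _ _ _

theorem continuous_fB : Continuous fB := by
  unfold fB
  have h := contDiff_yy.continuous
  fun_prop

attribute [local irreducible] Mode.f HMA.fB

theorem continuous_fJ (J : ℕ) :
    Continuous (fun x : ℝ × ℝ × ℝ => F.fJ J x.1 x.2.1 x.2.2) := by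
  unfold fJ
  have hB : Continuous (fun x : ℝ × ℝ × ℝ => fB x.2.2) :=
    continuous_fB.comp (by fun_prop)
  refine hB.add (continuous_finsetSum _ fun j _ => ?_)
  refine Continuous.sub ?_ hB
  have h1 : Continuous (fun x : ℝ × ℝ × ℝ => ((F.md j).xi x.1 x.2.1, x.2.2)) := by
    unfold Mode.xi
    fun_prop
  exact (F.md j).continuous_f.comp h1

theorem measurable_fT : Measurable (fun x : ℝ × ℝ × ℝ => F.fT x.1 x.2.1 x.2.2) := by
  refine measurable_of_tendsto_metrizable (fun J => (F.continuous_fJ J).measurable) ?_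
  rw [tendsto_pi_nhds]
  intro x
  obtain ⟨J0, h⟩ := F.stab x.2.2
  refine tendsto_const_nhds.congr' ?_
  filter_upwards [eventually_ge_atTop J0] with J hJ
  exact (h J hJ x.1 x.2.1 x.2.2 le_rfl).2

end Fam

end HMA
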