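import Pool.Agent.HMA.ModeF

/-! families of modes: definitions -/

open MeasureTheory Filter Topology Set Matrix
open scoped Manifold ContDiff ENNReal ComplexOrder

namespace HMA

/-- A lacunary family of modes with disjoint supports. -/
structure Fam where
  C : ℝ
  hC : 1 + tau ≤ C
  md : ℕ → Mode C
  c : ℕ → ℝ
  s : ℕ → ℝ
  sep : ∀ j, (md (j + 1)).r1 < (md j).r0
  r1_lim : Tendsto (fun j => (md j).r1) atTop atBot
  phi_le : ∀ j ξ ρ, (md j).phi ξ ρ ≤ c j - c (j + 1)
  c_lim : Tendsto c atTop (𝓝 0)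
  k_lim : Tendsto (fun j => ((md j).k0 : ℝ)) atTop atTop
  s_lim : Tendsto s atTop atBot
  big : ∀ A α : ℝ, 0 < α → ∀ᶠ j in atTop, A * Real.exp (α * s j) < (md j).phi (1 / 2) (s j)

namespace Fam

variable (F : Fam)

/-- partial sum of the first `J` modes -/
noncomputable def phiJ (J : ℕ) (x0 x1 ρ : ℝ) : ℝ :=
  ∑ j ∈ Finset.range J, (F.md j).phi ((F.md j).xi x0 x1) ρ

/-- the solution as a function of `(x, ρ)` -/
noncomputable def phiT (x0 x1 ρ : ℝ) : ℝ := ∑' j, (F.md j).phi ((F.md j).xi x0 x1) ρ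

/-- density of the partial sum -/
noncomputable def fJ (J : ℕ) (x0 x1 ρ : ℝ) : ℝ :=
  fB ρ + ∑ j ∈ Finset.range J, ((F.md j).f ((F.md j).xi x0 x1) ρ - fB ρ)

/-- density of the solution -/
noncomputable def fT (x0 x1 ρ : ℝ) : ℝ :=
  fB ρ + ∑' j, ((F.md j).f ((F.md j).xi x0 x1) ρ - fB ρ)

/-- local potentials of the approximations, in the sheet `s` -/
noncomputable def uJ (s : Bool) (J : ℕ) (p : E3) : ℝ :=
  uW s p + lft (F.phiJ J) s p + F.c J

/-- local potential of the solution -/
noncomputable def uT (s : Bool) (p : E3) : ℝ := uW s p + lft F.phiT s p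

/-- the Monge-Ampere measure of the solution in the sheet `s` -/
noncomputable def mu (s : Bool) : Measure E3 :=
  volume.withDensity fun p => ENNReal.ofReal (lft F.fT s p * theta s p)

end Fam

end HMA
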