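import Pool.Agent.HMA.ModeF

/-! module MODEM: mass of a mode -/

open MeasureTheory Filter Topology Set Matrix
open scoped Manifold ContDiff ENNReal ComplexOrder

namespace HMA

theorem ModeM_continuous_v2 : Continuous v2 := by
  have h := contDiff_yy.continuous
  unfold v2
  fun_prop

namespace Mode

variable {C : ℝ} (m : Mode C)

theorem ModeM_continuous_DD (ξ : ℝ) : Continuous (fun r => DD m.γ m.P m.k0 m.k1 ξ r) := by
  have h1 := contDiff_yy.continuous
  have h2 := m.hγ.continuous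
  unfold DD
  fun_prop

theorem ModeM_T_r0 (ξ : ℝ) : m.T ξ m.r0 = m.r0 := by
  unfold LD.T
  rw [m.q_out m.r0 (by simp)]
  ring

theorem ModeM_T_r1 (ξ : ℝ) : m.T ξ m.r1 = m.r1 := by
  unfold LD.T
  rw [m.q_out m.r1 (by simp)]
  ring

theorem ModeM_continuous_R (ξ : ℝ) : Continuous (fun ρ => m.R ξ ρ) :=
  (m.contDiff_R.continuous).comp (Continuous.prodMk_right ξ)

theorem ModeM_cont_deriv_q : Continuous (deriv m.q) :=
  m.hq.continuous_deriv (by simp)

theorem ModeM_continuous_Rr (ξ : ℝ) : Continuous (fun ρ => m.Rr ξ ρ) := by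
  unfold LD.Rr
  have h1 := m.ModeM_continuous_R ξ
  have h2 := m.ModeM_cont_deriv_q
  refine Continuous.div continuous_const (by fun_prop) ?_
  intro ρ
  have := m.qP (m.R ξ ρ) ξ
  intro h
  linarith

/-- substitution, core -/
theorem ModeM_subst (ξ : ℝ) :
    ∫ ρ in m.r0..m.r1, DD m.γ m.P m.k0 m.k1 ξ (m.R ξ ρ) * (v2 (m.R ξ ρ) * m.Rr ξ ρ) =
      ∫ r in m.r0..m.r1, DD m.γ m.P m.k0 m.k1 ξ r * v2 r := by
  have hcont : Continuous (fun ρ => DD m.γ m.P m.k0 m.k1 ξ (m.R ξ ρ) *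
      (v2 (m.R ξ ρ) * m.Rr ξ ρ)) := by
    have h1 := m.ModeM_continuous_R ξ
    have h2 := m.ModeM_continuous_DD ξ
    have h3 := m.ModeM_continuous_Rr ξ
    have h4 := ModeM_continuous_v2
    exact (h2.comp h1).mul ((h4.comp h1).mul h3)
  have key := intervalIntegral.integral_comp_mul_deriv (a := m.r0) (b := m.r1)
    (f := m.T ξ) (f' := fun r => 1 - deriv m.q r * m.P ξ)
    (g := fun ρ => DD m.γ m.P m.k0 m.k1 ξ (m.R ξ ρ) * (v2 (m.R ξ ρ) * m.Rr ξ ρ))
    (fun r _ => m.hasDerivAt_T ξ r)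
    (by
      have := m.ModeM_cont_deriv_q
      exact Continuous.continuousOn (by fun_prop)) hcont
  rw [m.ModeM_T_r0, m.ModeM_T_r1] at key
  rw [← key]
  apply intervalIntegral.integral_congr
  intro r _
  simp only [Function.comp]
  rw [m.R_T ξ r]
  unfold LD.Rr
  rw [m.R_T ξ r]
  have := m.qP r ξ
  have h : (1 - deriv m.q r * m.P ξ) ≠ 0 := by
    intro h
    linarith
  field_simp

/-- substitution `ρ = T(ξ, r)` -/
theorem integral_f (ξ : ℝ) : ∫ ρ, (m.f ξ ρ - fB ρ) * v2 ρ =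
    6 / Real.pi * (deriv (deriv m.P) ξ *
      ∫ r, m.γ r / (2 * Real.pi) *
        (((m.k0 : ℝ) ^ 2 + (m.k1 : ℝ) ^ 2) * yy r + ((m.k1 : ℝ) - gr * m.k0) ^ 2) * v2 r) := by
  have hr := m.r01.le
  have h1 : ∫ ρ, (m.f ξ ρ - fB ρ) * v2 ρ = ∫ ρ in m.r0..m.r1, (m.f ξ ρ - fB ρ) * v2 ρ := by
    rw [intervalIntegral.integral_of_le hr]
    symm
    apply setIntegral_eq_integral_of_forall_compl_eq_zero
    intro ρ hρ
    rw [m.f_out (fun h => hρ (Ioo_subset_Ioc_self h))]
    ring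
  have h2 : ∫ r, m.γ r / (2 * Real.pi) *
        (((m.k0 : ℝ) ^ 2 + (m.k1 : ℝ) ^ 2) * yy r + ((m.k1 : ℝ) - gr * m.k0) ^ 2) * v2 r =
      ∫ r in m.r0..m.r1, m.γ r / (2 * Real.pi) *
        (((m.k0 : ℝ) ^ 2 + (m.k1 : ℝ) ^ 2) * yy r + ((m.k1 : ℝ) - gr * m.k0) ^ 2) * v2 r := by
    rw [intervalIntegral.integral_of_le hr]
    symm
    apply setIntegral_eq_integral_of_forall_compl_eq_zero
    intro ρ hρ
    rw [m.γ_out ρ (fun h => hρ (Ioo_subset_Ioc_self h))]
    ring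
  rw [h1, h2]
  have hyc := contDiff_yy.continuous
  have hγc := m.hγ.continuous
  have hv := ModeM_continuous_v2
  have h3 : ∀ ρ, (m.f ξ ρ - fB ρ) * v2 ρ = 6 / Real.pi *
      (DD m.γ m.P m.k0 m.k1 ξ (m.R ξ ρ) * (v2 (m.R ξ ρ) * m.Rr ξ ρ) -
        yy ρ * (yy ρ + tau) * v2 ρ) := by
    intro ρ
    unfold Mode.f fB
    have := (v2_pos ρ).ne'
    field_simp
  have hcont1 : Continuous (fun ρ => DD m.γ m.P m.k0 m.k1 ξ (m.R ξ ρ) *
      (v2 (m.R ξ ρ) * m.Rr ξ ρ)) := by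
    have h1 := m.ModeM_continuous_R ξ
    have h2 := m.ModeM_continuous_DD ξ
    have h3 := m.ModeM_continuous_Rr ξ
    exact (h2.comp h1).mul ((hv.comp h1).mul h3)
  have hcont2 : Continuous (fun ρ => yy ρ * (yy ρ + tau) * v2 ρ) := by fun_prop
  have hcont3 : Continuous (fun r => DD m.γ m.P m.k0 m.k1 ξ r * v2 r) :=
    (m.ModeM_continuous_DD ξ).mul hv
  simp_rw [h3]
  rw [intervalIntegral.integral_const_mul, intervalIntegral.integral_sub
    (hcont1.intervalIntegrable _ _) (hcont2.intervalIntegrable _ _), m.ModeM_subst,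
    ← intervalIntegral.integral_sub
    (hcont3.intervalIntegrable _ _) (hcont2.intervalIntegrable _ _),
    ← intervalIntegral.integral_const_mul (deriv (deriv m.P) ξ)]
  congr 1
  apply intervalIntegral.integral_congr
  intro r _
  simp only
  unfold DD
  ring

/-- conservation of mass -/
theorem mass_zero (x1 : ℝ) : ∫ x0 in (0 : ℝ)..1, ∫ ρ, (m.f (m.xi x0 x1) ρ - fB ρ) * v2 ρ = 0 := by
  simp_rw [m.integral_f]
  rw [intervalIntegral.integral_const_mul, intervalIntegral.integral_mul_const]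
  have hk : (m.k0 : ℝ) ≠ 0 := by exact_mod_cast m.hk0
  have hP1 : ContDiff ℝ ∞ (deriv m.P) := (contDiff_infty_iff_deriv.mp m.hP).2
  have hP2 : Continuous (deriv (deriv m.P)) := hP1.continuous_deriv (by simp)
  have hd : ∀ ξ, HasDerivAt (deriv m.P) (deriv (deriv m.P) ξ) ξ := fun ξ =>
    ((hP1.differentiable (by simp)) ξ).hasDerivAt
  have hper : ∀ ξ (n : ℤ), deriv m.P (ξ + n) = deriv m.P ξ := by
    intro ξ n
    have h1 : (fun x => m.P (x + n)) = m.P := funext fun x => m.P_per_int x n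
    have h2 : deriv (fun x => m.P (x + n)) ξ = deriv m.P (ξ + n) := deriv_comp_add_const _ _ _
    rw [← h2, h1]
  have h : ∫ x0 in (0 : ℝ)..1, deriv (deriv m.P) (m.xi x0 x1) = 0 := by
    have h4 : ∀ x0 ∈ uIcc (0 : ℝ) 1, HasDerivAt (fun x => deriv m.P (m.xi x x1) / m.k0)
        (deriv (deriv m.P) (m.xi x0 x1)) x0 := by
      intro x0 _
      have h5 : HasDerivAt (fun x => m.xi x x1) (m.k0 : ℝ) x0 := by
        unfold Mode.xi
        have := ((hasDerivAt_id x0).const_mul (m.k0 : ℝ)).add_const (m.k1 * x1)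
        simpa using this
      have h6 := ((hd (m.xi x0 x1)).comp x0 h5).div_const (m.k0 : ℝ)
      rw [mul_div_assoc, div_self hk, mul_one] at h6
      exact h6
    rw [intervalIntegral.integral_eq_sub_of_hasDerivAt h4]
    · have h7 : m.xi 1 x1 = m.xi 0 x1 + (m.k0 : ℤ) := by
        unfold Mode.xi
        ring
      rw [h7, hper]
      ring
    · apply Continuous.intervalIntegrable
      unfold Mode.xi
      fun_prop
  rw [h]
  ring

end Mode

end HMA
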