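import Pool.Agent.HMA.XMeas4
import Pool.Agent.HMA.BaseA

/-! module XMEAS5: the volume is finite -/

open MeasureTheory Filter Topology Set Matrix
open scoped Manifold ContDiff ENNReal ComplexOrder

namespace HMA

theorem xm5_lintegral_v2_le : ∫⁻ ρ : ℝ, ENNReal.ofReal (v2 ρ) ≤ 1 := by
  have h1 : ∀ n : ℕ, ∫⁻ ρ in Icc (-(n : ℝ)) n, ENNReal.ofReal (v2 ρ) ≤ 1 := by
    intro n
    have hn : -(n : ℝ) ≤ n := by
      have : (0 : ℝ) ≤ n := Nat.cast_nonneg n
      linarith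
    have hcont : Continuous v2 := by
      have := contDiff_yy.continuous
      unfold v2
      fun_prop
    have h2 : ∫ ρ in (-(n : ℝ))..n, v2 ρ = yy n - yy (-(n : ℝ)) :=
      intervalIntegral.integral_eq_sub_of_hasDerivAt (fun x _ => hasDerivAt_yy x)
        (hcont.intervalIntegrable _ _)
    rw [← ofReal_integral_eq_lintegral_ofReal (hcont.integrableOn_Icc)
      (ae_of_all _ fun x => (v2_pos x).le)]
    rw [integral_Icc_eq_integral_Ioc, ← intervalIntegral.integral_of_le hn, h2]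
    rw [ENNReal.ofReal_le_one]
    have := yy_pos (-(n : ℝ))
    have := yy_lt_one (n : ℝ)
    linarith
  have h2 : ∫⁻ ρ : ℝ, ENNReal.ofReal (v2 ρ) =
      ⨆ n : ℕ, ∫⁻ ρ in Icc (-(n : ℝ)) n, ENNReal.ofReal (v2 ρ) := by
    rw [← setLIntegral_univ]
    have h3 : (univ : Set ℝ) = ⋃ n : ℕ, Icc (-(n : ℝ)) n := by
      ext x
      simp only [mem_univ, mem_iUnion, true_iff]
      obtain ⟨n, hn⟩ := exists_nat_ge |x|
      exact ⟨n, abs_le.1 hn⟩
    rw [h3, setLIntegral_iUnion_of_directed]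
    exact Monotone.directed_le fun m n hmn =>
      Icc_subset_Icc (neg_le_neg (Nat.cast_le.2 hmn)) (Nat.cast_le.2 hmn)
  rw [h2]
  exact iSup_le h1

instance : IsFiniteMeasure dV := by
  refine ⟨?_⟩
  have hm : Measurable fun x : ℝ × ℝ × ℝ => (fun _ _ _ => (1 : ℝ)) x.1 x.2.1 x.2.2 :=
    measurable_const
  have h1 := lintegral_FD hm (fun _ _ _ => zero_le_one)
  have h2 : dV univ = ∫⁻ p in FD, ENNReal.ofReal (lft (fun _ _ _ => 1) false p) *
      ENNReal.ofReal (theta false p) := by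
    rw [← setLIntegral_one, setLIntegral_univ, lintegral_dV measurable_const]
    apply lintegral_congr_ae
    apply ae_restrict_of_ae
    have h3 : ∀ᵐ p : E3, p 2 ≠ 0 := by
      rw [ae_iff]
      simp only [ne_eq, not_not]
      rw [volume_pi]
      exact Measure.pi_hyperplane _ 2 0
    filter_upwards [h3] with p hp
    rw [lft, if_neg hp, ENNReal.ofReal_one]
  rw [h2, h1]
  have h3 : ∫⁻ ρ : ℝ, ENNReal.ofReal (Real.pi * (1 * v2 ρ)) ≤ ENNReal.ofReal Real.pi := by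
    have h4 : ∀ ρ : ℝ, ENNReal.ofReal (Real.pi * (1 * v2 ρ)) =
        ENNReal.ofReal Real.pi * ENNReal.ofReal (v2 ρ) := fun ρ => by
      rw [one_mul, ENNReal.ofReal_mul Real.pi_pos.le]
    simp only [h4]
    rw [lintegral_const_mul' _ _ ENNReal.ofReal_ne_top]
    calc ENNReal.ofReal Real.pi * ∫⁻ ρ : ℝ, ENNReal.ofReal (v2 ρ)
        ≤ ENNReal.ofReal Real.pi * 1 := by gcongr; exact xm5_lintegral_v2_le
      _ = _ := mul_one _
  calc ∫⁻ _ in Ico (0 : ℝ) 1, ∫⁻ _ in Ico (0 : ℝ) 1, ∫⁻ ρ : ℝ,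
        ENNReal.ofReal (Real.pi * (1 * v2 ρ))
      ≤ ∫⁻ _ in Ico (0 : ℝ) 1, ∫⁻ _ in Ico (0 : ℝ) 1, ENNReal.ofReal Real.pi := by
        gcongr
    _ < ⊤ := by
        simp [Real.volume_Ico]

end HMA
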