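import Pool.Agent.HMA.FamA
import Pool.Agent.HMA.ModeM
import Pool.Agent.HMA.XMeas5

/-! module FAMM: mass -/

open MeasureTheory Filter Topology Set Matrix
open scoped Manifold ContDiff ENNReal ComplexOrder

namespace HMA

/-- the density of the unperturbed form as a function of `(x, ρ)` -/
noncomputable def fB3 (_ _ ρ : ℝ) : ℝ := fB ρ

theorem FamM_cont_v2 : Continuous v2 := by
  have h : Continuous yy := contDiff_yy.continuous
  have h2 : Continuous (fun r => 2 * yy r * (1 - yy r)) :=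
    (continuous_const.mul h).mul (continuous_const.sub h)
  exact h2

theorem FamM_cont_fB : Continuous fB := by
  have h : Continuous yy := contDiff_yy.continuous
  have h2 : Continuous (fun ρ => 6 / Real.pi * (yy ρ * (yy ρ + tau))) :=
    continuous_const.mul (h.mul (h.add continuous_const))
  exact h2

theorem FamM_fB_pos (ρ : ℝ) : 0 < fB ρ := by
  have h1 := yy_pos ρ
  have h2 := tau_pos
  have h3 := Real.pi_pos
  unfold fB
  positivity

theorem FamM_fB_le (ρ : ℝ) : fB ρ ≤ 6 / Real.pi * (1 + tau) := by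
  have h1 := yy_pos ρ
  have h2 := tau_pos
  have h3 := yy_lt_one ρ
  have h4 : 0 < 6 / Real.pi := by have := Real.pi_pos; positivity
  unfold fB
  apply mul_le_mul_of_nonneg_left _ h4.le
  nlinarith

theorem FamM_int_v2 : Integrable v2 := by
  refine ⟨FamM_cont_v2.aestronglyMeasurable, ?_⟩
  rw [hasFiniteIntegral_iff_ofReal (Eventually.of_forall fun r => (v2_pos r).le)]
  exact lt_of_le_of_lt xm5_lintegral_v2_le ENNReal.one_lt_top

theorem FamM_int_mul {g : ℝ → ℝ} (hg : Continuous g) {C : ℝ} (hC : ∀ r, |g r| ≤ C) :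
    Integrable fun r => g r * v2 r := by
  refine Integrable.mono' (FamM_int_v2.const_mul C) (hg.mul FamM_cont_v2).aestronglyMeasurable ?_
  refine Eventually.of_forall fun r => ?_
  rw [Real.norm_eq_abs, abs_mul, abs_of_pos (v2_pos r)]
  exact mul_le_mul_of_nonneg_right (hC r) (v2_pos r).le

theorem FamM_int_fB : Integrable fun r => fB r * v2 r :=
  FamM_int_mul FamM_cont_fB fun r => by
    rw [abs_of_pos (FamM_fB_pos r)]
    exact FamM_fB_le r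

theorem FamM_base : ∫⁻ ρ : ℝ, ENNReal.ofReal (Real.pi * (fB ρ * v2 ρ)) =
    ENNReal.ofReal (Real.pi * ∫ ρ, fB ρ * v2 ρ) := by
  rw [← ofReal_integral_eq_lintegral_ofReal (FamM_int_fB.const_mul _), integral_const_mul]
  refine Eventually.of_forall fun r => ?_
  have h1 := FamM_fB_pos r
  have h2 := v2_pos r
  have h3 := Real.pi_pos
  change 0 ≤ Real.pi * (fB r * v2 r)
  positivity

theorem FamM_Ico (K : ℝ≥0∞) : ∫⁻ _ in Ico (0 : ℝ) 1, K = K := by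
  simp

namespace Fam

variable (F : Fam)

theorem FamM_cont_f (j : ℕ) (ξ : ℝ) : Continuous fun ρ => (F.md j).f ξ ρ - fB ρ :=
  ((F.md j).continuous_f.comp (Continuous.prodMk_right ξ)).sub FamM_cont_fB

theorem FamM_bdd_f (j : ℕ) (ξ ρ : ℝ) :
    |(F.md j).f ξ ρ - fB ρ| ≤ 12 / Real.pi * F.C + 6 / Real.pi * (1 + tau) := by
  have h1 := (F.md j).f_nonneg ξ ρ
  have h2 := (F.md j).f_le ξ ρ
  have h3 := (FamM_fB_pos ρ).le
  have h4 := FamM_fB_le ρ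
  rw [abs_le]
  constructor <;> linarith

theorem FamM_int_f (j : ℕ) (ξ : ℝ) : Integrable fun ρ => ((F.md j).f ξ ρ - fB ρ) * v2 ρ :=
  FamM_int_mul (F.FamM_cont_f j ξ) (F.FamM_bdd_f j ξ)

/-- the mass of the difference in one fibre -/
noncomputable def FamM_g (j : ℕ) (x1 x0 : ℝ) : ℝ :=
  ∫ ρ, ((F.md j).f ((F.md j).xi x0 x1) ρ - fB ρ) * v2 ρ

theorem FamM_cont_g (j : ℕ) (x1 : ℝ) : Continuous (F.FamM_g j x1) := by
  have h : F.FamM_g j x1 = fun x0 => 6 / Real.pi *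
      (deriv (deriv (F.md j).P) ((F.md j).xi x0 x1) *
      ∫ r, (F.md j).γ r / (2 * Real.pi) *
        ((((F.md j).k0 : ℝ) ^ 2 + ((F.md j).k1 : ℝ) ^ 2) * yy r +
          (((F.md j).k1 : ℝ) - gr * (F.md j).k0) ^ 2) * v2 r) := by
    funext x0
    exact (F.md j).integral_f _
  rw [h]
  have h1 : ContDiff ℝ ∞ (deriv (F.md j).P) := by
    have := (contDiff_infty_iff_deriv.mp (F.md j).hP).2
    exact this
  have h2 : Continuous (deriv (deriv (F.md j).P)) :=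
    (contDiff_infty_iff_deriv.mp h1).2.continuous
  have h3 : Continuous fun x0 => (F.md j).xi x0 x1 := by
    unfold Mode.xi
    fun_prop
  exact continuous_const.mul ((h2.comp h3).mul continuous_const)

theorem FamM_fiber (J : ℕ) (x1 x0 : ℝ) :
    ∫⁻ ρ : ℝ, ENNReal.ofReal (Real.pi * (F.fJ J x0 x1 ρ * v2 ρ)) =
      ENNReal.ofReal (Real.pi * ((∫ ρ, fB ρ * v2 ρ) +
        ∑ j ∈ Finset.range J, F.FamM_g j x1 x0)) ∧
    0 ≤ Real.pi * ((∫ ρ, fB ρ * v2 ρ) + ∑ j ∈ Finset.range J, F.FamM_g j x1 x0) := by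
  have h1 : (fun ρ => F.fJ J x0 x1 ρ * v2 ρ) = fun ρ => fB ρ * v2 ρ +
      ∑ j ∈ Finset.range J, ((F.md j).f ((F.md j).xi x0 x1) ρ - fB ρ) * v2 ρ := by
    funext ρ
    unfold fJ
    rw [add_mul, Finset.sum_mul]
  have hs : Integrable fun ρ => ∑ j ∈ Finset.range J,
      ((F.md j).f ((F.md j).xi x0 x1) ρ - fB ρ) * v2 ρ :=
    integrable_finsetSum _ fun j _ => F.FamM_int_f j _
  have h2 : Integrable fun ρ => F.fJ J x0 x1 ρ * v2 ρ := by
    rw [h1]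
    exact FamM_int_fB.add hs
  have h3 : ∫ ρ, F.fJ J x0 x1 ρ * v2 ρ = (∫ ρ, fB ρ * v2 ρ) +
      ∑ j ∈ Finset.range J, F.FamM_g j x1 x0 := by
    rw [h1, integral_add FamM_int_fB hs, integral_finsetSum _ fun j _ => F.FamM_int_f j _]
    rfl
  have h4 : ∀ ρ, 0 ≤ F.fJ J x0 x1 ρ * v2 ρ := fun ρ =>
    mul_nonneg (F.fJ_nonneg J x0 x1 ρ) (v2_pos ρ).le
  constructor
  · rw [← h3, ← integral_const_mul, ofReal_integral_eq_lintegral_ofReal (h2.const_mul _)]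
    exact Eventually.of_forall fun ρ => mul_nonneg Real.pi_pos.le (h4 ρ)
  · rw [← h3]
    exact mul_nonneg Real.pi_pos.le (integral_nonneg h4)

theorem FamM_slice (J : ℕ) (x1 : ℝ) : ∫⁻ x0 in Ico (0 : ℝ) 1, ∫⁻ ρ : ℝ,
      ENNReal.ofReal (Real.pi * (F.fJ J x0 x1 ρ * v2 ρ)) =
    ∫⁻ _ in Ico (0 : ℝ) 1, ∫⁻ ρ : ℝ, ENNReal.ofReal (Real.pi * (fB ρ * v2 ρ)) := by
  rw [FamM_Ico, FamM_base]
  simp only [fun x0 => (F.FamM_fiber J x1 x0).1]
  have hc : Continuous fun x0 => Real.pi * ((∫ ρ, fB ρ * v2 ρ) +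
      ∑ j ∈ Finset.range J, F.FamM_g j x1 x0) :=
    continuous_const.mul (continuous_const.add (continuous_finsetSum _ fun j _ =>
      F.FamM_cont_g j x1))
  have hi : ∀ {g : ℝ → ℝ}, Continuous g → IntegrableOn g (Ico (0 : ℝ) 1) := fun hg =>
    (hg.integrableOn_Icc (a := 0) (b := 1)).mono_set Ico_subset_Icc_self
  rw [← ofReal_integral_eq_lintegral_ofReal (hi hc)
    (Eventually.of_forall fun x0 => (F.FamM_fiber J x1 x0).2)]
  congr 1
  rw [integral_const_mul, integral_add (hi continuous_const) (hi (continuous_finsetSum _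
    fun j _ => F.FamM_cont_g j x1)), integral_finsetSum _ fun j _ => hi (F.FamM_cont_g j x1)]
  have h0 : ∀ j, ∫ x0 in Ico (0 : ℝ) 1, F.FamM_g j x1 x0 = 0 := by
    intro j
    rw [integral_Ico_eq_integral_Ioc, ← intervalIntegral.integral_of_le zero_le_one]
    exact (F.md j).mass_zero x1
  simp only [h0, Finset.sum_const_zero, add_zero]
  congr 1
  simp

theorem mass_fJ (J : ℕ) : ∫⁻ x1 in Ico (0 : ℝ) 1, ∫⁻ x0 in Ico (0 : ℝ) 1, ∫⁻ ρ : ℝ,
      ENNReal.ofReal (Real.pi * (F.fJ J x0 x1 ρ * v2 ρ)) =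
    ∫⁻ _ in Ico (0 : ℝ) 1, ∫⁻ _ in Ico (0 : ℝ) 1, ∫⁻ ρ : ℝ,
      ENNReal.ofReal (Real.pi * (fB ρ * v2 ρ)) := by
  simp only [F.FamM_slice J]

attribute [local irreducible] Fam.fJ Fam.fT HMA.fB HMA.v2

theorem FamM_meas (J : ℕ) : Measurable fun x : (ℝ × ℝ) × ℝ =>
    ENNReal.ofReal (Real.pi * (F.fJ J x.1.2 x.1.1 x.2 * v2 x.2)) := by
  have h1 : Continuous fun x : (ℝ × ℝ) × ℝ => F.fJ J x.1.2 x.1.1 x.2 :=
    (F.continuous_fJ J).comp (g := fun x : ℝ × ℝ × ℝ => F.fJ J x.1 x.2.1 x.2.2)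
      (f := fun x : (ℝ × ℝ) × ℝ => ((x.1.2, x.1.1, x.2) : ℝ × ℝ × ℝ)) (by fun_prop)
  have h2 : Continuous fun x : (ℝ × ℝ) × ℝ => v2 x.2 := FamM_cont_v2.comp continuous_snd
  exact (continuous_const.mul (h1.mul h2)).measurable.ennreal_ofReal

theorem FamM_le (J : ℕ) (x0 x1 ρ : ℝ) :
    ENNReal.ofReal (Real.pi * (F.fJ J x0 x1 ρ * v2 ρ)) ≤
      ENNReal.ofReal (12 * F.C) * ENNReal.ofReal (v2 ρ) := by
  have hC : 0 ≤ F.C := by
    have := F.hC
    have := tau_pos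
    linarith
  rw [← ENNReal.ofReal_mul (by positivity)]
  apply ENNReal.ofReal_le_ofReal
  have h1 := F.fJ_le J x0 x1 ρ
  have h2 := (v2_pos ρ).le
  have h3 : Real.pi * F.fJ J x0 x1 ρ ≤ 12 * F.C := by
    calc Real.pi * F.fJ J x0 x1 ρ ≤ Real.pi * (12 / Real.pi * F.C) :=
          mul_le_mul_of_nonneg_left h1 Real.pi_pos.le
      _ = 12 * F.C := by
          have := Real.pi_ne_zero
          field_simp
  calc Real.pi * (F.fJ J x0 x1 ρ * v2 ρ) = Real.pi * F.fJ J x0 x1 ρ * v2 ρ := by ring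
    _ ≤ 12 * F.C * v2 ρ := mul_le_mul_of_nonneg_right h3 h2

theorem FamM_bound (J : ℕ) (x0 x1 : ℝ) :
    ∫⁻ ρ : ℝ, ENNReal.ofReal (Real.pi * (F.fJ J x0 x1 ρ * v2 ρ)) ≤ ENNReal.ofReal (12 * F.C) := by
  calc ∫⁻ ρ : ℝ, ENNReal.ofReal (Real.pi * (F.fJ J x0 x1 ρ * v2 ρ))
      ≤ ∫⁻ ρ : ℝ, ENNReal.ofReal (12 * F.C) * ENNReal.ofReal (v2 ρ) :=
        lintegral_mono fun ρ => F.FamM_le J x0 x1 ρ
    _ = ENNReal.ofReal (12 * F.C) * ∫⁻ ρ : ℝ, ENNReal.ofReal (v2 ρ) :=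
        lintegral_const_mul _ FamM_cont_v2.measurable.ennreal_ofReal
    _ ≤ ENNReal.ofReal (12 * F.C) * 1 := by gcongr; exact xm5_lintegral_v2_le
    _ = _ := mul_one _

theorem FamM_lim0 (x0 x1 : ℝ) :
    Tendsto (fun J => ∫⁻ ρ : ℝ, ENNReal.ofReal (Real.pi * (F.fJ J x0 x1 ρ * v2 ρ))) atTop
      (𝓝 (∫⁻ ρ : ℝ, ENNReal.ofReal (Real.pi * (F.fT x0 x1 ρ * v2 ρ)))) := by
  refine tendsto_lintegral_of_dominated_convergence
    (fun ρ => ENNReal.ofReal (12 * F.C) * ENNReal.ofReal (v2 ρ)) ?_ ?_ ?_ ?_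
  · intro J
    exact (F.FamM_meas J).comp (measurable_prodMk_left (x := (x1, x0)))
  · intro J
    exact Eventually.of_forall fun ρ => F.FamM_le J x0 x1 ρ
  · rw [lintegral_const_mul _ FamM_cont_v2.measurable.ennreal_ofReal]
    exact ENNReal.mul_ne_top ENNReal.ofReal_ne_top
      (lt_of_le_of_lt xm5_lintegral_v2_le ENNReal.one_lt_top).ne
  · refine Eventually.of_forall fun ρ => ?_
    obtain ⟨J0, hJ0⟩ := F.stab ρ
    have h : ∀ᶠ J in atTop, ENNReal.ofReal (Real.pi * (F.fT x0 x1 ρ * v2 ρ)) =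
        ENNReal.ofReal (Real.pi * (F.fJ J x0 x1 ρ * v2 ρ)) := by
      filter_upwards [eventually_ge_atTop J0] with J hJ
      have h1 : F.fT x0 x1 ρ = F.fJ J x0 x1 ρ := (hJ0 J hJ x0 x1 ρ le_rfl).2
      rw [h1]
    exact tendsto_const_nhds.congr' h

theorem FamM_lim1 (x1 : ℝ) :
    Tendsto (fun J => ∫⁻ x0 in Ico (0 : ℝ) 1, ∫⁻ ρ : ℝ,
      ENNReal.ofReal (Real.pi * (F.fJ J x0 x1 ρ * v2 ρ))) atTop
      (𝓝 (∫⁻ x0 in Ico (0 : ℝ) 1, ∫⁻ ρ : ℝ,
        ENNReal.ofReal (Real.pi * (F.fT x0 x1 ρ * v2 ρ)))) := by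
  refine tendsto_lintegral_of_dominated_convergence (fun _ => ENNReal.ofReal (12 * F.C))
    ?_ ?_ ?_ ?_
  · intro J
    have h := (F.FamM_meas J).lintegral_prod_right' (ν := (volume : Measure ℝ))
    exact h.comp (measurable_prodMk_left (x := x1))
  · intro J
    exact Eventually.of_forall fun x0 => F.FamM_bound J x0 x1
  · rw [FamM_Ico]
    exact ENNReal.ofReal_ne_top
  · exact Eventually.of_forall fun x0 => F.FamM_lim0 x0 x1

theorem FamM_lim2 :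
    Tendsto (fun J => ∫⁻ x1 in Ico (0 : ℝ) 1, ∫⁻ x0 in Ico (0 : ℝ) 1, ∫⁻ ρ : ℝ,
      ENNReal.ofReal (Real.pi * (F.fJ J x0 x1 ρ * v2 ρ))) atTop
      (𝓝 (∫⁻ x1 in Ico (0 : ℝ) 1, ∫⁻ x0 in Ico (0 : ℝ) 1, ∫⁻ ρ : ℝ,
        ENNReal.ofReal (Real.pi * (F.fT x0 x1 ρ * v2 ρ)))) := by
  refine tendsto_lintegral_of_dominated_convergence (fun _ => ENNReal.ofReal (12 * F.C))
    ?_ ?_ ?_ ?_
  · intro J
    have h := (F.FamM_meas J).lintegral_prod_right' (ν := (volume : Measure ℝ))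
    exact h.lintegral_prod_right' (ν := (volume : Measure ℝ).restrict (Ico 0 1))
  · intro J
    refine Eventually.of_forall fun x1 => ?_
    calc ∫⁻ x0 in Ico (0 : ℝ) 1, ∫⁻ ρ : ℝ, ENNReal.ofReal (Real.pi * (F.fJ J x0 x1 ρ * v2 ρ))
        ≤ ∫⁻ _ in Ico (0 : ℝ) 1, ENNReal.ofReal (12 * F.C) :=
          lintegral_mono fun x0 => F.FamM_bound J x0 x1
      _ = _ := FamM_Ico _
  · rw [FamM_Ico]
    exact ENNReal.ofReal_ne_top
  · exact Eventually.of_forall fun x1 => F.FamM_lim1 x1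

theorem mass_fT : ∫⁻ x1 in Ico (0 : ℝ) 1, ∫⁻ x0 in Ico (0 : ℝ) 1, ∫⁻ ρ : ℝ,
      ENNReal.ofReal (Real.pi * (F.fT x0 x1 ρ * v2 ρ)) =
    ∫⁻ _ in Ico (0 : ℝ) 1, ∫⁻ _ in Ico (0 : ℝ) 1, ∫⁻ ρ : ℝ,
      ENNReal.ofReal (Real.pi * (fB ρ * v2 ρ)) := by
  have h := F.FamM_lim2
  simp only [F.mass_fJ] at h
  exact tendsto_nhds_unique h tendsto_const_nhds

end Fam

theorem FamM_total {h : ℝ → ℝ → ℝ → ℝ} (hp : Per h)
    (hm : Measurable fun x : ℝ × ℝ × ℝ => h x.1 x.2.1 x.2.2) (h0 : ∀ x0 x1 ρ, 0 ≤ h x0 x1 ρ) :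
    (dV.withDensity fun x => ENNReal.ofReal (xf h x)) univ =
      ∫⁻ x1 in Ico (0 : ℝ) 1, ∫⁻ x0 in Ico (0 : ℝ) 1, ∫⁻ ρ : ℝ,
        ENNReal.ofReal (Real.pi * (h x0 x1 ρ * v2 ρ)) := by
  have hmx : Measurable (xf h) := by
    apply measurable_of_mk
    intro s
    simp only [xf_mk hp s]
    exact measurable_lft hm s
  rw [withDensity_apply _ MeasurableSet.univ, setLIntegral_univ,
    lintegral_dV hmx.ennreal_ofReal]
  simp only [xf_mk hp false]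
  exact lintegral_FD hm h0

theorem FamM_per_fB3 : Per fB3 := fun _ _ _ _ _ => rfl

theorem FamM_meas_fB3 : Measurable fun x : ℝ × ℝ × ℝ => fB3 x.1 x.2.1 x.2.2 :=
  FamM_cont_fB.measurable.comp (measurable_snd.comp measurable_snd)

theorem Fam.mass_total (F : Fam) : (dV.withDensity fun x => ENNReal.ofReal (xf F.fT x)) univ =
    (dV.withDensity fun x => ENNReal.ofReal (xf fB3 x)) univ := by
  rw [FamM_total (fun x0 x1 ρ a b => F.fT_per x0 x1 ρ a b) F.measurable_fT F.fT_nonneg,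
    FamM_total FamM_per_fB3 FamM_meas_fB3 (fun _ _ ρ => (FamM_fB_pos ρ).le)]
  exact F.mass_fT

theorem mass_pos : 0 < (dV.withDensity fun x => ENNReal.ofReal (xf fB3 x)) univ := by
  rw [FamM_total FamM_per_fB3 FamM_meas_fB3 (fun _ _ ρ => (FamM_fB_pos ρ).le)]
  change 0 < ∫⁻ _ in Ico (0 : ℝ) 1, ∫⁻ _ in Ico (0 : ℝ) 1, ∫⁻ ρ : ℝ,
      ENNReal.ofReal (Real.pi * (fB ρ * v2 ρ))
  have hmeas : Measurable fun ρ => ENNReal.ofReal (Real.pi * (fB ρ * v2 ρ)) :=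
    (continuous_const.mul (FamM_cont_fB.mul FamM_cont_v2)).measurable.ennreal_ofReal
  rw [FamM_Ico, FamM_Ico, lintegral_pos_iff_support hmeas]
  have h : Function.support (fun ρ => ENNReal.ofReal (Real.pi * (fB ρ * v2 ρ))) = univ := by
    ext ρ
    simp only [Function.mem_support, mem_univ, iff_true]
    have h1 := FamM_fB_pos ρ
    have h2 := v2_pos ρ
    have h3 := Real.pi_pos
    exact (ENNReal.ofReal_pos.mpr (by positivity)).ne'
  rw [h]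
  simp

end HMA
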