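import Pool.Agent.HMA.HessDefs

/-! module HESSB: matrix algebra -/

open MeasureTheory Filter Topology Set Matrix
open scoped Manifold ContDiff ENNReal ComplexOrder

namespace HMA

theorem hessB_apply (y g Y k0 k1 : ℝ) (a : Fin 3 → ℂ) (i j : Fin 3) :
    hm y g Y k0 k1 a i j = (1 / 4 : ℂ) * (
      2 * Real.pi * ((![1, gr, 0] : Fin 3 → ℝ) i * (![1, gr, 0] : Fin 3 → ℝ) j) +
      2 * Real.pi * y * ((![1, 0, 0] : Fin 3 → ℝ) i * (![1, 0, 0] : Fin 3 → ℝ) j) +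
      2 * Real.pi * y * ((![0, 1, 0] : Fin 3 → ℝ) i * (![0, 1, 0] : Fin 3 → ℝ) j) +
      g * ((![k0, k1, 0] : Fin 3 → ℝ) i * (![k0, k1, 0] : Fin 3 → ℝ) j) +
      Y * (a i * (starRingEnd ℂ) (a j))) := by
  rw [hm, Matrix.smul_apply, Matrix.sum_apply, Fin.sum_univ_five]
  simp only [Matrix.smul_apply, vecMulVec_apply, Pi.star_apply, smul_eq_mul]
  congr 1
  have e0 : (![2 * Real.pi, 2 * Real.pi * y, 2 * Real.pi * y, g, Y] : Fin 5 → ℝ) 0 = 2 * Real.pi := rfl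
  have e1 : (![2 * Real.pi, 2 * Real.pi * y, 2 * Real.pi * y, g, Y] : Fin 5 → ℝ) 1 = 2 * Real.pi * y := rfl
  have e2 : (![2 * Real.pi, 2 * Real.pi * y, 2 * Real.pi * y, g, Y] : Fin 5 → ℝ) 2 = 2 * Real.pi * y := rfl
  have e3 : (![2 * Real.pi, 2 * Real.pi * y, 2 * Real.pi * y, g, Y] : Fin 5 → ℝ) 3 = g := rfl
  have e4 : (![2 * Real.pi, 2 * Real.pi * y, 2 * Real.pi * y, g, Y] : Fin 5 → ℝ) 4 = Y := rfl
  have f0 : (![![1, (gr : ℂ), 0], ![1, 0, 0], ![0, 1, 0], ![(k0 : ℂ), (k1 : ℂ), 0], a] :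
          Fin 5 → Fin 3 → ℂ) 0 = fun i => (((![1, gr, 0] : Fin 3 → ℝ) i : ℝ) : ℂ) := by
    funext i; fin_cases i <;> simp
  have f1 : (![![1, (gr : ℂ), 0], ![1, 0, 0], ![0, 1, 0], ![(k0 : ℂ), (k1 : ℂ), 0], a] :
          Fin 5 → Fin 3 → ℂ) 1 = fun i => (((![1, 0, 0] : Fin 3 → ℝ) i : ℝ) : ℂ) := by
    funext i; fin_cases i <;> simp
  have f2 : (![![1, (gr : ℂ), 0], ![1, 0, 0], ![0, 1, 0], ![(k0 : ℂ), (k1 : ℂ), 0], a] :
          Fin 5 → Fin 3 → ℂ) 2 = fun i => (((![0, 1, 0] : Fin 3 → ℝ) i : ℝ) : ℂ) := by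
    funext i; fin_cases i <;> simp
  have f3 : (![![1, (gr : ℂ), 0], ![1, 0, 0], ![0, 1, 0], ![(k0 : ℂ), (k1 : ℂ), 0], a] :
          Fin 5 → Fin 3 → ℂ) 3 = fun i => (((![k0, k1, 0] : Fin 3 → ℝ) i : ℝ) : ℂ) := by
    funext i; fin_cases i <;> simp
  have f4 : (![![1, (gr : ℂ), 0], ![1, 0, 0], ![0, 1, 0], ![(k0 : ℂ), (k1 : ℂ), 0], a] :
          Fin 5 → Fin 3 → ℂ) 4 = a := rfl
  rw [e0, e1, e2, e3, e4, f0, f1, f2, f3, f4]
  simp only [RCLike.star_def, Complex.conj_ofReal]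
  push_cast
  ring

theorem hm_det (y g Y k0 k1 : ℝ) (a : Fin 3 → ℂ) :
    (hm y g Y k0 k1 a).det = ((1 / 64 * (Y * ‖a 2‖ ^ 2) * (4 * Real.pi ^ 2) *
      (y * (y + tau) + g / (2 * Real.pi) * ((k0 ^ 2 + k1 ^ 2) * y + (k1 - gr * k0) ^ 2)) : ℝ) :
        ℂ) := by
  have hpi : (Real.pi : ℂ) ≠ 0 := by exact_mod_cast Real.pi_ne_zero
  have h2 : ((‖a 2‖ : ℝ) : ℂ) ^ 2 = a 2 * (starRingEnd ℂ) (a 2) := by
    rw [Complex.mul_conj, Complex.normSq_eq_norm_sq]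
    push_cast
    ring
  rw [Matrix.det_fin_three]
  push_cast
  rw [h2, tau]
  simp only [hessB_apply, Matrix.cons_val, Matrix.cons_val_zero, Matrix.cons_val_one]
  push_cast
  field_simp
  ring

/-- a vector with real entries -/
noncomputable def hessB_vec (u : Fin 3 → ℝ) : Fin 3 → ℂ := fun i => (u i : ℂ)

theorem hessB_eq {y g Y k0 k1 E D : ℝ} (a : Fin 3 → ℂ) (hE : E ≠ 0)
    (hE' : E = (k0 ^ 2 + k1 ^ 2) * y + (k1 - gr * k0) ^ 2)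
    (hD' : D = y * (y + tau) + g / (2 * Real.pi) * E) :
    hm y g Y k0 k1 a =
      ((2 * Real.pi * D / (4 * E) : ℝ) : ℂ) •
        vecMulVec (hessB_vec ![k0, k1, 0]) (star (hessB_vec ![k0, k1, 0])) +
      ((2 * Real.pi / (4 * E) : ℝ) : ℂ) •
        vecMulVec (hessB_vec ![gr * k0 - (1 + y) * k1, (gr ^ 2 + y) * k0 - gr * k1, 0])
          (star (hessB_vec ![gr * k0 - (1 + y) * k1, (gr ^ 2 + y) * k0 - gr * k1, 0])) +
      ((Y / 4 : ℝ) : ℂ) • vecMulVec a (star a) := by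
  ext i j
  rw [hessB_apply, Matrix.add_apply, Matrix.add_apply, Matrix.smul_apply, Matrix.smul_apply,
    Matrix.smul_apply, vecMulVec_apply, vecMulVec_apply, vecMulVec_apply]
  simp only [Pi.star_apply, hessB_vec, RCLike.star_def, Complex.conj_ofReal, smul_eq_mul]
  have hpi : Real.pi ≠ 0 := Real.pi_ne_zero
  have h : (1 / 4 : ℝ) * (
      2 * Real.pi * ((![1, gr, 0] : Fin 3 → ℝ) i * (![1, gr, 0] : Fin 3 → ℝ) j) +
      2 * Real.pi * y * ((![1, 0, 0] : Fin 3 → ℝ) i * (![1, 0, 0] : Fin 3 → ℝ) j) +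
      2 * Real.pi * y * ((![0, 1, 0] : Fin 3 → ℝ) i * (![0, 1, 0] : Fin 3 → ℝ) j) +
      g * ((![k0, k1, 0] : Fin 3 → ℝ) i * (![k0, k1, 0] : Fin 3 → ℝ) j)) =
      2 * Real.pi * D / (4 * E) * ((![k0, k1, 0] : Fin 3 → ℝ) i * (![k0, k1, 0] : Fin 3 → ℝ) j) +
      2 * Real.pi / (4 * E) *
        ((![gr * k0 - (1 + y) * k1, (gr ^ 2 + y) * k0 - gr * k1, 0] : Fin 3 → ℝ) i *
        (![gr * k0 - (1 + y) * k1, (gr ^ 2 + y) * k0 - gr * k1, 0] : Fin 3 → ℝ) j) := by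
    rw [hD', tau]
    field_simp
    rw [hE']
    fin_cases i <;> fin_cases j <;>
      simp only [Matrix.cons_val, Matrix.cons_val_zero, Matrix.cons_val_one, Fin.zero_eta,
        Fin.mk_one, Fin.reduceFinMk] <;> ring
  have h' := congrArg (fun t : ℝ => (t : ℂ)) h
  push_cast at h'
  push_cast
  linear_combination h'

theorem hm_posSemidef {y g Y k0 k1 : ℝ} (a : Fin 3 → ℂ) (hy : 0 < y) (hY : 0 ≤ Y)
    (hk : k0 ≠ 0)
    (hD : 0 ≤ y * (y + tau) + g / (2 * Real.pi) * ((k0 ^ 2 + k1 ^ 2) * y + (k1 - gr * k0) ^ 2)) :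
    (hm y g Y k0 k1 a).PosSemidef := by
  have hE : 0 < (k0 ^ 2 + k1 ^ 2) * y + (k1 - gr * k0) ^ 2 := by positivity
  rw [hessB_eq a hE.ne' rfl rfl]
  have hpi := Real.pi_pos
  refine ((?_ : Matrix.PosSemidef _).add ?_).add ?_
  · refine (posSemidef_vecMulVec_self_star _).smul ?_
    rw [Complex.zero_le_real]
    positivity
  · refine (posSemidef_vecMulVec_self_star _).smul ?_
    rw [Complex.zero_le_real]
    positivity
  · refine (posSemidef_vecMulVec_self_star _).smul ?_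
    rw [Complex.zero_le_real]
    positivity

end HMA
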