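import Pool.Agent.HMA.HessA
import Pool.Agent.HMA.HessB

/-! module HESSC: density and positivity -/

open MeasureTheory Filter Topology Set Matrix
open scoped Manifold ContDiff ENNReal ComplexOrder

namespace HMA

theorem maDens_uM {C : ℝ} (m : Mode C) (s : Bool) {p : E3} (hp : p 2 ≠ 0) :
    maDens (uM m s) p = m.f (m.xi (p 0).re (p 1).re) (rho s p) * theta s p := by
  have hn : ‖p 2‖ ≠ 0 := norm_ne_zero_iff.2 hp
  have hv : v2 (rho s p) ≠ 0 := (v2_pos _).ne'
  have ha : ‖avec m s p 2‖ ^ 2 = 1 / ‖p 2‖ ^ 2 := by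
    have : avec m s p 2 = (sg s : ℂ) / p 2 := rfl
    rw [this, norm_div, div_pow]
    congr 1
    cases s <;> simp [sg]
  unfold maDens
  rw [cHess_uM m s hp]
  simp only
  rw [hm_det, ha, theta_eq s hp, Complex.ofReal_re]
  unfold Mode.f DD
  have hf : (Nat.factorial 3 : ℝ) = 6 := by norm_num [Nat.factorial]
  rw [hf]
  have hpi : Real.pi ≠ 0 := Real.pi_ne_zero
  field_simp
  ring

theorem posSemidef_uM {C : ℝ} (m : Mode C) (s : Bool) {p : E3} (hp : p 2 ≠ 0) :
    (cHess (uM m s) p).PosSemidef := by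
  rw [cHess_uM m s hp]
  refine hm_posSemidef _ (yy_pos _) (mul_nonneg (v2_pos _).le (m.Rr_pos _ _).le)
    (Int.cast_ne_zero.2 m.hk0) ?_
  have h := m.D_nonneg (m.xi (p 0).re (p 1).re) (m.R (m.xi (p 0).re (p 1).re) (rho s p))
  unfold DD at h
  exact h

end HMA
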