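import Pool.Agent.HMA.FamA
import Pool.Agent.HMA.HessC

/-! module FAMU1: the approximating potentials are smooth and plurisubharmonic -/

open MeasureTheory Filter Topology Set Matrix
open scoped Manifold ContDiff ENNReal ComplexOrder

namespace HMA

namespace Fam

variable (F : Fam)

theorem uJ_eventually (s : Bool) (J : ℕ) {p : E3} (hp : p 2 ≠ 0) :
    ∃ m : Mode F.C, (F.uJ s J =ᶠ[𝓝 p] fun q => uM m s q + F.c J) ∧
      F.fJ J (p 0).re (p 1).re (rho s p) = m.f (m.xi (p 0).re (p 1).re) (rho s p) := by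
  obtain ⟨m, hm⟩ := F.loc J (rho s p)
  refine ⟨m, ?_, (hm.self_of_nhds _ _).2⟩
  have h1 : ∀ᶠ q in 𝓝 p, ∀ x0 x1, F.phiJ J x0 x1 (rho s q) = m.phi (m.xi x0 x1) (rho s q) ∧
      F.fJ J x0 x1 (rho s q) = m.f (m.xi x0 x1) (rho s q) :=
    (contDiffAt_rho s hp).continuousAt.eventually hm
  have h2 : ∀ᶠ q : E3 in 𝓝 p, q 2 ≠ 0 :=
    (continuous_apply (2 : Fin 3)).continuousAt.eventually_ne hp
  filter_upwards [h1, h2] with q hq1 hq2
  unfold uJ uM lft
  rw [if_neg hq2, (hq1 _ _).1]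

theorem uJ_eventually_zero (s : Bool) (J : ℕ) {p : E3} (hp : p 2 = 0) :
    F.uJ s J =ᶠ[𝓝 p] fun q => uW s q + F.c J := by
  obtain ⟨B, hB⟩ := F.phiJ_out J
  filter_upwards [rho_near_zero s p hp B] with q hq
  unfold uJ lft
  split_ifs with h
  · ring
  · have h1 := hq h
    have h2 : B < |rho s q| := by
      refine h1.trans_le ?_
      have : |(- sg s * rho s q)| = |rho s q| := by
        rw [abs_mul]
        cases s <;> simp [sg]
      rw [← this]
      exact le_abs_self _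
    rw [(hB _ _ _ h2).1]
    ring

theorem dense_ne_zero : Dense {p : E3 | p 2 ≠ 0} := by
  intro p
  rw [mem_closure_iff_seq_limit]
  by_cases hp : p 2 = 0
  · refine ⟨fun n => p + (1 / ((n : ℝ) + 1)) • (Pi.single 2 1 : E3), ?_, ?_⟩
    · intro n
      have : ((1 : ℝ) / ((n : ℝ) + 1)) ≠ 0 := by positivity
      simp [hp]
      exact_mod_cast Nat.succ_ne_zero n
    · have h := tendsto_one_div_add_atTop_nhds_zero_nat (𝕜 := ℝ)
      have h2 := (h.smul_const (Pi.single 2 1 : E3)).const_add p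
      simpa using h2
  · exact ⟨fun _ => p, fun _ => hp, tendsto_const_nhds⟩

theorem contDiff_uJ (s : Bool) (J : ℕ) : ContDiff ℝ ∞ (F.uJ s J) := by
  rw [contDiff_iff_contDiffAt]
  intro p
  by_cases hp : p 2 = 0
  · refine ContDiffAt.congr_of_eventuallyEq ?_ (F.uJ_eventually_zero s J hp)
    exact ((contDiff_uW s).contDiffAt).add contDiffAt_const
  · obtain ⟨m, hm, -⟩ := F.uJ_eventually s J hp
    refine ContDiffAt.congr_of_eventuallyEq ?_ hm
    exact (contDiffAt_uM m s hp).add contDiffAt_const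

theorem smoothPshOn_uJ (s : Bool) (J : ℕ) : SmoothPshOn (F.uJ s J) univ := by
  refine ⟨(F.contDiff_uJ s J).contDiffOn, ?_⟩
  refine posSemidef_of_dense isOpen_univ (F.contDiff_uJ s J).contDiffOn
    (S := {p : E3 | p 2 ≠ 0}) ?_ ?_
  · rw [inter_univ, dense_ne_zero.closure_eq]
  · rintro p ⟨hp, -⟩
    obtain ⟨m, hm, -⟩ := F.uJ_eventually s J hp
    rw [cHess_congr hm, cHess_add_const]
    exact posSemidef_uM m s hp

theorem maDens_uJ (s : Bool) (J : ℕ) {p : E3} (hp : p 2 ≠ 0) :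
    maDens (F.uJ s J) p = lft (F.fJ J) s p * theta s p := by
  obtain ⟨m, hm, hf⟩ := F.uJ_eventually s J hp
  have h := maDens_uM m s hp
  unfold lft
  rw [if_neg hp, hf, ← h]
  unfold maDens
  rw [cHess_congr hm, cHess_add_const]

end Fam

end HMA
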