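import Pool.Agent.HMA.Calc2

/-! module PSH: plurisubharmonic functions -/

open MeasureTheory Filter Topology Set Matrix
open scoped Manifold ContDiff ENNReal ComplexOrder

namespace HMA

section onevar

private theorem swapI {F : ℝ → ℝ → ℝ} {a b c d : ℝ} (hab : a ≤ b) (hcd : c ≤ d)
    (hF : ContinuousOn (Function.uncurry F) (Icc a b ×ˢ Icc c d)) :
    ∫ x in a..b, ∫ y in c..d, F x y = ∫ y in c..d, ∫ x in a..b, F x y := by
  rw [intervalIntegral.integral_of_le hab, intervalIntegral.integral_of_le hcd]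
  simp_rw [intervalIntegral.integral_of_le hab, intervalIntegral.integral_of_le hcd]
  apply MeasureTheory.integral_integral_swap
  rw [Measure.prod_restrict]
  exact (hF.integrableOn_compact (isCompact_Icc.prod isCompact_Icc)).mono_set
    (Set.prod_mono Ioc_subset_Icc_self Ioc_subset_Icc_self)

/-- the unit circle -/
private noncomputable def ee (θ : ℝ) : ℂ := Complex.exp (θ * Complex.I)

private theorem norm_ee (θ : ℝ) : ‖ee θ‖ = 1 := Complex.norm_exp_ofReal_mul_I θ

private theorem continuous_ee : Continuous ee := by unfold ee; fun_prop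

private theorem hasDerivAt_ee (θ : ℝ) : HasDerivAt ee (Complex.I * ee θ) θ := by
  unfold ee
  have h1 : HasDerivAt (fun θ : ℝ => (θ : ℂ) * Complex.I) (1 * Complex.I) θ :=
    (Complex.ofRealCLM.hasDerivAt (x := θ)).mul_const Complex.I
  have h2 := h1.cexp
  rw [one_mul, mul_comm] at h2
  exact h2

private theorem ee_periodic : ee (2 * Real.pi) = ee 0 := by
  unfold ee
  rw [Complex.ofReal_mul, Complex.ofReal_ofNat, Complex.exp_two_pi_mul_I]
  simp

private theorem smul_ee_mem {V : Set ℂ} (hd : Metric.closedBall (0 : ℂ) 1 ⊆ V) {s : ℝ}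
    (hs : s ∈ Icc (0 : ℝ) 1) (θ : ℝ) : s • ee θ ∈ V := by
  apply hd
  rw [mem_closedBall_zero_iff, norm_smul, norm_ee, mul_one, Real.norm_of_nonneg hs.1]
  exact hs.2

private theorem lap_rot (B : ℂ →L[ℝ] ℂ →L[ℝ] ℝ) {z : ℂ} (hz : ‖z‖ = 1) :
    B z z + B (Complex.I * z) (Complex.I * z) = B 1 1 + B Complex.I Complex.I := by
  have h1 : z = z.re • (1 : ℂ) + z.im • Complex.I := by
    rw [Complex.real_smul, Complex.real_smul, mul_one]
    exact (Complex.re_add_im z).symm
  have h2 : Complex.I * z = (-z.im) • (1 : ℂ) + z.re • Complex.I := by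
    apply Complex.ext <;> simp
  have h3 : z.re ^ 2 + z.im ^ 2 = 1 := by
    have := Complex.sq_norm z
    rw [hz, Complex.normSq_apply] at this
    nlinarith
  rw [h2]
  nth_rewrite 1 2 [h1]
  simp only [map_add, map_smul, _root_.add_apply, _root_.smul_apply,
    smul_eq_mul]
  linear_combination (B 1 1 + B Complex.I Complex.I) * h3

/-- one variable: a `C²` function with nonnegative Laplacian satisfies the sub-mean value
inequality -/
theorem submean_of_laplacian {V : Set ℂ} (hV : IsOpen V) {h : ℂ → ℝ} (hh : ContDiffOn ℝ 2 h V)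
    (hd : Metric.closedBall (0 : ℂ) 1 ⊆ V)
    (hl : ∀ s ∈ V, 0 ≤ fderiv ℝ (fderiv ℝ h) s 1 1 + fderiv ℝ (fderiv ℝ h) s Complex.I Complex.I) :
    h 0 ≤ Real.circleAverage h 0 1 := by
  have h2pi : (0 : ℝ) ≤ 2 * Real.pi := by positivity
  have hh1 : ContDiffOn ℝ 1 (fderiv ℝ h) V := hh.fderiv_of_isOpen hV (by norm_num)
  have c0 : ContinuousOn h V := hh.continuousOn
  have c1 : ContinuousOn (fderiv ℝ h) V := hh1.continuousOn
  have c2 : ContinuousOn (fderiv ℝ (fderiv ℝ h)) V := hh1.continuousOn_fderiv_of_isOpen hV le_rfl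
  have d1 : ∀ z ∈ V, HasFDerivAt h (fderiv ℝ h z) z := fun z hz =>
    ((hh.contDiffAt (hV.mem_nhds hz)).differentiableAt (by norm_num)).hasFDerivAt
  have d2 : ∀ z ∈ V, HasFDerivAt (fderiv ℝ h) (fderiv ℝ (fderiv ℝ h) z) z := fun z hz =>
    ((hh1.contDiffAt (hV.mem_nhds hz)).differentiableAt (by norm_num)).hasFDerivAt
  have hm : ContinuousOn (fun p : ℝ × ℝ => p.1 • ee p.2) (Icc (0 : ℝ) 1 ×ˢ univ) :=
    (continuous_fst.smul (continuous_ee.comp continuous_snd)).continuousOn
  have hmaps : MapsTo (fun p : ℝ × ℝ => p.1 • ee p.2) (Icc (0 : ℝ) 1 ×ˢ univ) V :=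
    fun p hp => smul_ee_mem hd hp.1 p.2
  -- the radial derivative
  set P : ℝ → ℝ → ℝ := fun s θ => fderiv ℝ h (s • ee θ) (ee θ) with hP
  set B : ℝ → ℝ → ℂ →L[ℝ] ℂ →L[ℝ] ℝ := fun s θ => fderiv ℝ (fderiv ℝ h) (s • ee θ) with hB
  set Q : ℝ → ℝ → ℝ := fun s θ => P s θ + s * B s θ (ee θ) (ee θ) with hQ
  have ce : ContinuousOn (fun p : ℝ × ℝ => ee p.2) (Icc (0 : ℝ) 1 ×ˢ univ) :=
    (continuous_ee.comp continuous_snd).continuousOn
  have cP : ContinuousOn (Function.uncurry P) (Icc (0 : ℝ) 1 ×ˢ univ) :=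
    (c1.comp hm hmaps).clm_apply ce
  have cB : ContinuousOn (Function.uncurry B) (Icc (0 : ℝ) 1 ×ˢ univ) := c2.comp hm hmaps
  have cQ : ContinuousOn (Function.uncurry Q) (Icc (0 : ℝ) 1 ×ˢ univ) :=
    cP.add (continuous_fst.continuousOn.mul ((cB.clm_apply ce).clm_apply ce))
  have slice : ∀ {F : ℝ → ℝ → ℝ}, ContinuousOn (Function.uncurry F) (Icc (0 : ℝ) 1 ×ˢ univ) →
      ∀ θ, ContinuousOn (fun s => F s θ) (Icc 0 1) := fun hF θ =>
    hF.comp (f := fun s : ℝ => (s, θ)) (by fun_prop) (fun s hs => ⟨hs, trivial⟩)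
  have slice' : ∀ {F : ℝ → ℝ → ℝ}, ContinuousOn (Function.uncurry F) (Icc (0 : ℝ) 1 ×ˢ univ) →
      ∀ s ∈ Icc (0 : ℝ) 1, Continuous (fun θ => F s θ) := fun hF s hs => by
    rw [← continuousOn_univ]
    exact hF.comp (f := fun θ : ℝ => (s, θ)) (by fun_prop) (fun θ _ => ⟨hs, trivial⟩)
  have f1 : ∀ θ : ℝ, ∀ r ∈ Icc (0 : ℝ) 1, ∫ s in (0 : ℝ)..r, P s θ = h (r • ee θ) - h 0 := by
    intro θ r hr
    have hsub : Set.uIcc 0 r ⊆ Icc (0 : ℝ) 1 := by
      rw [uIcc_of_le hr.1]; exact Icc_subset_Icc_right hr.2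
    have := intervalIntegral.integral_eq_sub_of_hasDerivAt (f := fun s : ℝ => h (s • ee θ))
      (f' := fun s => P s θ) (a := 0) (b := r) (fun s hs => ?_)
      (((slice cP θ).mono hsub).intervalIntegrable)
    · rw [this]; simp
    · have h1 : HasDerivAt (fun s : ℝ => s • ee θ) (ee θ) s := by
        simpa using (hasDerivAt_id s).smul_const (ee θ)
      exact (d1 _ (smul_ee_mem hd (hsub hs) θ)).comp_hasDerivAt s h1
  have f2 : ∀ θ : ℝ, ∀ r ∈ Icc (0 : ℝ) 1, ∫ s in (0 : ℝ)..r, Q s θ = r * P r θ := by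
    intro θ r hr
    have hsub : Set.uIcc 0 r ⊆ Icc (0 : ℝ) 1 := by
      rw [uIcc_of_le hr.1]; exact Icc_subset_Icc_right hr.2
    have := intervalIntegral.integral_eq_sub_of_hasDerivAt (f := fun s : ℝ => s * P s θ)
      (f' := fun s => Q s θ) (a := 0) (b := r) (fun s hs => ?_)
      (((slice cQ θ).mono hsub).intervalIntegrable)
    · rw [this]; simp
    · have h1 : HasDerivAt (fun s : ℝ => s • ee θ) (ee θ) s := by
        simpa using (hasDerivAt_id s).smul_const (ee θ)
      have h2 := (d2 _ (smul_ee_mem hd (hsub hs) θ)).comp_hasDerivAt s h1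
      have h3 : HasDerivAt (fun s : ℝ => P s θ) (B s θ (ee θ) (ee θ)) s := by
        exact (h2.clm_apply (hasDerivAt_const s (ee θ))).congr_deriv (by simp [hB])
      exact ((hasDerivAt_id s).mul h3).congr_deriv (by simp [hQ])
  have f3 : ∀ s ∈ Icc (0 : ℝ) 1, 0 ≤ ∫ θ in (0 : ℝ)..(2 * Real.pi), Q s θ := by
    intro s hs
    have cBB : Continuous (fun θ => B s θ) := by
      rw [← continuousOn_univ]
      exact cB.comp (f := fun θ : ℝ => (s, θ)) (by fun_prop) (fun θ _ => ⟨hs, trivial⟩)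
    have cIe : Continuous (fun θ => Complex.I * ee θ) := continuous_const.mul continuous_ee
    have cBI : Continuous (fun θ => B s θ (Complex.I * ee θ) (Complex.I * ee θ)) :=
      (cBB.clm_apply cIe).clm_apply cIe
    have cBe : Continuous (fun θ => B s θ (ee θ) (ee θ)) :=
      (cBB.clm_apply continuous_ee).clm_apply continuous_ee
    have h0 : ∫ θ in (0 : ℝ)..(2 * Real.pi),
        (s * B s θ (Complex.I * ee θ) (Complex.I * ee θ) - P s θ) = 0 := by
      have := intervalIntegral.integral_eq_sub_of_hasDerivAt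
        (f := fun θ : ℝ => fderiv ℝ h (s • ee θ) (Complex.I * ee θ))
        (f' := fun θ => s * B s θ (Complex.I * ee θ) (Complex.I * ee θ) - P s θ)
        (a := 0) (b := 2 * Real.pi) (fun θ _ => ?_)
        (((continuous_const.mul cBI).sub (slice' cP s hs)).intervalIntegrable _ _)
      · rw [this, ee_periodic, sub_self]
      · have h1 : HasDerivAt (fun θ : ℝ => s • ee θ) (s • (Complex.I * ee θ)) θ :=
          (hasDerivAt_ee θ).const_smul s
        have h2 := (d2 _ (smul_ee_mem hd hs θ)).comp_hasDerivAt θ h1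
        have h3 : HasDerivAt (fun θ => Complex.I * ee θ) (Complex.I * (Complex.I * ee θ)) θ :=
          (hasDerivAt_ee θ).const_mul Complex.I
        have h4 := h2.clm_apply h3
        refine h4.congr_deriv ?_
        rw [← mul_assoc, Complex.I_mul_I, neg_one_mul, map_neg, map_smul]
        simp only [hB, hP, Function.comp, _root_.smul_apply, smul_eq_mul]
        ring
    have h1 : ∫ θ in (0 : ℝ)..(2 * Real.pi), Q s θ = ∫ θ in (0 : ℝ)..(2 * Real.pi),
        s * (B s θ 1 1 + B s θ Complex.I Complex.I) := by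
      have h5 : Continuous (fun θ => s * B s θ (Complex.I * ee θ) (Complex.I * ee θ) - P s θ) :=
        (continuous_const.mul cBI).sub (slice' cP s hs)
      have h6 := intervalIntegral.integral_add (μ := volume)
        ((slice' cQ s hs).intervalIntegrable 0 (2 * Real.pi))
        (h5.intervalIntegrable 0 (2 * Real.pi))
      rw [h0, add_zero] at h6
      rw [← h6]
      congr 1
      ext θ
      rw [← lap_rot (B s θ) (norm_ee θ)]
      simp only [hQ]
      ring
    rw [h1]
    apply intervalIntegral.integral_nonneg h2pi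
    intro θ _
    exact mul_nonneg hs.1 (hl _ (smul_ee_mem hd hs θ))
  have f4 : ∀ r ∈ Icc (0 : ℝ) 1, 0 < r → 0 ≤ ∫ θ in (0 : ℝ)..(2 * Real.pi), P r θ := by
    intro r hr hr0
    have h1 : r * ∫ θ in (0 : ℝ)..(2 * Real.pi), P r θ =
        ∫ θ in (0 : ℝ)..(2 * Real.pi), ∫ s in (0 : ℝ)..r, Q s θ := by
      rw [← intervalIntegral.integral_const_mul]
      congr 1
      ext θ
      rw [f2 θ r hr]
    rw [← swapI hr.1 h2pi (cQ.mono (Set.prod_mono (Icc_subset_Icc_right hr.2)
      (subset_univ _)))] at h1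
    have h2 : 0 ≤ r * ∫ θ in (0 : ℝ)..(2 * Real.pi), P r θ := by
      rw [h1]
      apply intervalIntegral.integral_nonneg hr.1
      intro s hs
      exact f3 s ⟨hs.1, hs.2.trans hr.2⟩
    exact nonneg_of_mul_nonneg_right h2 hr0
  have f5 : 0 ≤ ∫ θ in (0 : ℝ)..(2 * Real.pi), (h (ee θ) - h 0) := by
    have h1 : ∫ θ in (0 : ℝ)..(2 * Real.pi), (h (ee θ) - h 0) =
        ∫ θ in (0 : ℝ)..(2 * Real.pi), ∫ s in (0 : ℝ)..1, P s θ := by
      congr 1
      ext θ
      rw [f1 θ 1 ⟨zero_le_one, le_rfl⟩, one_smul]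
    rw [h1, ← swapI zero_le_one h2pi (cP.mono (Set.prod_mono le_rfl (subset_univ _)))]
    rw [intervalIntegral.integral_of_le zero_le_one]
    apply MeasureTheory.setIntegral_nonneg measurableSet_Ioc
    intro s hs
    exact f4 s ⟨hs.1.le, hs.2⟩ hs.1
  have che : Continuous (fun θ => h (ee θ)) := by
    rw [← continuousOn_univ]
    refine c0.comp continuous_ee.continuousOn (fun θ _ => ?_)
    have := smul_ee_mem hd (s := 1) ⟨zero_le_one, le_rfl⟩ θ
    rwa [one_smul] at this
  rw [intervalIntegral.integral_sub (che.intervalIntegrable _ _)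
    (continuous_const.intervalIntegrable _ _), intervalIntegral.integral_const] at f5
  rw [Real.circleAverage_def]
  have h6 : ∀ θ : ℝ, circleMap 0 1 θ = ee θ := fun θ => by simp [circleMap, ee]
  simp only [h6]
  rw [smul_eq_mul]
  rw [smul_eq_mul, sub_zero] at f5
  have h7 : 0 < 2 * Real.pi := by positivity
  rw [← div_eq_inv_mul, le_div_iff₀ h7]
  linarith

end onevar

theorem pshOn_of_smooth {n : ℕ} {V : Set (Cn n)} (hV : IsOpen V) {u : Cn n → ℝ}
    (h : SmoothPshOn u V) : PshOn u V := by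
  refine ⟨h.1.continuousOn.upperSemicontinuousOn, fun a _ b hb => ?_⟩
  set L : ℂ →L[ℝ] Cn n := (ContinuousLinearMap.toSpanSingleton ℂ b).restrictScalars ℝ with hL
  have hLa : ∀ s : ℂ, L s = s • b := fun s => rfl
  set A : ℂ → Cn n := fun s => a + s • b with hA
  have hAd : ∀ s, HasFDerivAt A L s := fun s => by
    have := L.hasFDerivAt (x := s)
    exact this.const_add a
  have hAc : ContDiff ℝ 2 A := by
    have : ContDiff ℝ 2 L := L.contDiff
    exact contDiff_const.add this
  have hopen : IsOpen (A ⁻¹' V) := hV.preimage hAc.continuous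
  have hu2 : ContDiffOn ℝ 2 u V := h.1.of_le (by norm_cast)
  have hu1 : ContDiffOn ℝ 1 (fderiv ℝ u) V := hu2.fderiv_of_isOpen hV (by norm_num)
  have key : ∀ s ∈ A ⁻¹' V, ∀ v w : ℂ,
      fderiv ℝ (fderiv ℝ (fun s => u (A s))) s v w = D2 u (A s) (v • b) (w • b) := by
    intro s hs v w
    have h1 : fderiv ℝ (fun s => u (A s)) =ᶠ[𝓝 s] fun s => (fderiv ℝ u (A s)).comp L := by
      filter_upwards [hopen.mem_nhds hs] with s' hs'
      exact (((hu2.contDiffAt (hV.mem_nhds hs')).differentiableAt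
        (by norm_num)).hasFDerivAt.comp s' (hAd s')).fderiv
    rw [h1.fderiv_eq]
    have h2 : HasFDerivAt (fun s => (fderiv ℝ u (A s)).comp L)
        ((((ContinuousLinearMap.compL ℝ ℂ (Cn n) ℝ).flip L)).comp
          ((fderiv ℝ (fderiv ℝ u) (A s)).comp L)) s := by
      have h3 := ((hu1.contDiffAt (hV.mem_nhds hs)).differentiableAt
        (by norm_num)).hasFDerivAt.comp s (hAd s)
      exact (((ContinuousLinearMap.compL ℝ ℂ (Cn n) ℝ).flip L).hasFDerivAt).comp s h3
    rw [h2.fderiv]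
    rfl
  have hsub := submean_of_laplacian (h := fun s => u (A s)) hopen
    (hu2.comp hAc.contDiffOn (fun s hs => hs)) (fun s hs => hb s (mem_closedBall_zero_iff.1 hs)) ?_
  · simpa [hA] using hsub
  · intro s hs
    rw [key s hs, key s hs, one_smul]
    have h1 := cHess_levi (hu2.contDiffAt (hV.mem_nhds hs)) b
    have h2 := (h.2 _ hs).dotProduct_mulVec_nonneg (star b)
    have h3 : star (star b) ⬝ᵥ (cHess u (A s)) *ᵥ (star b) =
        ∑ i, ∑ j, b i * cHess u (A s) i j * star (b j) := by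
      rw [star_star]
      simp only [dotProduct, mulVec, Finset.mul_sum, Pi.star_apply, mul_assoc]
    rw [h3] at h2
    have h4 : (0 : ℂ) ≤ ((D2 u (A s) b b + D2 u (A s) (Complex.I • b) (Complex.I • b) : ℝ) : ℂ) := by
      rw [h1]
      exact mul_nonneg (by norm_num) h2
    exact_mod_cast h4

set_option linter.unusedVariables false in
theorem pshOn_of_unif {n : ℕ} {V : Set (Cn n)} (hV : IsOpen V) {w : ℕ → Cn n → ℝ}
    {u : Cn n → ℝ} (hc : ∀ j, ContinuousOn (w j) V) (h : ∀ j, PshOn (w j) V)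
    (hunif : TendstoUniformlyOn w u atTop V) : PshOn u V := by
  have hu : ContinuousOn u V := hunif.continuousOn (Frequently.of_forall hc)
  refine ⟨hu.upperSemicontinuousOn, fun a ha b hb => ?_⟩
  have hci : ∀ f : Cn n → ℝ, ContinuousOn f V →
      CircleIntegrable (fun s : ℂ => f (a + s • b)) 0 1 := by
    intro f hf
    apply ContinuousOn.circleIntegrable zero_le_one
    refine hf.comp (by fun_prop) (fun s hs => hb s ?_)
    exact (mem_sphere_zero_iff_norm.1 hs).le
  apply le_of_forall_pos_le_add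
  intro ε hε
  have h1 := Metric.tendstoUniformlyOn_iff.1 hunif (ε / 2) (half_pos hε)
  obtain ⟨j, hj⟩ := h1.exists
  have h2 := (h j).2 a ha b hb
  have h3 : Real.circleAverage (fun s : ℂ => w j (a + s • b)) 0 1 ≤
      Real.circleAverage (fun s : ℂ => u (a + s • b)) 0 1 + ε / 2 := by
    have h4 : Real.circleAverage (fun s : ℂ => u (a + s • b) + ε / 2) 0 1 =
        Real.circleAverage (fun s : ℂ => u (a + s • b)) 0 1 + ε / 2 := by
      rw [Real.circleAverage_fun_add (hci u hu) (circleIntegrable_const _ _ _),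
        Real.circleAverage_const]
    rw [← h4]
    refine Real.circleAverage_mono (hci _ (hc j))
      ((hci u hu).add (circleIntegrable_const _ _ _)) (fun s hs => ?_)
    have h5 : a + s • b ∈ V := hb s (by
      rw [abs_one] at hs
      exact (mem_sphere_zero_iff_norm.1 hs).le)
    have h6 := hj _ h5
    rw [Real.dist_eq, abs_lt] at h6
    linarith
  have h6 := hj _ ha
  rw [Real.dist_eq, abs_lt] at h6
  linarith

end HMA
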