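import Pool.Agent.HMA.FamU1
import Pool.Agent.HMA.Psh

/-! module FAMU2: convergence of the potentials -/

open MeasureTheory Filter Topology Set Matrix
open scoped Manifold ContDiff ENNReal ComplexOrder

namespace HMA

namespace Fam

variable (F : Fam)

theorem c_succ_le_aux2 (J : ℕ) : F.c (J + 1) ≤ F.c J := by
  have h1 := F.phi_le J 0 0
  have h2 := (F.md J).phi_nonneg 0 0
  linarith

theorem antitone_uJ (s : Bool) (p : E3) : Antitone fun J => F.uJ s J p := by
  refine antitone_nat_of_succ_le fun J => ?_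
  have h1 := F.c_succ_le_aux2 J
  unfold uJ lft
  split_ifs with h
  · linarith
  · have h2 := F.phiJ_succ_le J (p 0).re (p 1).re (rho s p)
    linarith

theorem uJ_sub_uT_nonneg_aux2 (s : Bool) (J : ℕ) (p : E3) : 0 ≤ F.uJ s J p - F.uT s p := by
  have h1 := F.c_nonneg J
  unfold uJ uT lft
  split_ifs with h
  · linarith
  · have h2 := F.phiT_le J (p 0).re (p 1).re (rho s p)
    linarith

theorem uJ_sub_uT_le_aux2 (s : Bool) (J : ℕ) (p : E3) : F.uJ s J p - F.uT s p ≤ F.c J := by
  unfold uJ uT lft
  split_ifs with h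
  · linarith
  · have h2 := F.phiJ_le_phiT J (p 0).re (p 1).re (rho s p)
    linarith

theorem unif_uJ (s : Bool) : TendstoUniformlyOn (F.uJ s) (F.uT s) atTop univ := by
  rw [Metric.tendstoUniformlyOn_iff]
  intro ε hε
  have h0 : ∀ᶠ J in atTop, F.c J < ε := F.c_lim.eventually_lt_const hε
  filter_upwards [h0] with J hJ p _
  have h1 := F.uJ_sub_uT_nonneg_aux2 s J p
  have h2 := F.uJ_sub_uT_le_aux2 s J p
  rw [Real.dist_eq, abs_sub_comm, abs_of_nonneg h1]
  linarith

theorem pshOn_uT (s : Bool) : PshOn (F.uT s) univ :=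
  pshOn_of_unif isOpen_univ (fun J => (F.smoothPshOn_uJ s J).1.continuousOn)
    (fun J => pshOn_of_smooth isOpen_univ (F.smoothPshOn_uJ s J)) (F.unif_uJ s)

theorem continuous_uT (s : Bool) : Continuous (F.uT s) := by
  rw [← continuousOn_univ]
  exact (F.unif_uJ s).continuousOn
    (Eventually.of_forall fun J => (F.smoothPshOn_uJ s J).1.continuousOn).frequently

theorem continuous_lft_phiT (s : Bool) : Continuous (lft F.phiT s) := by
  have h : lft F.phiT s = fun p => F.uT s p - uW s p := by
    funext p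
    unfold uT
    ring
  rw [h]
  exact (F.continuous_uT s).sub (contDiff_uW s).continuous

end Fam

end HMA
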