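import Pool.Agent.HMA.XMDefs

/-! module XMEAS1: functions on the threefold, measurability -/

open MeasureTheory Filter Topology Set Matrix
open scoped Manifold ContDiff ENNReal ComplexOrder

namespace HMA

theorem xm1_lft_GG {h : ℝ → ℝ → ℝ → ℝ} (hh : Per h) (a b c d : ℤ) (s t : Bool) {p : E3}
    (hp : s ≠ t → p 2 ≠ 0) : lft h t (GG a b c d s t p) = lft h s p := by
  unfold lft
  by_cases h0 : p 2 = 0
  · have hst : s = t := by
      by_contra hne
      exact hp hne h0
    subst hst
    rw [if_pos (GG_two_eq_zero a b c d s h0), if_pos h0]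
  · rw [if_neg (GG_two_ne_zero a b c d s t h0), if_neg h0, rho_GG a b c d s t h0]
    have h1 : (GG a b c d s t p 0).re = (p 0).re + a := by simp [GG]
    have h2 : (GG a b c d s t p 1).re = (p 1).re + b := by simp [GG]
    rw [h1, h2, hh]

theorem xf_mk {h : ℝ → ℝ → ℝ → ℝ} (hh : Per h) (s : Bool) (p : E3) :
    xf h (mk s p) = lft h s p := by
  unfold xf
  have h1 := (mk_surj (mk s p)).choose_spec.choose_spec
  obtain ⟨a, b, c, d, h2, h3⟩ := mk_eq_iff.1 h1
  rw [show (mk_surj (mk s p)).choose_spec.choose = GG a b c d s (mk_surj (mk s p)).choose p from h3]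
  exact xm1_lft_GG hh a b c d s _ h2

theorem xm1_measurable_xx : Measurable xx := by
  unfold xx
  fun_prop

theorem xm1_measurable_rho (s : Bool) : Measurable (rho s) := by
  unfold rho
  have h1 := xm1_measurable_xx
  have h2 : Measurable fun p : E3 => Real.log ‖p 2‖ :=
    Real.measurable_log.comp (measurable_norm.comp (measurable_pi_apply 2))
  exact (h1.const_mul _).add (h2.const_mul _)

theorem measurable_lft {h : ℝ → ℝ → ℝ → ℝ}
    (hm : Measurable fun x : ℝ × ℝ × ℝ => h x.1 x.2.1 x.2.2) (s : Bool) :
    Measurable (lft h s) := by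
  unfold lft
  refine Measurable.ite ?_ measurable_const ?_
  · exact measurableSet_eq_fun (measurable_pi_apply 2) measurable_const
  · have h1 : Measurable fun p : E3 => ((p 0).re, (p 1).re, rho s p) :=
      (Complex.measurable_re.comp (measurable_pi_apply 0)).prodMk
        ((Complex.measurable_re.comp (measurable_pi_apply 1)).prodMk (xm1_measurable_rho s))
    exact hm.comp h1

/-- images of measurable sets under `mk s` are measurable, if `mk s` is injective on them -/
theorem measurableSet_image {s : Bool} {A : Set E3} (hA : MeasurableSet A)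
    (hi : InjOn (mk s) A) : MeasurableSet (mk s '' A) :=
  hA.image_of_continuousOn_injOn (continuous_mk s).continuousOn hi

/-- a function on the threefold is measurable if its lifts are -/
theorem measurable_of_mk {Y : Type} [MeasurableSpace Y] {f : X → Y}
    (h : ∀ s, Measurable fun p => f (mk s p)) : Measurable f := by
  intro B hB
  have h1 : f ⁻¹' B = ⋃ s : Bool, ⋃ n : ℕ, mk s ''
      (Metric.ball (TopologicalSpace.denseSeq E3 n) (1 / 2) ∩ (fun p => f (mk s p)) ⁻¹' B) := by
    ext x
    constructor
    · intro hx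
      obtain ⟨s, p, rfl⟩ := mk_surj x
      obtain ⟨n, hn⟩ : ∃ n, p ∈ Metric.ball (TopologicalSpace.denseSeq E3 n) (1 / 2) := by
        obtain ⟨y, hy, n, rfl⟩ := (TopologicalSpace.denseRange_denseSeq E3).exists_mem_open
          (Metric.isOpen_ball (x := p) (ε := 1 / 2)) ⟨p, Metric.mem_ball_self (by norm_num)⟩ |>
            fun ⟨n, hn⟩ => (⟨_, hn, n, rfl⟩ : ∃ y, y ∈ Metric.ball p (1 / 2) ∧
              ∃ n, TopologicalSpace.denseSeq E3 n = y)
        exact ⟨n, by rw [Metric.mem_ball, dist_comm]; exact hy⟩
      simp only [mem_iUnion]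
      exact ⟨s, n, p, ⟨hn, hx⟩, rfl⟩
    · intro hx
      simp only [mem_iUnion] at hx
      obtain ⟨s, n, p, ⟨-, hp⟩, rfl⟩ := hx
      exact hp
  rw [h1]
  refine MeasurableSet.iUnion fun s => MeasurableSet.iUnion fun n => ?_
  exact measurableSet_image (measurableSet_ball.inter (h s hB))
    ((mk_injOn s _).mono inter_subset_left)

end HMA
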