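import Pool.Agent.HMA.FamU2
import Pool.Agent.HMA.Conv
import Pool.Agent.HMA.XMeas1

/-! module FAMU3: the Monge-Ampere equation on the sheets -/

open MeasureTheory Filter Topology Set Matrix
open scoped Manifold ContDiff ENNReal ComplexOrder

namespace HMA

/-- `{w = 0}` is a null set -/
theorem ae_ne_zero : ∀ᵐ p : E3, p 2 ≠ 0 := by
  have h : (volume : Measure E3) {p : E3 | p 2 = 0} = 0 := by
    have e : {p : E3 | p 2 = 0} = ((LinearMap.proj 2 : E3 →ₗ[ℝ] ℂ).ker : Set E3) := by
      ext p
      simp
    rw [e]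
    apply MeasureTheory.Measure.addHaar_submodule
    intro h
    have : (Pi.single 2 1 : E3) ∈ (LinearMap.proj 2 : E3 →ₗ[ℝ] ℂ).ker := by
      rw [h]; trivial
    simp at this
  rw [ae_iff]
  simpa using h

namespace Fam

variable (F : Fam)

theorem lft_fT_nonneg (s : Bool) (p : E3) : 0 ≤ lft F.fT s p := by
  unfold lft
  split_ifs
  · exact le_rfl
  · exact F.fT_nonneg _ _ _

theorem C_pos : 0 < F.C := by
  have h1 := F.hC
  have h2 := tau_pos
  linarith

theorem lft_fJ_abs_le (s : Bool) (J : ℕ) (p : E3) :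
    |lft (F.fJ J) s p| ≤ 12 / Real.pi * F.C := by
  have hC := F.C_pos
  unfold lft
  split_ifs
  · rw [abs_zero]; positivity
  · rw [abs_of_nonneg (F.fJ_nonneg _ _ _ _)]
    exact F.fJ_le _ _ _ _

theorem lft_fJ_tendsto (s : Bool) (p : E3) :
    Tendsto (fun J => lft (F.fJ J) s p) atTop (𝓝 (lft F.fT s p)) := by
  unfold lft
  split_ifs
  · exact tendsto_const_nhds
  · obtain ⟨J, hJ⟩ := F.stab (rho s p)
    refine tendsto_const_nhds.congr' ?_
    filter_upwards [eventually_ge_atTop J] with J' hJ'
    exact (hJ J' hJ' _ _ _ le_rfl).2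

theorem integral_mu (s : Bool) (χ : E3 → ℝ) :
    ∫ p, χ p ∂(F.mu s) = ∫ p, χ p * (lft F.fT s p * theta s p) := by
  have hm : Measurable fun p => lft F.fT s p * theta s p :=
    (measurable_lft F.measurable_fT s).mul (contDiff_theta s).continuous.measurable
  unfold mu
  rw [integral_withDensity_eq_integral_toReal_smul hm.ennreal_ofReal
    (Eventually.of_forall fun p => ENNReal.ofReal_lt_top)]
  refine integral_congr_ae (Eventually.of_forall fun p => ?_)
  show (ENNReal.ofReal _).toReal • χ p = _
  rw [ENNReal.toReal_ofReal (mul_nonneg (F.lft_fT_nonneg s p) (theta_pos s p).le), smul_eq_mul,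
    mul_comm]

theorem isBT_uT (s : Bool) : IsBT (F.uT s) univ (F.mu s) := by
  refine isBT_of_approx isOpen_univ (F.smoothPshOn_uJ s) (fun p _ => F.antitone_uJ s p)
    (F.unif_uJ s) ?_
  intro χ hχ hχc _
  rw [F.integral_mu]
  have hθ : Continuous (theta s) := (contDiff_theta s).continuous
  have hC := F.C_pos
  refine tendsto_integral_of_dominated_convergence
    (fun p => |χ p| * (12 / Real.pi * F.C * theta s p)) ?_ ?_ ?_ ?_
  · intro J
    have h1 : Continuous (maDens (F.uJ s J)) := by
      rw [← continuousOn_univ]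
      exact continuousOn_maDens isOpen_univ (F.smoothPshOn_uJ s J).1
    exact (hχ.continuous.mul h1).aestronglyMeasurable
  · apply Continuous.integrable_of_hasCompactSupport
    · exact hχ.continuous.abs.mul (continuous_const.mul hθ)
    · exact (hχc.norm).mul_right
  · intro J
    filter_upwards [ae_ne_zero] with p hp
    rw [F.maDens_uJ s J hp, Real.norm_eq_abs, abs_mul, abs_mul]
    refine mul_le_mul_of_nonneg_left ?_ (abs_nonneg _)
    rw [abs_of_pos (theta_pos s p)]
    exact mul_le_mul_of_nonneg_right (F.lft_fJ_abs_le s J p) (theta_pos s p).le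
  · filter_upwards [ae_ne_zero] with p hp
    have h1 := (F.lft_fJ_tendsto s p).mul_const (theta s p)
    have h2 := h1.const_mul (χ p)
    refine h2.congr fun J => ?_
    rw [F.maDens_uJ s J hp]

end Fam

end HMA
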