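import Pool.Agent.HMA.Base

/-! module FIBX: Fibonacci frequencies -/

open MeasureTheory Filter Topology Set Matrix
open scoped Manifold ContDiff ENNReal ComplexOrder

namespace HMA

/-- `K_n = F_n² + F_{n+1}²` -/
noncomputable def Kn (n : ℕ) : ℝ :=
  (((Nat.fib n : ℕ) : ℤ) : ℝ) ^ 2 + (((Nat.fib (n + 1) : ℕ) : ℤ) : ℝ) ^ 2

/-- `δ_n = (F_{n+1} - gr F_n)²` -/
noncomputable def dn (n : ℕ) : ℝ :=
  ((((Nat.fib (n + 1) : ℕ) : ℤ) : ℝ) - gr * (((Nat.fib n : ℕ) : ℤ) : ℝ)) ^ 2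

theorem dn_eq (n : ℕ) : dn n = Real.goldenConj ^ (2 * n) := by
  have h := Real.fib_succ_sub_goldenRatio_mul_fib n
  unfold dn gr
  rw [Int.cast_natCast, Int.cast_natCast, h, ← pow_mul, mul_comm]

theorem dn_pos (n : ℕ) : 0 < dn n := by
  rw [dn_eq, pow_mul]
  have h : Real.goldenConj ≠ 0 := Real.goldenConj_neg.ne
  positivity

private theorem conj_sq_lt : Real.goldenConj ^ 2 < 1 := by
  have h1 := Real.goldenConj_neg
  have h2 := Real.neg_one_lt_goldenConj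
  nlinarith

theorem dn_lim : Tendsto dn atTop (𝓝 0) := by
  have h : dn = fun n => (Real.goldenConj ^ 2) ^ n := by
    funext n
    rw [dn_eq, pow_mul]
  rw [h]
  exact tendsto_pow_atTop_nhds_zero_of_lt_one (sq_nonneg _) conj_sq_lt

theorem fib_lim : Tendsto (fun n : ℕ => (((Nat.fib n : ℕ) : ℤ) : ℝ)) atTop atTop := by
  have h1 : Tendsto (fun n : ℕ => Nat.fib (n + 2)) atTop atTop :=
    Nat.fib_add_two_strictMono.tendsto_atTop
  have h2 : Tendsto (fun n : ℕ => Nat.fib n) atTop atTop :=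
    (tendsto_add_atTop_iff_nat 2).mp h1
  have h3 : (fun n : ℕ => (((Nat.fib n : ℕ) : ℤ) : ℝ)) = fun n : ℕ => ((Nat.fib n : ℕ) : ℝ) := by
    funext n
    exact Int.cast_natCast _
  rw [h3]
  exact tendsto_natCast_atTop_atTop.comp h2

theorem Kn_lim : Tendsto Kn atTop atTop := by
  have h1 := fib_lim
  refine tendsto_atTop_mono' atTop ?_ h1
  filter_upwards [h1.eventually_ge_atTop 1] with n hn
  unfold Kn
  have h2 : (0:ℝ) ≤ (((Nat.fib (n + 1) : ℕ) : ℤ) : ℝ) ^ 2 := sq_nonneg _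
  nlinarith

private theorem Kn_eq (n : ℕ) :
    Kn n = (Real.goldenRatio ^ (2 * n + 1) - Real.goldenConj ^ (2 * n + 1)) / √5 := by
  rw [← Real.coe_fib_eq, Nat.fib_two_mul_add_one]
  unfold Kn
  push_cast
  ring

private theorem Kn_dn (n : ℕ) :
    Kn n * dn n = (Real.goldenRatio - Real.goldenConj * (Real.goldenConj ^ 4) ^ n) / √5 := by
  rw [Kn_eq, dn_eq]
  have h : Real.goldenRatio ^ (2 * n) * Real.goldenConj ^ (2 * n) = 1 := by
    rw [← mul_pow, Real.goldenRatio_mul_goldenConj, pow_mul]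
    norm_num
  have h2 : (Real.goldenConj ^ 4) ^ n = Real.goldenConj ^ (2 * n) * Real.goldenConj ^ (2 * n) := by
    rw [← pow_mul, ← pow_add]
    congr 1
    ring
  rw [h2, pow_succ, pow_succ, div_mul_eq_mul_div]
  congr 1
  linear_combination Real.goldenRatio * h

private theorem conj4_pow (n : ℕ) : 0 ≤ (Real.goldenConj ^ 4) ^ n ∧ (Real.goldenConj ^ 4) ^ n ≤ 1 := by
  have h : Real.goldenConj ^ 4 = (Real.goldenConj ^ 2) ^ 2 := by ring
  have h1 := conj_sq_lt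
  have h2 : 0 ≤ Real.goldenConj ^ 2 := sq_nonneg _
  refine ⟨by positivity, pow_le_one₀ (by positivity) ?_⟩
  rw [h]
  nlinarith

theorem half_le_Kn_dn (n : ℕ) : 1 / 2 ≤ Kn n * dn n := by
  rw [Kn_dn]
  have h5 : (0:ℝ) < √5 := by positivity
  have h6 : √5 ^ 2 = 5 := Real.sq_sqrt (by norm_num)
  have h7 := Real.goldenConj_neg
  obtain ⟨h8, h9⟩ := conj4_pow n
  rw [le_div_iff₀ h5]
  have h10 : Real.goldenConj * (Real.goldenConj ^ 4) ^ n ≤ 0 := by nlinarith
  have h11 : Real.goldenRatio = (1 + √5) / 2 := rfl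
  linarith

theorem Kn_dn_le (n : ℕ) : Kn n * dn n ≤ 1 := by
  rw [Kn_dn]
  have h5 : (0:ℝ) < √5 := by positivity
  have h7 := Real.goldenConj_neg
  obtain ⟨h8, h9⟩ := conj4_pow n
  rw [div_le_iff₀ h5]
  have h10 : Real.goldenConj ≤ Real.goldenConj * (Real.goldenConj ^ 4) ^ n := by nlinarith
  have h11 : Real.goldenRatio - Real.goldenConj = √5 := Real.goldenRatio_sub_goldenConj
  linarith

end HMA
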