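import Pool.Agent.HMA.Modex
import Pool.Agent.HMA.Fibx
import Pool.Agent.HMA.FamDefs

/-! module FAMX: existence of the lacunary family -/

open MeasureTheory Filter Topology Set Matrix
open scoped Manifold ContDiff ENNReal ComplexOrder

namespace HMA

theorem Kn_pos (n : ℕ) : 0 < Kn n := by
  have h1 := half_le_Kn_dn n
  have h2 := dn_pos n
  by_contra h
  have : Kn n * dn n ≤ 0 := mul_nonpos_of_nonpos_of_nonneg (not_lt.1 h) h2.le
  linarith

/-- recursive choice of a subsequence -/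
theorem exists_chain {P : ℕ → Prop} {R : ℕ → ℕ → Prop} (hP : ∀ᶠ n in atTop, P n)
    (hR : ∀ n, ∀ᶠ m in atTop, R n m) :
    ∃ f : ℕ → ℕ, StrictMono f ∧ (∀ j, P (f j)) ∧ ∀ j, R (f j) (f (j + 1)) := by
  have hstep : ∀ n, ∃ m, n < m ∧ P m ∧ R n m := by
    intro n
    exact ((eventually_gt_atTop n).and (hP.and (hR n))).exists
  obtain ⟨n0, h0⟩ := hP.exists
  choose g hg using hstep
  let f : ℕ → ℕ := fun j => Nat.rec n0 (fun _ x => g x) j
  have hf : ∀ j, f (j + 1) = g (f j) := fun j => rfl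
  refine ⟨f, ?_, ?_, ?_⟩
  · apply strictMono_nat_of_lt_succ
    intro j
    rw [hf]; exact (hg _).1
  · intro j
    cases j with
    | zero => exact h0
    | succ j => rw [hf]; exact (hg _).2.1
  · intro j
    rw [hf]; exact (hg _).2.2

theorem exists_fam : Nonempty Fam := by
  obtain ⟨C, A, β, c1, δ0, hC, hA, hβ, hc1, hδ0, H⟩ := exists_mode
  have hCpos : 0 < C := by linarith [tau_pos]
  -- properties of the single frequencies
  have hP : ∀ᶠ n in atTop, dn n ≤ δ0 ∧ (0 : ℝ) < (((Nat.fib n : ℕ) : ℤ) : ℝ) :=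
    (dn_lim.eventually_le_const hδ0).and (fib_lim.eventually_gt_atTop 0)
  have hlog : Tendsto (fun n => 1 / 2 * Real.log (2 / Kn n) + β) atTop atBot := by
    have h1 : Tendsto (fun n => Real.log (Kn n)) atTop atTop :=
      Real.tendsto_log_atTop.comp Kn_lim
    have h2 : Tendsto (fun n => -(1 / 2 * Real.log (Kn n))) atTop atBot :=
      tendsto_neg_atTop_atBot.comp (h1.const_mul_atTop (by norm_num))
    have h3 := tendsto_atBot_add_const_right atTop (1 / 2 * Real.log 2 + β) h2
    refine h3.congr (fun n => ?_)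
    rw [Real.log_div (by norm_num) (Kn_pos n).ne']
    ring
  have hR : ∀ n, ∀ᶠ m in atTop, 2 * Kn n ≤ Kn m ∧
      1 / 2 * Real.log (2 / Kn m) + β < -A / dn n := by
    intro n
    exact (Kn_lim.eventually_ge_atTop _).and (hlog.eventually_lt_atBot _)
  obtain ⟨f, hfm, hfP, hfR⟩ := exists_chain hP hR
  have hf : Tendsto f atTop atTop := hfm.tendsto_atTop
  have hmode : ∀ j, ∃ m : Mode C, m.k0 = ((Nat.fib (f j) : ℕ) : ℤ) ∧
      m.k1 = ((Nat.fib (f j + 1) : ℕ) : ℤ) ∧ m.r0 = -A / dn (f j) ∧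
        m.r1 = 1 / 2 * Real.log (2 / Kn (f j)) + β ∧ (∀ ξ ρ, m.phi ξ ρ ≤ C / Kn (f j)) ∧
        c1 / Kn (f j) ≤ m.phi (1 / 2) (-(Real.pi * tau / 32) / dn (f j)) := by
    intro j
    apply H
    · intro h
      have := (hfP j).2
      rw [h] at this
      simp at this
    · rfl
    · rfl
    · exact dn_pos _
    · exact (hfP j).1
    · exact half_le_Kn_dn _
    · exact Kn_dn_le _
  choose md hk0 hk1 hr0 hr1 hphi hlow using hmode
  have hdf : Tendsto (fun j => dn (f j)) atTop (𝓝[>] 0) := by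
    rw [tendsto_nhdsWithin_iff]
    exact ⟨dn_lim.comp hf, Eventually.of_forall (fun j => dn_pos _)⟩
  have hinv : Tendsto (fun j => (dn (f j))⁻¹) atTop atTop := tendsto_inv_nhdsGT_zero.comp hdf
  have hcs : 0 < Real.pi * tau / 32 := by have := tau_pos; positivity
  refine ⟨⟨C, hC, md, fun j => 2 * C / Kn (f j), fun j => -(Real.pi * tau / 32) / dn (f j),
    ?_, ?_, ?_, ?_, ?_, ?_, ?_⟩⟩
  · intro j
    rw [hr1, hr0]
    exact (hfR j).2
  · refine (hlog.comp hf).congr (fun j => ?_)
    rw [hr1]; rfl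
  · intro j ξ ρ
    refine (hphi j ξ ρ).trans ?_
    have h1 := Kn_pos (f j)
    have h2 := (hfR j).1
    have h3 : 2 * C / Kn (f (j + 1)) ≤ 2 * C / (2 * Kn (f j)) :=
      div_le_div_of_nonneg_left (by positivity) (by positivity) h2
    have h4 : 2 * C / (2 * Kn (f j)) = C / Kn (f j) := by field_simp
    have h5 : 2 * C / Kn (f j) = C / Kn (f j) + C / Kn (f j) := by ring
    rw [h5]
    linarith
  · have h1 : Tendsto (fun j => 2 * C * (Kn (f j))⁻¹) atTop (𝓝 (2 * C * 0)) :=
      (tendsto_inv_atTop_zero.comp (Kn_lim.comp hf)).const_mul _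
    rw [mul_zero] at h1
    exact h1.congr (fun j => (div_eq_mul_inv _ _).symm)
  · refine (fib_lim.comp hf).congr (fun j => ?_)
    rw [hk0]; rfl
  · have h1 : Tendsto (fun j => -((Real.pi * tau / 32) * (dn (f j))⁻¹)) atTop atBot :=
      tendsto_neg_atTop_atBot.comp (hinv.const_mul_atTop hcs)
    refine h1.congr (fun j => ?_)
    ring
  · intro A' α hα
    have h1 : Tendsto (fun x : ℝ => x ^ 1 * Real.exp (-x)) atTop (𝓝 0) :=
      Real.tendsto_pow_mul_exp_neg_atTop_nhds_zero 1
    have h2 : Tendsto (fun j => α * (Real.pi * tau / 32) * (dn (f j))⁻¹) atTop atTop :=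
      hinv.const_mul_atTop (by positivity)
    have h3 := (h1.comp h2).const_mul (|A'| / (α * (Real.pi * tau / 32)))
    rw [mul_zero] at h3
    filter_upwards [h3.eventually_lt_const hc1] with j hj
    have hd := dn_pos (f j)
    have hK := Kn_pos (f j)
    have h4 : c1 * dn (f j) ≤ c1 / Kn (f j) := by
      rw [le_div_iff₀ hK]
      have := Kn_dn_le (f j)
      nlinarith
    have h5 := hlow j
    refine lt_of_lt_of_le ?_ (h4.trans h5)
    simp only [Function.comp, pow_one] at hj
    have h6 : |A'| / (α * (Real.pi * tau / 32)) * (α * (Real.pi * tau / 32) * (dn (f j))⁻¹ *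
        Real.exp (-(α * (Real.pi * tau / 32) * (dn (f j))⁻¹)))
        = |A'| * Real.exp (α * (-(Real.pi * tau / 32) / dn (f j))) / dn (f j) := by
      have h7 : -(α * (Real.pi * tau / 32) * (dn (f j))⁻¹)
          = α * (-(Real.pi * tau / 32) / dn (f j)) := by ring
      rw [h7]
      have htau := tau_pos.ne'
      field_simp
    rw [h6, div_lt_iff₀ hd] at hj
    refine lt_of_le_of_lt ?_ hj
    exact mul_le_mul_of_nonneg_right (le_abs_self _) (Real.exp_pos _).le

end HMA
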