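import Pool.Agent.HMA.BaseA

/-! module GAM1: calculus of the profile functions `γ` and `q` -/

open MeasureTheory Filter Topology Set Matrix
open scoped Manifold ContDiff ENNReal ComplexOrder

namespace HMA

/-- `m(y) = 2π (y+τ)/(K y + δ)` -/
noncomputable def mF (K δ y : ℝ) : ℝ := 2 * Real.pi * (y + tau) / (K * y + δ)

/-- `γ(r) = y m(y) σ(r)`, `y = yy r` -/
noncomputable def gam (K δ : ℝ) (σ : ℝ → ℝ) (r : ℝ) : ℝ := yy r * mF K δ (yy r) * σ r

/-- `q(r) = G'(y) σ(r) + m(y) σ'(r) (1 + e^{2r})/2`, `G(y) = y m(y)` -/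
noncomputable def qq (K δ : ℝ) (σ : ℝ → ℝ) (r : ℝ) : ℝ :=
  2 * Real.pi * (K * yy r ^ 2 + 2 * δ * yy r + tau * δ) / (K * yy r + δ) ^ 2 * σ r
    + mF K δ (yy r) * deriv σ r * ((1 + Real.exp (2 * r)) / 2)

variable {K δ : ℝ} {σ : ℝ → ℝ}

private theorem den_pos (hK : 1 ≤ K) (hδ : 0 < δ) (r : ℝ) : 0 < K * yy r + δ := by
  have := yy_pos r
  positivity

private theorem contDiff_mF (hK : 1 ≤ K) (hδ : 0 < δ) : ContDiff ℝ ∞ fun r => mF K δ (yy r) := by
  unfold mF
  refine ContDiff.div ?_ ?_ fun r => (den_pos hK hδ r).ne'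
  · exact contDiff_const.mul (contDiff_yy.add contDiff_const)
  · exact (contDiff_const.mul contDiff_yy).add contDiff_const

theorem contDiff_gam (hK : 1 ≤ K) (hδ : 0 < δ) (hσ : ContDiff ℝ ∞ σ) :
    ContDiff ℝ ∞ (gam K δ σ) :=
  (contDiff_yy.mul (contDiff_mF hK hδ)).mul hσ

private theorem contDiff_deriv (hσ : ContDiff ℝ ∞ σ) : ContDiff ℝ ∞ (deriv σ) :=
  (contDiff_infty_iff_deriv.mp hσ).2

private theorem contDiff_exp2 : ContDiff ℝ ∞ fun r : ℝ => (1 + Real.exp (2 * r)) / 2 := by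
  fun_prop

theorem contDiff_qq (hK : 1 ≤ K) (hδ : 0 < δ) (hσ : ContDiff ℝ ∞ σ) :
    ContDiff ℝ ∞ (qq K δ σ) := by
  unfold qq
  refine ContDiff.add (ContDiff.mul (ContDiff.div ?_ ?_ fun r => ?_) hσ)
    (((contDiff_mF hK hδ).mul (contDiff_deriv hσ)).mul contDiff_exp2)
  · exact contDiff_const.mul (((contDiff_const.mul (contDiff_yy.pow 2)).add
      (contDiff_const.mul contDiff_yy)).add contDiff_const)
  · exact ((contDiff_const.mul contDiff_yy).add contDiff_const).pow 2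
  · exact pow_ne_zero 2 (den_pos hK hδ r).ne'

private theorem one_sub_yy (r : ℝ) : (1 - yy r) * (1 + Real.exp (2 * r)) = 1 := by
  unfold yy
  have : (0:ℝ) < 1 + Real.exp (2 * r) := by positivity
  field_simp
  ring

/-- derivative of `m(yy r)` -/
private theorem hasDerivAt_mF (hK : 1 ≤ K) (hδ : 0 < δ) (r : ℝ) :
    HasDerivAt (fun r => mF K δ (yy r))
      (2 * Real.pi * (δ - K * tau) / (K * yy r + δ) ^ 2 * v2 r) r := by
  have h0 := (den_pos hK hδ r).ne'
  have h1 := hasDerivAt_yy r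
  have h2 : HasDerivAt (fun r => 2 * Real.pi * (yy r + tau)) (2 * Real.pi * v2 r) r :=
    (h1.add_const tau).const_mul _
  have h3 : HasDerivAt (fun r => K * yy r + δ) (K * v2 r) r := (h1.const_mul K).add_const δ
  have h4 := h2.div h3 h0
  unfold mF
  refine h4.congr_deriv ?_
  field_simp
  ring

theorem deriv_gam (hK : 1 ≤ K) (hδ : 0 < δ) (hσ : ContDiff ℝ ∞ σ) (r : ℝ) :
    deriv (gam K δ σ) r = qq K δ σ r * v2 r := by
  have h0 := (den_pos hK hδ r).ne'
  have h1 := hasDerivAt_yy r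
  have h2 := hasDerivAt_mF hK hδ r
  have h3 : HasDerivAt σ (deriv σ r) r := (hσ.differentiable (by simp) r).hasDerivAt
  have h4 := (h1.mul h2).mul h3
  have h5 : deriv (gam K δ σ) r = _ := h4.deriv
  rw [h5]
  have h6 := one_sub_yy r
  unfold qq
  have h7 : mF K δ (yy r) * deriv σ r * ((1 + Real.exp (2 * r)) / 2) * v2 r
      = mF K δ (yy r) * deriv σ r * yy r := by
    unfold v2
    linear_combination (mF K δ (yy r) * deriv σ r * yy r) * h6
  have h8 : (yy * fun r => mF K δ (yy r)) r = yy r * mF K δ (yy r) := rfl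
  rw [add_mul (_ * σ r), h7, h8]
  have h9 : v2 r * mF K δ (yy r) + yy r * (2 * Real.pi * (δ - K * tau) / (K * yy r + δ) ^ 2 * v2 r)
      = 2 * Real.pi * (K * yy r ^ 2 + 2 * δ * yy r + tau * δ) / (K * yy r + δ) ^ 2 * v2 r := by
    unfold mF
    field_simp
    ring
  rw [h9]
  ring

/-- the second derivative of `G` composed with `yy`: derivative of `G'(yy r)` -/
private theorem hasDerivAt_G1 (hK : 1 ≤ K) (hδ : 0 < δ) (r : ℝ) :
    HasDerivAt (fun r => 2 * Real.pi * (K * yy r ^ 2 + 2 * δ * yy r + tau * δ) / (K * yy r + δ) ^ 2)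
      (4 * Real.pi * δ * (δ - K * tau) / (K * yy r + δ) ^ 3 * v2 r) r := by
  have h0 := (den_pos hK hδ r).ne'
  have h1 := hasDerivAt_yy r
  have h2 : HasDerivAt (fun r => 2 * Real.pi * (K * yy r ^ 2 + 2 * δ * yy r + tau * δ))
      (2 * Real.pi * (K * (2 * yy r * v2 r) + 2 * δ * v2 r)) r := by
    have ha : HasDerivAt (fun r => yy r ^ 2) (2 * yy r * v2 r) r := by
      have := h1.pow 2
      refine this.congr_deriv ?_
      ring
    exact (((ha.const_mul K).add (h1.const_mul (2 * δ))).add_const (tau * δ)).const_mul _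
  have h3 : HasDerivAt (fun r => (K * yy r + δ) ^ 2) (2 * (K * yy r + δ) * (K * v2 r)) r := by
    have := ((h1.const_mul K).add_const δ).pow 2
    refine this.congr_deriv ?_
    ring
  have h4 := h2.div h3 (pow_ne_zero 2 h0)
  refine h4.congr_deriv ?_
  field_simp
  ring

private theorem hasDerivAt_qq (hK : 1 ≤ K) (hδ : 0 < δ) (hσ : ContDiff ℝ ∞ σ) (r : ℝ) :
    HasDerivAt (qq K δ σ)
      (4 * Real.pi * δ * (δ - K * tau) / (K * yy r + δ) ^ 3 * v2 r * σ r
        + 2 * Real.pi * (K * yy r ^ 2 + 2 * δ * yy r + tau * δ) / (K * yy r + δ) ^ 2 * deriv σ r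
        + ((2 * Real.pi * (δ - K * tau) / (K * yy r + δ) ^ 2 * v2 r * deriv σ r
            + mF K δ (yy r) * deriv (deriv σ) r) * ((1 + Real.exp (2 * r)) / 2)
          + mF K δ (yy r) * deriv σ r * Real.exp (2 * r))) r := by
  have h3 : HasDerivAt σ (deriv σ r) r := (hσ.differentiable (by simp) r).hasDerivAt
  have h4 : HasDerivAt (deriv σ) (deriv (deriv σ) r) r :=
    ((contDiff_deriv hσ).differentiable (by simp) r).hasDerivAt
  have h5 : HasDerivAt (fun r : ℝ => (1 + Real.exp (2 * r)) / 2) (Real.exp (2 * r)) r := by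
    have h6 : HasDerivAt (fun r : ℝ => 2 * r) 2 r := by
      simpa using (hasDerivAt_id r).const_mul (2:ℝ)
    have h7 := ((h6.exp).const_add 1).div_const 2
    refine h7.congr_deriv ?_
    ring
  exact ((hasDerivAt_G1 hK hδ r).mul h3).add (((hasDerivAt_mF hK hδ r).mul h4).mul h5)

private theorem delta_le (hK : 1 ≤ K) (hδ1 : δ ≤ 1) : δ - K * tau ≤ 0 := by
  have := tau_gt
  nlinarith

/-- `G' = m + y m'`, `m' ≤ 0`, `G' ≥ 0`, `m > 0` -/
private theorem G1_facts (hK : 1 ≤ K) (hδ : 0 < δ) (hδ1 : δ ≤ 1) (r : ℝ) :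
    2 * Real.pi * (K * yy r ^ 2 + 2 * δ * yy r + tau * δ) / (K * yy r + δ) ^ 2
        = mF K δ (yy r) + yy r * (2 * Real.pi * (δ - K * tau) / (K * yy r + δ) ^ 2) ∧
      yy r * (2 * Real.pi * (δ - K * tau) / (K * yy r + δ) ^ 2) ≤ 0 ∧
      0 ≤ 2 * Real.pi * (K * yy r ^ 2 + 2 * δ * yy r + tau * δ) / (K * yy r + δ) ^ 2 ∧
      0 < mF K δ (yy r) := by
  have h0 := den_pos hK hδ r
  have hy := yy_pos r
  have ht := tau_pos
  have hp := Real.pi_pos
  refine ⟨?_, ?_, ?_, ?_⟩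
  · unfold mF
    field_simp
    ring
  · have hd := delta_le hK hδ1
    apply mul_nonpos_of_nonneg_of_nonpos hy.le
    apply div_nonpos_of_nonpos_of_nonneg
    · exact mul_nonpos_of_nonneg_of_nonpos (by positivity) hd
    · positivity
  · positivity
  · unfold mF
    positivity

private theorem exp_facts {r : ℝ} (hy : yy r ≤ 1 / 2) :
    0 < Real.exp (2 * r) ∧ Real.exp (2 * r) ≤ 1 := by
  have h6 := one_sub_yy r
  have h7 := Real.exp_pos (2 * r)
  refine ⟨h7, ?_⟩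
  nlinarith

/-- uses `G'' ≤ 0`, `-m ≤ y m' ≤ 0` and `y ≤ 1/2` -/
theorem deriv_qq_le (hK : 1 ≤ K) (hδ : 0 < δ) (hδ1 : δ ≤ 1) (hσ : ContDiff ℝ ∞ σ) {r : ℝ}
    (hy : yy r ≤ 1 / 2) (h0 : 0 ≤ σ r) :
    deriv (qq K δ σ) r ≤ mF K δ (yy r) * (2 * |deriv σ r| + |deriv (deriv σ) r|) := by
  obtain ⟨f1, f2, f3, f4⟩ := G1_facts hK hδ hδ1 r
  obtain ⟨e1, e2⟩ := exp_facts hy
  have hy0 := yy_pos r
  have hv2 := v2_pos r
  have h6 := one_sub_yy r
  have hD := den_pos hK hδ r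
  have hp := Real.pi_pos
  rw [(hasDerivAt_qq hK hδ hσ r).deriv, f1]
  have g2 : 4 * Real.pi * δ * (δ - K * tau) / (K * yy r + δ) ^ 3 * v2 r * σ r ≤ 0 := by
    have hd := delta_le hK hδ1
    have : 4 * Real.pi * δ * (δ - K * tau) / (K * yy r + δ) ^ 3 ≤ 0 := by
      apply div_nonpos_of_nonpos_of_nonneg
      · exact mul_nonpos_of_nonneg_of_nonpos (by positivity) hd
      · positivity
    exact mul_nonpos_of_nonpos_of_nonneg (mul_nonpos_of_nonpos_of_nonneg this hv2.le) h0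
  set m := mF K δ (yy r) with hm
  set m1 := 2 * Real.pi * (δ - K * tau) / (K * yy r + δ) ^ 2 with hm1
  set E := Real.exp (2 * r) with hE
  set s1 := deriv σ r with hs1
  set s2 := deriv (deriv σ) r with hs2
  have h7 : v2 r * ((1 + E) / 2) = yy r := by
    unfold v2
    linear_combination (yy r) * h6
  have h8 : (m + yy r * m1) * s1 + ((m1 * v2 r * s1 + m * s2) * ((1 + E) / 2) + m * s1 * E)
      = (m + 2 * (yy r * m1) + m * E) * s1 + m * ((1 + E) / 2) * s2 := by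
    linear_combination (m1 * s1) * h7
  have h9 : (m + 2 * (yy r * m1) + m * E) * s1 ≤ 2 * m * |s1| := by
    have k1 : |(m + 2 * (yy r * m1) + m * E)| ≤ 2 * m := by
      rw [abs_le]
      constructor
      · nlinarith
      · nlinarith
    calc (m + 2 * (yy r * m1) + m * E) * s1 ≤ |(m + 2 * (yy r * m1) + m * E) * s1| := le_abs_self _
      _ = |(m + 2 * (yy r * m1) + m * E)| * |s1| := abs_mul _ _
      _ ≤ 2 * m * |s1| := mul_le_mul_of_nonneg_right k1 (abs_nonneg _)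
  have h10 : m * ((1 + E) / 2) * s2 ≤ m * |s2| := by
    calc m * ((1 + E) / 2) * s2 ≤ m * ((1 + E) / 2) * |s2| :=
          mul_le_mul_of_nonneg_left (le_abs_self _) (by positivity)
      _ ≤ m * 1 * |s2| := by
          apply mul_le_mul_of_nonneg_right _ (abs_nonneg _)
          apply mul_le_mul_of_nonneg_left _ f4.le
          linarith
      _ = m * |s2| := by ring
  rw [add_assoc, h8]
  linarith

theorem abs_qq_le (hK : 1 ≤ K) (hδ : 0 < δ) (hδ1 : δ ≤ 1) {r : ℝ}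
    (hy : yy r ≤ 1 / 2) (h0 : 0 ≤ σ r) (h1 : σ r ≤ 1) :
    |qq K δ σ r| ≤ mF K δ (yy r) * (1 + |deriv σ r|) := by
  obtain ⟨f1, f2, f3, f4⟩ := G1_facts hK hδ hδ1 r
  obtain ⟨e1, e2⟩ := exp_facts hy
  have hy0 := yy_pos r
  unfold qq
  rw [f1] at f3 ⊢
  set m := mF K δ (yy r) with hm
  set m1 := 2 * Real.pi * (δ - K * tau) / (K * yy r + δ) ^ 2 with hm1
  set E := Real.exp (2 * r) with hE
  have k1 : |(m + yy r * m1) * σ r| ≤ m := by
    rw [abs_of_nonneg (mul_nonneg f3 h0)]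
    nlinarith
  have k2 : |m * deriv σ r * ((1 + E) / 2)| ≤ m * |deriv σ r| := by
    rw [abs_mul, abs_mul, abs_of_pos f4, abs_of_pos (by positivity : 0 < (1 + E) / 2)]
    have : m * |deriv σ r| * ((1 + E) / 2) ≤ m * |deriv σ r| * 1 :=
      mul_le_mul_of_nonneg_left (by linarith) (by positivity)
    linarith
  calc |(m + yy r * m1) * σ r + m * deriv σ r * ((1 + E) / 2)|
      ≤ |(m + yy r * m1) * σ r| + |m * deriv σ r * ((1 + E) / 2)| := abs_add_le _ _
    _ ≤ m + m * |deriv σ r| := add_le_add k1 k2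
    _ = m * (1 + |deriv σ r|) := by ring

theorem gam_le (hK : 1 ≤ K) (hδ : 0 < δ) {r : ℝ} (h0 : 0 ≤ σ r) (h1 : σ r ≤ 1) :
    gam K δ σ r ≤ 2 * Real.pi * (1 + tau) / K := by
  have hd := den_pos hK hδ r
  have hy := yy_pos r
  have hy1 := yy_lt_one r
  have ht := tau_pos
  have hp := Real.pi_pos
  have h2 : yy r * mF K δ (yy r) ≤ 2 * Real.pi * (1 + tau) / K := by
    unfold mF
    rw [mul_div_assoc', div_le_div_iff₀ hd (by linarith)]
    have e1 : yy r * (2 * Real.pi * (yy r + tau)) * K ≤ 2 * Real.pi * (1 + tau) * (K * yy r) := by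
      have : yy r * (2 * Real.pi * (yy r + tau)) * K
          = 2 * Real.pi * (yy r + tau) * (K * yy r) := by ring
      rw [this]
      have e2 : 2 * Real.pi * (yy r + tau) ≤ 2 * Real.pi * (1 + tau) := by nlinarith
      exact mul_le_mul_of_nonneg_right e2 (by positivity)
    have e3 : 0 ≤ 2 * Real.pi * (1 + tau) * δ := by positivity
    linarith
  have h3 : 0 ≤ yy r * mF K δ (yy r) := by
    unfold mF
    positivity
  unfold gam
  nlinarith

theorem mF_le_div_delta (hK : 1 ≤ K) (hδ : 0 < δ) (r : ℝ) :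
    mF K δ (yy r) ≤ 2 * Real.pi * (1 + tau) / δ := by
  have hd := den_pos hK hδ r
  have hy := yy_pos r
  have hy1 := yy_lt_one r
  have ht := tau_pos
  have hp := Real.pi_pos
  unfold mF
  rw [div_le_div_iff₀ hd hδ]
  have e1 : 2 * Real.pi * (yy r + tau) * δ ≤ 2 * Real.pi * (1 + tau) * δ := by
    have e2 : 2 * Real.pi * (yy r + tau) ≤ 2 * Real.pi * (1 + tau) := by nlinarith
    exact mul_le_mul_of_nonneg_right e2 hδ.le
  have e3 : 0 ≤ 2 * Real.pi * (1 + tau) * (K * yy r) := by positivity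
  linarith

theorem mF_le (hK : 1 ≤ K) (hδ : 0 < δ) {r : ℝ} (h : 1 / K ≤ yy r) :
    mF K δ (yy r) ≤ 2 * Real.pi * (1 + tau) := by
  have hd := den_pos hK hδ r
  have hy := yy_pos r
  have hy1 := yy_lt_one r
  have ht := tau_pos
  have hp := Real.pi_pos
  have hK0 : 0 < K := by linarith
  have h1 : 1 ≤ K * yy r := by
    rw [div_le_iff₀ hK0] at h
    linarith
  unfold mF
  rw [div_le_iff₀ hd]
  have e2 : 2 * Real.pi * (yy r + tau) ≤ 2 * Real.pi * (1 + tau) := by nlinarith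
  have e3 : 2 * Real.pi * (1 + tau) * 1 ≤ 2 * Real.pi * (1 + tau) * (K * yy r + δ) :=
    mul_le_mul_of_nonneg_left (by linarith) (by positivity)
  linarith

end HMA
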