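import Pool.Agent.HMA.Gam1
import Pool.Agent.HMA.Cut

/-! module GAM2: choice of the parameters -/

open MeasureTheory Filter Topology Set Matrix
open scoped Manifold ContDiff ENNReal ComplexOrder

namespace HMA

private theorem gam2_choose (T M : ℝ) (hT : 0 < T) (hM : 0 < M) :
    ∃ c β : ℝ, 0 < c ∧ 0 < β ∧ T * M * (2 * c + c ^ 2) ≤ 2 ∧
      T * M * (2 / β + 1 / β ^ 2) ≤ 2 := by
  have hTM : 0 < T * M := mul_pos hT hM
  refine ⟨min 1 (2 / (3 * (T * M))), max 1 (3 * (T * M) / 2), ?_, ?_, ?_, ?_⟩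
  · exact lt_min one_pos (by positivity)
  · exact lt_of_lt_of_le one_pos (le_max_left _ _)
  · set c := min 1 (2 / (3 * (T * M))) with hc
    have h0 : 0 < c := lt_min one_pos (by positivity)
    have h1 : c ≤ 1 := min_le_left _ _
    have h2 : c ≤ 2 / (3 * (T * M)) := min_le_right _ _
    have h3 : 2 * c + c ^ 2 ≤ 3 * c := by nlinarith
    have h4 : T * M * (3 * c) ≤ 2 := by
      rw [le_div_iff₀ (by positivity)] at h2
      nlinarith
    exact le_trans (mul_le_mul_of_nonneg_left h3 hTM.le) h4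
  · set β := max 1 (3 * (T * M) / 2) with hβ
    have h1 : 1 ≤ β := le_max_left _ _
    have h0 : 0 < β := lt_of_lt_of_le one_pos h1
    have h2 : 3 * (T * M) / 2 ≤ β := le_max_right _ _
    have h3 : 1 / β ^ 2 ≤ 1 / β := by
      apply one_div_le_one_div_of_le h0
      nlinarith
    have h4 : 2 / β + 1 / β ^ 2 ≤ 3 / β := by
      have : 3 / β = 2 / β + 1 / β := by ring
      rw [this]
      linarith
    have h5 : T * M * (3 / β) ≤ 2 := by
      rw [← mul_div_assoc, div_le_iff₀ h0]
      linarith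
    exact le_trans (mul_le_mul_of_nonneg_left h4 hTM.le) h5

theorem exists_gamma : ∃ A β B δ0 : ℝ, 0 < A ∧ 0 < β ∧ 0 < B ∧ 0 < δ0 ∧ δ0 ≤ 1 / 4 ∧
    ∀ K δ : ℝ, 0 < δ → δ ≤ δ0 → 1 / 2 ≤ K * δ → K * δ ≤ 1 →
      ∃ γ q σ : ℝ → ℝ, ContDiff ℝ ∞ γ ∧ ContDiff ℝ ∞ q ∧
        -A / δ < 1 / 2 * Real.log (2 / K) + β ∧
        (∀ r, r ∉ Ioo (-A / δ) (1 / 2 * Real.log (2 / K) + β) → γ r = 0 ∧ q r = 0 ∧ σ r = 0) ∧
        (∀ r, 0 ≤ σ r ∧ σ r ≤ 1) ∧
        (∀ r, γ r = 2 * Real.pi * (yy r * (yy r + tau)) / (K * yy r + δ) * σ r) ∧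
        (∀ r, deriv γ r = q r * v2 r) ∧
        (∀ r, deriv q r ≤ 4) ∧
        σ (1 / 2 * Real.log (δ / K)) = 1 ∧
        ∀ r, (σ r = 0 ∧ q r = 0) ∨
          (yy r ≤ Real.exp (-(Real.pi * (1 + tau) / 2 + 1) / δ) ∧
            |q r| ≤ 2 * Real.pi * (1 + tau) / δ + 2) ∨
          (σ r = 1 ∧ |q r| ≤ 2 * Real.pi * (1 + tau) / δ ∧ yy r ≤ B / K) ∨
          (|q r| ≤ B ∧ yy r ≤ B / K) := by
  obtain ⟨M, hM, hcut⟩ := exists_cut
  set T : ℝ := 2 * Real.pi * (1 + tau) with hTdef
  have htau : 2 < tau := tau_gt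
  have hpi : 3 < Real.pi := Real.pi_gt_three
  have hT : 0 < T := by rw [hTdef]; have := Real.pi_pos; positivity
  obtain ⟨c, β, hc, hβ, hc2, hβ2⟩ := gam2_choose T M hT hM
  set N : ℝ := Real.pi * (1 + tau) / 2 + 1 with hNdef
  have hN : 2 ≤ N := by rw [hNdef]; nlinarith
  refine ⟨N / 2 + 1 / c, β, max (2 * Real.exp (2 * β)) (T + 2), min (1 / 4) (Real.exp (-(2 * β)) / 4),
    by positivity, hβ, lt_of_lt_of_le (by positivity) (le_max_left _ _),
    lt_min (by norm_num) (by positivity), min_le_left _ _, ?_⟩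
  intro K δ hδ hδ0 hK1 hK2
  have hδ4 : δ ≤ 1 / 4 := le_trans hδ0 (min_le_left _ _)
  have hδe : δ ≤ Real.exp (-(2 * β)) / 4 := le_trans hδ0 (min_le_right _ _)
  have hK0 : 0 < K := by
    by_contra h
    push Not at h
    nlinarith
  have hKδ : K ≤ 1 / δ := by rw [le_div_iff₀ hδ]; exact hK2
  have hK2' : 2 ≤ K := by
    by_contra h
    push Not at h
    nlinarith
  have hKe : 2 * Real.exp (2 * β) ≤ K := by
    have h1 : Real.exp (-(2 * β)) * Real.exp (2 * β) = 1 := by
      rw [← Real.exp_add]; simp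
    have h2 : 0 < Real.exp (2 * β) := Real.exp_pos _
    by_contra h
    push Not at h
    have h3 : K * δ < 2 * Real.exp (2 * β) * δ := mul_lt_mul_of_pos_right h hδ
    have h4 : 2 * Real.exp (2 * β) * δ ≤ 2 * Real.exp (2 * β) * (Real.exp (-(2 * β)) / 4) :=
      mul_le_mul_of_nonneg_left hδe (by positivity)
    have h5 : 2 * Real.exp (2 * β) * (Real.exp (-(2 * β)) / 4) = 1 / 2 := by
      calc 2 * Real.exp (2 * β) * (Real.exp (-(2 * β)) / 4) =
          (Real.exp (-(2 * β)) * Real.exp (2 * β)) / 2 := by ring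
        _ = 1 / 2 := by rw [h1]
    linarith
  have hK1' : 1 ≤ K := by linarith
  set r0 : ℝ := -(N / 2 + 1 / c) / δ with hr0
  set r1 : ℝ := 1 / 2 * Real.log (2 / K) + β with hr1
  set ε : ℝ := c * δ with hε
  have hε0 : 0 < ε := mul_pos hc hδ
  have hend : r0 + 1 / ε = -(N / 2) / δ := by
    rw [hr0, hε]
    field_simp
    ring
  have hlog1 : -(N / 2) / δ ≤ 1 / 2 * Real.log (δ / K) := by
    have h1 : δ ^ 2 ≤ δ / K := by
      rw [le_div_iff₀ hK0]
      nlinarith
    have h2 : Real.log (δ ^ 2) ≤ Real.log (δ / K) := Real.log_le_log (by positivity) h1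
    rw [Real.log_pow] at h2
    have h3 := Real.one_sub_inv_le_log_of_pos hδ
    have h4 : -(N / 2) / δ ≤ -δ⁻¹ := by
      rw [neg_div, neg_le_neg_iff, div_eq_mul_inv]
      have : 0 < δ⁻¹ := inv_pos.mpr hδ
      nlinarith
    push_cast at h2
    linarith
  have hlog2 : 1 / 2 * Real.log (δ / K) ≤ r1 - β := by
    have h1 : Real.log (δ / K) ≤ Real.log (2 / K) := by
      apply Real.log_le_log (by positivity)
      apply div_le_div_of_nonneg_right _ hK0.le
      linarith
    rw [hr1]
    linarith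
  have hle : r0 + 1 / ε ≤ r1 - β := by rw [hend]; exact le_trans hlog1 hlog2
  obtain ⟨σ, hσ, h01, hout, hflat, hramp, hdown⟩ := hcut r0 r1 ε β hε0 hβ hle
  have h1ε : 0 < 1 / ε := by positivity
  have hexp1 : Real.exp (2 * r1) = 2 * Real.exp (2 * β) / K := by
    rw [hr1]
    have : 2 * (1 / 2 * Real.log (2 / K) + β) = Real.log (2 / K) + 2 * β := by ring
    rw [this, Real.exp_add, Real.exp_log (by positivity)]
    ring
  have hexp1' : Real.exp (2 * r1) ≤ 1 := by
    rw [hexp1, div_le_one hK0]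
    exact hKe
  have hexpb : Real.exp (2 * (r1 - β)) = 2 / K := by
    rw [hr1]
    have : 2 * (1 / 2 * Real.log (2 / K) + β - β) = Real.log (2 / K) := by ring
    rw [this, Real.exp_log (by positivity)]
  have hyhalf : ∀ r, r ≤ r1 → yy r ≤ 1 / 2 := by
    intro r hr
    have h1 : Real.exp (2 * r) ≤ 1 :=
      le_trans (Real.exp_le_exp.mpr (by linarith)) hexp1'
    have h2 : 0 < Real.exp (2 * r) := Real.exp_pos _
    unfold yy
    rw [div_le_iff₀ (by positivity)]
    linarith
  have hyB : ∀ r, r ≤ r1 → yy r ≤ max (2 * Real.exp (2 * β)) (T + 2) / K := by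
    intro r hr
    calc yy r ≤ Real.exp (2 * r) := yy_le_exp r
      _ ≤ Real.exp (2 * r1) := Real.exp_le_exp.mpr (by linarith)
      _ = 2 * Real.exp (2 * β) / K := hexp1
      _ ≤ _ := div_le_div_of_nonneg_right (le_max_left _ _) hK0.le
  have hyK : ∀ r, r1 - β ≤ r → 1 / K ≤ yy r := by
    intro r hr
    have h1 : 2 / K ≤ Real.exp (2 * r) := by
      rw [← hexpb]
      exact Real.exp_le_exp.mpr (by linarith)
    have h2 : 0 < Real.exp (2 * r) := Real.exp_pos _
    unfold yy
    rw [div_le_div_iff₀ hK0 (by positivity)]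
    rw [div_le_iff₀ hK0] at h1
    nlinarith
  have hmδ : ∀ r, mF K δ (yy r) ≤ T / δ := fun r => mF_le_div_delta hK1' hδ r
  have hmT : ∀ r, r1 - β ≤ r → mF K δ (yy r) ≤ T := fun r hr => mF_le hK1' hδ (hyK r hr)
  have hm0 : ∀ r, 0 ≤ mF K δ (yy r) := by
    intro r
    have := yy_pos r
    unfold mF
    positivity
  have hδ1 : δ ≤ 1 := by linarith
  refine ⟨gam K δ σ, qq K δ σ, σ, contDiff_gam hK1' hδ hσ, contDiff_qq hK1' hδ hσ, ?_, ?_, h01,
    ?_, deriv_gam hK1' hδ hσ, ?_, ?_, ?_⟩
  · linarith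
  · intro r hr
    obtain ⟨e1, e2⟩ := hout r hr
    refine ⟨?_, ?_, e1⟩
    · unfold gam; rw [e1, mul_zero]
    · unfold qq; rw [e1, e2]; ring
  · intro r
    unfold gam mF
    ring
  · intro r
    rcases lt_or_ge r1 r with hr | hr
    · have h1 : qq K δ σ =ᶠ[𝓝 r] fun _ => 0 := by
        filter_upwards [Ioi_mem_nhds hr] with t ht
        obtain ⟨e1, e2⟩ := hout t (fun h => absurd h.2 (not_lt.mpr (le_of_lt ht)))
        unfold qq; rw [e1, e2]; ring
      rw [h1.deriv_eq]
      simp
    · refine le_trans (deriv_qq_le hK1' hδ hδ1 hσ (hyhalf r hr) (h01 r).1) ?_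
      rcases le_total r (r0 + 1 / ε) with h | h
      · obtain ⟨b1, b2⟩ := hramp r h
        have hs : 2 * |deriv σ r| + |deriv (deriv σ) r| ≤ 2 * (M * ε) + M * ε ^ 2 := by linarith
        have hs0 : 0 ≤ 2 * |deriv σ r| + |deriv (deriv σ) r| := by positivity
        calc mF K δ (yy r) * (2 * |deriv σ r| + |deriv (deriv σ) r|)
            ≤ T / δ * (2 * (M * ε) + M * ε ^ 2) :=
              mul_le_mul (hmδ r) hs hs0 (by positivity)
          _ = T * M * (2 * c + c ^ 2 * δ) := by
              rw [hε]; field_simp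
          _ ≤ T * M * (2 * c + c ^ 2) := by
              apply mul_le_mul_of_nonneg_left _ (by positivity)
              have : c ^ 2 * δ ≤ c ^ 2 := by
                have := sq_nonneg c
                nlinarith
              linarith
          _ ≤ 4 := by linarith
      · rcases le_total r (r1 - β) with h' | h'
        · obtain ⟨-, b1, b2⟩ := hflat r h h'
          rw [b1, b2]
          simp
        · obtain ⟨b1, b2⟩ := hdown r h'
          have hs : 2 * |deriv σ r| + |deriv (deriv σ) r| ≤ 2 * (M / β) + M / β ^ 2 := by linarith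
          have hs0 : 0 ≤ 2 * |deriv σ r| + |deriv (deriv σ) r| := by positivity
          calc mF K δ (yy r) * (2 * |deriv σ r| + |deriv (deriv σ) r|)
              ≤ T * (2 * (M / β) + M / β ^ 2) := mul_le_mul (hmT r h') hs hs0 hT.le
            _ = T * M * (2 / β + 1 / β ^ 2) := by ring
            _ ≤ 4 := by linarith
  · apply (hflat _ _ hlog2).1
    rw [hend]
    exact hlog1
  · intro r
    by_cases hr : r ∈ Ioo r0 r1
    · have hr1 : r ≤ r1 := hr.2.le
      have hq := abs_qq_le (σ := σ) hK1' hδ hδ1 (hyhalf r hr1) (h01 r).1 (h01 r).2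
      right
      rcases le_total r (r0 + 1 / ε) with h | h
      · left
        obtain ⟨b1, -⟩ := hramp r h
        constructor
        · calc yy r ≤ Real.exp (2 * r) := yy_le_exp r
            _ ≤ Real.exp (2 * (-(N / 2) / δ)) := Real.exp_le_exp.mpr (by linarith)
            _ = Real.exp (-N / δ) := by
                congr 1
                ring
        · calc |qq K δ σ r| ≤ mF K δ (yy r) * (1 + |deriv σ r|) := hq
            _ ≤ T / δ * (1 + M * ε) :=
              mul_le_mul (hmδ r) (by linarith) (by positivity) (by positivity)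
            _ = T / δ + T * M * c := by
              rw [hε]; field_simp
            _ ≤ T / δ + 2 := by
              have : 0 ≤ T * M * (c + c ^ 2) := by positivity
              nlinarith
      · right
        rcases le_total r (r1 - β) with h' | h'
        · left
          obtain ⟨b0, b1, -⟩ := hflat r h h'
          refine ⟨b0, ?_, hyB r hr1⟩
          rw [b1, abs_zero, add_zero, mul_one] at hq
          exact le_trans hq (hmδ r)
        · right
          obtain ⟨b1, -⟩ := hdown r h'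
          refine ⟨?_, hyB r hr1⟩
          calc |qq K δ σ r| ≤ mF K δ (yy r) * (1 + |deriv σ r|) := hq
            _ ≤ T * (1 + M / β) :=
              mul_le_mul (hmT r h') (by linarith) (by positivity) hT.le
            _ ≤ T + 2 := by
              have h1 : T * M * (2 / β + 1 / β ^ 2) = 2 * (T * (M / β)) + T * M * (1 / β ^ 2) := by
                ring
              have h2 : 0 ≤ T * M * (1 / β ^ 2) := by positivity
              have h3 : 0 ≤ T * (M / β) := by positivity
              nlinarith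
            _ ≤ _ := le_max_right _ _
    · left
      obtain ⟨e1, e2⟩ := hout r hr
      refine ⟨e1, ?_⟩
      unfold qq; rw [e1, e2]; ring

end HMA
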