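import Pool.Agent.HMA.Leg1

/-! module LEG2: derivatives of the Legendre transform -/

open MeasureTheory Filter Topology Set Matrix
open scoped Manifold ContDiff ENNReal ComplexOrder

namespace HMA

namespace LD

variable (d : LD)

theorem contDiff_Phi : ContDiff ℝ ∞ (fun x : ℝ × ℝ => d.Phi x.1 x.2) := by
  have hR := d.contDiff_R
  have h1 : ContDiff ℝ ∞ (fun x : ℝ × ℝ => vv (d.R x.1 x.2)) := contDiff_vv.comp hR
  have h2 : ContDiff ℝ ∞ (fun x : ℝ × ℝ => d.P x.1) := d.hP.comp contDiff_fst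
  have h3 : ContDiff ℝ ∞ (fun x : ℝ × ℝ => d.γ (d.R x.1 x.2)) := d.hγ.comp hR
  have h4 : ContDiff ℝ ∞ (fun x : ℝ × ℝ => yy (d.R x.1 x.2)) := contDiff_yy.comp hR
  have h5 : ContDiff ℝ ∞ (fun x : ℝ × ℝ => d.q (d.R x.1 x.2)) := d.hq.comp hR
  exact h1.add (h2.mul (h3.sub (h4.mul h5)))

theorem contDiff_phi : ContDiff ℝ ∞ (fun x : ℝ × ℝ => d.phi x.1 x.2) :=
  d.contDiff_Phi.sub (contDiff_vv.comp contDiff_snd)

theorem hasFDerivAt_Phi (ξ ρ : ℝ) : HasFDerivAt (fun x : ℝ × ℝ => d.Phi x.1 x.2)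
    ((d.γ (d.R ξ ρ) * deriv d.P ξ) • ContinuousLinearMap.fst ℝ ℝ ℝ
      + yy (d.R ξ ρ) • ContinuousLinearMap.snd ℝ ℝ ℝ) (ξ, ρ) := by
  have hR := d.hasFDerivAt_R ξ ρ
  set R := d.R ξ ρ with hRdef
  set L : ℝ × ℝ →L[ℝ] ℝ := d.Rr ξ ρ • ((d.q R * deriv d.P ξ) • ContinuousLinearMap.fst ℝ ℝ ℝ
      + ContinuousLinearMap.snd ℝ ℝ ℝ) with hL
  have comp : ∀ (g : ℝ → ℝ) (g' : ℝ), HasDerivAt g g' R →
      HasFDerivAt (fun x : ℝ × ℝ => g (d.R x.1 x.2)) (g' • L) (ξ, ρ) := by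
    intro g g' hg
    exact HasDerivAt.comp_hasFDerivAt (h₂ := g) (f := fun x : ℝ × ℝ => d.R x.1 x.2)
      (ξ, ρ) hg hR
  have h1 : HasFDerivAt (fun x : ℝ × ℝ => vv (d.R x.1 x.2)) (yy R • L) (ξ, ρ) :=
    comp _ _ (hasDerivAt_vv R)
  have g2 : HasDerivAt d.P (deriv d.P ξ) (ξ, ρ).1 :=
    ((d.hP.differentiable (by simp)) ξ).hasDerivAt
  have h2 : HasFDerivAt (fun x : ℝ × ℝ => d.P x.1)
      (deriv d.P ξ • ContinuousLinearMap.fst ℝ ℝ ℝ) (ξ, ρ) :=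
    g2.comp_hasFDerivAt _ hasFDerivAt_fst
  have g3 : HasDerivAt d.γ (d.q R * v2 R) R := by
    rw [← d.deriv_γ]
    exact ((d.hγ.differentiable (by simp)) _).hasDerivAt
  have h3 : HasFDerivAt (fun x : ℝ × ℝ => d.γ (d.R x.1 x.2)) ((d.q R * v2 R) • L) (ξ, ρ) :=
    comp _ _ g3
  have h4 : HasFDerivAt (fun x : ℝ × ℝ => yy (d.R x.1 x.2)) (v2 R • L) (ξ, ρ) :=
    comp _ _ (hasDerivAt_yy R)
  have g5 : HasDerivAt d.q (deriv d.q R) R :=
    ((d.hq.differentiable (by simp)) _).hasDerivAt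
  have h5 : HasFDerivAt (fun x : ℝ × ℝ => d.q (d.R x.1 x.2)) (deriv d.q R • L) (ξ, ρ) :=
    comp _ _ g5
  have h6 := h1.add (h2.mul (h3.sub (h4.mul h5)))
  refine h6.congr_fderiv ?_
  have hRr : d.Rr ξ ρ * (1 - deriv d.q R * d.P ξ) = 1 := by
    have := d.qP R ξ
    unfold Rr
    rw [← hRdef, one_div, inv_mul_cancel₀]
    linarith
  refine ContinuousLinearMap.ext fun v => ?_
  simp only [hL, _root_.add_apply, _root_.smul_apply,
    ContinuousLinearMap.coe_fst', ContinuousLinearMap.coe_snd', _root_.sub_apply,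
    smul_eq_mul, Pi.sub_apply, Pi.mul_apply, ← hRdef]
  generalize d.Rr ξ ρ = t at hRr
  have e1 : deriv d.q R * d.P ξ * t = t - 1 := by linarith
  linear_combination (- yy R * (d.q R * deriv d.P ξ * v.1 + v.2)) * e1

end LD

end HMA
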