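import Pool.Agent.HMA.HessDefs
import Pool.Agent.HMA.Leg2
import Pool.Agent.HMA.BaseB

/-! module HESSA: the complex Hessian of the perturbed potential -/

open MeasureTheory Filter Topology Set Matrix
open scoped Manifold ContDiff ENNReal ComplexOrder

namespace HMA

namespace HessA

/-- the real part of a coordinate as a continuous linear map -/
noncomputable def reL (i : Fin 3) : E3 →L[ℝ] ℝ :=
  Complex.reCLM.comp (ContinuousLinearMap.proj (R := ℝ) (φ := fun _ : Fin 3 => ℂ) i)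

theorem reL_apply (i : Fin 3) (v : E3) : reL i v = (v i).re := rfl

/-- `a Re z₀ + b Re z₁` -/
noncomputable def kL (a b : ℝ) : E3 →L[ℝ] ℝ := a • reL 0 + b • reL 1

theorem kL_apply (a b : ℝ) (v : E3) : kL a b v = a * (v 0).re + b * (v 1).re := rfl

theorem hasFDerivAt_fderiv_apply {u : E3 → ℝ} {p : E3} (hu : ContDiffAt ℝ 2 u p) (w : E3) :
    HasFDerivAt (fun q => fderiv ℝ u q w) ((fderiv ℝ (fderiv ℝ u) p).flip w) p := by
  have h1 : ContDiffAt ℝ 1 (fderiv ℝ u) p := hu.fderiv_right (by norm_num)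
  have h2 := (h1.differentiableAt (by norm_num)).hasFDerivAt
  have h3 := h2.clm_apply (hasFDerivAt_const w p)
  refine h3.congr_fderiv ?_
  ext v
  simp

theorem eventually_ne {p : E3} (hp : p 2 ≠ 0) : ∀ᶠ q in 𝓝 p, q 2 ≠ 0 :=
  (continuous_apply (2 : Fin 3)).continuousAt.eventually_ne hp

/-- `1` in the second sheet -/
noncomputable def kap (s : Bool) : ℝ := if s then 1 else 0

theorem kap_sg (s : Bool) (x : ℝ) : kap s * (- (sg s * x)) = kap s * x := by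
  cases s <;> simp [kap, sg]

theorem uM_eq {C : ℝ} (m : Mode C) (s : Bool) {q : E3} (hq : q 2 ≠ 0) :
    uM m s q = Real.pi * (kL 1 gr q) ^ 2 + m.Phi (kL m.k0 m.k1 q) (rho s q)
      + kap s * (Real.pi * (reL 0 q ^ 2 + reL 1 q ^ 2) - rho s q) := by
  have h := log_NN s hq
  unfold uM uW LD.phi Mode.xi
  rw [h]
  simp only [kL_apply, reL_apply]
  cases s
  · simp [kap]
  · simp [kap, rho, sg, xx]
    ring

/-- the function `R(ξ, ρ)` on the sheets -/
noncomputable def RR {C : ℝ} (m : Mode C) (s : Bool) (q : E3) : ℝ :=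
  m.R (kL m.k0 m.k1 q) (rho s q)

theorem hasFDerivAt_RR {C : ℝ} (m : Mode C) (s : Bool) {q : E3} (hq : q 2 ≠ 0) :
    HasFDerivAt (RR m s)
      (m.Rr (kL m.k0 m.k1 q) (rho s q) •
        ((m.q (RR m s q) * deriv m.P (kL m.k0 m.k1 q)) • kL m.k0 m.k1 + fderiv ℝ (rho s) q)) q := by
  have h1 : HasFDerivAt (rho s) (fderiv ℝ (rho s) q) q :=
    ((contDiffAt_rho s hq).differentiableAt (by simp)).hasFDerivAt
  have h2 := (kL m.k0 m.k1).hasFDerivAt (x := q)
  have h3 := (m.hasFDerivAt_R (kL m.k0 m.k1 q) (rho s q)).comp q (h2.prodMk h1)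
  refine h3.congr_fderiv ?_
  ext v
  simp [RR]

theorem hasFDerivAt_uM {C : ℝ} (m : Mode C) (s : Bool) {q : E3} (hq : q 2 ≠ 0) :
    HasFDerivAt (uM m s)
      ((2 * Real.pi * kL 1 gr q) • kL 1 gr
        + ((m.γ (RR m s q) * deriv m.P (kL m.k0 m.k1 q)) • kL m.k0 m.k1
            + yy (RR m s q) • fderiv ℝ (rho s) q)
        + kap s • ((2 * Real.pi) • (reL 0 q • reL 0 + reL 1 q • reL 1) - fderiv ℝ (rho s) q)) q := by
  have h1 : HasFDerivAt (rho s) (fderiv ℝ (rho s) q) q :=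
    ((contDiffAt_rho s hq).differentiableAt (by simp)).hasFDerivAt
  have h2 := (kL m.k0 m.k1).hasFDerivAt (x := q)
  have h3 := (m.hasFDerivAt_Phi (kL m.k0 m.k1 q) (rho s q)).comp q (h2.prodMk h1)
  have h4 := ((kL 1 gr).hasFDerivAt (x := q)).pow 2
  have h5 := ((reL 0).hasFDerivAt (x := q)).pow 2
  have h6 := ((reL 1).hasFDerivAt (x := q)).pow 2
  have h7 := ((h4.const_mul Real.pi).add h3).add
    ((((h5.add h6).const_mul Real.pi).sub h1).const_mul (kap s))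
  refine HasFDerivAt.congr_of_eventuallyEq (h7.congr_fderiv ?_) ?_
  · ext v
    simp [RR]
    ring
  · filter_upwards [eventually_ne hq] with q' hq'
    rw [uM_eq m s hq']
    rfl

theorem D2_uM {C : ℝ} (m : Mode C) (s : Bool) {p : E3} (hp : p 2 ≠ 0)
    (hu : ContDiffAt ℝ 2 (uM m s) p) (v w : E3) :
    D2 (uM m s) p v w =
      2 * Real.pi * kL 1 gr v * kL 1 gr w
      + (m.γ (RR m s p) * deriv (deriv m.P) (kL m.k0 m.k1 p)) * kL m.k0 m.k1 v * kL m.k0 m.k1 w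
      + v2 (RR m s p) * m.Rr (kL m.k0 m.k1 p) (rho s p) *
        (m.q (RR m s p) * deriv m.P (kL m.k0 m.k1 p) * kL m.k0 m.k1 v + fderiv ℝ (rho s) p v) *
        (m.q (RR m s p) * deriv m.P (kL m.k0 m.k1 p) * kL m.k0 m.k1 w + fderiv ℝ (rho s) p w)
      + yy (RR m s p) * D2 (rho s) p v w
      + kap s * (2 * Real.pi * ((v 0).re * (w 0).re + (v 1).re * (w 1).re)
        - D2 (rho s) p v w) := by
  have hrho := contDiffAt_rho s hp
  have hr2 : ContDiffAt ℝ 2 (rho s) p := contDiffAt_infty.mp hrho 2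
  have e1 := hasFDerivAt_fderiv_apply hu w
  have e2 := hasFDerivAt_fderiv_apply hr2 w
  have hR := hasFDerivAt_RR m s hp
  have hγ : HasDerivAt m.γ (m.q (RR m s p) * v2 (RR m s p)) (RR m s p) := by
    have := (m.hγ.differentiable (by simp)) (RR m s p)
    have h := this.hasDerivAt
    rwa [m.deriv_γ] at h
  have hγR := hγ.comp_hasFDerivAt p hR
  have hyR := (hasDerivAt_yy (RR m s p)).comp_hasFDerivAt p hR
  have hP' : ContDiff ℝ ∞ (deriv m.P) := by
    have := m.hP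
    exact (contDiff_infty_iff_deriv.mp this).2
  have hP'' : HasDerivAt (deriv m.P) (deriv (deriv m.P) (kL m.k0 m.k1 p)) (kL m.k0 m.k1 p) :=
    (hP'.differentiable (by simp) _).hasDerivAt
  have hPk := hP''.comp_hasFDerivAt p ((kL m.k0 m.k1).hasFDerivAt (x := p))
  have g1 := ((kL 1 gr).hasFDerivAt (x := p)).const_mul (2 * Real.pi * kL 1 gr w)
  have g2 := (hγR.mul hPk).const_mul (kL m.k0 m.k1 w)
  have g3 := hyR.mul e2
  have g4 := ((((reL 0).hasFDerivAt (x := p)).const_mul (2 * Real.pi * reL 0 w)).add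
    (((reL 1).hasFDerivAt (x := p)).const_mul (2 * Real.pi * reL 1 w))).sub e2
  have g := ((g1.add g2).add g3).add (g4.const_mul (kap s))
  have e3 := (g.congr_of_eventuallyEq (f₁ := fun q => fderiv ℝ (uM m s) q w) ?_).unique e1
  · have e4 := congrArg (fun L : E3 →L[ℝ] ℝ => L v) e3
    simp only [ContinuousLinearMap.flip_apply] at e4
    unfold D2
    rw [← e4]
    simp [reL_apply]
    ring
  · filter_upwards [eventually_ne hp] with q hq
    rw [(hasFDerivAt_uM m s hq).fderiv]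
    simp
    ring

end HessA

open HessA

theorem contDiffAt_uM {C : ℝ} (m : Mode C) (s : Bool) {p : E3} (hp : p 2 ≠ 0) :
    ContDiffAt ℝ ∞ (uM m s) p := by
  have h1 : ContDiffAt ℝ ∞ (fun q : E3 => (kL m.k0 m.k1 q, rho s q)) p :=
    (kL m.k0 m.k1).contDiff.contDiffAt.prodMk (contDiffAt_rho s hp)
  have h2 := (m.contDiff_phi.contDiffAt (x := (kL m.k0 m.k1 p, rho s p))).comp p h1
  exact (contDiff_uW s).contDiffAt.add h2

theorem cHess_uM {C : ℝ} (m : Mode C) (s : Bool) {p : E3} (hp : p 2 ≠ 0) :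
    cHess (uM m s) p =
      let ξ := m.xi (p 0).re (p 1).re
      let r := m.R ξ (rho s p)
      hm (yy r) (m.γ r * deriv (deriv m.P) ξ) (v2 r * m.Rr ξ (rho s p)) m.k0 m.k1
        (avec m s p) := by
  have hu : ContDiffAt ℝ 2 (uM m s) p := contDiffAt_infty.mp (contDiffAt_uM m s hp) 2
  show cHess (uM m s) p = hm (yy (m.R (m.xi (p 0).re (p 1).re) (rho s p)))
    (m.γ (m.R (m.xi (p 0).re (p 1).re) (rho s p)) * deriv (deriv m.P) (m.xi (p 0).re (p 1).re))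
    (v2 (m.R (m.xi (p 0).re (p 1).re) (rho s p)) * m.Rr (m.xi (p 0).re (p 1).re) (rho s p))
    m.k0 m.k1 (avec m s p)
  set ξ := m.xi (p 0).re (p 1).re with hξd
  set r := m.R ξ (rho s p) with hrd
  have hξ : kL m.k0 m.k1 p = ξ := rfl
  have hr : RR m s p = r := rfl
  refine cHess_of_D2 (ι := Fin 5)
    (![2 * Real.pi, 2 * Real.pi * yy r, 2 * Real.pi * yy r, m.γ r * deriv (deriv m.P) ξ,
      v2 r * m.Rr ξ (rho s p)])
    (![![1, (gr : ℂ), 0], ![1, 0, 0], ![0, 1, 0], ![((m.k0 : ℝ) : ℂ), ((m.k1 : ℝ) : ℂ), 0],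
      avec m s p])
    (-((yy r * sg s + kap s : ℝ) : ℂ) / p 2 ^ 2) 2 ?_
  intro v w
  have hD := D2_uM m s hp hu v w
  rw [hD, hξ, hr, D2_rho s hp v w, fderiv_rho s hp v, fderiv_rho s hp w]
  have h1 : (∑ i, (avec m s p) i * v i).re =
      m.q r * deriv m.P ξ * ((m.k0 : ℝ) * (v 0).re + (m.k1 : ℝ) * (v 1).re)
      + (2 * Real.pi * (p 0).re * v 0 + 2 * Real.pi * (p 1).re * v 1 + sg s * v 2 / p 2).re := by
    have e : avec m s p = ![((2 * Real.pi * (p 0).re + m.q r * deriv m.P ξ * m.k0 : ℝ) : ℂ),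
      ((2 * Real.pi * (p 1).re + m.q r * deriv m.P ξ * m.k1 : ℝ) : ℂ), (sg s : ℂ) / p 2] := rfl
    have e' : (sg s : ℂ) * v 2 / p 2 = (sg s : ℂ) / p 2 * v 2 := by ring
    rw [e, e', Fin.sum_univ_three]
    simp
    ring
  have h2 : (∑ i, (avec m s p) i * w i).re =
      m.q r * deriv m.P ξ * ((m.k0 : ℝ) * (w 0).re + (m.k1 : ℝ) * (w 1).re)
      + (2 * Real.pi * (p 0).re * w 0 + 2 * Real.pi * (p 1).re * w 1 + sg s * w 2 / p 2).re := by
    have e : avec m s p = ![((2 * Real.pi * (p 0).re + m.q r * deriv m.P ξ * m.k0 : ℝ) : ℂ),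
      ((2 * Real.pi * (p 1).re + m.q r * deriv m.P ξ * m.k1 : ℝ) : ℂ), (sg s : ℂ) / p 2] := rfl
    have e' : (sg s : ℂ) * w 2 / p 2 = (sg s : ℂ) / p 2 * w 2 := by ring
    rw [e, e', Fin.sum_univ_three]
    simp
    ring
  have h3 : (-((yy r * sg s + kap s : ℝ) : ℂ) / p 2 ^ 2 * v 2 * w 2).re =
      - (yy r * sg s + kap s) * (v 2 * w 2 / p 2 ^ 2).re := by
    have e : -((yy r * sg s + kap s : ℝ) : ℂ) / p 2 ^ 2 * v 2 * w 2 =
      ((- (yy r * sg s + kap s) : ℝ) : ℂ) * (v 2 * w 2 / p 2 ^ 2) := by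
      push_cast
      ring
    rw [e, Complex.re_ofReal_mul]
  have hs : kap s * sg s = - kap s := by
    cases s <;> simp [kap, sg]
  rw [h3, Fin.sum_univ_five]
  simp only [kL_apply]
  have e0 : ∀ v : E3, (∑ i, (![1, (gr : ℂ), 0] : Fin 3 → ℂ) i * v i).re
      = (v 0).re + gr * (v 1).re := by
    intro v; rw [Fin.sum_univ_three]; simp
  have e1 : ∀ v : E3, (∑ i, (![1, 0, 0] : Fin 3 → ℂ) i * v i).re = (v 0).re := by
    intro v; rw [Fin.sum_univ_three]; simp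
  have e2 : ∀ v : E3, (∑ i, (![0, 1, 0] : Fin 3 → ℂ) i * v i).re = (v 1).re := by
    intro v; rw [Fin.sum_univ_three]; simp
  have e3 : ∀ v : E3, (∑ i, (![((m.k0 : ℝ) : ℂ), ((m.k1 : ℝ) : ℂ), 0] : Fin 3 → ℂ) i * v i).re
      = m.k0 * (v 0).re + m.k1 * (v 1).re := by
    intro v; rw [Fin.sum_univ_three]; simp
  show _ = 2 * Real.pi * (∑ i, (![1, (gr : ℂ), 0] : Fin 3 → ℂ) i * v i).re *
      (∑ i, (![1, (gr : ℂ), 0] : Fin 3 → ℂ) i * w i).re
    + 2 * Real.pi * yy r * (∑ i, (![1, 0, 0] : Fin 3 → ℂ) i * v i).re *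
      (∑ i, (![1, 0, 0] : Fin 3 → ℂ) i * w i).re
    + 2 * Real.pi * yy r * (∑ i, (![0, 1, 0] : Fin 3 → ℂ) i * v i).re *
      (∑ i, (![0, 1, 0] : Fin 3 → ℂ) i * w i).re
    + m.γ r * deriv (deriv m.P) ξ *
      (∑ i, (![((m.k0 : ℝ) : ℂ), ((m.k1 : ℝ) : ℂ), 0] : Fin 3 → ℂ) i * v i).re *
      (∑ i, (![((m.k0 : ℝ) : ℂ), ((m.k1 : ℝ) : ℂ), 0] : Fin 3 → ℂ) i * w i).re
    + v2 r * m.Rr ξ (rho s p) * (∑ i, (avec m s p) i * v i).re * (∑ i, (avec m s p) i * w i).re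
    + _
  rw [h1, h2, e0, e0, e1, e1, e2, e2, e3, e3]
  linear_combination ((v 2 * w 2 / p 2 ^ 2).re) * hs

end HMA
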