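import Pool.Agent.HMA.ModeF

/-! the complex Hessian of the perturbed potential: definitions -/

open MeasureTheory Filter Topology Set Matrix
open scoped Manifold ContDiff ENNReal ComplexOrder

namespace HMA

/-- `(1/4) (2π θθᵀ + 2πy I₂ + g kkᵀ + Y a aᴴ)` -/
noncomputable def hm (y g Y k0 k1 : ℝ) (a : Fin 3 → ℂ) : Matrix (Fin 3) (Fin 3) ℂ :=
  (1 / 4 : ℂ) • ∑ k : Fin 5,
    ((![2 * Real.pi, 2 * Real.pi * y, 2 * Real.pi * y, g, Y] k : ℝ) : ℂ) •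
      vecMulVec ((![![1, (gr : ℂ), 0], ![1, 0, 0], ![0, 1, 0], ![(k0 : ℂ), (k1 : ℂ), 0], a] :
          Fin 5 → Fin 3 → ℂ) k)
        (star ((![![1, (gr : ℂ), 0], ![1, 0, 0], ![0, 1, 0], ![(k0 : ℂ), (k1 : ℂ), 0], a] :
          Fin 5 → Fin 3 → ℂ) k))

/-- the vector of the last rank one term -/
noncomputable def avec {C : ℝ} (m : Mode C) (s : Bool) (p : E3) : Fin 3 → ℂ :=
  let ξ := m.xi (p 0).re (p 1).re
  let e : ℝ := m.q (m.R ξ (rho s p)) * deriv m.P ξ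
  ![((2 * Real.pi * (p 0).re + e * m.k0 : ℝ) : ℂ), ((2 * Real.pi * (p 1).re + e * m.k1 : ℝ) : ℂ),
    (sg s : ℂ) / p 2]

/-- the perturbed potential -/
noncomputable def uM {C : ℝ} (m : Mode C) (s : Bool) (p : E3) : ℝ :=
  uW s p + m.phi (m.xi (p 0).re (p 1).re) (rho s p)

end HMA
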