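import Pool.Agent.HMA.Calc2

/-! module IBP: integration by parts for the mixed Monge-Ampere operator -/

open MeasureTheory Filter Topology Set Matrix
open scoped Manifold ContDiff ENNReal ComplexOrder

namespace HMA

/-- the first order operator `(∂_{e_a} + e ∂_{i e_a}) / 2` -/
private noncomputable def ibpL (e : ℂ) (a : Fin 3) (F : E3 → ℂ) (p : E3) : ℂ :=
  (fderiv ℝ F p (Pi.single a 1) + e * fderiv ℝ F p (Pi.single a Complex.I)) / 2

private theorem ibp_cd1 {F : E3 → ℂ} (hF : ContDiff ℝ ∞ F) (v : E3) :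
    ContDiff ℝ ∞ (fun p => fderiv ℝ F p v) :=
  (hF.fderiv_right (m := ∞) (by simp)).clm_apply contDiff_const

private theorem ibpL_contDiff (e : ℂ) (a : Fin 3) {F : E3 → ℂ} (hF : ContDiff ℝ ∞ F) :
    ContDiff ℝ ∞ (ibpL e a F) := by
  unfold ibpL
  exact ((ibp_cd1 hF _).add (contDiff_const.mul (ibp_cd1 hF _))).div_const 2

private theorem ibp_fd2 {F : E3 → ℂ} (hF : ContDiff ℝ ∞ F) (v w p : E3) :
    fderiv ℝ (fun q => fderiv ℝ F q v) p w = fderiv ℝ (fderiv ℝ F) p w v := by
  have h1 : DifferentiableAt ℝ (fderiv ℝ F) p :=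
    ((hF.fderiv_right (m := ∞) (by simp)).differentiable (by simp)).differentiableAt
  have h2 := h1.hasFDerivAt.clm_apply (hasFDerivAt_const v p)
  rw [h2.fderiv]
  simp

private theorem ibpL2 {F : E3 → ℂ} (hF : ContDiff ℝ ∞ F) (e e' : ℂ) (a b : Fin 3) (p : E3) :
    ibpL e a (ibpL e' b F) p =
      (fderiv ℝ (fderiv ℝ F) p (Pi.single a 1) (Pi.single b 1)
        + e' * fderiv ℝ (fderiv ℝ F) p (Pi.single a 1) (Pi.single b Complex.I)
        + e * fderiv ℝ (fderiv ℝ F) p (Pi.single a Complex.I) (Pi.single b 1)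
        + e * e' * fderiv ℝ (fderiv ℝ F) p (Pi.single a Complex.I) (Pi.single b Complex.I)) / 4 := by
  have hd : ∀ v : E3, DifferentiableAt ℝ (fun q => fderiv ℝ F q v) p := fun v =>
    ((ibp_cd1 hF v).differentiable (by simp)).differentiableAt
  have key : ∀ w : E3, fderiv ℝ (ibpL e' b F) p w =
      (fderiv ℝ (fderiv ℝ F) p w (Pi.single b 1)
        + e' * fderiv ℝ (fderiv ℝ F) p w (Pi.single b Complex.I)) / 2 := by
    intro w
    have h3 : HasFDerivAt (ibpL e' b F)
        ((2 : ℂ)⁻¹ • (fderiv ℝ (fun q => fderiv ℝ F q (Pi.single b 1)) p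
          + e' • fderiv ℝ (fun q => fderiv ℝ F q (Pi.single b Complex.I)) p)) p := by
      have h4 := (((hd (Pi.single b 1)).hasFDerivAt).add
        (((hd (Pi.single b Complex.I)).hasFDerivAt).const_mul e')).const_mul ((2 : ℂ)⁻¹)
      refine h4.congr_of_eventuallyEq (Eventually.of_forall fun q => ?_)
      simp only [ibpL, Pi.add_apply]
      ring
    rw [h3.fderiv]
    simp only [_root_.smul_apply, _root_.add_apply, smul_eq_mul,
      ibp_fd2 hF]
    ring
  unfold ibpL at key ⊢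
  rw [key, key]
  ring

private theorem ibp_symm {F : E3 → ℂ} (hF : ContDiff ℝ ∞ F) (p v w : E3) :
    fderiv ℝ (fderiv ℝ F) p v w = fderiv ℝ (fderiv ℝ F) p w v :=
  (hF.contDiffAt.isSymmSndFDerivAt (by
    rw [minSmoothness_of_isRCLikeNormedField]
    exact WithTop.coe_le_coe.2 (le_top : (2 : ℕ∞) ≤ ⊤))) v w

private theorem ibpL_comm {F : E3 → ℂ} (hF : ContDiff ℝ ∞ F) (e e' : ℂ) (a b : Fin 3) (p : E3) :
    ibpL e a (ibpL e' b F) p = ibpL e' b (ibpL e a F) p := by
  rw [ibpL2 hF, ibpL2 hF, ibp_symm hF p (Pi.single a 1) (Pi.single b 1),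
    ibp_symm hF p (Pi.single a 1) (Pi.single b Complex.I),
    ibp_symm hF p (Pi.single a Complex.I) (Pi.single b 1),
    ibp_symm hF p (Pi.single a Complex.I) (Pi.single b Complex.I)]
  ring

private theorem ibpL_mul {F G : E3 → ℂ} (hF : ContDiff ℝ ∞ F) (hG : ContDiff ℝ ∞ G) (e : ℂ)
    (a : Fin 3) (p : E3) :
    ibpL e a (fun q => F q * G q) p = ibpL e a F p * G p + F p * ibpL e a G p := by
  have h1 : DifferentiableAt ℝ F p := (hF.differentiable (by simp)).differentiableAt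
  have h2 : DifferentiableAt ℝ G p := (hG.differentiable (by simp)).differentiableAt
  unfold ibpL
  have h3 := (h1.hasFDerivAt.mul h2.hasFDerivAt).fderiv
  have h4 : fderiv ℝ (fun q => F q * G q) p = F p • fderiv ℝ G p + G p • fderiv ℝ F p := h3
  rw [h4]
  simp only [_root_.add_apply, _root_.smul_apply, smul_eq_mul]
  ring

private theorem ibpL_sub {F G : E3 → ℂ} (hF : ContDiff ℝ ∞ F) (hG : ContDiff ℝ ∞ G) (e : ℂ)
    (a : Fin 3) (p : E3) :
    ibpL e a (fun q => F q - G q) p = ibpL e a F p - ibpL e a G p := by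
  have h1 : DifferentiableAt ℝ F p := (hF.differentiable (by simp)).differentiableAt
  have h2 : DifferentiableAt ℝ G p := (hG.differentiable (by simp)).differentiableAt
  unfold ibpL
  have h3 := (h1.hasFDerivAt.sub h2.hasFDerivAt).fderiv
  have h4 : fderiv ℝ (fun q => F q - G q) p = fderiv ℝ F p - fderiv ℝ G p := h3
  rw [h4]
  simp only [_root_.sub_apply]
  ring

private theorem ibpL_support {F : E3 → ℂ} (e : ℂ) (a : Fin 3) (hF : HasCompactSupport F) :
    HasCompactSupport (ibpL e a F) := by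
  refine (hF.fderiv (𝕜 := ℝ)).mono (fun p hp => ?_)
  rw [Function.mem_support] at hp ⊢
  intro h0
  apply hp
  simp [ibpL, h0]

/-- the integral of a derivative of a function with compact support vanishes -/
private theorem ibp_int0 {F : E3 → ℂ} (hF : ContDiff ℝ ∞ F) (hc : HasCompactSupport F) (v : E3) :
    ∫ p, fderiv ℝ F p v = 0 := by
  have hI : Integrable (fun p => fderiv ℝ F p v) := by
    refine (ibp_cd1 hF v).continuous.integrable_of_hasCompactSupport
      ((hc.fderiv (𝕜 := ℝ)).mono (fun p hp => ?_))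
    rw [Function.mem_support] at hp ⊢
    intro h0
    apply hp
    simp [h0]
  have h := integral_mul_fderiv_eq_neg_fderiv_mul_of_integrable (μ := (volume : Measure E3))
    (f := fun _ : E3 => (1 : ℂ)) (g := F) (v := v)
    (by simp) (by simpa using hI)
    (by simpa using hF.continuous.integrable_of_hasCompactSupport hc)
    (fun x _ => differentiableAt_const _)
    (fun x _ => (hF.differentiable (by simp)).differentiableAt)
  simpa using h

private theorem ibp_int {F : E3 → ℂ} (hF : ContDiff ℝ ∞ F) (hc : HasCompactSupport F) (e : ℂ)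
    (a : Fin 3) : ∫ p, ibpL e a F p = 0 := by
  have hI : ∀ v : E3, Integrable (fun p => fderiv ℝ F p v) := by
    intro v
    refine (ibp_cd1 hF v).continuous.integrable_of_hasCompactSupport
      ((hc.fderiv (𝕜 := ℝ)).mono (fun p hp => ?_))
    rw [Function.mem_support] at hp ⊢
    intro h0
    apply hp
    simp [h0]
  unfold ibpL
  rw [integral_div, integral_add (hI _) ((hI _).const_mul e), integral_const_mul,
    ibp_int0 hF hc, ibp_int0 hF hc]
  simp

/-- the triple product -/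
private def ibpT (X Y Z : Fin 3 → ℂ) : ℂ :=
  X 0 * (Y 1 * Z 2 - Y 2 * Z 1) + X 1 * (Y 2 * Z 0 - Y 0 * Z 2) + X 2 * (Y 0 * Z 1 - Y 1 * Z 0)

private theorem ibpT_sum (X Y Z : Fin 3 → ℂ) :
    ibpT X Y Z = ∑ σ : Equiv.Perm (Fin 3), ((Equiv.Perm.sign σ : ℤ) : ℂ) *
      (X (σ 0) * Y (σ 1) * Z (σ 2)) := by
  have h := Matrix.det_apply' (Matrix.of fun i j : Fin 3 => (![X i, Y i, Z i] : Fin 3 → ℂ) j)
  rw [Matrix.det_fin_three] at h
  simp only [Fin.prod_univ_three, Matrix.of_apply] at h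
  have h2 : (∑ σ : Equiv.Perm (Fin 3), ((Equiv.Perm.sign σ : ℤ) : ℂ) *
      (X (σ 0) * Y (σ 1) * Z (σ 2))) = _ := h.symm
  rw [h2]
  simp only [ibpT, Matrix.cons_val_zero, Matrix.cons_val_one, Matrix.cons_val]
  ring

private theorem ibp_MD1 (A B C : Matrix (Fin 3) (Fin 3) ℂ) :
    MD A B C = (1 / 6) * ∑ π : Equiv.Perm (Fin 3), ((Equiv.Perm.sign π : ℤ) : ℂ) *
      ibpT (fun a => A a (π 0)) (fun a => B a (π 1)) (fun a => C a (π 2)) := by
  unfold MD
  rw [Finset.sum_comm]
  congr 1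
  refine Finset.sum_congr rfl fun π _ => ?_
  rw [ibpT_sum, Finset.mul_sum]
  refine Finset.sum_congr rfl fun σ _ => ?_
  ring

private theorem ibp_MD2 (A B C : Matrix (Fin 3) (Fin 3) ℂ) :
    MD A B C = (1 / 6) * ∑ σ : Equiv.Perm (Fin 3), ((Equiv.Perm.sign σ : ℤ) : ℂ) *
      ibpT (fun b => A (σ 0) b) (fun b => B (σ 1) b) (fun b => C (σ 2) b) := by
  unfold MD
  congr 1
  refine Finset.sum_congr rfl fun σ _ => ?_
  rw [ibpT_sum, Finset.mul_sum]
  refine Finset.sum_congr rfl fun π _ => ?_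
  ring

/-- smoothness of the triple product -/
private theorem ibpT_contDiff {X Y Z : Fin 3 → E3 → ℂ} (hX : ∀ a, ContDiff ℝ ∞ (X a))
    (hY : ∀ a, ContDiff ℝ ∞ (Y a)) (hZ : ∀ a, ContDiff ℝ ∞ (Z a)) :
    ContDiff ℝ ∞ (fun p => ibpT (fun a => X a p) (fun a => Y a p) (fun a => Z a p)) := by
  unfold ibpT
  exact (((hX 0).mul (((hY 1).mul (hZ 2)).sub ((hY 2).mul (hZ 1)))).add
    ((hX 1).mul (((hY 2).mul (hZ 0)).sub ((hY 0).mul (hZ 2))))).add
    ((hX 2).mul (((hY 0).mul (hZ 1)).sub ((hY 1).mul (hZ 0))))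

private theorem ibp_integrable {F G : E3 → ℂ} (hF : ContDiff ℝ ∞ F) (hc : HasCompactSupport F)
    (hG : ContDiff ℝ ∞ G) : Integrable (fun p => F p * G p) :=
  (hF.mul hG).continuous.integrable_of_hasCompactSupport hc.mul_right

/-- one integration by parts -/
private theorem ibp_step (e : ℂ) {φ ψ f g : E3 → ℂ} (hφ : ContDiff ℝ ∞ φ)
    (hc : HasCompactSupport φ) (hψ : ContDiff ℝ ∞ ψ) (hf : ContDiff ℝ ∞ f)
    (hg : ContDiff ℝ ∞ g) :
    ∫ p, φ p * ibpT (fun a => ibpL e a ψ p) (fun a => ibpL e a f p) (fun a => ibpL e a g p) =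
      -∫ p, ψ p * ibpT (fun a => ibpL e a φ p) (fun a => ibpL e a f p)
        (fun a => ibpL e a g p) := by
  have hL : ∀ {F : E3 → ℂ}, ContDiff ℝ ∞ F → ∀ a, ContDiff ℝ ∞ (ibpL e a F) :=
    fun hF a => ibpL_contDiff e a hF
  -- the three vector field components
  let m : Fin 3 → Fin 3 → E3 → ℂ := fun a b q =>
    ibpL e a f q * ibpL e b g q - ibpL e b f q * ibpL e a g q
  have hm : ∀ a b, ContDiff ℝ ∞ (m a b) := fun a b =>
    ((hL hf a).mul (hL hg b)).sub ((hL hf b).mul (hL hg a))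
  have hmL : ∀ c a b p, ibpL e c (m a b) p =
      (ibpL e c (ibpL e a f) p * ibpL e b g p + ibpL e a f p * ibpL e c (ibpL e b g) p)
      - (ibpL e c (ibpL e b f) p * ibpL e a g p + ibpL e b f p * ibpL e c (ibpL e a g) p) := by
    intro c a b p
    have h1 := ibpL_sub ((hL hf a).mul (hL hg b)) ((hL hf b).mul (hL hg a)) e c p
    have h2 := ibpL_mul (hL hf a) (hL hg b) e c p
    have h3 := ibpL_mul (hL hf b) (hL hg a) e c p
    rw [← h2, ← h3]
    exact h1
  have hFc : ∀ a b, ContDiff ℝ ∞ (fun q => φ q * ψ q * m a b q) := fun a b =>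
    (hφ.mul hψ).mul (hm a b)
  have hFs : ∀ a b, HasCompactSupport (fun q => φ q * ψ q * m a b q) := fun a b =>
    (hc.mul_right (f' := ψ)).mul_right (f' := m a b)
  have hFL : ∀ c a b p, ibpL e c (fun q => φ q * ψ q * m a b q) p =
      (ibpL e c φ p * ψ p + φ p * ibpL e c ψ p) * m a b p + φ p * ψ p * ibpL e c (m a b) p := by
    intro c a b p
    have h1 := ibpL_mul (hφ.mul hψ) (hm a b) e c p
    have h2 := ibpL_mul hφ hψ e c p
    rw [← h2]
    exact h1
  have hpt : ∀ p, φ p * ibpT (fun a => ibpL e a ψ p) (fun a => ibpL e a f p)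
        (fun a => ibpL e a g p) +
      ψ p * ibpT (fun a => ibpL e a φ p) (fun a => ibpL e a f p) (fun a => ibpL e a g p) =
      ibpL e 0 (fun q => φ q * ψ q * m 1 2 q) p + ibpL e 1 (fun q => φ q * ψ q * m 2 0 q) p
        + ibpL e 2 (fun q => φ q * ψ q * m 0 1 q) p := by
    intro p
    rw [hFL, hFL, hFL, hmL, hmL, hmL]
    rw [ibpL_comm hf e e 1 0, ibpL_comm hf e e 2 0, ibpL_comm hf e e 2 1,
      ibpL_comm hg e e 1 0, ibpL_comm hg e e 2 0, ibpL_comm hg e e 2 1]
    simp only [m, ibpT]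
    ring
  have hI1 : Integrable (fun p => φ p * ibpT (fun a => ibpL e a ψ p) (fun a => ibpL e a f p)
        (fun a => ibpL e a g p)) :=
    ibp_integrable hφ hc (ibpT_contDiff (hL hψ) (hL hf) (hL hg))
  have hI2 : Integrable (fun p => ψ p * ibpT (fun a => ibpL e a φ p) (fun a => ibpL e a f p)
        (fun a => ibpL e a g p)) := by
    refine (hψ.mul (ibpT_contDiff (hL hφ) (hL hf) (hL hg))).continuous
      |>.integrable_of_hasCompactSupport ?_
    refine (hc.fderiv (𝕜 := ℝ)).mono (fun p hp => ?_)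
    rw [Function.mem_support] at hp ⊢
    intro h0
    apply hp
    have h1 : ∀ a, ibpL e a φ p = 0 := fun a => by simp [ibpL, h0]
    simp [ibpT, h1]
  have hJ : ∀ c a b, Integrable (fun p => ibpL e c (fun q => φ q * ψ q * m a b q) p) :=
    fun c a b => (ibpL_contDiff e c (hFc a b)).continuous.integrable_of_hasCompactSupport
      (ibpL_support e c (hFs a b))
  have hsum : (∫ p, φ p * ibpT (fun a => ibpL e a ψ p) (fun a => ibpL e a f p)
        (fun a => ibpL e a g p)) + (∫ p, ψ p * ibpT (fun a => ibpL e a φ p)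
        (fun a => ibpL e a f p) (fun a => ibpL e a g p)) = 0 := by
    rw [← integral_add hI1 hI2]
    simp_rw [hpt]
    have q1 := integral_add ((hJ 0 1 2).add (hJ 1 2 0)) (hJ 2 0 1)
    have q2 := integral_add (hJ 0 1 2) (hJ 1 2 0)
    simp only [Pi.add_apply] at q1
    rw [q1, q2, ibp_int (hFc 1 2) (hFs 1 2), ibp_int (hFc 2 0) (hFs 2 0),
      ibp_int (hFc 0 1) (hFs 0 1)]
    simp
  exact eq_neg_of_add_eq_zero_left hsum

private theorem ibp_cHess {u : E3 → ℝ} (hu : ContDiff ℝ ∞ u) (p : E3) (a b : Fin 3) :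
    cHess u p a b = ibpL (-Complex.I) a (ibpL Complex.I b (fun q => (u q : ℂ))) p := by
  have hU : ContDiff ℝ ∞ (fun q => (u q : ℂ)) := Complex.ofRealCLM.contDiff.comp hu
  have h1 : ∀ q v : E3, fderiv ℝ (fun q => (u q : ℂ)) q v = ((fderiv ℝ u q v : ℝ) : ℂ) := by
    intro q v
    have h := (Complex.ofRealCLM.hasFDerivAt (x := u q)).comp q
      ((hu.differentiable (by simp)).differentiableAt (x := q)).hasFDerivAt
    have h' : HasFDerivAt (fun q => (u q : ℂ)) (Complex.ofRealCLM.comp (fderiv ℝ u q)) q := h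
    rw [h'.fderiv]
    simp
  have h2 : ∀ v w : E3, fderiv ℝ (fderiv ℝ (fun q => (u q : ℂ))) p w v = ((D2 u p w v : ℝ) : ℂ) := by
    intro v w
    rw [← ibp_fd2 hU v w p]
    have h3 : (fun q => fderiv ℝ (fun q => (u q : ℂ)) q v) = fun q => ((fderiv ℝ u q v : ℝ) : ℂ) :=
      funext fun q => h1 q v
    rw [h3]
    have hdu : DifferentiableAt ℝ (fderiv ℝ u) p :=
      ((hu.fderiv_right (m := ∞) (by simp)).differentiable (by simp)).differentiableAt
    have h4 := hdu.hasFDerivAt.clm_apply (hasFDerivAt_const v p)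
    have h5 := (Complex.ofRealCLM.hasFDerivAt (x := fderiv ℝ u p v)).comp p h4
    have h6 : HasFDerivAt (fun q => ((fderiv ℝ u q v : ℝ) : ℂ)) _ p := h5
    rw [h6.fderiv]
    simp [D2]
  rw [ibpL2 hU, h2, h2, h2, h2]
  unfold cHess
  push_cast
  have hI : Complex.I * Complex.I = -1 := Complex.I_mul_I
  linear_combination ((1 : ℂ) / 4 * (D2 u p (Pi.single a Complex.I) (Pi.single b Complex.I) : ℂ)) * hI

/-- Symmetry of the form `∫ χ dd^c h ∧ dd^c v ∧ dd^c w` for smooth functions, `χ` with compact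
support. -/
theorem ibp {χ h v w : E3 → ℝ} (hχ : ContDiff ℝ ∞ χ) (hχc : HasCompactSupport χ)
    (hh : ContDiff ℝ ∞ h) (hv : ContDiff ℝ ∞ v) (hw : ContDiff ℝ ∞ w) :
    ∫ p, χ p * (MD (cHess h p) (cHess v p) (cHess w p)).re =
      ∫ p, h p * (MD (cHess χ p) (cHess v p) (cHess w p)).re := by
  set D : Fin 3 → (E3 → ℂ) → E3 → ℂ := fun a F => ibpL (-Complex.I) a F with hD
  set B : Fin 3 → (E3 → ℂ) → E3 → ℂ := fun a F => ibpL Complex.I a F with hB
  have hcoe : ∀ {u : E3 → ℝ}, ContDiff ℝ ∞ u → ContDiff ℝ ∞ (fun q => (u q : ℂ)) :=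
    fun hu => Complex.ofRealCLM.contDiff.comp hu
  have hDc : ∀ {F : E3 → ℂ}, ContDiff ℝ ∞ F → ∀ a, ContDiff ℝ ∞ (D a F) :=
    fun hF a => ibpL_contDiff _ a hF
  have hBc : ∀ {F : E3 → ℂ}, ContDiff ℝ ∞ F → ∀ a, ContDiff ℝ ∞ (B a F) :=
    fun hF a => ibpL_contDiff _ a hF
  set X : E3 → ℂ := fun q => (χ q : ℂ) with hX
  set H : E3 → ℂ := fun q => (h q : ℂ) with hH
  set V : E3 → ℂ := fun q => (v q : ℂ) with hV
  set W : E3 → ℂ := fun q => (w q : ℂ) with hW
  have cX : ContDiff ℝ ∞ X := hcoe hχ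
  have cH : ContDiff ℝ ∞ H := hcoe hh
  have cV : ContDiff ℝ ∞ V := hcoe hv
  have cW : ContDiff ℝ ∞ W := hcoe hw
  have sX : HasCompactSupport X := hχc.comp_left (g := fun x : ℝ => (x : ℂ)) (by simp)
  have sDX : ∀ a, HasCompactSupport (D a X) := fun a => ibpL_support _ a sX
  have sBDX : ∀ a b, HasCompactSupport (B b (D a X)) := fun a b => ibpL_support _ b (sDX a)
  have comm : ∀ {F : E3 → ℂ}, ContDiff ℝ ∞ F → ∀ a b p, D a (B b F) p = B b (D a F) p :=
    fun hF a b p => ibpL_comm hF _ _ a b p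
  -- the complex identity
  have h1 : ∀ p, X p * MD (cHess h p) (cHess v p) (cHess w p) =
      ∑ π : Equiv.Perm (Fin 3), (1 / 6) * ((Equiv.Perm.sign π : ℤ) : ℂ) *
        (X p * ibpT (fun a => D a (B (π 0) H) p) (fun a => D a (B (π 1) V) p)
          (fun a => D a (B (π 2) W) p)) := by
    intro p
    rw [ibp_MD1, Finset.mul_sum, Finset.mul_sum]
    refine Finset.sum_congr rfl fun π _ => ?_
    simp only [ibp_cHess hh, ibp_cHess hv, ibp_cHess hw]
    ring
  have h2 : ∀ p, H p * MD (cHess χ p) (cHess v p) (cHess w p) =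
      ∑ σ : Equiv.Perm (Fin 3), (1 / 6) * ((Equiv.Perm.sign σ : ℤ) : ℂ) *
        (H p * ibpT (fun b => B b (D (σ 0) X) p) (fun b => B b (D (σ 1) V) p)
          (fun b => B b (D (σ 2) W) p)) := by
    intro p
    rw [ibp_MD2, Finset.mul_sum, Finset.mul_sum]
    refine Finset.sum_congr rfl fun σ _ => ?_
    simp only [ibp_cHess hχ, ibp_cHess hv, ibp_cHess hw]
    have e1 : ∀ b, ibpL (-Complex.I) (σ 0) (ibpL Complex.I b X) p = B b (D (σ 0) X) p :=
      fun b => comm cX _ _ p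
    have e2 : ∀ b, ibpL (-Complex.I) (σ 1) (ibpL Complex.I b V) p = B b (D (σ 1) V) p :=
      fun b => comm cV _ _ p
    have e3 : ∀ b, ibpL (-Complex.I) (σ 2) (ibpL Complex.I b W) p = B b (D (σ 2) W) p :=
      fun b => comm cW _ _ p
    simp only [hX, hV, hW] at e1 e2 e3 ⊢
    simp only [e1, e2, e3]
    ring
  -- the middle expressions agree
  have h3 : ∀ p, ∑ π : Equiv.Perm (Fin 3), (1 / 6) * ((Equiv.Perm.sign π : ℤ) : ℂ) *
        (B (π 0) H p * ibpT (fun a => D a X p) (fun a => D a (B (π 1) V) p)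
          (fun a => D a (B (π 2) W) p)) =
      ∑ σ : Equiv.Perm (Fin 3), (1 / 6) * ((Equiv.Perm.sign σ : ℤ) : ℂ) *
        (D (σ 0) X p * ibpT (fun b => B b H p) (fun b => B b (D (σ 1) V) p)
          (fun b => B b (D (σ 2) W) p)) := by
    intro p
    simp only [ibpT_sum, Finset.mul_sum]
    rw [Finset.sum_comm]
    refine Finset.sum_congr rfl fun σ _ => Finset.sum_congr rfl fun π _ => ?_
    rw [comm cV, comm cW]
    ring
  have i1 : ∀ π : Equiv.Perm (Fin 3), Integrable (fun p => (1 / 6) *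
      ((Equiv.Perm.sign π : ℤ) : ℂ) *
        (X p * ibpT (fun a => D a (B (π 0) H) p) (fun a => D a (B (π 1) V) p)
          (fun a => D a (B (π 2) W) p))) := fun π =>
    (ibp_integrable cX sX (ibpT_contDiff (hDc (hBc cH _)) (hDc (hBc cV _))
      (hDc (hBc cW _)))).const_mul _
  have i2 : ∀ π : Equiv.Perm (Fin 3), Integrable (fun p => (1 / 6) *
      ((Equiv.Perm.sign π : ℤ) : ℂ) *
        (B (π 0) H p * ibpT (fun a => D a X p) (fun a => D a (B (π 1) V) p)
          (fun a => D a (B (π 2) W) p))) := by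
    intro π
    refine Integrable.const_mul ?_ _
    refine ((hBc cH _).mul (ibpT_contDiff (hDc cX) (hDc (hBc cV _))
      (hDc (hBc cW _)))).continuous.integrable_of_hasCompactSupport ?_
    refine (sX.fderiv (𝕜 := ℝ)).mono (fun p hp => ?_)
    rw [Function.mem_support] at hp ⊢
    intro h0
    apply hp
    have h1 : ∀ a, D a X p = 0 := fun a => by simp [hD, ibpL, h0]
    simp [ibpT, h1]
  have i3 : ∀ σ : Equiv.Perm (Fin 3), Integrable (fun p => (1 / 6) *
      ((Equiv.Perm.sign σ : ℤ) : ℂ) *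
        (D (σ 0) X p * ibpT (fun b => B b H p) (fun b => B b (D (σ 1) V) p)
          (fun b => B b (D (σ 2) W) p))) := fun σ =>
    (ibp_integrable (hDc cX _) (sDX _) (ibpT_contDiff (hBc cH) (hBc (hDc cV _))
      (hBc (hDc cW _)))).const_mul _
  have i4 : ∀ σ : Equiv.Perm (Fin 3), Integrable (fun p => (1 / 6) *
      ((Equiv.Perm.sign σ : ℤ) : ℂ) *
        (H p * ibpT (fun b => B b (D (σ 0) X) p) (fun b => B b (D (σ 1) V) p)
          (fun b => B b (D (σ 2) W) p))) := by
    intro σ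
    refine Integrable.const_mul ?_ _
    refine (cH.mul (ibpT_contDiff (hBc (hDc cX _)) (hBc (hDc cV _))
      (hBc (hDc cW _)))).continuous.integrable_of_hasCompactSupport ?_
    refine ((sDX (σ 0)).fderiv (𝕜 := ℝ)).mono (fun p hp => ?_)
    rw [Function.mem_support] at hp ⊢
    intro h0
    apply hp
    have h1 : ∀ b, B b (D (σ 0) X) p = 0 := fun b => by simp [hB, ibpL, h0]
    simp [ibpT, h1]
  have key : ∫ p, X p * MD (cHess h p) (cHess v p) (cHess w p) =
      ∫ p, H p * MD (cHess χ p) (cHess v p) (cHess w p) := by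
    simp_rw [h1, h2]
    rw [integral_finsetSum _ fun π _ => i1 π, integral_finsetSum _ fun σ _ => i4 σ]
    have e1 : ∀ π : Equiv.Perm (Fin 3), ∫ p, (1 / 6) * ((Equiv.Perm.sign π : ℤ) : ℂ) *
        (X p * ibpT (fun a => D a (B (π 0) H) p) (fun a => D a (B (π 1) V) p)
          (fun a => D a (B (π 2) W) p)) =
        -∫ p, (1 / 6) * ((Equiv.Perm.sign π : ℤ) : ℂ) *
        (B (π 0) H p * ibpT (fun a => D a X p) (fun a => D a (B (π 1) V) p)
          (fun a => D a (B (π 2) W) p)) := by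
      intro π
      rw [integral_const_mul, integral_const_mul,
        ibp_step (-Complex.I) cX sX (hBc cH (π 0)) (hBc cV (π 1)) (hBc cW (π 2))]
      ring
    have e2 : ∀ σ : Equiv.Perm (Fin 3), ∫ p, (1 / 6) * ((Equiv.Perm.sign σ : ℤ) : ℂ) *
        (D (σ 0) X p * ibpT (fun b => B b H p) (fun b => B b (D (σ 1) V) p)
          (fun b => B b (D (σ 2) W) p)) =
        -∫ p, (1 / 6) * ((Equiv.Perm.sign σ : ℤ) : ℂ) *
        (H p * ibpT (fun b => B b (D (σ 0) X) p) (fun b => B b (D (σ 1) V) p)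
          (fun b => B b (D (σ 2) W) p)) := by
      intro σ
      rw [integral_const_mul, integral_const_mul,
        ibp_step Complex.I (hDc cX (σ 0)) (sDX (σ 0)) cH (hDc cV (σ 1)) (hDc cW (σ 2))]
      ring
    have e3 : ∀ σ : Equiv.Perm (Fin 3), ∫ p, (1 / 6) * ((Equiv.Perm.sign σ : ℤ) : ℂ) *
        (H p * ibpT (fun b => B b (D (σ 0) X) p) (fun b => B b (D (σ 1) V) p)
          (fun b => B b (D (σ 2) W) p)) =
        -∫ p, (1 / 6) * ((Equiv.Perm.sign σ : ℤ) : ℂ) *
        (D (σ 0) X p * ibpT (fun b => B b H p) (fun b => B b (D (σ 1) V) p)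
          (fun b => B b (D (σ 2) W) p)) := fun σ => by rw [e2 σ, neg_neg]
    rw [Finset.sum_congr rfl fun π _ => e1 π, Finset.sum_congr rfl fun σ _ => e3 σ,
      Finset.sum_neg_distrib, Finset.sum_neg_distrib, ← integral_finsetSum _ fun π _ => i2 π,
      ← integral_finsetSum _ fun σ _ => i3 σ]
    simp_rw [h3]
  have j1 : Integrable (fun p => X p * MD (cHess h p) (cHess v p) (cHess w p)) := by
    simp_rw [h1]
    exact integrable_finsetSum _ fun π _ => i1 π
  have j2 : Integrable (fun p => H p * MD (cHess χ p) (cHess v p) (cHess w p)) := by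
    simp_rw [h2]
    exact integrable_finsetSum _ fun σ _ => i4 σ
  have r1 : ∫ p, χ p * (MD (cHess h p) (cHess v p) (cHess w p)).re =
      (∫ p, X p * MD (cHess h p) (cHess v p) (cHess w p)).re := by
    rw [← Complex.reCLM_apply, ← ContinuousLinearMap.integral_comp_comm _ j1]
    refine integral_congr_ae (Eventually.of_forall fun p => ?_)
    simp [hX]
  have r2 : ∫ p, h p * (MD (cHess χ p) (cHess v p) (cHess w p)).re =
      (∫ p, H p * MD (cHess χ p) (cHess v p) (cHess w p)).re := by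
    rw [← Complex.reCLM_apply, ← ContinuousLinearMap.integral_comp_comm _ j2]
    refine integral_congr_ae (Eventually.of_forall fun p => ?_)
    simp [hH]
  rw [r1, r2, key]

end HMA
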