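import Pool.Agent.HMA.LegDefs

/-! module LEG1: the inverse map R -/

open MeasureTheory Filter Topology Set Matrix
open scoped Manifold ContDiff ENNReal ComplexOrder

namespace HMA

namespace LD

variable (d : LD)

theorem hasDerivAt_T (ξ r : ℝ) : HasDerivAt (d.T ξ) (1 - deriv d.q r * d.P ξ) r := by
  have h1 : HasDerivAt d.q (deriv d.q r) r :=
    (d.hq.differentiable (by simp)).differentiableAt.hasDerivAt
  exact (hasDerivAt_id r).sub (h1.mul_const (d.P ξ))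

theorem half_le (ξ r : ℝ) : 1 / 2 ≤ 1 - deriv d.q r * d.P ξ := by
  have := d.qP r ξ
  linarith

theorem strictMono_T (ξ : ℝ) : StrictMono (d.T ξ) :=
  strictMono_of_hasDerivAt_pos (fun r => d.hasDerivAt_T ξ r)
    (fun r => lt_of_lt_of_le (by norm_num) (d.half_le ξ r))

theorem mono_T_half (ξ : ℝ) : Monotone (fun r => d.T ξ r - r / 2) := by
  have h : ∀ r, HasDerivAt (fun r => d.T ξ r - r / 2) (1 - deriv d.q r * d.P ξ - 1 / 2) r := by
    intro r
    exact (d.hasDerivAt_T ξ r).sub ((hasDerivAt_id r).div_const 2)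
  apply monotone_of_deriv_nonneg
  · exact fun r => (h r).differentiableAt
  · intro r
    rw [(h r).deriv]
    have := d.half_le ξ r
    linarith

theorem abs_sub_le_T (ξ a b : ℝ) : |a - b| ≤ 2 * |d.T ξ a - d.T ξ b| := by
  rcases le_total a b with h | h
  · have h1 := d.mono_T_half ξ h
    simp only at h1
    rw [abs_of_nonpos (by linarith), abs_of_nonpos (by linarith)]
    linarith
  · have h1 := d.mono_T_half ξ h
    simp only at h1
    rw [abs_of_nonneg (by linarith), abs_of_nonneg (by linarith)]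
    linarith

theorem T_out (ξ r : ℝ) (hr : r ∉ Ioo d.r0 d.r1) : d.T ξ r = r := by
  unfold T
  rw [d.q_out r hr]
  ring

theorem exists_T (ξ ρ : ℝ) : ∃ r, d.T ξ r = ρ := by
  have hc : Continuous (d.T ξ) := by
    have h1 := d.hq.continuous
    unfold T
    fun_prop
  have ha : d.T ξ (min ρ d.r0) = min ρ d.r0 :=
    d.T_out ξ _ (fun h => absurd h.1 (not_lt.2 (min_le_right _ _)))
  have hb : d.T ξ (max ρ d.r1) = max ρ d.r1 :=
    d.T_out ξ _ (fun h => absurd h.2 (not_lt.2 (le_max_right _ _)))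
  have hab : min ρ d.r0 ≤ max ρ d.r1 := le_trans (min_le_left _ _) (le_max_left _ _)
  have h := intermediate_value_Icc hab hc.continuousOn
  have h2 : ρ ∈ Icc (d.T ξ (min ρ d.r0)) (d.T ξ (max ρ d.r1)) := by
    rw [ha, hb]
    exact ⟨min_le_left _ _, le_max_left _ _⟩
  obtain ⟨r, -, hr⟩ := h h2
  exact ⟨r, hr⟩

theorem T_R (ξ ρ : ℝ) : d.T ξ (d.R ξ ρ) = ρ := by
  unfold R
  rw [dif_pos (d.exists_T ξ ρ)]
  exact (d.exists_T ξ ρ).choose_spec

theorem R_T (ξ r : ℝ) : d.R ξ (d.T ξ r) = r :=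
  (d.strictMono_T ξ).injective (d.T_R ξ (d.T ξ r))

theorem Rr_pos (ξ ρ : ℝ) : 0 < d.Rr ξ ρ := by
  unfold Rr
  have := d.half_le ξ (d.R ξ ρ)
  exact div_pos one_pos (by linarith)

theorem Rr_le (ξ ρ : ℝ) : d.Rr ξ ρ ≤ 2 := by
  unfold Rr
  have := d.half_le ξ (d.R ξ ρ)
  rw [div_le_iff₀ (by linarith)]
  linarith

theorem continuous_R : Continuous (fun x : ℝ × ℝ => d.R x.1 x.2) := by
  rw [continuous_iff_continuousAt]
  rintro ⟨ξ, ρ⟩
  have hP := d.hP.continuous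
  have h1 : Continuous (fun x : ℝ × ℝ => 2 * |d.T x.1 (d.R ξ ρ) - x.2|) := by
    unfold T
    fun_prop
  have h2 : Tendsto (fun x : ℝ × ℝ => 2 * |d.T x.1 (d.R ξ ρ) - x.2|) (𝓝 (ξ, ρ)) (𝓝 0) := by
    have h3 := h1.tendsto (ξ, ρ)
    simp only [T_R, sub_self, abs_zero, mul_zero] at h3
    exact h3
  rw [ContinuousAt, tendsto_iff_dist_tendsto_zero]
  refine squeeze_zero (fun _ => dist_nonneg) (fun x => ?_) h2
  rw [dist_comm, Real.dist_eq]
  have h4 := d.abs_sub_le_T x.1 (d.R ξ ρ) (d.R x.1 x.2)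
  rw [T_R] at h4
  exact h4

/-- `(ξ, r) ↦ (ξ, T ξ r)` -/
noncomputable def homeo : (ℝ × ℝ) ≃ₜ (ℝ × ℝ) where
  toFun x := (x.1, d.T x.1 x.2)
  invFun x := (x.1, d.R x.1 x.2)
  left_inv x := by simp [R_T]
  right_inv x := by simp [T_R]
  continuous_toFun := by
    have h1 := d.hq.continuous
    have h2 := d.hP.continuous
    unfold T
    fun_prop
  continuous_invFun := continuous_fst.prodMk d.continuous_R

/-- the derivative of `homeo` as an equivalence -/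
noncomputable def dhomeo (a b : ℝ) (hb : b ≠ 0) : (ℝ × ℝ) ≃L[ℝ] (ℝ × ℝ) :=
  ContinuousLinearEquiv.equivOfInverse
    ((ContinuousLinearMap.fst ℝ ℝ ℝ).prod
      (a • ContinuousLinearMap.fst ℝ ℝ ℝ + b • ContinuousLinearMap.snd ℝ ℝ ℝ))
    ((ContinuousLinearMap.fst ℝ ℝ ℝ).prod
      (b⁻¹ • (ContinuousLinearMap.snd ℝ ℝ ℝ - a • ContinuousLinearMap.fst ℝ ℝ ℝ)))
    (fun x => by
      ext
      · simp
      · simp [hb])
    (fun x => by
      ext
      · simp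
      · simp [hb])

theorem hasFDerivAt_T2 (x : ℝ × ℝ) : HasFDerivAt (fun x : ℝ × ℝ => d.T x.1 x.2)
    ((-(d.q x.2 * deriv d.P x.1)) • ContinuousLinearMap.fst ℝ ℝ ℝ +
      (1 - deriv d.q x.2 * d.P x.1) • ContinuousLinearMap.snd ℝ ℝ ℝ) x := by
  have h1 : HasDerivAt d.q (deriv d.q x.2) x.2 :=
    (d.hq.differentiable (by simp)).differentiableAt.hasDerivAt
  have h2 : HasDerivAt d.P (deriv d.P x.1) x.1 :=
    (d.hP.differentiable (by simp)).differentiableAt.hasDerivAt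
  have hs : HasFDerivAt (fun x : ℝ × ℝ => x.2) (ContinuousLinearMap.snd ℝ ℝ ℝ) x :=
    hasFDerivAt_snd
  have hf : HasFDerivAt (fun x : ℝ × ℝ => x.1) (ContinuousLinearMap.fst ℝ ℝ ℝ) x :=
    hasFDerivAt_fst
  have h3 := (h1.comp_hasFDerivAt x hs).mul (h2.comp_hasFDerivAt x hf)
  have h4 := hs.sub h3
  refine h4.congr_fderiv ?_
  ext <;> simp <;> ring

theorem contDiff_R : ContDiff ℝ ∞ (fun x : ℝ × ℝ => d.R x.1 x.2) := by
  have hq := d.hq
  have hP := d.hP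
  have hF : ContDiff ℝ ∞ (d.homeo : ℝ × ℝ → ℝ × ℝ) := by
    change ContDiff ℝ ∞ (fun x : ℝ × ℝ => (x.1, d.T x.1 x.2))
    unfold T
    fun_prop
  have h := d.homeo.contDiff_symm (n := ∞)
    (f₀' := fun x => dhomeo (-(d.q x.2 * deriv d.P x.1)) (1 - deriv d.q x.2 * d.P x.1)
      (by have := d.half_le x.1 x.2; intro h0; linarith))
    (fun x => by
      change HasFDerivAt (fun x : ℝ × ℝ => (x.1, d.T x.1 x.2)) _ x
      exact hasFDerivAt_fst.prodMk (d.hasFDerivAt_T2 x)) hF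
  have h2 : (fun x : ℝ × ℝ => d.R x.1 x.2) = fun x => (d.homeo.symm x).2 := rfl
  rw [h2]
  exact contDiff_snd.comp h

theorem hasFDerivAt_R (ξ ρ : ℝ) : HasFDerivAt (fun x : ℝ × ℝ => d.R x.1 x.2)
    (d.Rr ξ ρ • ((d.q (d.R ξ ρ) * deriv d.P ξ) • ContinuousLinearMap.fst ℝ ℝ ℝ
      + ContinuousLinearMap.snd ℝ ℝ ℝ)) (ξ, ρ) := by
  have h1 : DifferentiableAt ℝ (fun x : ℝ × ℝ => d.R x.1 x.2) (ξ, ρ) :=
    (d.contDiff_R.differentiable (by simp)).differentiableAt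
  obtain ⟨D, hD⟩ := h1
  have h2 : HasFDerivAt (fun x : ℝ × ℝ => (x.1, d.R x.1 x.2))
      ((ContinuousLinearMap.fst ℝ ℝ ℝ).prod D) (ξ, ρ) := hasFDerivAt_fst.prodMk hD
  have h3 := (d.hasFDerivAt_T2 (ξ, d.R ξ ρ)).comp (ξ, ρ) h2
  have h4 : (fun x : ℝ × ℝ => d.T x.1 x.2) ∘ (fun x : ℝ × ℝ => (x.1, d.R x.1 x.2)) =
      fun x : ℝ × ℝ => x.2 := by
    funext x
    exact d.T_R x.1 x.2
  rw [h4] at h3
  have h5 := h3.unique hasFDerivAt_snd
  have hb := d.half_le ξ (d.R ξ ρ)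
  have hb0 : 1 - deriv d.q (d.R ξ ρ) * d.P ξ ≠ 0 := by
    intro h0
    linarith
  have h6 : D = d.Rr ξ ρ • ((d.q (d.R ξ ρ) * deriv d.P ξ) • ContinuousLinearMap.fst ℝ ℝ ℝ
      + ContinuousLinearMap.snd ℝ ℝ ℝ) := by
    apply ContinuousLinearMap.ext
    intro v
    have h7 := congrArg (fun L : (ℝ × ℝ) →L[ℝ] ℝ => L v) h5
    simp at h7
    unfold Rr
    simp
    field_simp
    linarith
  rw [← h6]
  exact hD

end LD

end HMA
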