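import Pool.Agent.HMA.Leg1

/-! module LEG3: bounds for the Legendre transform -/

open MeasureTheory Filter Topology Set Matrix
open scoped Manifold ContDiff ENNReal ComplexOrder

namespace HMA

namespace LD

variable (d : LD)

/-- the function maximised by the Legendre transform -/
noncomputable def legH (ξ ρ r : ℝ) : ℝ := vv r - r * yy r + d.γ r * d.P ξ + yy r * ρ

theorem hasDerivAt_legH (ξ ρ r : ℝ) :
    HasDerivAt (d.legH ξ ρ) (v2 r * (ρ - d.T ξ r)) r := by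
  have h1 := hasDerivAt_vv r
  have h2 := (hasDerivAt_id' r).mul (hasDerivAt_yy r)
  have h3 : HasDerivAt d.γ (d.q r * v2 r) r := by
    rw [← d.deriv_γ]
    exact ((d.hγ.differentiable (by simp)) _).hasDerivAt
  have h4 := h3.mul_const (d.P ξ)
  have h5 := (hasDerivAt_yy r).mul_const ρ
  have h6 := ((h1.sub h2).add h4).add h5
  refine h6.congr_deriv ?_
  unfold T
  ring

theorem legH_R (ξ ρ : ℝ) : d.legH ξ ρ (d.R ξ ρ) = d.Phi ξ ρ := by
  have h := d.T_R ξ ρ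
  unfold T at h
  unfold legH Phi
  generalize d.R ξ ρ = R at *
  rw [← h]
  ring

/-- the supremum formula -/
theorem le_Phi (ξ ρ r : ℝ) : vv r - r * yy r + d.γ r * d.P ξ + yy r * ρ ≤ d.Phi ξ ρ := by
  rw [← d.legH_R]
  change d.legH ξ ρ r ≤ d.legH ξ ρ (d.R ξ ρ)
  have hdiff : Differentiable ℝ (d.legH ξ ρ) := fun x => (d.hasDerivAt_legH ξ ρ x).differentiableAt
  rcases le_total r (d.R ξ ρ) with h | h
  · refine monotoneOn_of_deriv_nonneg (convex_Iic (d.R ξ ρ)) hdiff.continuous.continuousOn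
      hdiff.differentiableOn (fun x hx => ?_) (mem_Iic.2 h) (mem_Iic.2 le_rfl) h
    rw [interior_Iic, mem_Iio] at hx
    rw [(d.hasDerivAt_legH ξ ρ x).deriv]
    have h1 := d.strictMono_T ξ hx
    rw [d.T_R] at h1
    exact mul_nonneg (v2_pos x).le (by linarith)
  · refine antitoneOn_of_deriv_nonpos (convex_Ici (d.R ξ ρ)) hdiff.continuous.continuousOn
      hdiff.differentiableOn (fun x hx => ?_) (mem_Ici.2 le_rfl) (mem_Ici.2 h) h
    rw [interior_Ici, mem_Ioi] at hx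
    rw [(d.hasDerivAt_legH ξ ρ x).deriv]
    have h1 := d.strictMono_T ξ hx
    rw [d.T_R] at h1
    exact mul_nonpos_of_nonneg_of_nonpos (v2_pos x).le (by linarith)

theorem phi_nonneg (ξ ρ : ℝ) : 0 ≤ d.phi ξ ρ := by
  have h := d.le_Phi ξ ρ ρ
  have h1 := mul_nonneg (d.γ_nonneg ρ) (d.P_nonneg ξ)
  unfold phi
  nlinarith

theorem phi_le {ξ ρ B : ℝ} (hB : ∀ r, d.γ r * d.P ξ ≤ B) : d.phi ξ ρ ≤ B := by
  have h := vv_tangent (d.R ξ ρ) ρ
  have h1 := hB (d.R ξ ρ)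
  unfold phi
  rw [← d.legH_R]
  unfold legH
  nlinarith

theorem R_out {ξ ρ : ℝ} (h : ρ ∉ Ioo d.r0 d.r1) : d.R ξ ρ = ρ := by
  have h1 : d.T ξ ρ = ρ := by
    unfold T
    rw [d.q_out ρ h, zero_mul, sub_zero]
  have h2 := d.R_T ξ ρ
  rwa [h1] at h2

theorem phi_out {ξ ρ : ℝ} (h : ρ ∉ Ioo d.r0 d.r1) : d.phi ξ ρ = 0 := by
  unfold phi Phi
  rw [d.R_out h, d.q_out ρ h, d.γ_out ρ h]
  ring

theorem deriv_q_out {ρ : ℝ} (h : ρ ∉ Ioo d.r0 d.r1) : deriv d.q ρ = 0 := by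
  have hd : HasDerivAt d.q (deriv d.q ρ) ρ := ((d.hq.differentiable (by simp)) _).hasDerivAt
  rw [mem_Ioo, not_and_or, not_lt, not_lt] at h
  rcases h with h | h
  · have h1 : HasDerivWithinAt d.q (deriv d.q ρ) (Iic ρ) ρ := hd.hasDerivWithinAt
    have h2 : HasDerivWithinAt d.q 0 (Iic ρ) ρ := by
      refine (hasDerivWithinAt_const ρ (Iic ρ) (0 : ℝ)).congr (fun x hx => ?_) ?_
      · exact d.q_out x fun hx' => absurd (lt_of_lt_of_le hx'.1 (mem_Iic.1 hx)) (not_lt.2 h)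
      · exact d.q_out ρ fun hx' => absurd hx'.1 (not_lt.2 h)
    exact (uniqueDiffWithinAt_Iic ρ).eq_deriv _ h1 h2
  · have h1 : HasDerivWithinAt d.q (deriv d.q ρ) (Ici ρ) ρ := hd.hasDerivWithinAt
    have h2 : HasDerivWithinAt d.q 0 (Ici ρ) ρ := by
      refine (hasDerivWithinAt_const ρ (Ici ρ) (0 : ℝ)).congr (fun x hx => ?_) ?_
      · exact d.q_out x fun hx' => absurd (lt_of_le_of_lt (mem_Ici.1 hx) hx'.2) (not_lt.2 h)
      · exact d.q_out ρ fun hx' => absurd hx'.2 (not_lt.2 h)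
    exact (uniqueDiffWithinAt_Ici ρ).eq_deriv _ h1 h2

theorem Rr_out {ξ ρ : ℝ} (h : ρ ∉ Ioo d.r0 d.r1) : d.Rr ξ ρ = 1 := by
  unfold Rr
  rw [d.R_out h, d.deriv_q_out h]
  simp

end LD

end HMA
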