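import Pool.Agent.HMA.BaseA

/-! Legendre data and modes: definitions -/

open MeasureTheory Filter Topology Set Matrix
open scoped Manifold ContDiff ENNReal ComplexOrder

namespace HMA

/-- Data of a Legendre transform: `u(ξ, y) = U(y) + g(y) P(ξ)`, written in the variable `r`,
`y = yy r`, `γ = g ∘ yy`, `q = g' ∘ yy`. -/
structure LD where
  γ : ℝ → ℝ
  q : ℝ → ℝ
  P : ℝ → ℝ
  r0 : ℝ
  r1 : ℝ
  hγ : ContDiff ℝ ∞ γ
  hq : ContDiff ℝ ∞ q
  hP : ContDiff ℝ ∞ P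
  r01 : r0 < r1
  γ_out : ∀ r, r ∉ Ioo r0 r1 → γ r = 0
  q_out : ∀ r, r ∉ Ioo r0 r1 → q r = 0
  γ_nonneg : ∀ r, 0 ≤ γ r
  P_nonneg : ∀ ξ, 0 ≤ P ξ
  deriv_γ : ∀ r, deriv γ r = q r * v2 r
  qP : ∀ r ξ, deriv q r * P ξ ≤ 1 / 2

namespace LD

variable (d : LD)

/-- the map `r ↦ r - q(r) P(ξ)`, whose inverse is `R ξ` -/
noncomputable def T (ξ r : ℝ) : ℝ := r - d.q r * d.P ξ

open Classical in
/-- the solution `r` of `r - q(r) P(ξ) = ρ` -/
noncomputable def R (ξ ρ : ℝ) : ℝ := if h : ∃ r, d.T ξ r = ρ then h.choose else 0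

/-- the Legendre transform -/
noncomputable def Phi (ξ ρ : ℝ) : ℝ :=
  vv (d.R ξ ρ) + d.P ξ * (d.γ (d.R ξ ρ) - yy (d.R ξ ρ) * d.q (d.R ξ ρ))

/-- the perturbation of the fibre potential -/
noncomputable def phi (ξ ρ : ℝ) : ℝ := d.Phi ξ ρ - vv ρ

/-- `R_ρ = 1 / (1 - q'(R) P(ξ))` -/
noncomputable def Rr (ξ ρ : ℝ) : ℝ := 1 / (1 - deriv d.q (d.R ξ ρ) * d.P ξ)

end LD

/-- The quantity `D = y(y+τ) + (γ P''/2π)(K y + δ)`, `K = |k|²`, `δ = (k₁ - gr k₀)²`. -/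
noncomputable def DD (γ P : ℝ → ℝ) (k0 k1 : ℤ) (ξ r : ℝ) : ℝ :=
  yy r * (yy r + tau) + γ r * deriv (deriv P) ξ / (2 * Real.pi) *
    (((k0 : ℝ) ^ 2 + (k1 : ℝ) ^ 2) * yy r + ((k1 : ℝ) - gr * k0) ^ 2)

/-- A mode: Legendre data together with a frequency `k = (k0, k1)`; `C` bounds the density. -/
structure Mode (C : ℝ) extends LD where
  k0 : ℤ
  k1 : ℤ
  hk0 : k0 ≠ 0
  per : ∀ ξ, P (ξ + 1) = P ξ
  D_nonneg : ∀ ξ r, 0 ≤ DD γ P k0 k1 ξ r
  D_le : ∀ ξ r, DD γ P k0 k1 ξ r * Real.exp (2 * (|q r| * P ξ)) ≤ C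

namespace Mode

variable {C : ℝ} (m : Mode C)

/-- the Monge-Ampere density of the mode relative to the volume form -/
noncomputable def f (ξ ρ : ℝ) : ℝ :=
  6 / Real.pi * (DD m.γ m.P m.k0 m.k1 ξ (m.R ξ ρ) * (v2 (m.R ξ ρ) * m.Rr ξ ρ / v2 ρ))

/-- the frequency variable `k · x` -/
noncomputable def xi (x0 x1 : ℝ) : ℝ := m.k0 * x0 + m.k1 * x1

end Mode

/-- the density of the unperturbed form -/
noncomputable def fB (ρ : ℝ) : ℝ := 6 / Real.pi * (yy ρ * (yy ρ + tau))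

namespace Mode

variable {C : ℝ} (m : Mode C)

/-- trivial mode -/
noncomputable def triv (C : ℝ) (hC : 1 + tau ≤ C) : Mode C where
  γ := fun _ => 0
  q := fun _ => 0
  P := fun _ => 0
  r0 := 0
  r1 := 1
  hγ := contDiff_const
  hq := contDiff_const
  hP := contDiff_const
  r01 := one_pos
  γ_out := fun _ _ => rfl
  q_out := fun _ _ => rfl
  γ_nonneg := fun _ => le_refl _
  P_nonneg := fun _ => le_refl _
  deriv_γ := fun r => by simp
  qP := fun r ξ => by simp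
  k0 := 1
  k1 := 0
  hk0 := one_ne_zero
  per := fun _ => rfl
  D_nonneg := fun ξ r => by
    have h1 := yy_pos r
    have h2 := tau_pos
    unfold DD
    simp only [zero_mul, zero_div, add_zero]
    positivity
  D_le := fun ξ r => by
    have h1 := yy_pos r
    have h2 := tau_pos
    have h3 := yy_lt_one r
    unfold DD
    simp only [zero_mul, zero_div, add_zero, mul_zero, Real.exp_zero, mul_one]
    nlinarith


end Mode

end HMA
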