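import Pool.Agent.HMA.XCh
import Pool.Agent.HMA.BaseK

/-! module XFORM: the closed forms on the threefold -/

open MeasureTheory Filter Topology Set Matrix
open scoped Manifold ContDiff ENNReal ComplexOrder

namespace HMA

open Classical in
/-- the sheet of a chart of the atlas -/
noncomputable def shOf (e : OpenPartialHomeomorph X E3) : Bool :=
  if h : ∃ s p, e = crt s p then h.choose else false

theorem shOf_spec {e : OpenPartialHomeomorph X E3} (he : e ∈ atlas E3 X) :
    ∃ p, e = crt (shOf e) p := by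
  have h : ∃ s p, e = crt s p := he
  unfold shOf
  rw [dif_pos h]
  exact h.choose_spec

theorem compat_uW (s t : Bool) (p q r : E3) (hr : r ∈ (crt s p).target)
    (h : (crt s p).symm r ∈ (crt t q).source) :
    cHess (fun r' => uW s r' - uW t (crt t q ((crt s p).symm r'))) r = 0 := by
  have h' : mk s r ∈ (crt t q).source := h
  obtain ⟨a, b, c, d, hne, hev⟩ := crt_trans s t p q h'
  obtain ⟨α, β, γ, κ, hκ, hG⟩ := uW_GG a b c d s t
  have hnear : ∀ᶠ r' in 𝓝 r, (s ≠ t → r' 2 ≠ 0) := by
    by_cases hst : s = t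
    · exact Eventually.of_forall fun r' h1 => absurd hst h1
    · have : ∀ᶠ r' : E3 in 𝓝 r, r' 2 ≠ 0 :=
        (continuous_apply (2 : Fin 3)).continuousAt.eventually_ne (hne hst)
      exact this.mono fun r' h1 _ => h1
  have hcongr : (fun r' => uW s r' - uW t (crt t q ((crt s p).symm r'))) =ᶠ[𝓝 r]
      (fun r' : E3 => α * (r' 0).re + β * (r' 1).re + γ + κ * Real.log ‖r' 2‖) := by
    filter_upwards [hev, hnear] with r' h1 h2
    have h3 : crt t q ((crt s p).symm r') = GG a b c d s t r' := h1
    rw [h3]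
    exact hG r' h2
  rw [cHess_congr hcongr]
  apply cHess_pluriharmonic
  by_cases hst : s = t
  · exact Or.inl (hκ hst)
  · exact Or.inr (hne hst)

theorem compat_uK (s t : Bool) (p q r : E3) (hr : r ∈ (crt s p).target)
    (h : (crt s p).symm r ∈ (crt t q).source) :
    cHess (fun r' => uK s r' - uK t (crt t q ((crt s p).symm r'))) r = 0 := by
  have h' : mk s r ∈ (crt t q).source := h
  obtain ⟨a, b, c, d, hne, hev⟩ := crt_trans s t p q h'
  obtain ⟨α, β, γ, κ, hκ, hG⟩ := uK_GG a b c d s t
  have hnear : ∀ᶠ r' in 𝓝 r, (s ≠ t → r' 2 ≠ 0) := by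
    by_cases hst : s = t
    · exact Eventually.of_forall fun r' h1 => absurd hst h1
    · have : ∀ᶠ r' : E3 in 𝓝 r, r' 2 ≠ 0 :=
        (continuous_apply (2 : Fin 3)).continuousAt.eventually_ne (hne hst)
      exact this.mono fun r' h1 _ => h1
  have hcongr : (fun r' => uK s r' - uK t (crt t q ((crt s p).symm r'))) =ᶠ[𝓝 r]
      (fun r' : E3 => α * (r' 0).re + β * (r' 1).re + γ + κ * Real.log ‖r' 2‖) := by
    filter_upwards [hev, hnear] with r' h1 h2
    have h3 : crt t q ((crt s p).symm r') = GG a b c d s t r' := h1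
    rw [h3]
    exact hG r' h2
  rw [cHess_congr hcongr]
  apply cHess_pluriharmonic
  by_cases hst : s = t
  · exact Or.inl (hκ hst)
  · exact Or.inr (hne hst)

/-- the semi-positive form -/
noncomputable def OmF : ClosedForm 3 X where
  pot e := uW (shOf e)
  smooth e _ := (contDiff_uW _).contDiffOn
  compat e he e' he' r hr h := by
    obtain ⟨p, hp⟩ := shOf_spec he
    obtain ⟨q, hq⟩ := shOf_spec he'
    rw [hp] at hr h
    rw [hq] at h
    have := compat_uW (shOf e) (shOf e') p q r hr h
    rw [← hp, ← hq] at this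
    exact this

/-- the Kaehler form -/
noncomputable def KaF : ClosedForm 3 X where
  pot e := uK (shOf e)
  smooth e _ := (contDiff_uK _).contDiffOn
  compat e he e' he' r hr h := by
    obtain ⟨p, hp⟩ := shOf_spec he
    obtain ⟨q, hq⟩ := shOf_spec he'
    rw [hp] at hr h
    rw [hq] at h
    have := compat_uK (shOf e) (shOf e') p q r hr h
    rw [← hp, ← hq] at this
    exact this

theorem KaF_kaehler : KaF.IsKaehler := fun _ _ p _ => posDef_uK _ p

end HMA
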