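import Pool.Agent.HMA.XMeas2

/-! module XMEAS3: densities in charts -/

open MeasureTheory Filter Topology Set Matrix
open scoped Manifold ContDiff ENNReal ComplexOrder

namespace HMA

/-- preimages under a chart, cut with the source -/
private theorem xm3_pre (s : Bool) (p : E3) (B : Set E3) :
    (crt s p) ⁻¹' B ∩ (crt s p).source = mk s '' (B ∩ Metric.ball p (1 / 2)) := by
  ext x
  constructor
  · rintro ⟨hx, q, hq, rfl⟩
    rw [mem_preimage, crt_mk hq] at hx
    exact ⟨q, ⟨hx, hq⟩, rfl⟩
  · rintro ⟨q, ⟨hqB, hq⟩, rfl⟩
    refine ⟨?_, ⟨q, hq, rfl⟩⟩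
    rw [mem_preimage, crt_mk hq]
    exact hqB

private theorem xm3_src (s : Bool) (p : E3) : MeasurableSet (crt s p).source :=
  (crt s p).open_source.measurableSet

private theorem xm3_aem (s : Bool) (p : E3) (μ : Measure X) :
    AEMeasurable (crt s p) (μ.restrict (crt s p).source) :=
  (crt s p).continuousOn.aemeasurable (xm3_src s p)

/-- the general statement: a density on the threefold in a chart -/
private theorem xm3_map (s : Bool) (p : E3) (μ : Measure X) (k : E3 → ℝ≥0∞)
    (hμ : ∀ A : Set E3, MeasurableSet A → InjOn (mk s) A →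
      μ (mk s '' A) = ∫⁻ q in A, k q) :
    (μ.restrict (crt s p).source).map (crt s p) =
      (volume.restrict (crt s p).target).withDensity k := by
  ext B hB
  rw [Measure.map_apply_of_aemeasurable (xm3_aem s p μ) hB,
    Measure.restrict_apply' (xm3_src s p), xm3_pre, withDensity_apply _ hB,
    Measure.restrict_restrict hB, crt_target]
  exact hμ _ (hB.inter Metric.isOpen_ball.measurableSet)
    ((mk_injOn s p).mono inter_subset_right)

theorem dV_chart (s : Bool) (p : E3) :
    (dV.restrict (crt s p).source).map (crt s p) =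
      (volume.restrict (crt s p).target).withDensity fun q => ENNReal.ofReal (theta s q) := by
  refine xm3_map s p dV _ fun A hA hi => ?_
  have h := lintegral_dV_image hA hi (g := fun _ => 1) measurable_const
  simpa using h

theorem dens_chart {h : ℝ → ℝ → ℝ → ℝ} (hh : Per h)
    (hm : Measurable fun x : ℝ × ℝ × ℝ => h x.1 x.2.1 x.2.2) (h0 : ∀ x0 x1 ρ, 0 ≤ h x0 x1 ρ)
    (s : Bool) (p : E3) :
    ((dV.withDensity fun x => ENNReal.ofReal (xf h x)).restrict (crt s p).source).map (crt s p) =
      (volume.restrict (crt s p).target).withDensity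
        fun q => ENNReal.ofReal (lft h s q * theta s q) := by
  have hxf : Measurable fun x => ENNReal.ofReal (xf h x) := by
    refine measurable_of_mk fun t => ?_
    have : (fun q => ENNReal.ofReal (xf h (mk t q))) = fun q => ENNReal.ofReal (lft h t q) := by
      funext q
      rw [xf_mk hh]
    rw [this]
    exact (measurable_lft hm t).ennreal_ofReal
  refine xm3_map s p _ _ fun A hA hi => ?_
  rw [withDensity_apply _ (measurableSet_image hA hi), lintegral_dV_image hA hi hxf]
  refine lintegral_congr fun q => ?_
  have hl : 0 ≤ lft h s q := by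
    unfold lft
    split_ifs
    · exact le_rfl
    · exact h0 _ _ _
  rw [xf_mk hh, ← ENNReal.ofReal_mul hl]

end HMA
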