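import Pool.Agent.HMA.FamA
import Pool.Agent.HMA.XMeas1

/-! module XNH: the solution is not Hoelder continuous -/

open MeasureTheory Filter Topology Set Matrix
open scoped Manifold ContDiff ENNReal ComplexOrder

namespace HMA

namespace Fam

variable (F : Fam)

/-- the point with coordinates `(x, 0, w)` -/
noncomputable def XNH_pt (x w : ℝ) : E3 := ![(x : ℂ), 0, (w : ℂ)]

theorem XNH_pt_zero : XNH_pt 0 0 = 0 := by
  funext i
  fin_cases i <;> simp [XNH_pt]

theorem XNH_continuous : Continuous fun a : ℝ × ℝ => XNH_pt a.1 a.2 := by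
  refine continuous_pi fun i => ?_
  fin_cases i
  · exact Complex.continuous_ofReal.comp continuous_fst
  · exact continuous_const
  · exact Complex.continuous_ofReal.comp continuous_snd

theorem XNH_norm (x w : ℝ) (hw : 0 ≤ w) : ‖XNH_pt x w - XNH_pt x 0‖ ≤ w := by
  rw [pi_norm_le_iff_of_nonneg hw]
  intro i
  fin_cases i
  · simp [XNH_pt, hw]
  · simp [XNH_pt, hw]
  · simp [XNH_pt, abs_of_nonneg hw]

/-- points `(1/(2 k0_j), 0, w_j)` and `(1/(2 k0_j), 0, 0)` of the first sheet -/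
theorem not_locallyHoelder : ¬ LocallyHoelderInCharts 3 (xf F.phiT) := by
  intro hloc
  have hper : Per F.phiT := fun x0 x1 ρ a b => F.phiT_per x0 x1 ρ a b
  have h0 : (0 : E3) ∈ Metric.ball (0 : E3) (1 / 2) := Metric.mem_ball_self (by norm_num)
  have hsrc : HMA.mk false 0 ∈ (crt false 0).source := ⟨0, h0, rfl⟩
  obtain ⟨U, hU, C, α, hα, hH⟩ := hloc (crt false 0) (crt_mem_atlas false 0) _ hsrc
  set x : ℕ → ℝ := fun j => 1 / (2 * ((F.md j).k0 : ℝ)) with hx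
  set w : ℕ → ℝ := fun j => Real.exp (F.s j - Real.pi * x j ^ 2) with hw
  have hxlim : Tendsto x atTop (𝓝 0) := by
    have h1 : Tendsto (fun j => 2 * ((F.md j).k0 : ℝ)) atTop atTop :=
      F.k_lim.const_mul_atTop (by norm_num)
    exact tendsto_const_nhds.div_atTop h1
  have hwle : ∀ j, w j ≤ Real.exp (F.s j) := by
    intro j
    apply Real.exp_le_exp.mpr
    have : 0 ≤ Real.pi * x j ^ 2 := by positivity
    linarith
  have hwpos : ∀ j, 0 < w j := fun j => Real.exp_pos _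
  have hwlim : Tendsto w atTop (𝓝 0) := by
    have h1 : Tendsto (fun j => Real.exp (F.s j)) atTop (𝓝 0) :=
      Real.tendsto_exp_atBot.comp F.s_lim
    exact squeeze_zero (fun j => (hwpos j).le) hwle h1
  have hp : Tendsto (fun j => XNH_pt (x j) (w j)) atTop (𝓝 0) := by
    have h1 := (XNH_continuous.tendsto (0, 0)).comp (hxlim.prodMk_nhds hwlim)
    rw [show XNH_pt (0, 0).1 (0, 0).2 = 0 from XNH_pt_zero] at h1
    exact h1
  have hp' : Tendsto (fun j => XNH_pt (x j) 0) atTop (𝓝 0) := by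
    have h1 := (XNH_continuous.tendsto (0, 0)).comp
      (hxlim.prodMk_nhds (tendsto_const_nhds (x := (0 : ℝ))))
    rw [show XNH_pt (0, 0).1 (0, 0).2 = 0 from XNH_pt_zero] at h1
    exact h1
  have hball : Metric.ball (0 : E3) (1 / 2) ∈ 𝓝 (0 : E3) := Metric.ball_mem_nhds 0 (by norm_num)
  have hU' : HMA.mk false ⁻¹' U ∈ 𝓝 (0 : E3) := (continuous_mk false).continuousAt hU
  have hk : ∀ᶠ j in atTop, (0 : ℝ) < ((F.md j).k0 : ℝ) := F.k_lim.eventually_gt_atTop 0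
  have q1 : ∀ᶠ j in atTop, XNH_pt (x j) (w j) ∈ Metric.ball (0 : E3) (1 / 2) := hp hball
  have q2 : ∀ᶠ j in atTop, HMA.mk false (XNH_pt (x j) (w j)) ∈ U := hp hU'
  have q3 : ∀ᶠ j in atTop, XNH_pt (x j) 0 ∈ Metric.ball (0 : E3) (1 / 2) := hp' hball
  have q4 : ∀ᶠ j in atTop, HMA.mk false (XNH_pt (x j) 0) ∈ U := hp' hU'
  obtain ⟨j, hj1, hj2, hj3, hj4, hj5, hj6⟩ := (q1.and (q2.and (q3.and
    (q4.and ((F.big |C| α hα).and hk))))).exists
  have e1 := hH _ hj2 _ hj4 ⟨_, hj1, rfl⟩ ⟨_, hj3, rfl⟩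
  rw [crt_mk hj1, crt_mk hj3, xf_mk hper, xf_mk hper] at e1
  have hz : lft F.phiT false (XNH_pt (x j) 0) = 0 := by
    unfold lft
    rw [if_pos]
    simp [XNH_pt]
  have hne : XNH_pt (x j) (w j) 2 ≠ 0 := by
    change ((w j : ℝ) : ℂ) ≠ 0
    exact_mod_cast (hwpos j).ne'
  have hrho : rho false (XNH_pt (x j) (w j)) = F.s j := by
    have h1 : xx (XNH_pt (x j) (w j)) = x j ^ 2 := by
      simp [xx, XNH_pt]
    have h2 : ‖XNH_pt (x j) (w j) 2‖ = w j := by
      simp only [XNH_pt]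
      change ‖((w j : ℝ) : ℂ)‖ = w j
      rw [Complex.norm_real, Real.norm_eq_abs, abs_of_pos (hwpos j)]
    unfold rho
    rw [h1, h2, hw]
    simp only [Real.log_exp, sg, Bool.false_eq_true, if_false]
    ring
  have hy : lft F.phiT false (XNH_pt (x j) (w j)) = F.phiT (x j) 0 (F.s j) := by
    unfold lft
    rw [if_neg hne, hrho]
    simp [XNH_pt]
  have hxi : (F.md j).xi (x j) 0 = 1 / 2 := by
    unfold Mode.xi
    rw [hx]
    field_simp
    ring
  have hge := F.mode_le_phiT j (x j) 0 (F.s j)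
  rw [hxi] at hge
  rw [hz, hy, sub_zero] at e1
  have h3 : ‖XNH_pt (x j) (w j) - XNH_pt (x j) 0‖ ^ α ≤ Real.exp (α * F.s j) := by
    calc ‖XNH_pt (x j) (w j) - XNH_pt (x j) 0‖ ^ α ≤ (Real.exp (F.s j)) ^ α :=
          Real.rpow_le_rpow (norm_nonneg _)
            ((XNH_norm _ _ (hwpos j).le).trans (hwle j)) hα.le
      _ = Real.exp (α * F.s j) := by rw [← Real.exp_mul, mul_comm]
  have h4 : C * ‖XNH_pt (x j) (w j) - XNH_pt (x j) 0‖ ^ α ≤ |C| * Real.exp (α * F.s j) := by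
    have h5 : 0 ≤ ‖XNH_pt (x j) (w j) - XNH_pt (x j) 0‖ ^ α := Real.rpow_nonneg (norm_nonneg _) _
    calc C * ‖XNH_pt (x j) (w j) - XNH_pt (x j) 0‖ ^ α
        ≤ |C| * ‖XNH_pt (x j) (w j) - XNH_pt (x j) 0‖ ^ α :=
          mul_le_mul_of_nonneg_right (le_abs_self C) h5
      _ ≤ _ := mul_le_mul_of_nonneg_left h3 (abs_nonneg C)
  have h5 := le_abs_self (F.phiT (x j) 0 (F.s j))
  linarith

theorem not_hoelder (d : X → X → ℝ) (hd : LipschitzInCharts 3 d) : ¬ HoelderWrt d (xf F.phiT) := by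
  rintro ⟨C, α, hα, hH⟩
  apply F.not_locallyHoelder
  intro e he x hx
  obtain ⟨U, hU, L, hL⟩ := hd.2 e he x hx
  refine ⟨U, hU, |C| * |L| ^ α, α, hα, ?_⟩
  intro y hy z hz hye hze
  have h1 := hL y hy z hz hye hze
  have h0 := hd.1 y z
  have h2 : d y z ≤ |L| * ‖e y - e z‖ :=
    h1.trans (mul_le_mul_of_nonneg_right (le_abs_self L) (norm_nonneg _))
  calc |xf F.phiT y - xf F.phiT z| ≤ C * d y z ^ α := hH y z
    _ ≤ |C| * d y z ^ α := mul_le_mul_of_nonneg_right (le_abs_self C) (Real.rpow_nonneg h0 _)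
    _ ≤ |C| * (|L| * ‖e y - e z‖) ^ α :=
      mul_le_mul_of_nonneg_left (Real.rpow_le_rpow h0 h2 hα.le) (abs_nonneg C)
    _ = |C| * |L| ^ α * ‖e y - e z‖ ^ α := by
      rw [Real.mul_rpow (abs_nonneg L) (norm_nonneg _), mul_assoc]

end Fam

end HMA
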