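import Pool.Agent.HMA.FamU3
import Pool.Agent.HMA.XMeas3
import Pool.Agent.HMA.FamM
import Pool.Agent.HMA.XForm
import Pool.Agent.HMA.XNH
import Pool.Agent.HMA.Famx

/-! the main theorem -/

open MeasureTheory Filter Topology Set Matrix
open scoped Manifold ContDiff ENNReal ComplexOrder

namespace HMA

variable (F : Fam)

theorem cHess_uW_posSemidef (s : Bool) (p : E3) : (cHess (uW s) p).PosSemidef := by
  obtain ⟨F⟩ := exists_fam
  have h := (F.smoothPshOn_uJ s 0).2 p (mem_univ p)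
  have e : F.uJ s 0 = fun q => uW s q + F.c 0 := by
    funext q
    have : lft (F.phiJ 0) s q = 0 := by
      unfold lft Fam.phiJ
      simp
    unfold Fam.uJ
    rw [this, add_zero]
  rw [e, cHess_add_const] at h
  exact h

theorem OmF_semiPositive : OmF.SemiPositive := fun _ _ p _ => cHess_uW_posSemidef _ p

theorem dV_smooth : IsSmoothVolume 3 dV := by
  rintro e ⟨s, p, rfl⟩
  exact ⟨theta s, (contDiff_theta s).contDiffOn, fun q _ => theta_pos s q, dV_chart s p⟩

theorem maDens_uW (s : Bool) {p : E3} (hp : p 2 ≠ 0) :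
    maDens (uW s) p = lft fB3 s p * theta s p := by
  have h := maDens_uM (Mode.triv (1 + tau) le_rfl) s hp
  have e : uM (Mode.triv (1 + tau) le_rfl) s = uW s := by
    funext q
    simp [uM, Mode.triv_phi]
  rw [e, Mode.triv_f] at h
  rw [h]
  unfold lft fB3
  rw [if_neg hp]

theorem fB_nonneg (ρ : ℝ) : 0 ≤ fB ρ := by
  have h1 := yy_pos ρ
  have h2 := tau_pos
  unfold fB
  positivity

theorem fB3_per : Per fB3 := fun _ _ _ _ _ => rfl

theorem fB_le (ρ : ℝ) : fB ρ ≤ 6 / Real.pi * (1 + tau) := by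
  have h1 := yy_pos ρ
  have h2 := tau_pos
  have h3 := yy_lt_one ρ
  unfold fB
  apply mul_le_mul_of_nonneg_left _ (by positivity)
  nlinarith

theorem measurable_fB3 : Measurable fun x : ℝ × ℝ × ℝ => fB3 x.1 x.2.1 x.2.2 := by
  unfold fB3 fB
  have h : Measurable yy := contDiff_yy.continuous.measurable
  have h2 : Measurable fun x : ℝ × ℝ × ℝ => yy x.2.2 := h.comp measurable_snd.snd
  exact measurable_const.mul (h2.mul (h2.add_const _))

theorem OmF_topPower : OmF.IsTopPower (dV.withDensity fun x => ENNReal.ofReal (xf fB3 x)) := by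
  intro e he
  obtain ⟨p, hp⟩ := shOf_spec he
  have h := dens_chart fB3_per measurable_fB3 (fun _ _ ρ => fB_nonneg ρ) (shOf e) p
  rw [← hp] at h
  rw [h]
  apply withDensity_congr_ae
  apply ae_restrict_of_ae
  filter_upwards [ae_ne_zero] with q hq
  show _ = ENNReal.ofReal (maDens (uW (shOf e)) q)
  rw [maDens_uW _ hq]

theorem xf_phiT_mk (s : Bool) (p : E3) : xf F.phiT (mk s p) = lft F.phiT s p :=
  xf_mk (fun _ _ _ _ _ => F.phiT_per _ _ _ _ _) s p

theorem PshOn.mono {u : E3 → ℝ} {V W : Set E3} (h : PshOn u V) (hW : W ⊆ V) : PshOn u W :=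
  ⟨h.1.mono hW, fun a ha b hb => h.2 a (hW ha) b fun s hs => hW (hb s hs)⟩

theorem OmF_isPsh : OmF.IsPsh (xf F.phiT) := by
  intro e he
  obtain ⟨p, hp⟩ := shOf_spec he
  have h := (F.pshOn_uT (shOf e)).mono (subset_univ e.target)
  have e2 : (fun q => OmF.pot e q + xf F.phiT (e.symm q)) = F.uT (shOf e) := by
    funext q
    have : (e.symm : E3 → X) = mk (shOf e) := by
      conv_lhs => rw [hp]
      rfl
    rw [this, xf_phiT_mk]
    rfl
  rw [e2]
  exact h

theorem OmF_solves : OmF.SolvesMA (xf F.phiT)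
    (dV.withDensity fun x => ENNReal.ofReal (xf F.fT x)) := by
  intro e he
  obtain ⟨p, hp⟩ := shOf_spec he
  have e2 : (fun q => OmF.pot e q + xf F.phiT (e.symm q)) = F.uT (shOf e) := by
    funext q
    have : (e.symm : E3 → X) = mk (shOf e) := by
      conv_lhs => rw [hp]
      rfl
    rw [this, xf_phiT_mk]
    rfl
  have h := dens_chart (fun _ _ _ _ _ => F.fT_per _ _ _ _ _) F.measurable_fT F.fT_nonneg
    (shOf e) p
  rw [← hp] at h
  rw [e2, h]
  have h3 := (F.isBT_uT (shOf e)).restrict e.open_target (subset_univ _)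
  unfold Fam.mu at h3
  rwa [restrict_withDensity e.open_target.measurableSet] at h3

theorem continuous_of_mk {f : X → ℝ} (h : ∀ s, Continuous fun p => f (mk s p)) : Continuous f := by
  have h2 : Continuous fun m : Bool × E3 => f (Quotient.mk stp m) := by
    rw [continuous_def]
    intro U hU
    have : (fun m : Bool × E3 => f (Quotient.mk stp m)) ⁻¹' U =
        ⋃ s : Bool, ({s} : Set Bool) ×ˢ ((fun p => f (mk s p)) ⁻¹' U) := by
      ext ⟨s, p⟩
      simp [mk]
    rw [this]
    exact isOpen_iUnion fun s => (isOpen_discrete _).prod (hU.preimage (h s))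
  exact continuous_quot_lift (r := stp.r) (f := fun m : Bool × E3 => f (Quotient.mk stp m))
    (fun a b hab => by
      show f (Quotient.mk stp a) = f (Quotient.mk stp b)
      rw [Quotient.sound hab]) h2 |>.congr fun x => by
      induction x using Quotient.inductionOn with
      | h m => rfl

theorem continuous_xf_phiT : Continuous (xf F.phiT) := by
  apply continuous_of_mk
  intro s
  refine (F.continuous_lft_phiT s).congr fun p => ?_
  rw [xf_phiT_mk]

theorem xf_fT_mk (s : Bool) (p : E3) : xf F.fT (mk s p) = lft F.fT s p :=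
  xf_mk (fun _ _ _ _ _ => F.fT_per _ _ _ _ _) s p

theorem measurable_xf_fT : Measurable (xf F.fT) := by
  apply measurable_of_mk
  intro s
  simp_rw [xf_fT_mk]
  exact measurable_lft F.measurable_fT s

theorem xf_fT_bounds (x : X) : 0 ≤ xf F.fT x ∧ xf F.fT x ≤ 12 / Real.pi * F.C := by
  obtain ⟨s, p, rfl⟩ := mk_surj x
  rw [xf_fT_mk]
  have hC : 0 < F.C := by
    have h1 := F.hC
    have h2 := tau_pos
    linarith
  unfold lft
  split_ifs
  · exact ⟨le_rfl, by positivity⟩
  · exact ⟨F.fT_nonneg _ _ _, F.fT_le _ _ _⟩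

theorem xf_phiT_bounds (x : X) : |xf F.phiT x| ≤ F.c 0 := by
  obtain ⟨s, p, rfl⟩ := mk_surj x
  rw [xf_phiT_mk]
  unfold lft
  split_ifs
  · simpa using F.c_nonneg 0
  · have h1 := F.phiJ_le_phiT 0 (p 0).re (p 1).re (rho s p)
    have h2 := F.phiT_le 0 (p 0).re (p 1).re (rho s p)
    have h3 : F.phiJ 0 (p 0).re (p 1).re (rho s p) = 0 := by simp [Fam.phiJ]
    rw [h3] at h1 h2
    rw [abs_of_nonneg h1]
    linarith

theorem main : ∃ (X : Type) (_ : TopologicalSpace X) (_ : ChartedSpace (Cn 3) X)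
    (_ : MeasurableSpace X) (_ : BorelSpace X)
    (_ : IsManifold 𝓘(ℂ, Cn 3) ω X) (_ : CompactSpace X) (_ : T2Space X) (_ : ConnectedSpace X)
    (Ka Om : ClosedForm 3 X) (dV VOm : Measure X) (f φ : X → ℝ),
    Ka.IsKaehler ∧ Om.SemiPositive ∧ IsSmoothVolume 3 dV ∧
    Om.IsTopPower VOm ∧ 0 < VOm univ ∧
    Measurable f ∧ (∃ C : ℝ, ∀ x, 0 ≤ f x ∧ f x ≤ C) ∧ (∀ p : ℝ≥0∞, MemLp f p dV) ∧
    (dV.withDensity fun x => ENNReal.ofReal (f x)) univ = VOm univ ∧
    Continuous φ ∧ (∃ C : ℝ, ∀ x, |φ x| ≤ C) ∧ Om.IsPsh φ ∧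
    Om.SolvesMA φ (dV.withDensity fun x => ENNReal.ofReal (f x)) ∧
    ¬ LocallyHoelderInCharts 3 φ ∧
    ∀ d : X → X → ℝ, LipschitzInCharts 3 d → ¬ HoelderWrt d φ := by
  obtain ⟨F⟩ := exists_fam
  refine ⟨X, inferInstance, inferInstance, inferInstance, inferInstance, inferInstance,
    inferInstance, inferInstance, inferInstance, KaF, OmF, dV,
    dV.withDensity fun x => ENNReal.ofReal (xf fB3 x), xf F.fT, xf F.phiT,
    KaF_kaehler, OmF_semiPositive, dV_smooth, OmF_topPower, mass_pos, measurable_xf_fT F,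
    ⟨_, xf_fT_bounds F⟩, ?_, F.mass_total, continuous_xf_phiT F, ⟨_, xf_phiT_bounds F⟩,
    OmF_isPsh F, OmF_solves F, F.not_locallyHoelder, F.not_hoelder⟩
  intro p
  refine MemLp.of_bound (measurable_xf_fT F).aestronglyMeasurable (12 / Real.pi * F.C) ?_
  filter_upwards with x
  have h := xf_fT_bounds F x
  rw [Real.norm_of_nonneg h.1]
  exact h.2

end HMA
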