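import Pool.Agent.HMA.Defs

/-! module MAT: mixed discriminants of 3x3 matrices -/

open MeasureTheory Filter Topology Set Matrix
open scoped Manifold ContDiff ENNReal ComplexOrder

namespace HMA

/-- the space `ℂ³` -/
abbrev E3 := Cn 3

/-- The mixed discriminant of three `3 × 3` matrices. -/
noncomputable def MD (A B C : Matrix (Fin 3) (Fin 3) ℂ) : ℂ :=
  (1 / 6) * ∑ σ : Equiv.Perm (Fin 3), ∑ π : Equiv.Perm (Fin 3),
    ((Equiv.Perm.sign σ : ℤ) : ℂ) * ((Equiv.Perm.sign π : ℤ) : ℂ) *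
      (A (σ 0) (π 0) * B (σ 1) (π 1) * C (σ 2) (π 2))

private theorem mat_sum_perm (f : Equiv.Perm (Fin 3) → ℂ) :
    ∑ σ, f σ = f 1 + f (Equiv.swap 0 1) + f (Equiv.swap 0 2) + f (Equiv.swap 1 2) +
      f (Equiv.swap 0 1 * Equiv.swap 1 2) + f (Equiv.swap 1 2 * Equiv.swap 0 1) := by
  have : (Finset.univ : Finset (Equiv.Perm (Fin 3))) = {1, Equiv.swap 0 1, Equiv.swap 0 2,
    Equiv.swap 1 2, Equiv.swap 0 1 * Equiv.swap 1 2, Equiv.swap 1 2 * Equiv.swap 0 1} := by decide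
  rw [this]
  rw [Finset.sum_insert (by decide), Finset.sum_insert (by decide),
    Finset.sum_insert (by decide), Finset.sum_insert (by decide),
    Finset.sum_insert (by decide), Finset.sum_singleton]
  ring

/-- the alternating form -/
private noncomputable def mat_D (a b c : Fin 3 → ℂ) : ℂ :=
  ∑ σ : Equiv.Perm (Fin 3), ((Equiv.Perm.sign σ : ℤ) : ℂ) * (a (σ 0) * b (σ 1) * c (σ 2))

private theorem mat_swap01 : (Equiv.swap (0 : Fin 3) 1) 0 = 1 ∧ (Equiv.swap (0 : Fin 3) 1) 1 = 0 ∧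
    (Equiv.swap (0 : Fin 3) 1) 2 = 2 := by decide

private theorem mat_swap02 : (Equiv.swap (0 : Fin 3) 2) 0 = 2 ∧ (Equiv.swap (0 : Fin 3) 2) 1 = 1 ∧
    (Equiv.swap (0 : Fin 3) 2) 2 = 0 := by decide

private theorem mat_swap12 : (Equiv.swap (1 : Fin 3) 2) 0 = 0 ∧ (Equiv.swap (1 : Fin 3) 2) 1 = 2 ∧
    (Equiv.swap (1 : Fin 3) 2) 2 = 1 := by decide

private theorem mat_r1 : (Equiv.swap (0 : Fin 3) 1 * Equiv.swap 1 2 : Equiv.Perm (Fin 3)) 0 = 1 ∧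
    (Equiv.swap (0 : Fin 3) 1 * Equiv.swap 1 2 : Equiv.Perm (Fin 3)) 1 = 2 ∧
    (Equiv.swap (0 : Fin 3) 1 * Equiv.swap 1 2 : Equiv.Perm (Fin 3)) 2 = 0 := by decide

private theorem mat_r2 : (Equiv.swap (1 : Fin 3) 2 * Equiv.swap 0 1 : Equiv.Perm (Fin 3)) 0 = 2 ∧
    (Equiv.swap (1 : Fin 3) 2 * Equiv.swap 0 1 : Equiv.Perm (Fin 3)) 1 = 0 ∧
    (Equiv.swap (1 : Fin 3) 2 * Equiv.swap 0 1 : Equiv.Perm (Fin 3)) 2 = 1 := by decide

private theorem mat_signs : ((Equiv.Perm.sign (1 : Equiv.Perm (Fin 3)) : ℤ)) = 1 ∧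
    ((Equiv.Perm.sign (Equiv.swap (0 : Fin 3) 1) : ℤ)) = -1 ∧
    ((Equiv.Perm.sign (Equiv.swap (0 : Fin 3) 2) : ℤ)) = -1 ∧
    ((Equiv.Perm.sign (Equiv.swap (1 : Fin 3) 2) : ℤ)) = -1 ∧
    ((Equiv.Perm.sign (Equiv.swap (0 : Fin 3) 1 * Equiv.swap 1 2) : ℤ)) = 1 ∧
    ((Equiv.Perm.sign (Equiv.swap (1 : Fin 3) 2 * Equiv.swap 0 1) : ℤ)) = 1 := by decide

private theorem mat_D_eq (a b c : Fin 3 → ℂ) : mat_D a b c =
    a 0 * b 1 * c 2 - a 1 * b 0 * c 2 - a 2 * b 1 * c 0 - a 0 * b 2 * c 1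
      + a 1 * b 2 * c 0 + a 2 * b 0 * c 1 := by
  obtain ⟨s0, s1, s2, s3, s4, s5⟩ := mat_signs
  obtain ⟨a1, a2, a3⟩ := mat_swap01
  obtain ⟨b1, b2, b3⟩ := mat_swap02
  obtain ⟨c1, c2, c3⟩ := mat_swap12
  obtain ⟨d1, d2, d3⟩ := mat_r1
  obtain ⟨e1, e2, e3⟩ := mat_r2
  unfold mat_D
  rw [mat_sum_perm, s0, s1, s2, s3, s4, s5, a1, a2, a3, b1, b2, b3, c1, c2, c3, d1, d2, d3,
    e1, e2, e3]
  simp only [Equiv.Perm.coe_one, id_eq]
  push_cast
  ring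

/-- the mixed discriminant through rows -/
private theorem MD_eq (A B C : Matrix (Fin 3) (Fin 3) ℂ) :
    MD A B C = (1 / 6) * (mat_D (A 0) (B 1) (C 2) - mat_D (A 1) (B 0) (C 2)
      - mat_D (A 2) (B 1) (C 0) - mat_D (A 0) (B 2) (C 1) + mat_D (A 1) (B 2) (C 0)
      + mat_D (A 2) (B 0) (C 1)) := by
  have h : ∀ σ : Equiv.Perm (Fin 3), ∑ π : Equiv.Perm (Fin 3),
      ((Equiv.Perm.sign σ : ℤ) : ℂ) * ((Equiv.Perm.sign π : ℤ) : ℂ) *
      (A (σ 0) (π 0) * B (σ 1) (π 1) * C (σ 2) (π 2)) =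
      ((Equiv.Perm.sign σ : ℤ) : ℂ) * mat_D (A (σ 0)) (B (σ 1)) (C (σ 2)) := by
    intro σ
    unfold mat_D
    rw [Finset.mul_sum]
    refine Finset.sum_congr rfl fun π _ => ?_
    ring
  unfold MD
  rw [Finset.sum_congr rfl fun σ _ => h σ]
  obtain ⟨s0, s1, s2, s3, s4, s5⟩ := mat_signs
  obtain ⟨a1, a2, a3⟩ := mat_swap01
  obtain ⟨b1, b2, b3⟩ := mat_swap02
  obtain ⟨c1, c2, c3⟩ := mat_swap12
  obtain ⟨d1, d2, d3⟩ := mat_r1
  obtain ⟨e1, e2, e3⟩ := mat_r2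
  rw [mat_sum_perm, s0, s1, s2, s3, s4, s5, a1, a2, a3, b1, b2, b3, c1, c2, c3, d1, d2, d3,
    e1, e2, e3]
  simp only [Equiv.Perm.coe_one, id_eq]
  push_cast
  ring

theorem MD_self (A : Matrix (Fin 3) (Fin 3) ℂ) : MD A A A = A.det := by
  rw [MD_eq, Matrix.det_fin_three]
  simp only [mat_D_eq]
  ring

theorem MD_swap12 (A B C : Matrix (Fin 3) (Fin 3) ℂ) : MD A B C = MD B A C := by
  rw [MD_eq, MD_eq]
  simp only [mat_D_eq]
  ring

theorem MD_swap23 (A B C : Matrix (Fin 3) (Fin 3) ℂ) : MD A B C = MD A C B := by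
  rw [MD_eq, MD_eq]
  simp only [mat_D_eq]
  ring

theorem MD_add (A A' B C : Matrix (Fin 3) (Fin 3) ℂ) : MD (A + A') B C = MD A B C + MD A' B C := by
  rw [MD_eq, MD_eq, MD_eq]
  simp only [mat_D_eq, Matrix.add_apply]
  ring

theorem MD_sub (A A' B C : Matrix (Fin 3) (Fin 3) ℂ) : MD (A - A') B C = MD A B C - MD A' B C := by
  rw [MD_eq, MD_eq, MD_eq]
  simp only [mat_D_eq, Matrix.sub_apply]
  ring

theorem MD_smul (c : ℂ) (A B C : Matrix (Fin 3) (Fin 3) ℂ) : MD (c • A) B C = c * MD A B C := by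
  rw [MD_eq, MD_eq]
  simp only [mat_D_eq, Matrix.smul_apply, smul_eq_mul]
  ring

theorem det_sub_det (A B : Matrix (Fin 3) (Fin 3) ℂ) :
    A.det - B.det = MD (A - B) A A + MD (A - B) A B + MD (A - B) B B := by
  rw [MD_sub, MD_sub, MD_sub, MD_self, MD_self, MD_swap12 B A A, MD_swap23 A B A,
    MD_swap12 B A B]
  ring

private theorem MD_zero (B C : Matrix (Fin 3) (Fin 3) ℂ) : MD 0 B C = 0 := by
  have := MD_smul 0 0 B C
  simpa using this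

private theorem MD_sum {m : ℕ} (A : Fin m → Matrix (Fin 3) (Fin 3) ℂ)
    (B C : Matrix (Fin 3) (Fin 3) ℂ) : MD (∑ i, A i) B C = ∑ i, MD (A i) B C := by
  classical
  have : ∀ s : Finset (Fin m), MD (∑ i ∈ s, A i) B C = ∑ i ∈ s, MD (A i) B C := by
    intro s
    induction s using Finset.induction_on with
    | empty => simp [MD_zero]
    | insert a s ha ih => rw [Finset.sum_insert ha, Finset.sum_insert ha, MD_add, ih]
  exact this Finset.univ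

private theorem MD_rank1 (a b c : Fin 3 → ℂ) :
    MD (vecMulVec a (star a)) (vecMulVec b (star b)) (vecMulVec c (star c)) =
      (1 / 6) * (mat_D a b c * star (mat_D a b c)) := by
  rw [MD_eq]
  simp only [mat_D_eq, vecMulVec_apply, Pi.star_apply, RCLike.star_def, map_add, map_sub, map_mul]
  ring

private theorem MD_rank1_nonneg (a b c : Fin 3 → ℂ) :
    0 ≤ (MD (vecMulVec a (star a)) (vecMulVec b (star b)) (vecMulVec c (star c))).re := by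
  rw [MD_rank1]
  have h : mat_D a b c * star (mat_D a b c) = ((‖mat_D a b c‖ ^ 2 : ℝ) : ℂ) := by
    rw [RCLike.star_def, Complex.mul_conj, Complex.normSq_eq_norm_sq]
  rw [h]
  have h2 : ((1 / 6 : ℂ) * ((‖mat_D a b c‖ ^ 2 : ℝ) : ℂ)) =
      (((1 / 6 : ℝ) * ‖mat_D a b c‖ ^ 2 : ℝ) : ℂ) := by push_cast; ring
  rw [h2, Complex.ofReal_re]
  positivity

/-- positivity: write the matrices as sums of rank one matrices `a aᴴ`; for rank one matrices the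
mixed discriminant is `|det (a, b, c)|² / 6`. -/
theorem MD_nonneg {A B C : Matrix (Fin 3) (Fin 3) ℂ} (hA : A.PosSemidef) (hB : B.PosSemidef)
    (hC : C.PosSemidef) : 0 ≤ (MD A B C).re := by
  obtain ⟨m, a, rfl⟩ := Matrix.posSemidef_iff_eq_sum_vecMulVec.1 hA
  obtain ⟨n, b, rfl⟩ := Matrix.posSemidef_iff_eq_sum_vecMulVec.1 hB
  obtain ⟨k, c, rfl⟩ := Matrix.posSemidef_iff_eq_sum_vecMulVec.1 hC
  rw [MD_sum, Complex.re_sum]
  refine Finset.sum_nonneg fun i _ => ?_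
  rw [MD_swap12, MD_sum, Complex.re_sum]
  refine Finset.sum_nonneg fun j _ => ?_
  rw [MD_swap23, MD_swap12, MD_sum, Complex.re_sum]
  refine Finset.sum_nonneg fun l _ => ?_
  exact MD_rank1_nonneg _ _ _

/-- bound: if `-c ≤ A ≤ c` then `|MD A B C| ≤ c MD 1 B C`. -/
theorem MD_abs_le {A B C : Matrix (Fin 3) (Fin 3) ℂ} {c : ℝ}
    (hA1 : ((c : ℂ) • (1 : Matrix (Fin 3) (Fin 3) ℂ) - A).PosSemidef)
    (hA2 : ((c : ℂ) • (1 : Matrix (Fin 3) (Fin 3) ℂ) + A).PosSemidef)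
    (hB : B.PosSemidef) (hC : C.PosSemidef) :
    |(MD A B C).re| ≤ c * (MD 1 B C).re := by
  have h1 := MD_nonneg hA1 hB hC
  have h2 := MD_nonneg hA2 hB hC
  rw [MD_sub, MD_smul, Complex.sub_re, Complex.re_ofReal_mul] at h1
  rw [MD_add, MD_smul, Complex.add_re, Complex.re_ofReal_mul] at h2
  rw [abs_le]
  constructor <;> linarith

private theorem mat_quad_bound {A : Matrix (Fin 3) (Fin 3) ℂ} {c : ℝ} (hc : ∀ a b, ‖A a b‖ ≤ c)
    (x : Fin 3 → ℂ) : ‖star x ⬝ᵥ (A *ᵥ x)‖ ≤ 3 * c * ∑ i, ‖x i‖ ^ 2 := by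
  have hc0 : 0 ≤ c := le_trans (norm_nonneg _) (hc 0 0)
  have h1 : ‖star x ⬝ᵥ (A *ᵥ x)‖ ≤ ∑ i, ∑ j, ‖x i‖ * (c * ‖x j‖) := by
    unfold dotProduct mulVec dotProduct
    refine (norm_sum_le _ _).trans (Finset.sum_le_sum fun i _ => ?_)
    rw [norm_mul, Pi.star_apply, norm_star, ← Finset.mul_sum]
    refine mul_le_mul_of_nonneg_left ?_ (norm_nonneg _)
    refine (norm_sum_le _ _).trans (Finset.sum_le_sum fun j _ => ?_)
    rw [norm_mul]
    exact mul_le_mul_of_nonneg_right (hc i j) (norm_nonneg _)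
  refine h1.trans ?_
  simp only [Fin.sum_univ_three]
  nlinarith [mul_nonneg hc0 (sq_nonneg (‖x 0‖ - ‖x 1‖)), mul_nonneg hc0 (sq_nonneg (‖x 0‖ - ‖x 2‖)),
    mul_nonneg hc0 (sq_nonneg (‖x 1‖ - ‖x 2‖))]

private theorem mat_one_quad (x : Fin 3 → ℂ) :
    star x ⬝ᵥ ((1 : Matrix (Fin 3) (Fin 3) ℂ) *ᵥ x) = ((∑ i, ‖x i‖ ^ 2 : ℝ) : ℂ) := by
  rw [one_mulVec]
  unfold dotProduct
  push_cast
  refine Finset.sum_congr rfl fun i _ => ?_
  rw [Pi.star_apply, RCLike.star_def, mul_comm, Complex.mul_conj, Complex.normSq_eq_norm_sq]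
  push_cast
  rfl

private theorem mat_herm_im {A : Matrix (Fin 3) (Fin 3) ℂ} (hA : A.IsHermitian) (x : Fin 3 → ℂ) :
    (star x ⬝ᵥ (A *ᵥ x)).im = 0 := by
  have := hA.im_star_dotProduct_mulVec_self x
  simpa using this

/-- A Hermitian matrix whose entries are bounded by `c` satisfies `-3c ≤ A ≤ 3c`. -/
theorem posSemidef_of_entry_le {A : Matrix (Fin 3) (Fin 3) ℂ} (hA : A.IsHermitian) {c : ℝ}
    (hc : ∀ a b, ‖A a b‖ ≤ c) :
    (((3 * c : ℝ) : ℂ) • (1 : Matrix (Fin 3) (Fin 3) ℂ) - A).PosSemidef ∧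
    (((3 * c : ℝ) : ℂ) • (1 : Matrix (Fin 3) (Fin 3) ℂ) + A).PosSemidef := by
  have hH : (((3 * c : ℝ) : ℂ) • (1 : Matrix (Fin 3) (Fin 3) ℂ)).IsHermitian := by
    rw [Matrix.IsHermitian, conjTranspose_smul, conjTranspose_one]
    simp
  have key : ∀ x : Fin 3 → ℂ, |(star x ⬝ᵥ (A *ᵥ x)).re| ≤ 3 * c * ∑ i, ‖x i‖ ^ 2 := fun x =>
    (Complex.abs_re_le_norm _).trans (mat_quad_bound hc x)
  constructor
  · refine PosSemidef.of_dotProduct_mulVec_nonneg (hH.sub hA) fun x => ?_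
    rw [sub_mulVec, dotProduct_sub, smul_mulVec, dotProduct_smul, mat_one_quad, smul_eq_mul,
      ← Complex.ofReal_mul, Complex.le_def]
    constructor
    · rw [Complex.sub_re, Complex.ofReal_re, Complex.zero_re]
      have := (abs_le.1 (key x)).2
      linarith
    · rw [Complex.sub_im, Complex.ofReal_im, mat_herm_im hA]
      simp
  · refine PosSemidef.of_dotProduct_mulVec_nonneg (hH.add hA) fun x => ?_
    rw [add_mulVec, dotProduct_add, smul_mulVec, dotProduct_smul, mat_one_quad, smul_eq_mul,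
      ← Complex.ofReal_mul, Complex.le_def]
    constructor
    · rw [Complex.add_re, Complex.ofReal_re, Complex.zero_re]
      have := (abs_le.1 (key x)).1
      linarith
    · rw [Complex.add_im, Complex.ofReal_im, mat_herm_im hA]
      simp

end HMA
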