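import Pool.Agent.HMA.Leg3

/-! module MODEF: the density of a mode -/

open MeasureTheory Filter Topology Set Matrix
open scoped Manifold ContDiff ENNReal ComplexOrder

namespace HMA

namespace Mode

variable {C : ℝ} (m : Mode C)

private theorem modeF_R_eq (ξ ρ : ℝ) : m.R ξ ρ - ρ = m.q (m.R ξ ρ) * m.P ξ := by
  have h := m.T_R ξ ρ
  unfold LD.T at h
  linarith

private theorem modeF_denom_pos (ξ ρ : ℝ) : 0 < 1 - deriv m.q (m.R ξ ρ) * m.P ξ := by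
  have h := m.Rr_pos ξ ρ
  unfold LD.Rr at h
  exact one_div_pos.mp h

theorem f_nonneg (ξ ρ : ℝ) : 0 ≤ m.f ξ ρ := by
  have h1 := m.D_nonneg ξ (m.R ξ ρ)
  have h2 := v2_pos (m.R ξ ρ)
  have h3 := v2_pos ρ
  have h4 := m.Rr_pos ξ ρ
  have h5 := Real.pi_pos
  unfold f
  positivity

theorem f_le (ξ ρ : ℝ) : m.f ξ ρ ≤ 12 / Real.pi * C := by
  have h1 := m.D_nonneg ξ (m.R ξ ρ)
  have h2 := v2_pos (m.R ξ ρ)
  have h3 := v2_pos ρ
  have h4 := m.Rr_pos ξ ρ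
  have h4' := m.Rr_le ξ ρ
  have h5 := Real.pi_pos
  have h6 := m.D_le ξ (m.R ξ ρ)
  have h7 := v2_ratio (m.R ξ ρ) ρ
  have h8 : |m.R ξ ρ - ρ| = |m.q (m.R ξ ρ)| * m.P ξ := by
    rw [modeF_R_eq, abs_mul, abs_of_nonneg (m.P_nonneg ξ)]
  rw [h8] at h7
  have h9 : v2 (m.R ξ ρ) * m.Rr ξ ρ / v2 ρ ≤
      Real.exp (2 * (|m.q (m.R ξ ρ)| * m.P ξ)) * 2 := by
    have : v2 (m.R ξ ρ) * m.Rr ξ ρ / v2 ρ = v2 (m.R ξ ρ) / v2 ρ * m.Rr ξ ρ := by ring
    rw [this]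
    exact mul_le_mul h7 h4' h4.le (Real.exp_pos _).le
  have h10 : DD m.γ m.P m.k0 m.k1 ξ (m.R ξ ρ) * (v2 (m.R ξ ρ) * m.Rr ξ ρ / v2 ρ) ≤ C * 2 := by
    calc _ ≤ DD m.γ m.P m.k0 m.k1 ξ (m.R ξ ρ) *
          (Real.exp (2 * (|m.q (m.R ξ ρ)| * m.P ξ)) * 2) :=
        mul_le_mul_of_nonneg_left h9 h1
      _ = DD m.γ m.P m.k0 m.k1 ξ (m.R ξ ρ) *
          Real.exp (2 * (|m.q (m.R ξ ρ)| * m.P ξ)) * 2 := by ring
      _ ≤ C * 2 := by linarith
  unfold f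
  calc _ ≤ 6 / Real.pi * (C * 2) := mul_le_mul_of_nonneg_left h10 (by positivity)
    _ = 12 / Real.pi * C := by ring

theorem f_out {ξ ρ : ℝ} (h : ρ ∉ Ioo m.r0 m.r1) : m.f ξ ρ = fB ρ := by
  have h1 := m.R_out (ξ := ξ) h
  have h2 := m.Rr_out (ξ := ξ) h
  have h3 := (v2_pos ρ).ne'
  unfold f fB DD
  rw [h1, h2, m.γ_out ρ h]
  field_simp
  ring

theorem continuous_f : Continuous (fun x : ℝ × ℝ => m.f x.1 x.2) := by
  have hR : Continuous (fun x : ℝ × ℝ => m.R x.1 x.2) := m.contDiff_R.continuous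
  have hyy : Continuous yy := contDiff_yy.continuous
  have hv2 : Continuous v2 := by
    unfold v2
    fun_prop
  have hP : Continuous m.P := m.hP.continuous
  have hP2 : Continuous (deriv (deriv m.P)) := by
    have h1 : ContDiff ℝ ∞ (deriv m.P) := by
      have := (contDiff_infty_iff_deriv (𝕜 := ℝ)).1 m.hP
      exact this.2
    have h2 : ContDiff ℝ ∞ (deriv (deriv m.P)) := by
      have := (contDiff_infty_iff_deriv (𝕜 := ℝ)).1 h1
      exact this.2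
    exact h2.continuous
  have hγ : Continuous m.γ := m.hγ.continuous
  have hq : Continuous (deriv m.q) := by
    have := (contDiff_infty_iff_deriv (𝕜 := ℝ)).1 m.hq
    exact this.2.continuous
  have h1 : Continuous (fun x : ℝ × ℝ => m.Rr x.1 x.2) := by
    unfold LD.Rr
    refine continuous_const.div ?_ fun x => (modeF_denom_pos m x.1 x.2).ne'
    exact continuous_const.sub ((hq.comp hR).mul (hP.comp continuous_fst))
  have h2 : Continuous (fun x : ℝ × ℝ => DD m.γ m.P m.k0 m.k1 x.1 (m.R x.1 x.2)) := by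
    unfold DD
    have e1 := hyy.comp hR
    have e2 := hγ.comp hR
    have e3 := hP2.comp (continuous_fst (X := ℝ) (Y := ℝ))
    simp only [Function.comp_def] at e1 e2 e3
    fun_prop
  unfold f
  refine continuous_const.mul (h2.mul ?_)
  refine ((hv2.comp hR).mul h1).div (hv2.comp continuous_snd) fun x => (v2_pos x.2).ne'

theorem P_per_int (ξ : ℝ) (n : ℤ) : m.P (ξ + n) = m.P ξ := by
  have h : Function.Periodic m.P 1 := m.per
  have := h.int_mul n ξ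
  simpa using this

private theorem modeF_T_per (ξ : ℝ) (n : ℤ) : m.T (ξ + n) = m.T ξ := by
  funext r
  unfold LD.T
  rw [P_per_int]

private theorem modeF_R_per (ξ ρ : ℝ) (n : ℤ) : m.R (ξ + n) ρ = m.R ξ ρ := by
  calc m.R (ξ + n) ρ = m.R (ξ + n) (m.T (ξ + n) (m.R ξ ρ)) := by rw [modeF_T_per, m.T_R]
    _ = m.R ξ ρ := m.R_T _ _

private theorem modeF_dP_per (ξ : ℝ) (n : ℤ) : deriv m.P (ξ + n) = deriv m.P ξ := by
  rw [← deriv_comp_add_const]
  congr 1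
  funext x
  exact P_per_int m x n

private theorem modeF_ddP_per (ξ : ℝ) (n : ℤ) :
    deriv (deriv m.P) (ξ + n) = deriv (deriv m.P) ξ := by
  rw [← deriv_comp_add_const]
  congr 1
  funext x
  exact modeF_dP_per m x n

theorem phi_per (ξ ρ : ℝ) (n : ℤ) : m.phi (ξ + n) ρ = m.phi ξ ρ := by
  unfold LD.phi LD.Phi
  rw [modeF_R_per, P_per_int]

theorem f_per (ξ ρ : ℝ) (n : ℤ) : m.f (ξ + n) ρ = m.f ξ ρ := by
  unfold f LD.Rr DD
  rw [modeF_R_per, P_per_int, modeF_ddP_per]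

private theorem modeF_triv_R (C : ℝ) (hC : 1 + tau ≤ C) (ξ ρ : ℝ) :
    (triv C hC).R ξ ρ = ρ := by
  have h := modeF_R_eq (triv C hC) ξ ρ
  have h2 : (triv C hC).P ξ = 0 := rfl
  rw [h2, mul_zero] at h
  linarith

theorem triv_phi (C : ℝ) (hC : 1 + tau ≤ C) (ξ ρ : ℝ) : (triv C hC).phi ξ ρ = 0 := by
  have h2 : (triv C hC).P ξ = 0 := rfl
  unfold LD.phi LD.Phi
  rw [modeF_triv_R, h2]
  ring

theorem triv_f (C : ℝ) (hC : 1 + tau ≤ C) (ξ ρ : ℝ) : (triv C hC).f ξ ρ = fB ρ := by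
  have h2 : (triv C hC).P ξ = 0 := rfl
  have h3 : (triv C hC).γ ρ = 0 := rfl
  have h4 := (v2_pos ρ).ne'
  unfold f fB DD LD.Rr
  rw [modeF_triv_R, h2, h3]
  field_simp
  ring

end Mode

end HMA
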