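import Pool.Agent.HMA.Gam2
import Pool.Agent.HMA.Bump
import Pool.Agent.HMA.ModeF

/-! module MODEX: existence of modes -/

open MeasureTheory Filter Topology Set Matrix
open scoped Manifold ContDiff ENNReal ComplexOrder

namespace HMA

private lemma modex_D_eq {γ P : ℝ → ℝ} {k0 k1 : ℤ} {K δ s ξ r : ℝ}
    (hK : K = (k0 : ℝ) ^ 2 + (k1 : ℝ) ^ 2) (hδ : δ = ((k1 : ℝ) - gr * k0) ^ 2)
    (hpos : 0 < K * yy r + δ)
    (hγ : γ r = 2 * Real.pi * (yy r * (yy r + tau)) / (K * yy r + δ) * s) :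
    DD γ P k0 k1 ξ r = yy r * (yy r + tau) * (1 + s * deriv (deriv P) ξ) := by
  unfold DD
  rw [← hK, ← hδ, hγ]
  have h1 := Real.pi_pos.ne'
  obtain ⟨Z, hZ⟩ : ∃ Z, Z = K * yy r + δ := ⟨_, rfl⟩
  rw [← hZ] at hpos ⊢
  have h2 := hpos.ne'
  field_simp

private lemma modex_D_nonneg {y s p : ℝ} (hy : 0 < y) (hs : 0 ≤ s ∧ s ≤ 1) (hp : -1 ≤ p) :
    0 ≤ y * (y + tau) * (1 + s * p) := by
  have h1 := tau_pos
  have h2 : 0 ≤ 1 + s * p := by nlinarith [hs.1, hs.2]
  positivity

private lemma modex_D_le {y s p Q : ℝ} (hy : 0 < y) (hy1 : y < 1) (hs : 0 ≤ s ∧ s ≤ 1)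
    (hp : p ≤ Q) (hQ : 0 ≤ Q) : y * (y + tau) * (1 + s * p) ≤ y * ((1 + tau) * (1 + Q)) := by
  have h1 := tau_pos
  have h2 : 1 + s * p ≤ 1 + Q := by nlinarith [hs.1, hs.2, mul_le_mul_of_nonneg_left hp hs.1]
  have h3 : (y + tau) * (1 + s * p) ≤ (1 + tau) * (1 + Q) := by
    calc (y + tau) * (1 + s * p) ≤ (y + tau) * (1 + Q) :=
          mul_le_mul_of_nonneg_left h2 (by linarith)
      _ ≤ (1 + tau) * (1 + Q) := mul_le_mul_of_nonneg_right (by linarith) (by linarith)
  rw [mul_assoc]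
  exact mul_le_mul_of_nonneg_left h3 hy.le

private lemma modex_exp {x : ℝ} : x * Real.exp (-x) ≤ 1 := by
  have h := Real.add_one_le_exp x
  rw [Real.exp_neg]
  rw [mul_inv_le_iff₀ (Real.exp_pos x)]
  linarith

private lemma modex_K {K δ : ℝ} (h1 : 0 < δ) (h2 : 1 / 2 ≤ K * δ) (h3 : δ ≤ 1 / 4) :
    0 < K ∧ 2 ≤ K ∧ 1 / K ≤ 2 * δ := by
  have hK : 0 < K := by
    by_contra h
    push Not at h
    nlinarith
  refine ⟨hK, by nlinarith, ?_⟩
  rw [div_le_iff₀ hK]
  nlinarith

private lemma modex_g {y K δ : ℝ} (hy : 0 < y) (hy1 : y < 1) (hK : 0 < K) (hδ : 0 < δ) :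
    y * (y + tau) * K ≤ (1 + tau) * (K * y + δ) := by
  have h1 := tau_pos
  have h2 : y * (y + tau) * K ≤ y * (1 + tau) * K :=
    mul_le_mul_of_nonneg_right (mul_le_mul_of_nonneg_left (by linarith) hy.le) hK.le
  have h3 : 0 < (1 + tau) * δ := by positivity
  calc y * (y + tau) * K ≤ y * (1 + tau) * K := h2
    _ ≤ y * (1 + tau) * K + (1 + tau) * δ := by linarith
    _ = _ := by ring

private lemma modex_e {q P b : ℝ} (hq : |q| ≤ b) (h0 : 0 ≤ P) (h1 : P ≤ 1 / 8) :
    2 * (|q| * P) ≤ b / 4 := by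
  have h2 := abs_nonneg q
  have := mul_le_mul hq h1 h0 (h2.trans hq)
  linarith

private lemma modex_y {y : ℝ} (hy : 0 < y) (hy1 : y < 1) : y * (y + tau) ≤ 1 + tau := by
  have h1 := tau_pos
  nlinarith

private lemma modex_ky {K δ : ℝ} (hK : 0 < K) (hδ : 0 < δ) : K * (δ / (K + δ)) ≤ δ := by
  rw [← mul_div_assoc, div_le_iff₀ (by positivity)]
  nlinarith

private lemma modex_t {y K δ : ℝ} (hy : 0 < y) (hδ : 0 < δ) (h : K * y ≤ δ) :
    tau * (K * y + δ) ≤ 2 * (y + tau) * δ := by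
  have h1 := tau_pos
  have h2 : tau * (K * y + δ) ≤ tau * (δ + δ) := mul_le_mul_of_nonneg_left (by linarith) h1.le
  have h3 : 0 < y * δ := by positivity
  linarith

private lemma modex_q {a δ : ℝ} (ha : 0 < a) (hδ : 0 < δ) (h : δ ≤ a ^ 3 / 4) :
    2 * (1 / δ) / a ≤ Real.exp (a * (1 / δ)) := by
  have hx : 0 < 1 / δ := by positivity
  have h16 := Real.quadratic_le_exp_of_nonneg (x := a * (1 / δ)) (by positivity)
  have h18 : 2 * (1 / δ) / a ≤ (a * (1 / δ)) ^ 2 / 2 := by
    rw [div_le_div_iff₀ ha two_pos]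
    have h20 : 4 ≤ a ^ 3 * (1 / δ) := by
      rw [mul_one_div, le_div_iff₀ hδ]
      linarith
    have h21 := mul_le_mul_of_nonneg_right h20 hx.le
    calc 2 * (1 / δ) * 2 = 4 * (1 / δ) := by ring
      _ ≤ a ^ 3 * (1 / δ) * (1 / δ) := h21
      _ = _ := by ring
  have h22 : 0 < a * (1 / δ) := by positivity
  linarith

theorem exists_mode : ∃ C A β c1 δ0 : ℝ, 1 + tau ≤ C ∧ 0 < A ∧ 0 < β ∧ 0 < c1 ∧ 0 < δ0 ∧
    ∀ k0 k1 : ℤ, k0 ≠ 0 → ∀ K δ : ℝ, K = (k0 : ℝ) ^ 2 + (k1 : ℝ) ^ 2 →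
      δ = ((k1 : ℝ) - gr * k0) ^ 2 → 0 < δ → δ ≤ δ0 → 1 / 2 ≤ K * δ → K * δ ≤ 1 →
      ∃ m : Mode C, m.k0 = k0 ∧ m.k1 = k1 ∧ m.r0 = -A / δ ∧
        m.r1 = 1 / 2 * Real.log (2 / K) + β ∧ (∀ ξ ρ, m.phi ξ ρ ≤ C / K) ∧
        c1 / K ≤ m.phi (1 / 2) (-(Real.pi * tau / 32) / δ) := by
  obtain ⟨A, β, B, δ0, hA, hβ, hB, hδ0, hδ04, hgam⟩ := exists_gamma
  obtain ⟨C1, hC1, hbump⟩ := exists_bump
  have hpi := Real.pi_pos
  have htau := tau_pos
  set a : ℝ := Real.pi * tau / 16 with ha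
  have hapos : 0 < a := by positivity
  set E2 : ℝ := (1 + tau) * (1 + C1) * Real.exp (1 / 2) with hE2
  set E3 : ℝ := 2 * B * (1 + C1) * (1 + tau) * Real.exp (2 * Real.pi * (1 + tau)) with hE3
  set E4 : ℝ := 2 * B * (1 + C1) * (1 + tau) * Real.exp (B / 4) with hE4
  set E5 : ℝ := Real.pi * (1 + tau) / 4 with hE5
  have h2 : 0 < E2 := by positivity
  have h3 : 0 < E3 := by positivity
  have h4 : 0 < E4 := by positivity
  have h5 : 0 < E5 := by positivity
  refine ⟨(1 + tau) + E2 + E3 + E4 + E5, A, β, Real.pi * tau / 64, min δ0 (a ^ 3 / 4),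
    by linarith, hA, hβ, by positivity, lt_min hδ0 (by positivity), ?_⟩
  intro k0 k1 hk0 K δ hK hδ hδpos hδle hKδ hKδ1
  have hδ1 : δ ≤ δ0 := hδle.trans (min_le_left _ _)
  have hδ2 : δ ≤ a ^ 3 / 4 := hδle.trans (min_le_right _ _)
  have hδ4 : δ ≤ 1 / 4 := hδ1.trans hδ04
  obtain ⟨hKpos, hK2, hinv⟩ := modex_K hδpos hKδ hδ4
  obtain ⟨γ, q, σ, hγs, hqs, hr, hout, hσ, hγ, hdγ, hdq, hσ1, hcases⟩ :=
    hgam K δ hδpos hδ1 hKδ hKδ1
  obtain ⟨P, hPs, hper, hP, hPhalf, hP2, hP3⟩ := hbump δ hδpos hδ4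
  have hden : ∀ r, 0 < K * yy r + δ := fun r => by
    have := yy_pos r
    positivity
  have hDD : ∀ ξ r, DD γ P k0 k1 ξ r = yy r * (yy r + tau) * (1 + σ r * deriv (deriv P) ξ) :=
    fun ξ r => modex_D_eq hK hδ (hden r) (hγ r)
  have hC1δ : 0 ≤ C1 / δ := by positivity
  have hDle : ∀ ξ r, DD γ P k0 k1 ξ r ≤ yy r * ((1 + tau) * (1 + C1 / δ)) := fun ξ r => by
    rw [hDD]
    exact modex_D_le (yy_pos r) (yy_lt_one r) (hσ r) (hP2 ξ).2 hC1δ
  have hD0 : ∀ ξ r, 0 ≤ DD γ P k0 k1 ξ r := fun ξ r => by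
    rw [hDD]
    exact modex_D_nonneg (yy_pos r) (hσ r) (hP2 ξ).1
  have hγ0 : ∀ r, 0 ≤ γ r := fun r => by
    rw [hγ]
    have := yy_pos r
    have := hden r
    have := (hσ r).1
    positivity
  have hγK : ∀ r, γ r ≤ 2 * Real.pi * (1 + tau) / K := fun r => by
    rw [hγ]
    have h1 := yy_pos r
    have h1' := yy_lt_one r
    have h2 := hden r
    have h3 := hσ r
    have h6 : 2 * Real.pi * (yy r * (yy r + tau)) / (K * yy r + δ) ≤
        2 * Real.pi * (1 + tau) / K := by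
      rw [div_le_div_iff₀ h2 hKpos]
      have h7 : yy r * (yy r + tau) * K ≤ (1 + tau) * (K * yy r + δ) :=
        modex_g h1 h1' hKpos hδpos
      have h8 : 0 < 2 * Real.pi := by positivity
      calc 2 * Real.pi * (yy r * (yy r + tau)) * K
          = 2 * Real.pi * (yy r * (yy r + tau) * K) := by ring
        _ ≤ 2 * Real.pi * ((1 + tau) * (K * yy r + δ)) := mul_le_mul_of_nonneg_left h7 h8.le
        _ = 2 * Real.pi * (1 + tau) * (K * yy r + δ) := by ring
    have h9 : 0 ≤ 2 * Real.pi * (yy r * (yy r + tau)) / (K * yy r + δ) := by positivity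
    calc 2 * Real.pi * (yy r * (yy r + tau)) / (K * yy r + δ) * σ r
        ≤ 2 * Real.pi * (yy r * (yy r + tau)) / (K * yy r + δ) * 1 :=
          mul_le_mul_of_nonneg_left h3.2 h9
      _ ≤ _ := by rw [mul_one]; exact h6
  have hBK : ∀ y : ℝ, y ≤ B / K → y * ((1 + tau) * (1 + C1 / δ)) ≤
      2 * B * (1 + C1) * (1 + tau) := fun y hy => by
    have h6 : B / K ≤ 2 * B * δ := by
      have := mul_le_mul_of_nonneg_left hinv hB.le
      calc B / K = B * (1 / K) := by ring
        _ ≤ B * (2 * δ) := this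
        _ = 2 * B * δ := by ring
    have h7 : y * ((1 + tau) * (1 + C1 / δ)) ≤ 2 * B * δ * ((1 + tau) * (1 + C1 / δ)) :=
      mul_le_mul_of_nonneg_right (hy.trans h6) (by positivity)
    have h8 : 2 * B * δ * ((1 + tau) * (1 + C1 / δ)) = 2 * B * (1 + tau) * (δ + C1) := by
      field_simp
    have h9 : 2 * B * (1 + tau) * (δ + C1) ≤ 2 * B * (1 + tau) * (1 + C1) :=
      mul_le_mul_of_nonneg_left (by linarith) (by positivity)
    calc _ ≤ _ := h7
      _ = _ := h8
      _ ≤ _ := h9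
      _ = _ := by ring
  have hexp : ∀ ξ r b, |q r| ≤ b → Real.exp (2 * (|q r| * P ξ)) ≤ Real.exp (b / 4) :=
    fun ξ r b hb => Real.exp_le_exp.mpr (modex_e hb (hP ξ).1 (hP ξ).2)
  have hmain : ∀ ξ r, DD γ P k0 k1 ξ r * Real.exp (2 * (|q r| * P ξ)) ≤
      (1 + tau) + E2 + E3 + E4 + E5 := by
    intro ξ r
    have hy := yy_pos r
    have hy1 := yy_lt_one r
    have hexp0 := Real.exp_pos (2 * (|q r| * P ξ))
    rcases hcases r with ⟨hs, hq⟩ | ⟨hyr, hq⟩ | ⟨hs, hq, hyr⟩ | ⟨hq, hyr⟩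
    · rw [hDD, hs, hq]
      simp only [zero_mul, add_zero, mul_one, abs_zero, mul_zero, Real.exp_zero]
      linarith [modex_y hy hy1]
    · -- ramp
      set b : ℝ := 2 * Real.pi * (1 + tau) / δ + 2 with hb
      have h6 := hexp ξ r b hq
      have h7 : DD γ P k0 k1 ξ r ≤ Real.exp (-(Real.pi * (1 + tau) / 2 + 1) / δ) *
          ((1 + tau) * (1 + C1 / δ)) :=
        (hDle ξ r).trans (mul_le_mul_of_nonneg_right hyr (by positivity))
      have h8 : DD γ P k0 k1 ξ r * Real.exp (2 * (|q r| * P ξ)) ≤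
          Real.exp (-(Real.pi * (1 + tau) / 2 + 1) / δ) * ((1 + tau) * (1 + C1 / δ)) *
            Real.exp (b / 4) :=
        mul_le_mul h7 h6 hexp0.le (by positivity)
      have h9 : Real.exp (-(Real.pi * (1 + tau) / 2 + 1) / δ) * ((1 + tau) * (1 + C1 / δ)) *
            Real.exp (b / 4) = (1 + tau) * (Real.exp (-(1 / δ)) + C1 * ((1 / δ) *
              Real.exp (-(1 / δ)))) * Real.exp (1 / 2) := by
        have h10 : Real.exp (-(Real.pi * (1 + tau) / 2 + 1) / δ) * Real.exp (b / 4) =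
            Real.exp (-(1 / δ)) * Real.exp (1 / 2) := by
          rw [← Real.exp_add, ← Real.exp_add]
          congr 1
          rw [hb]
          field_simp
          ring
        calc _ = (Real.exp (-(Real.pi * (1 + tau) / 2 + 1) / δ) * Real.exp (b / 4)) *
              ((1 + tau) * (1 + C1 / δ)) := by ring
          _ = _ := by rw [h10]; ring
      have h11 : Real.exp (-(1 / δ)) ≤ 1 := by
        rw [Real.exp_le_one_iff]
        have : 0 < 1 / δ := by positivity
        linarith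
      have h12 : (1 / δ) * Real.exp (-(1 / δ)) ≤ 1 := modex_exp
      have h13 : (1 + tau) * (Real.exp (-(1 / δ)) + C1 * ((1 / δ) *
              Real.exp (-(1 / δ)))) * Real.exp (1 / 2) ≤ E2 := by
        rw [hE2]
        apply mul_le_mul_of_nonneg_right _ (Real.exp_pos _).le
        apply mul_le_mul_of_nonneg_left _ (by linarith)
        have := mul_le_mul_of_nonneg_left h12 hC1
        linarith
      linarith [h8.trans (h9.le.trans h13)]
    · -- flat
      rcases hP3 ξ with hp | hp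
      · rw [hDD, hs, hp]
        simp only [one_mul, add_neg_cancel, mul_zero, zero_mul]
        linarith
      · have h6 : Real.exp (2 * (|q r| * P ξ)) ≤ Real.exp (2 * Real.pi * (1 + tau)) := by
          apply Real.exp_le_exp.mpr
          have h7 : |q r| * P ξ ≤ 2 * Real.pi * (1 + tau) / δ * (δ / 2) :=
            mul_le_mul hq hp (hP ξ).1 (by positivity)
          have h8 : 2 * Real.pi * (1 + tau) / δ * (δ / 2) = Real.pi * (1 + tau) := by
            field_simp
          rw [h8] at h7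
          linarith
        have h7 : DD γ P k0 k1 ξ r ≤ 2 * B * (1 + C1) * (1 + tau) :=
          (hDle ξ r).trans (hBK _ hyr)
        have h8 : DD γ P k0 k1 ξ r * Real.exp (2 * (|q r| * P ξ)) ≤ E3 :=
          mul_le_mul h7 h6 hexp0.le (by positivity)
        linarith
    · -- shut-down
      have h6 := hexp ξ r B hq
      have h7 : DD γ P k0 k1 ξ r ≤ 2 * B * (1 + C1) * (1 + tau) :=
        (hDle ξ r).trans (hBK _ hyr)
      have h8 : DD γ P k0 k1 ξ r * Real.exp (2 * (|q r| * P ξ)) ≤ E4 :=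
        mul_le_mul h7 h6 hexp0.le (by positivity)
      linarith
  let m : Mode ((1 + tau) + E2 + E3 + E4 + E5) :=
    { γ := γ
      q := q
      P := P
      r0 := -A / δ
      r1 := 1 / 2 * Real.log (2 / K) + β
      hγ := hγs
      hq := hqs
      hP := hPs
      r01 := hr
      γ_out := fun r h => (hout r h).1
      q_out := fun r h => (hout r h).2.1
      γ_nonneg := hγ0
      P_nonneg := fun ξ => (hP ξ).1
      deriv_γ := hdγ
      qP := fun r ξ => by
        have h6 := mul_le_mul_of_nonneg_right (hdq r) (hP ξ).1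
        have h7 := (hP ξ).2
        linarith
      k0 := k0
      k1 := k1
      hk0 := hk0
      per := hper
      D_nonneg := hD0
      D_le := hmain }
  refine ⟨m, rfl, rfl, rfl, rfl, ?_, ?_⟩
  · intro ξ ρ
    have h6 : ∀ r, m.γ r * m.P ξ ≤ E5 / K := fun r => by
      have h7 : γ r * P ξ ≤ 2 * Real.pi * (1 + tau) / K * (1 / 8) :=
        mul_le_mul (hγK r) (hP ξ).2 (hP ξ).1 (by positivity)
      have h8 : 2 * Real.pi * (1 + tau) / K * (1 / 8) = E5 / K := by
        rw [hE5]; ring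
      rw [← h8]
      exact h7
    refine (m.phi_le h6).trans ?_
    apply div_le_div_of_nonneg_right _ hKpos.le
    linarith
  · set r : ℝ := 1 / 2 * Real.log (δ / K) with hrdef
    set ρ : ℝ := -(Real.pi * tau / 32) / δ with hρ
    have h6 := m.le_Phi (1 / 2) ρ r
    have h7 : m.phi (1 / 2) ρ = m.Phi (1 / 2) ρ - vv ρ := rfl
    have he : Real.exp (2 * r) = δ / K := by
      rw [hrdef]
      rw [show 2 * (1 / 2 * Real.log (δ / K)) = Real.log (δ / K) by ring]
      exact Real.exp_log (by positivity)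
    have hyr : yy r = δ / (K + δ) := by
      unfold yy
      rw [he]
      field_simp
    have hrneg : r ≤ 0 := by
      have : Real.log (δ / K) ≤ 0 := by
        apply Real.log_nonpos (by positivity)
        rw [div_le_one hKpos]
        linarith
      rw [hrdef]
      linarith
    have hypos := yy_pos r
    have hKy : K * yy r ≤ δ := by
      rw [hyr]
      exact modex_ky hKpos hδpos
    have hγr : Real.pi * tau * yy r / δ ≤ γ r := by
      rw [hγ r, hσ1, mul_one, div_le_div_iff₀ hδpos (hden r)]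
      have h8 : 0 < Real.pi * yy r := by positivity
      have h9 : tau * (K * yy r + δ) ≤ 2 * (yy r + tau) * δ := modex_t hypos hδpos hKy
      calc Real.pi * tau * yy r * (K * yy r + δ)
          = Real.pi * yy r * (tau * (K * yy r + δ)) := by ring
        _ ≤ Real.pi * yy r * (2 * (yy r + tau) * δ) := mul_le_mul_of_nonneg_left h9 h8.le
        _ = 2 * Real.pi * (yy r * (yy r + tau)) * δ := by ring
    have hvv := vv_nonneg r
    have h8 : 3 * Real.pi * tau / (64 * K) ≤ m.Phi (1 / 2) ρ := by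
      have h9 : Real.pi * tau * yy r / δ * (1 / 8) ≤ m.γ r * m.P (1 / 2) := by
        have : m.P (1 / 2) = 1 / 8 := hPhalf
        rw [this]
        exact mul_le_mul_of_nonneg_right hγr (by norm_num)
      have h10 : 0 ≤ -(r * yy r) := by
        have := mul_nonpos_of_nonpos_of_nonneg hrneg hypos.le
        linarith
      have h11 : Real.pi * tau * yy r / δ * (1 / 8) + yy r * ρ =
          3 * Real.pi * tau / (32 * (K + δ)) := by
        rw [hyr, hρ]
        field_simp
        ring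
      have h12 : 3 * Real.pi * tau / (64 * K) ≤ 3 * Real.pi * tau / (32 * (K + δ)) := by
        apply div_le_div_of_nonneg_left (by positivity) (by positivity)
        linarith
      linarith
    have h13 : vv ρ ≤ Real.pi * tau / (64 * K) := by
      have h14 := vv_le ρ
      have h15 : 2 * ρ = -(a * (1 / δ)) := by
        rw [hρ, ha]; ring
      have h17 := modex_q hapos hδpos hδ2
      have h23 : Real.exp (2 * ρ) ≤ a * δ / 2 := by
        rw [h15, Real.exp_neg]
        rw [inv_le_comm₀ (Real.exp_pos _) (by positivity)]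
        calc (a * δ / 2)⁻¹ = 2 * (1 / δ) / a := by field_simp
          _ ≤ _ := h17
      have h24 : a * δ / 2 / 2 ≤ Real.pi * tau / (64 * K) := by
        have h25 : δ ≤ 1 / K := by
          rw [le_div_iff₀ hKpos]
          linarith [mul_comm K δ]
        have h26 := mul_le_mul_of_nonneg_left h25 (show 0 ≤ Real.pi * tau / 64 by positivity)
        calc a * δ / 2 / 2 = Real.pi * tau / 64 * δ := by rw [ha]; ring
          _ ≤ Real.pi * tau / 64 * (1 / K) := h26
          _ = _ := by field_simp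
      linarith
    have h27 : Real.pi * tau / 64 / K = Real.pi * tau / (64 * K) := by field_simp
    have h28 : 3 * Real.pi * tau / (64 * K) = 3 * (Real.pi * tau / (64 * K)) := by ring
    have h29 : 0 < Real.pi * tau / (64 * K) := by positivity
    rw [h7, h27]
    linarith

end HMA
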