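import Pool.Agent.HMA.Base

/-! module TRANSA: transformation rules under the maps GG -/

open MeasureTheory Filter Topology Set Matrix
open scoped Manifold ContDiff ENNReal ComplexOrder

namespace HMA

theorem norm_cf (p : E3) (a b : ℤ) :
    ‖cf p a b‖ = Real.exp (-(2 * Real.pi * (a * (p 0).re + b * (p 1).re))
      - Real.pi * (a ^ 2 + b ^ 2)) := by
  unfold cf
  rw [Complex.norm_exp]
  congr 1
  have h1 : (-(2 * (Real.pi : ℂ) * ((a : ℂ) * p 0 + (b : ℂ) * p 1))
      - (Real.pi : ℂ) * ((a : ℂ) ^ 2 + (b : ℂ) ^ 2))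
      = ((-(2 * Real.pi) : ℝ) : ℂ) * (((a : ℝ) : ℂ) * p 0 + ((b : ℝ) : ℂ) * p 1)
        - ((Real.pi * ((a : ℝ) ^ 2 + (b : ℝ) ^ 2) : ℝ) : ℂ) := by
    push_cast
    ring
  rw [h1, Complex.sub_re, Complex.re_ofReal_mul, Complex.add_re, Complex.re_ofReal_mul,
    Complex.re_ofReal_mul, Complex.ofReal_re]
  ring

theorem TransA_cf_ne (p : E3) (a b : ℤ) : cf p a b ≠ 0 := Complex.exp_ne_zero _

theorem TransA_norm_cf_pos (p : E3) (a b : ℤ) : 0 < ‖cf p a b‖ :=
  norm_pos_iff.mpr (TransA_cf_ne p a b)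

theorem TransA_log_cf (p : E3) (a b : ℤ) :
    Real.log ‖cf p a b‖ = -(2 * Real.pi * (a * (p 0).re + b * (p 1).re))
      - Real.pi * (a ^ 2 + b ^ 2) := by
  rw [norm_cf, Real.log_exp]

theorem TransA_re0 (a b c d : ℤ) (s t : Bool) (p : E3) :
    (GG a b c d s t p 0).re = (p 0).re + a := by
  simp [GG]

theorem TransA_re1 (a b c d : ℤ) (s t : Bool) (p : E3) :
    (GG a b c d s t p 1).re = (p 1).re + b := by
  simp [GG]

theorem TransA_two (a b c d : ℤ) (s t : Bool) (p : E3) :
    GG a b c d s t p 2 = if s then (if t then p 2 / cf p a b else cf p a b / p 2)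
      else (if t then 1 / (cf p a b * p 2) else cf p a b * p 2) := rfl

theorem TransA_log_two (a b c d : ℤ) (s t : Bool) {p : E3} (hp : p 2 ≠ 0) :
    sg t * Real.log ‖GG a b c d s t p 2‖ = Real.log ‖cf p a b‖ + sg s * Real.log ‖p 2‖ := by
  have h1 : ‖cf p a b‖ ≠ 0 := (TransA_norm_cf_pos p a b).ne'
  have h2 : ‖p 2‖ ≠ 0 := norm_ne_zero_iff.mpr hp
  rw [TransA_two]
  cases s <;> cases t
  · simp only [sg, Bool.false_eq_true, if_false]
    rw [norm_mul, Real.log_mul h1 h2]
    ring
  · simp only [sg, Bool.false_eq_true, if_false, if_true]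
    rw [norm_div, norm_one, norm_mul, Real.log_div one_ne_zero (mul_ne_zero h1 h2), Real.log_one,
      Real.log_mul h1 h2]
    ring
  · simp only [sg, Bool.false_eq_true, if_false, if_true]
    rw [norm_div, Real.log_div h1 h2]
    ring
  · simp only [sg, if_true]
    rw [norm_div, Real.log_div h2 h1]
    ring

theorem TransA_xx (a b c d : ℤ) (s t : Bool) (p : E3) :
    xx (GG a b c d s t p) = xx p + 2 * (a * (p 0).re + b * (p 1).re) + (a ^ 2 + b ^ 2) := by
  unfold xx
  rw [TransA_re0, TransA_re1]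
  ring

theorem rho_GG (a b c d : ℤ) (s t : Bool) {p : E3} (hp : p 2 ≠ 0) :
    rho t (GG a b c d s t p) = rho s p := by
  unfold rho
  rw [TransA_xx, TransA_log_two a b c d s t hp, TransA_log_cf]
  ring

theorem GG_two_ne_zero (a b c d : ℤ) (s t : Bool) {p : E3} (hp : p 2 ≠ 0) :
    GG a b c d s t p 2 ≠ 0 := by
  have h1 := TransA_cf_ne p a b
  rw [TransA_two]
  cases s <;> cases t <;> simp [h1, hp]

theorem GG_two_eq_zero (a b c d : ℤ) (s : Bool) {p : E3} (hp : p 2 = 0) :
    GG a b c d s s p 2 = 0 := by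
  rw [TransA_two]
  cases s <;> simp [hp]

theorem TransA_exp (a b c d : ℤ) (s t : Bool) (p : E3) :
    ‖cf p a b‖ ^ 2 * Real.exp (2 * Real.pi * xx (GG a b c d s t p))
      = Real.exp (2 * Real.pi * xx p) := by
  rw [norm_cf, ← Real.exp_nat_mul, ← Real.exp_add, TransA_xx]
  congr 1
  push_cast
  ring

theorem TransA_logNN (a b c d : ℤ) (s t : Bool) {p : E3} (hp : s ≠ t → p 2 ≠ 0) :
    1 / 2 * Real.log (NN s p) - 1 / 2 * Real.log (NN t (GG a b c d s t p))
      = (if t then Real.log ‖cf p a b‖ else 0) + (if s = t then 0 else Real.log ‖p 2‖) := by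
  have h1 : ‖cf p a b‖ ≠ 0 := (TransA_norm_cf_pos p a b).ne'
  have h1' : 0 < ‖cf p a b‖ := TransA_norm_cf_pos p a b
  have hE := TransA_exp a b c d s t p
  set F := Real.exp (2 * Real.pi * xx (GG a b c d s t p)) with hF
  set F0 := Real.exp (2 * Real.pi * xx p) with hF0
  have hFpos : 0 < F := Real.exp_pos _
  have hF0pos : 0 < F0 := Real.exp_pos _
  cases s <;> cases t
  · -- false, false
    have e : NN false (GG a b c d false false p) = NN false p := by
      simp only [NN, Bool.false_eq_true, if_false]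
      rw [← hF, ← hF0, TransA_two]
      simp only [Bool.false_eq_true, if_false]
      rw [norm_mul, ← hE]
      ring
    rw [e]
    simp
  · -- false, true
    have h2 : ‖p 2‖ ≠ 0 := norm_ne_zero_iff.mpr (hp (by simp))
    have h2' : 0 < ‖p 2‖ := norm_pos_iff.mpr (hp (by simp))
    have e : NN true (GG a b c d false true p) = NN false p / (‖cf p a b‖ * ‖p 2‖) ^ 2 := by
      simp only [NN, Bool.false_eq_true, if_false, if_true]
      rw [← hF, ← hF0, TransA_two]
      simp only [Bool.false_eq_true, if_false, if_true]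
      rw [norm_div, norm_one, norm_mul, ← hE]
      field_simp
      ring
    rw [e, Real.log_div (NN_pos _ _).ne' (by positivity), Real.log_pow, Real.log_mul h1 h2]
    simp
    ring
  · -- true, false
    have h2 : ‖p 2‖ ≠ 0 := norm_ne_zero_iff.mpr (hp (by simp))
    have h2' : 0 < ‖p 2‖ := norm_pos_iff.mpr (hp (by simp))
    have e : NN false (GG a b c d true false p) = NN true p / ‖p 2‖ ^ 2 := by
      simp only [NN, Bool.false_eq_true, if_false, if_true]
      rw [← hF, ← hF0, TransA_two]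
      simp only [Bool.false_eq_true, if_false, if_true]
      rw [norm_div, ← hE]
      field_simp
      ring
    rw [e, Real.log_div (NN_pos _ _).ne' (by positivity), Real.log_pow]
    simp
    ring
  · -- true, true
    have e : NN true (GG a b c d true true p) = NN true p / ‖cf p a b‖ ^ 2 := by
      simp only [NN, if_true]
      rw [← hF, ← hF0, TransA_two]
      simp only [if_true]
      rw [norm_div, ← hE]
      field_simp
    rw [e, Real.log_div (NN_pos _ _).ne' (by positivity), Real.log_pow]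
    simp
    ring

theorem uW_GG (a b c d : ℤ) (s t : Bool) : ∃ α β γ κ : ℝ, (s = t → κ = 0) ∧
    ∀ p : E3, (s ≠ t → p 2 ≠ 0) →
      uW s p - uW t (GG a b c d s t p) =
        α * (p 0).re + β * (p 1).re + γ + κ * Real.log ‖p 2‖ := by
  refine ⟨-(2 * Real.pi * (a + gr * b)) - (if t then 2 * Real.pi * a else 0),
    -(2 * Real.pi * gr * (a + gr * b)) - (if t then 2 * Real.pi * b else 0),
    -(Real.pi * (a + gr * b) ^ 2) - (if t then Real.pi * (a ^ 2 + b ^ 2) else 0),
    if s = t then 0 else 1, ?_, ?_⟩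
  · intro h
    rw [if_pos h]
  · intro p hp
    have h := TransA_logNN a b c d s t hp
    rw [TransA_log_cf] at h
    unfold uW
    rw [TransA_re0, TransA_re1]
    have e : Real.pi * ((p 0).re + gr * (p 1).re) ^ 2 + 1 / 2 * Real.log (NN s p)
        - (Real.pi * ((p 0).re + a + gr * ((p 1).re + b)) ^ 2
          + 1 / 2 * Real.log (NN t (GG a b c d s t p)))
        = (Real.pi * ((p 0).re + gr * (p 1).re) ^ 2
            - Real.pi * ((p 0).re + a + gr * ((p 1).re + b)) ^ 2)
          + (1 / 2 * Real.log (NN s p) - 1 / 2 * Real.log (NN t (GG a b c d s t p))) := by ring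
    rw [e, h]
    split_ifs <;> ring

theorem uK_GG (a b c d : ℤ) (s t : Bool) : ∃ α β γ κ : ℝ, (s = t → κ = 0) ∧
    ∀ p : E3, (s ≠ t → p 2 ≠ 0) →
      uK s p - uK t (GG a b c d s t p) =
        α * (p 0).re + β * (p 1).re + γ + κ * Real.log ‖p 2‖ := by
  refine ⟨-(2 * Real.pi * a) - (if t then 2 * Real.pi * a else 0),
    -(2 * Real.pi * b) - (if t then 2 * Real.pi * b else 0),
    -(Real.pi * (a ^ 2 + b ^ 2)) - (if t then Real.pi * (a ^ 2 + b ^ 2) else 0),
    if s = t then 0 else 1, ?_, ?_⟩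
  · intro h
    rw [if_pos h]
  · intro p hp
    have h := TransA_logNN a b c d s t hp
    rw [TransA_log_cf] at h
    unfold uK
    rw [TransA_xx]
    have e : Real.pi * xx p + 1 / 2 * Real.log (NN s p)
        - (Real.pi * (xx p + 2 * (a * (p 0).re + b * (p 1).re) + (a ^ 2 + b ^ 2))
          + 1 / 2 * Real.log (NN t (GG a b c d s t p)))
        = (Real.pi * xx p - Real.pi * (xx p + 2 * (a * (p 0).re + b * (p 1).re) + (a ^ 2 + b ^ 2)))
          + (1 / 2 * Real.log (NN s p) - 1 / 2 * Real.log (NN t (GG a b c d s t p))) := by ring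
    rw [e, h]
    split_ifs <;> ring

end HMA
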