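import Pool.Agent.HMA.TransA

/-! module TRANSB: analyticity, inverse and change of variables for the maps GG -/

open MeasureTheory Filter Topology Set Matrix
open scoped Manifold ContDiff ENNReal ComplexOrder

namespace HMA

theorem TransB_cf_ne (p : E3) (a b : ℤ) : cf p a b ≠ 0 := Complex.exp_ne_zero _

theorem TransB_contDiff_cf (a b : ℤ) : ContDiff ℂ ω fun p : E3 => cf p a b := by
  unfold cf
  have h0 : ContDiff ℂ ω fun p : E3 => p 0 := contDiff_apply ℂ ℂ 0
  have h1 : ContDiff ℂ ω fun p : E3 => p 1 := contDiff_apply ℂ ℂ 1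
  apply ContDiff.cexp
  fun_prop

/-- `GG` is holomorphic (analytic) -/
theorem contDiffAt_GG (a b c d : ℤ) (s t : Bool) {p : E3} (hp : s ≠ t → p 2 ≠ 0) :
    ContDiffAt ℂ ω (GG a b c d s t) p := by
  have h0 : ContDiffAt ℂ ω (fun p : E3 => p 0) p := (contDiff_apply ℂ ℂ 0).contDiffAt
  have h1 : ContDiffAt ℂ ω (fun p : E3 => p 1) p := (contDiff_apply ℂ ℂ 1).contDiffAt
  have h2 : ContDiffAt ℂ ω (fun p : E3 => p 2) p := (contDiff_apply ℂ ℂ 2).contDiffAt
  have hc : ContDiffAt ℂ ω (fun p : E3 => cf p a b) p := (TransB_contDiff_cf a b).contDiffAt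
  rw [contDiffAt_pi]
  intro i
  fin_cases i
  · show ContDiffAt ℂ ω (fun p : E3 => p 0 + (a + c * Complex.I)) p
    exact h0.add contDiffAt_const
  · show ContDiffAt ℂ ω (fun p : E3 => p 1 + (b + d * Complex.I)) p
    exact h1.add contDiffAt_const
  · cases s <;> cases t
    · show ContDiffAt ℂ ω (fun p : E3 => cf p a b * p 2) p
      exact hc.mul h2
    · show ContDiffAt ℂ ω (fun p : E3 => 1 / (cf p a b * p 2)) p
      exact contDiffAt_const.div (hc.mul h2) (mul_ne_zero (TransB_cf_ne p a b) (hp (by simp)))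
    · show ContDiffAt ℂ ω (fun p : E3 => cf p a b / p 2) p
      exact hc.div h2 (hp (by simp))
    · show ContDiffAt ℂ ω (fun p : E3 => p 2 / cf p a b) p
      exact h2.div hc (TransB_cf_ne p a b)

theorem TransB_cf_inv (a b c d : ℤ) (s t : Bool) (p : E3) :
    cf (GG a b c d s t p) (-a) (-b) = (cf p a b)⁻¹ := by
  unfold cf
  rw [← Complex.exp_neg]
  have e : -(2 * (Real.pi : ℂ) * (((-a : ℤ) : ℂ) * GG a b c d s t p 0 +
      ((-b : ℤ) : ℂ) * GG a b c d s t p 1)) - Real.pi * ((((-a : ℤ) : ℂ)) ^ 2 + ((-b : ℤ) : ℂ) ^ 2) =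
      -(-(2 * (Real.pi : ℂ) * (a * p 0 + b * p 1)) - Real.pi * ((a : ℂ) ^ 2 + (b : ℂ) ^ 2)) +
        ((a * c + b * d : ℤ) : ℂ) * (2 * Real.pi * Complex.I) := by
    have e0 : GG a b c d s t p 0 = p 0 + (a + c * Complex.I) := rfl
    have e1 : GG a b c d s t p 1 = p 1 + (b + d * Complex.I) := rfl
    rw [e0, e1]
    push_cast
    ring
  rw [e, Complex.exp_add, Complex.exp_int_mul_two_pi_mul_I, mul_one]

/-- inverse transformation -/
theorem GG_inv (a b c d : ℤ) (s t : Bool) {p : E3} (hp : s ≠ t → p 2 ≠ 0) :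
    GG (-a) (-b) (-c) (-d) t s (GG a b c d s t p) = p := by
  have hc := TransB_cf_ne p a b
  have hi := TransB_cf_inv a b c d s t p
  funext i
  fin_cases i
  · show p 0 + (a + c * Complex.I) + (((-a : ℤ) : ℂ) + ((-c : ℤ) : ℂ) * Complex.I) = p 0
    push_cast
    ring
  · show p 1 + (b + d * Complex.I) + (((-b : ℤ) : ℂ) + ((-d : ℤ) : ℂ) * Complex.I) = p 1
    push_cast
    ring
  · cases s <;> cases t
    · show cf (GG a b c d false false p) (-a) (-b) * (cf p a b * p 2) = p 2
      rw [hi]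
      field_simp
    · have h2 : p 2 ≠ 0 := hp (by simp)
      show cf (GG a b c d false true p) (-a) (-b) / (1 / (cf p a b * p 2)) = p 2
      rw [hi]
      field_simp
    · have h2 : p 2 ≠ 0 := hp (by simp)
      show 1 / (cf (GG a b c d true false p) (-a) (-b) * (cf p a b / p 2)) = p 2
      rw [hi]
      field_simp
    · show p 2 / cf p a b / cf (GG a b c d true true p) (-a) (-b) = p 2
      rw [hi]
      field_simp

/-- the complex Jacobian -/
noncomputable def TransB_jac (a b : ℤ) (s t : Bool) (p : E3) : ℂ :=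
  if s then (if t then 1 / cf p a b else -(cf p a b / p 2 ^ 2))
    else (if t then -(1 / (cf p a b * p 2 ^ 2)) else cf p a b)

theorem TransB_line (a b c d : ℤ) (s t : Bool) {p : E3} (hp : s ≠ t → p 2 ≠ 0) :
    HasDerivAt (fun z : ℂ => GG a b c d s t (p + z • (Pi.single 2 1 : E3)) 2)
      (TransB_jac a b s t p) 0 := by
  have hcf : ∀ z : ℂ, cf (p + z • (Pi.single 2 1 : E3)) a b = cf p a b := by
    intro z
    unfold cf
    simp
  have h2 : ∀ z : ℂ, (p + z • (Pi.single 2 1 : E3)) 2 = p 2 + z := by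
    intro z; simp
  have hc := TransB_cf_ne p a b
  have hl : HasDerivAt (fun z : ℂ => p 2 + z) 1 0 := (hasDerivAt_id (0 : ℂ)).const_add (p 2)
  cases s <;> cases t
  · have e : (fun z : ℂ => GG a b c d false false (p + z • (Pi.single 2 1 : E3)) 2) =
        fun z => cf p a b * (p 2 + z) := by
      funext z
      show cf _ a b * _ = _
      rw [hcf, h2]
    rw [e]
    simpa [TransB_jac] using hl.const_mul (cf p a b)
  · have hp2 : p 2 ≠ 0 := hp (by simp)
    have e : (fun z : ℂ => GG a b c d false true (p + z • (Pi.single 2 1 : E3)) 2) =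
        fun z => 1 / cf p a b * (p 2 + z)⁻¹ := by
      funext z
      show 1 / (cf _ a b * _) = _
      rw [hcf, h2, one_div, mul_inv, one_div]
    rw [e]
    have h := (hl.inv (by simpa using hp2)).const_mul (1 / cf p a b)
    refine h.congr_deriv ?_
    simp only [TransB_jac, add_zero, if_true, Bool.false_eq_true, if_false]
    field_simp
  · have hp2 : p 2 ≠ 0 := hp (by simp)
    have e : (fun z : ℂ => GG a b c d true false (p + z • (Pi.single 2 1 : E3)) 2) =
        fun z => cf p a b * (p 2 + z)⁻¹ := by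
      funext z
      show cf _ a b / _ = _
      rw [hcf, h2, div_eq_mul_inv]
    rw [e]
    have h := (hl.inv (by simpa using hp2)).const_mul (cf p a b)
    refine h.congr_deriv ?_
    simp only [TransB_jac, add_zero, if_true, Bool.false_eq_true, if_false]
    field_simp
  · have e : (fun z : ℂ => GG a b c d true true (p + z • (Pi.single 2 1 : E3)) 2) =
        fun z => (p 2 + z) / cf p a b := by
      funext z
      show _ / cf _ a b = _
      rw [hcf, h2]
    rw [e]
    simpa [TransB_jac] using hl.div_const (cf p a b)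

theorem TransB_det (a b c d : ℤ) (s t : Bool) {p : E3} (hp : s ≠ t → p 2 ≠ 0) :
    LinearMap.det ((fderiv ℂ (GG a b c d s t) p : E3 →L[ℂ] E3) : E3 →ₗ[ℂ] E3) =
      TransB_jac a b s t p := by
  have hF : HasFDerivAt (GG a b c d s t) (fderiv ℂ (GG a b c d s t) p) p :=
    ((contDiffAt_GG a b c d s t hp).differentiableAt (by simp)).hasFDerivAt
  have hF' := hasFDerivAt_pi'.1 hF
  have h0 : ∀ v, fderiv ℂ (GG a b c d s t) p v 0 = v 0 := by
    intro v
    have e1 : HasFDerivAt (fun q : E3 => q 0 + ((a : ℂ) + c * Complex.I))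
        (ContinuousLinearMap.proj (R := ℂ) (φ := fun _ : Fin 3 => ℂ) 0) p :=
      (hasFDerivAt_apply 0 p).add_const _
    have e2 := (hF' 0).unique e1
    exact congrArg (fun f => f v) e2
  have h1 : ∀ v, fderiv ℂ (GG a b c d s t) p v 1 = v 1 := by
    intro v
    have e1 : HasFDerivAt (fun q : E3 => q 1 + ((b : ℂ) + d * Complex.I))
        (ContinuousLinearMap.proj (R := ℂ) (φ := fun _ : Fin 3 => ℂ) 1) p :=
      (hasFDerivAt_apply 1 p).add_const _
    have e2 := (hF' 1).unique e1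
    exact congrArg (fun f => f v) e2
  have h2 : fderiv ℂ (GG a b c d s t) p (Pi.single 2 1) 2 = TransB_jac a b s t p := by
    have hl : HasDerivAt (fun z : ℂ => p + z • (Pi.single 2 1 : E3)) (Pi.single 2 1) 0 := by
      simpa using ((hasDerivAt_id (0 : ℂ)).smul_const (Pi.single 2 1 : E3)).const_add p
    have hF2 := hF' 2
    have e0 : p = p + (0 : ℂ) • (Pi.single 2 1 : E3) := by simp
    rw [e0] at hF2
    have e1 := HasFDerivAt.comp_hasDerivAt (0 : ℂ) hF2 hl
    have e2 := e1.unique (TransB_line a b c d s t hp)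
    rw [← e2]
    simp
  rw [← LinearMap.det_toMatrix', Matrix.det_fin_three]
  have hM : ∀ i j : Fin 3, LinearMap.toMatrix'
      ((fderiv ℂ (GG a b c d s t) p : E3 →L[ℂ] E3) : E3 →ₗ[ℂ] E3) i j =
      fderiv ℂ (GG a b c d s t) p (Pi.single j 1) i := by
    intro i j
    rw [LinearMap.toMatrix'_apply]
    rfl
  simp only [hM, h0, h1]
  have e00 : (Pi.single (0 : Fin 3) (1 : ℂ) : E3) 0 = 1 := by simp
  have e10 : (Pi.single (1 : Fin 3) (1 : ℂ) : E3) 0 = 0 := by simp
  have e20 : (Pi.single (2 : Fin 3) (1 : ℂ) : E3) 0 = 0 := by simp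
  have e11 : (Pi.single (1 : Fin 3) (1 : ℂ) : E3) 1 = 1 := by simp
  have e21 : (Pi.single (2 : Fin 3) (1 : ℂ) : E3) 1 = 0 := by simp
  rw [e00, e10, e20, e11, e21, h2]
  ring

theorem TransB_detR (a b c d : ℤ) (s t : Bool) {p : E3} (hp : s ≠ t → p 2 ≠ 0) :
    ((fderiv ℂ (GG a b c d s t) p).restrictScalars ℝ : E3 →L[ℝ] E3).det =
      ‖TransB_jac a b s t p‖ ^ 2 := by
  have h1 : ((fderiv ℂ (GG a b c d s t) p).restrictScalars ℝ : E3 →L[ℝ] E3).det =
      LinearMap.det (LinearMap.restrictScalars ℝ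
        ((fderiv ℂ (GG a b c d s t) p : E3 →L[ℂ] E3) : E3 →ₗ[ℂ] E3)) := rfl
  rw [h1, LinearMap.det_restrictScalars, TransB_det a b c d s t hp, Algebra.norm_complex_apply,
    Complex.normSq_eq_norm_sq]

theorem TransB_exp (a b c d : ℤ) (s t : Bool) (p : E3) :
    Real.exp (2 * Real.pi * xx (GG a b c d s t p)) =
      Real.exp (2 * Real.pi * xx p) / ‖cf p a b‖ ^ 2 := by
  rw [norm_cf, ← Real.exp_nat_mul, ← Real.exp_sub]
  congr 1
  have e0 : (GG a b c d s t p 0).re = (p 0).re + a := by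
    show (p 0 + (a + c * Complex.I)).re = _
    simp
  have e1 : (GG a b c d s t p 1).re = (p 1).re + b := by
    show (p 1 + (b + d * Complex.I)).re = _
    simp
  unfold xx
  rw [e0, e1]
  push_cast
  ring

theorem TransB_theta (a b c d : ℤ) (s t : Bool) {p : E3} (hp : s ≠ t → p 2 ≠ 0) :
    ‖TransB_jac a b s t p‖ ^ 2 * theta t (GG a b c d s t p) = theta s p := by
  have hE : 0 < Real.exp (2 * Real.pi * xx p) := Real.exp_pos _
  have hk : 0 < ‖cf p a b‖ := norm_pos_iff.2 (TransB_cf_ne p a b)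
  have hexp := TransB_exp a b c d s t p
  cases s <;> cases t
  · have e2 : ‖GG a b c d false false p 2‖ = ‖cf p a b‖ * ‖p 2‖ := by
      show ‖cf p a b * p 2‖ = _
      rw [norm_mul]
    simp only [theta, NN, TransB_jac, Bool.false_eq_true, if_false, hexp, e2]
    have h1 : 0 < 1 + ‖p 2‖ ^ 2 * Real.exp (2 * Real.pi * xx p) := by positivity
    have h2 : 1 + (‖cf p a b‖ * ‖p 2‖) ^ 2 * (Real.exp (2 * Real.pi * xx p) / ‖cf p a b‖ ^ 2) =
        1 + ‖p 2‖ ^ 2 * Real.exp (2 * Real.pi * xx p) := by field_simp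
    rw [h2]
    field_simp
  · have hp2 : 0 < ‖p 2‖ := norm_pos_iff.2 (hp (by simp))
    have e2 : ‖GG a b c d false true p 2‖ = 1 / (‖cf p a b‖ * ‖p 2‖) := by
      show ‖1 / (cf p a b * p 2)‖ = _
      rw [norm_div, norm_one, norm_mul]
    simp only [theta, NN, TransB_jac, Bool.false_eq_true, if_false, if_true, hexp, e2, norm_neg,
      norm_div, norm_one, norm_mul, norm_pow]
    have h1 : 0 < 1 + ‖p 2‖ ^ 2 * Real.exp (2 * Real.pi * xx p) := by positivity
    have h2 : Real.exp (2 * Real.pi * xx p) / ‖cf p a b‖ ^ 2 + (1 / (‖cf p a b‖ * ‖p 2‖)) ^ 2 =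
        (1 + ‖p 2‖ ^ 2 * Real.exp (2 * Real.pi * xx p)) / (‖cf p a b‖ * ‖p 2‖) ^ 2 := by
      field_simp
      ring
    rw [h2]
    field_simp
  · have hp2 : 0 < ‖p 2‖ := norm_pos_iff.2 (hp (by simp))
    have e2 : ‖GG a b c d true false p 2‖ = ‖cf p a b‖ / ‖p 2‖ := by
      show ‖cf p a b / p 2‖ = _
      rw [norm_div]
    simp only [theta, NN, TransB_jac, Bool.false_eq_true, if_false, if_true, hexp, e2, norm_neg,
      norm_div, norm_one, norm_mul, norm_pow]
    have h1 : 0 < Real.exp (2 * Real.pi * xx p) + ‖p 2‖ ^ 2 := by positivity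
    have h2 : 1 + (‖cf p a b‖ / ‖p 2‖) ^ 2 * (Real.exp (2 * Real.pi * xx p) / ‖cf p a b‖ ^ 2) =
        (Real.exp (2 * Real.pi * xx p) + ‖p 2‖ ^ 2) / ‖p 2‖ ^ 2 := by
      field_simp
      ring
    rw [h2]
    field_simp
  · have e2 : ‖GG a b c d true true p 2‖ = ‖p 2‖ / ‖cf p a b‖ := by
      show ‖p 2 / cf p a b‖ = _
      rw [norm_div]
    simp only [theta, NN, TransB_jac, if_true, hexp, e2, norm_div, norm_one]
    have h1 : 0 < Real.exp (2 * Real.pi * xx p) + ‖p 2‖ ^ 2 := by positivity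
    have h2 : Real.exp (2 * Real.pi * xx p) / ‖cf p a b‖ ^ 2 + (‖p 2‖ / ‖cf p a b‖) ^ 2 =
        (Real.exp (2 * Real.pi * xx p) + ‖p 2‖ ^ 2) / ‖cf p a b‖ ^ 2 := by
      field_simp
    rw [h2]
    field_simp

/-- `GG` preserves the volume form: change of variables -/
theorem lintegral_GG (a b c d : ℤ) (s t : Bool) {A : Set E3} (hA : MeasurableSet A)
    (h : s ≠ t → ∀ p ∈ A, p 2 ≠ 0) (g : E3 → ℝ≥0∞) :
    ∫⁻ q in GG a b c d s t '' A, g q * ENNReal.ofReal (theta t q) =
      ∫⁻ p in A, g (GG a b c d s t p) * ENNReal.ofReal (theta s p) := by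
  have hp : ∀ p ∈ A, s ≠ t → p 2 ≠ 0 := fun p hpA hst => h hst p hpA
  have hder : ∀ p ∈ A, HasFDerivWithinAt (GG a b c d s t)
      ((fderiv ℂ (GG a b c d s t) p).restrictScalars ℝ : E3 →L[ℝ] E3) A p := by
    intro p hpA
    have hF : HasFDerivAt (GG a b c d s t) (fderiv ℂ (GG a b c d s t) p) p :=
      ((contDiffAt_GG a b c d s t (hp p hpA)).differentiableAt (by simp)).hasFDerivAt
    exact (hF.restrictScalars ℝ).hasFDerivWithinAt
  have hinj : InjOn (GG a b c d s t) A := by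
    intro p hpA q hqA hpq
    rw [← GG_inv a b c d s t (hp p hpA), ← GG_inv a b c d s t (hp q hqA), hpq]
  rw [lintegral_image_eq_lintegral_abs_det_fderiv_mul volume hA hder hinj]
  apply setLIntegral_congr_fun hA
  intro p hpA
  beta_reduce
  rw [TransB_detR a b c d s t (hp p hpA), abs_of_nonneg (by positivity),
    ← TransB_theta a b c d s t (hp p hpA), ENNReal.ofReal_mul (by positivity)]
  ring

end HMA
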