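import Pool.Agent.HMA.XTop

/-! the complex structure of the threefold (module XCH) -/

open MeasureTheory Filter Topology Set Matrix
open scoped Manifold ContDiff ENNReal ComplexOrder

namespace HMA

/-- the chart at the point `mk s p` -/
noncomputable def crt (s : Bool) (p : E3) : OpenPartialHomeomorph X E3 where
  toFun := Function.invFunOn (mk s) (Metric.ball p (1 / 2))
  invFun := mk s
  source := mk s '' Metric.ball p (1 / 2)
  target := Metric.ball p (1 / 2)
  map_source' := by
    rintro _ ⟨q, hq, rfl⟩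
    exact Function.invFunOn_mem ⟨q, hq, rfl⟩
  map_target' := fun q hq => ⟨q, hq, rfl⟩
  left_inv' := by
    rintro _ ⟨q, hq, rfl⟩
    exact Function.invFunOn_eq ⟨q, hq, rfl⟩
  right_inv' := by
    intro q hq
    exact mk_injOn s p (Function.invFunOn_mem ⟨q, hq, rfl⟩) hq (Function.invFunOn_eq ⟨q, hq, rfl⟩)
  open_source := isOpenMap_mk s _ Metric.isOpen_ball
  open_target := Metric.isOpen_ball
  continuousOn_toFun := by
    rw [continuousOn_open_iff (isOpenMap_mk s _ Metric.isOpen_ball)]
    intro U hU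
    have h : mk s '' Metric.ball p (1 / 2) ∩
        Function.invFunOn (mk s) (Metric.ball p (1 / 2)) ⁻¹' U =
        mk s '' (Metric.ball p (1 / 2) ∩ U) := by
      ext x
      constructor
      · rintro ⟨⟨q, hq, rfl⟩, hx⟩
        refine ⟨q, ⟨hq, ?_⟩, rfl⟩
        have : Function.invFunOn (mk s) (Metric.ball p (1 / 2)) (mk s q) = q :=
          mk_injOn s p (Function.invFunOn_mem ⟨q, hq, rfl⟩) hq
            (Function.invFunOn_eq ⟨q, hq, rfl⟩)
        rwa [mem_preimage, this] at hx
      · rintro ⟨q, ⟨hq, hqU⟩, rfl⟩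
        refine ⟨⟨q, hq, rfl⟩, ?_⟩
        have : Function.invFunOn (mk s) (Metric.ball p (1 / 2)) (mk s q) = q :=
          mk_injOn s p (Function.invFunOn_mem ⟨q, hq, rfl⟩) hq
            (Function.invFunOn_eq ⟨q, hq, rfl⟩)
        rwa [mem_preimage, this]
    rw [h]
    exact isOpenMap_mk s _ (Metric.isOpen_ball.inter hU)
  continuousOn_invFun := (continuous_mk s).continuousOn

theorem crt_source (s : Bool) (p : E3) : (crt s p).source = mk s '' Metric.ball p (1 / 2) := rfl

theorem crt_target (s : Bool) (p : E3) : (crt s p).target = Metric.ball p (1 / 2) := rfl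

theorem crt_symm (s : Bool) (p : E3) : ((crt s p).symm : E3 → X) = mk s := rfl

theorem crt_mk {s : Bool} {p q : E3} (hq : q ∈ Metric.ball p (1 / 2)) : crt s p (mk s q) = q :=
  (crt s p).right_inv hq

noncomputable instance : ChartedSpace E3 X where
  atlas := {e | ∃ s p, e = crt s p}
  chartAt x := crt (mk_surj x).choose (mk_surj x).choose_spec.choose
  mem_chart_source x := by
    have h := (mk_surj x).choose_spec.choose_spec
    exact ⟨_, Metric.mem_ball_self (by norm_num), h.symm⟩
  chart_mem_atlas x := ⟨_, _, rfl⟩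

theorem mem_atlas {e : OpenPartialHomeomorph X E3} (he : e ∈ atlas E3 X) :
    ∃ s p, e = crt s p := he

theorem crt_mem_atlas (s : Bool) (p : E3) : crt s p ∈ atlas E3 X := ⟨s, p, rfl⟩

/-- the transition maps are locally the maps `GG` -/
theorem crt_trans (s t : Bool) (p q : E3) {r : E3} (h : mk s r ∈ (crt t q).source) :
    ∃ a b c d : ℤ, (s ≠ t → r 2 ≠ 0) ∧
      ∀ᶠ r' in 𝓝 r, crt t q (mk s r') = GG a b c d s t r' := by
  obtain ⟨r1, hr1, hr⟩ := h
  obtain ⟨a, b, c, d, h1, h2⟩ : Rel (s, r) (t, r1) := mk_eq_iff.1 hr.symm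
  simp only at h1 h2
  refine ⟨a, b, c, d, h1, ?_⟩
  have hcont : ContinuousAt (GG a b c d s t) r := (contDiffAt_GG a b c d s t h1).continuousAt
  have e1 : ∀ᶠ r' in 𝓝 r, GG a b c d s t r' ∈ Metric.ball q (1 / 2) := by
    apply hcont.eventually_mem
    rw [← h2]
    exact Metric.isOpen_ball.mem_nhds hr1
  have e2 : ∀ᶠ r' in 𝓝 r, (s ≠ t → r' 2 ≠ 0) := by
    by_cases hst : s = t
    · exact Eventually.of_forall fun _ h => absurd hst h
    · have hc : ContinuousAt (fun q' : E3 => q' 2) r := (continuous_apply 2).continuousAt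
      filter_upwards [hc.eventually_ne (h1 hst)] with q' hq' _ using hq'
  filter_upwards [e1, e2] with r' hr1' hr2'
  have : mk s r' = mk t (GG a b c d s t r') := mk_eq_iff.2 ⟨a, b, c, d, hr2', rfl⟩
  rw [this, crt_mk hr1']

instance : IsManifold 𝓘(ℂ, E3) ω X := by
  apply isManifold_of_contDiffOn
  rintro e e' ⟨s, p, rfl⟩ ⟨t, q, rfl⟩
  intro r hr
  simp only [modelWithCornersSelf_coe, modelWithCornersSelf_coe_symm, range_id, preimage_id_eq,
    id_eq, inter_univ, OpenPartialHomeomorph.trans_source, mem_inter_iff, mem_preimage,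
    OpenPartialHomeomorph.symm_source, crt_symm] at hr
  obtain ⟨a, b, c, d, h1, h2⟩ := crt_trans s t p q hr.2
  have h3 : ContDiffAt ℂ ω (GG a b c d s t) r := contDiffAt_GG a b c d s t h1
  refine (h3.congr_of_eventuallyEq ?_).contDiffWithinAt
  filter_upwards [h2] with r' hr'
  simpa [crt_symm] using hr'

end HMA
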