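import Pool.Agent.HMA.XRel

/-! the threefold `X`: definitions and topology (modules XTOP, XCH) -/

open MeasureTheory Filter Topology Set Matrix
open scoped Manifold ContDiff ENNReal ComplexOrder

namespace HMA

/-- the setoid of the relation -/
def stp : Setoid (Bool × E3) := ⟨Rel, rel_equiv⟩

/-- The threefold: the `ℙ¹`-bundle `ℙ(O ⊕ L)` over the abelian surface `ℂ²/ℤ[i]²`, glued from the
total spaces of `L` and of its dual. -/
def X : Type := Quotient stp

instance : TopologicalSpace X := inferInstanceAs (TopologicalSpace (Quotient stp))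

/-- the projection of the sheet `s` -/
def mk (s : Bool) (p : E3) : X := Quotient.mk stp (s, p)

theorem mk_eq_iff {s t : Bool} {p q : E3} : mk s p = mk t q ↔ Rel (s, p) (t, q) :=
  ⟨fun h => Quotient.exact h, fun h => Quotient.sound h⟩

theorem mk_surj (x : X) : ∃ s p, x = mk s p := by
  induction x using Quotient.inductionOn with
  | h m => exact ⟨m.1, m.2, rfl⟩

theorem continuous_mk (s : Bool) : Continuous (mk s) := by
  have h : Continuous (fun m : Bool × E3 => (Quotient.mk stp m : X)) := continuous_quotient_mk'
  exact h.comp (Continuous.prodMk_right s)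

theorem mk_injOn (s : Bool) (p : E3) : InjOn (mk s) (Metric.ball p (1 / 2)) := by
  intro q hq q' hq' h
  exact eq_of_rel_ball hq hq' (mk_eq_iff.1 h)

end HMA
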