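import Pool.Agent.HMA.XCh

/-! the volume of the threefold: definitions -/

open MeasureTheory Filter Topology Set Matrix
open scoped Manifold ContDiff ENNReal ComplexOrder

namespace HMA

instance : MeasurableSpace X := borel X

instance : BorelSpace X := ⟨rfl⟩

/-- fundamental domain in the first sheet -/
def FD : Set E3 := {p | (0 ≤ (p 0).re ∧ (p 0).re < 1) ∧ (0 ≤ (p 0).im ∧ (p 0).im < 1) ∧
  (0 ≤ (p 1).re ∧ (p 1).re < 1) ∧ (0 ≤ (p 1).im ∧ (p 1).im < 1)}

/-- the volume form as a measure -/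
noncomputable def dV : Measure X :=
  ((volume.restrict FD).withDensity fun p => ENNReal.ofReal (theta false p)).map (mk false)

/-- a function of `(x, ρ)` on the threefold -/
noncomputable def xf (h : ℝ → ℝ → ℝ → ℝ) (x : X) : ℝ :=
  lft h (mk_surj x).choose (mk_surj x).choose_spec.choose

/-- periodicity in `x` -/
def Per (h : ℝ → ℝ → ℝ → ℝ) : Prop :=
  ∀ (x0 x1 ρ : ℝ) (a b : ℤ), h (x0 + a) (x1 + b) ρ = h x0 x1 ρ

end HMA
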