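import Pool.Agent.HMA.XMeas1

/-! module XMEAS2: integration on the threefold -/

open MeasureTheory Filter Topology Set Matrix
open scoped Manifold ContDiff ENNReal ComplexOrder

namespace HMA

theorem xm2_cont_NN (s : Bool) : Continuous (NN s) := by
  unfold NN xx
  cases s
  · simp only [Bool.false_eq_true, if_false]
    fun_prop
  · simp only [if_true]
    fun_prop

theorem xm2_cont_theta (s : Bool) : Continuous (theta s) := by
  unfold theta
  refine Continuous.div ?_ ((xm2_cont_NN s).pow 2) fun p => (pow_pos (NN_pos s p) 2).ne'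
  unfold xx
  fun_prop

theorem xm2_meas_theta (s : Bool) : Measurable fun p => ENNReal.ofReal (theta s p) :=
  (xm2_cont_theta s).measurable.ennreal_ofReal

theorem xm2_meas_mk (s : Bool) : Measurable (mk s) := (continuous_mk s).measurable

theorem lintegral_dV {g : X → ℝ≥0∞} (hg : Measurable g) :
    ∫⁻ x, g x ∂dV = ∫⁻ p in FD, g (mk false p) * ENNReal.ofReal (theta false p) := by
  unfold dV
  have h1 := lintegral_withDensity_eq_lintegral_mul (volume.restrict FD) (xm2_meas_theta false)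
      (hg.comp (xm2_meas_mk false))
  rw [lintegral_map hg (xm2_meas_mk false)]
  refine h1.trans (lintegral_congr fun p => ?_)
  simp only [Pi.mul_apply, Function.comp_apply]
  rw [mul_comm]

/-- the translation part of `GG` -/
theorem xm2_GG_apply (v : ℤ × ℤ × ℤ × ℤ) (s t : Bool) (p : E3) :
    GG v.1 v.2.1 v.2.2.1 v.2.2.2 s t p 0 = p 0 + (v.1 + v.2.2.1 * Complex.I) ∧
    GG v.1 v.2.1 v.2.2.1 v.2.2.2 s t p 1 = p 1 + (v.2.1 + v.2.2.2 * Complex.I) := by
  constructor <;> rfl

/-- the piece of `A` moved into the fundamental domain by `GG` -/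
def xm2_piece (s : Bool) (A : Set E3) (v : ℤ × ℤ × ℤ × ℤ) : Set E3 :=
  {p | p ∈ A ∧ p 2 ≠ 0 ∧ GG v.1 v.2.1 v.2.2.1 v.2.2.2 s false p ∈ FD}

theorem xm2_mem_FD (v : ℤ × ℤ × ℤ × ℤ) (s : Bool) (p : E3) :
    GG v.1 v.2.1 v.2.2.1 v.2.2.2 s false p ∈ FD ↔
      (v.1 = -⌊(p 0).re⌋ ∧ v.2.2.1 = -⌊(p 0).im⌋ ∧ v.2.1 = -⌊(p 1).re⌋ ∧
        v.2.2.2 = -⌊(p 1).im⌋) := by
  have h := xm2_GG_apply v s false p
  have key : ∀ (x : ℝ) (a : ℤ), (0 ≤ x + a ∧ x + a < 1) ↔ a = -⌊x⌋ := by
    intro x a
    constructor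
    · rintro ⟨h1, h2⟩
      have : ⌊x⌋ = -a := by
        rw [Int.floor_eq_iff]
        push_cast
        constructor <;> linarith
      rw [this, neg_neg]
    · intro h
      rw [h]
      push_cast
      have h1 := Int.floor_le x
      have h2 := Int.lt_floor_add_one x
      constructor <;> linarith
  unfold FD
  rw [mem_ofPred_eq, h.1, h.2]
  simp only [Complex.add_re, Complex.add_im, Complex.intCast_re, Complex.intCast_im,
    Complex.mul_re, Complex.mul_im, Complex.I_re, Complex.I_im, mul_zero, mul_one,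
    sub_zero, zero_add, add_zero]
  rw [key, key, key, key]

theorem xm2_meas_FD : MeasurableSet FD := by
  have h1 : Measurable fun p : E3 => (p 0).re := by fun_prop
  have h2 : Measurable fun p : E3 => (p 0).im := by fun_prop
  have h3 : Measurable fun p : E3 => (p 1).re := by fun_prop
  have h4 : Measurable fun p : E3 => (p 1).im := by fun_prop
  have e : FD = ((fun p : E3 => (p 0).re) ⁻¹' Ico 0 1) ∩ (((fun p : E3 => (p 0).im) ⁻¹' Ico 0 1) ∩
      (((fun p : E3 => (p 1).re) ⁻¹' Ico 0 1) ∩ ((fun p : E3 => (p 1).im) ⁻¹' Ico 0 1))) := rfl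
  rw [e]
  exact (h1 measurableSet_Ico).inter ((h2 measurableSet_Ico).inter
    ((h3 measurableSet_Ico).inter (h4 measurableSet_Ico)))

/-- the exceptional divisor is a null set -/
theorem xm2_null : volume {p : E3 | p 2 = 0} = 0 :=
  Measure.pi_hyperplane (μ := fun _ : Fin 3 => (volume : Measure ℂ)) 2 0

theorem xm2_ae : ∀ᵐ p : E3, p 2 ≠ 0 := by
  rw [ae_iff]
  simpa only [ne_eq, not_not] using xm2_null

/-- the pieces cover `A` up to a null set -/
theorem xm2_iUnion (s : Bool) (A : Set E3) :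
    (⋃ v, xm2_piece s A v) = {p | p ∈ A ∧ p 2 ≠ 0} := by
  ext p
  simp only [mem_iUnion]
  constructor
  · rintro ⟨v, h⟩
    exact ⟨h.1, h.2.1⟩
  · rintro ⟨h1, h2⟩
    refine ⟨(-⌊(p 0).re⌋, -⌊(p 1).re⌋, -⌊(p 0).im⌋, -⌊(p 1).im⌋), h1, h2, ?_⟩
    rw [xm2_mem_FD]
    exact ⟨rfl, rfl, rfl, rfl⟩

theorem xm2_piece_unique {s : Bool} {A : Set E3} {v v' : ℤ × ℤ × ℤ × ℤ} {p : E3}
    (h : p ∈ xm2_piece s A v) (h' : p ∈ xm2_piece s A v') : v = v' := by
  obtain ⟨h1, h2, h3, h4⟩ := (xm2_mem_FD v s p).1 h.2.2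
  obtain ⟨h1', h2', h3', h4'⟩ := (xm2_mem_FD v' s p).1 h'.2.2
  refine Prod.ext ?_ (Prod.ext ?_ (Prod.ext ?_ ?_))
  · rw [h1, h1']
  · rw [h3, h3']
  · rw [h2, h2']
  · rw [h4, h4']

theorem xm2_meas_piece {s : Bool} {A : Set E3} (hA : MeasurableSet A) (v : ℤ × ℤ × ℤ × ℤ) :
    MeasurableSet (xm2_piece s A v) := by
  have h0 : MeasurableSet {p : E3 | p 2 ≠ 0} := by
    have : Measurable fun p : E3 => p 2 := by fun_prop
    exact this (measurableSet_singleton 0).compl
  have h1 : Measurable fun p : E3 => (p 0).re := by fun_prop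
  have h2 : Measurable fun p : E3 => (p 0).im := by fun_prop
  have h3 : Measurable fun p : E3 => (p 1).re := by fun_prop
  have h4 : Measurable fun p : E3 => (p 1).im := by fun_prop
  have e : xm2_piece s A v = A ∩ ({p : E3 | p 2 ≠ 0} ∩
      (((fun p : E3 => ⌊(p 0).re⌋) ⁻¹' {-v.1}) ∩ (((fun p : E3 => ⌊(p 0).im⌋) ⁻¹' {-v.2.2.1}) ∩
      (((fun p : E3 => ⌊(p 1).re⌋) ⁻¹' {-v.2.1}) ∩
        ((fun p : E3 => ⌊(p 1).im⌋) ⁻¹' {-v.2.2.2}))))) := by
    ext p
    unfold xm2_piece
    rw [mem_ofPred_eq, xm2_mem_FD]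
    simp only [mem_inter_iff, mem_preimage, mem_singleton_iff, mem_ofPred_eq]
    constructor
    · rintro ⟨h1, h2, h3, h4, h5, h6⟩
      exact ⟨h1, h2, by omega, by omega, by omega, by omega⟩
    · rintro ⟨h1, h2, h3, h4, h5, h6⟩
      exact ⟨h1, h2, by omega, by omega, by omega, by omega⟩
  rw [e]
  exact hA.inter (h0.inter ((h1.floor (measurableSet_singleton _)).inter
    ((h2.floor (measurableSet_singleton _)).inter ((h3.floor (measurableSet_singleton _)).inter
      (h4.floor (measurableSet_singleton _))))))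

theorem xm2_GG_inj (v : ℤ × ℤ × ℤ × ℤ) (s : Bool) {A : Set E3} :
    InjOn (GG v.1 v.2.1 v.2.2.1 v.2.2.2 s false) (xm2_piece s A v) := by
  intro p hp q hq h
  rw [← GG_inv v.1 v.2.1 v.2.2.1 v.2.2.2 s false (p := p) (fun _ => hp.2.1),
    ← GG_inv v.1 v.2.1 v.2.2.1 v.2.2.2 s false (p := q) (fun _ => hq.2.1), h]

theorem xm2_meas_img {s : Bool} {A : Set E3} (hA : MeasurableSet A) (v : ℤ × ℤ × ℤ × ℤ) :
    MeasurableSet (GG v.1 v.2.1 v.2.2.1 v.2.2.2 s false '' xm2_piece s A v) := by
  refine (xm2_meas_piece hA v).image_of_continuousOn_injOn ?_ (xm2_GG_inj v s)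
  intro p hp
  exact (contDiffAt_GG v.1 v.2.1 v.2.2.1 v.2.2.2 s false (p := p)
    (fun _ => hp.2.1)).continuousAt.continuousWithinAt

/-- key: the volume of the image of an injective piece, by cutting into translates of the
fundamental domain -/
theorem lintegral_dV_image {s : Bool} {A : Set E3} (hA : MeasurableSet A) (hi : InjOn (mk s) A)
    {g : X → ℝ≥0∞} (hg : Measurable g) :
    ∫⁻ x in mk s '' A, g x ∂dV = ∫⁻ p in A, g (mk s p) * ENNReal.ofReal (theta s p) := by
  have hm : MeasurableSet (mk s '' A) := measurableSet_image hA hi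
  have hmkGG : ∀ (v : ℤ × ℤ × ℤ × ℤ) (p : E3), p 2 ≠ 0 →
      mk false (GG v.1 v.2.1 v.2.2.1 v.2.2.2 s false p) = mk s p := by
    intro v p hp
    symm
    rw [mk_eq_iff]
    exact ⟨v.1, v.2.1, v.2.2.1, v.2.2.2, fun _ => hp, rfl⟩
  -- the right hand side
  have hR : ∫⁻ p in A, g (mk s p) * ENNReal.ofReal (theta s p)
      = ∑' v, ∫⁻ p in xm2_piece s A v, g (mk s p) * ENNReal.ofReal (theta s p) := by
    rw [← lintegral_iUnion (fun v => xm2_meas_piece hA v)]
    · refine setLIntegral_congr ?_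
      rw [xm2_iUnion]
      filter_upwards [xm2_ae] with p hp
      apply propext
      exact ⟨fun h => ⟨h, hp⟩, fun h => h.1⟩
    · intro v v' hvv
      rw [Function.onFun, disjoint_left]
      intro p h h'
      exact hvv (xm2_piece_unique h h')
  -- the left hand side
  have hL : ∫⁻ x in mk s '' A, g x ∂dV
      = ∑' v, ∫⁻ q in GG v.1 v.2.1 v.2.2.1 v.2.2.2 s false '' xm2_piece s A v,
          g (mk false q) * ENNReal.ofReal (theta false q) := by
    rw [← lintegral_iUnion (fun v => xm2_meas_img hA v)]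
    · rw [← lintegral_indicator hm, lintegral_dV (hg.indicator hm)]
      have hm2 : MeasurableSet (mk false ⁻¹' (mk s '' A)) := xm2_meas_mk false hm
      have e1 : ∀ p : E3, (mk s '' A).indicator g (mk false p) * ENNReal.ofReal (theta false p)
          = (mk false ⁻¹' (mk s '' A)).indicator
            (fun p => g (mk false p) * ENNReal.ofReal (theta false p)) p := by
        intro p
        by_cases hp : mk false p ∈ mk s '' A
        · rw [indicator_of_mem hp, indicator_of_mem (show p ∈ mk false ⁻¹' (mk s '' A) from hp)]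
        · rw [indicator_of_notMem hp,
            indicator_of_notMem (show p ∉ mk false ⁻¹' (mk s '' A) from hp), zero_mul]
      simp only [e1]
      rw [setLIntegral_indicator hm2]
      refine setLIntegral_congr ?_
      filter_upwards [xm2_ae] with p hp
      apply propext
      constructor
      · rintro ⟨⟨q, hqA, hq⟩, hpF⟩
        obtain ⟨a, b, c, d, h1, h2⟩ := mk_eq_iff.1 hq
        have h2 : p = GG a b c d s false q := h2
        have h1 : s ≠ false → q 2 ≠ 0 := h1
        have hq2 : q 2 ≠ 0 := by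
          by_cases hs : s = false
          · subst hs
            intro h0
            exact hp (by rw [h2]; exact GG_two_eq_zero a b c d false h0)
          · exact h1 hs
        refine mem_iUnion.2 ⟨(a, b, c, d), q, ⟨hqA, hq2, ?_⟩, h2.symm⟩
        rw [← h2]
        exact hpF
      · intro h
        obtain ⟨v, q, hq, hqp⟩ := mem_iUnion.1 h
        refine ⟨⟨q, hq.1, ?_⟩, ?_⟩
        · rw [← hqp, hmkGG v q hq.2.1]
        · rw [← hqp]
          exact hq.2.2
    · intro v v' hvv
      rw [Function.onFun, disjoint_left]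
      rintro p ⟨q, hq, hqp⟩ ⟨q', hq', hqp'⟩
      have h1 : mk s q = mk s q' := by
        rw [← hmkGG v q hq.2.1, ← hmkGG v' q' hq'.2.1, hqp, hqp']
      have h2 : q = q' := hi hq.1 hq'.1 h1
      subst h2
      exact hvv (xm2_piece_unique hq hq')
  rw [hL, hR]
  refine tsum_congr fun v => ?_
  rw [lintegral_GG v.1 v.2.1 v.2.2.1 v.2.2.2 s false (xm2_meas_piece hA v)
    (fun _ p hp => hp.2.1) (fun q => g (mk false q))]
  refine setLIntegral_congr_fun (xm2_meas_piece hA v) fun p hp => ?_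
  rw [hmkGG v p hp.2.1]

end HMA
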