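import Pool.Agent.HMA.XMeas2

/-! module XMEAS4: Fubini on the fundamental domain -/

open MeasureTheory Filter Topology Set Matrix
open scoped Manifold ContDiff ENNReal ComplexOrder

namespace HMA

/-- the unit square in `ℂ` -/
def xm4_Q : Set ℂ := {z | (0 ≤ z.re ∧ z.re < 1) ∧ (0 ≤ z.im ∧ z.im < 1)}

theorem xm4_meas_Q : MeasurableSet xm4_Q := by
  have e : xm4_Q = ((fun z : ℂ => z.re) ⁻¹' Ico 0 1) ∩ ((fun z : ℂ => z.im) ⁻¹' Ico 0 1) := rfl
  rw [e]
  exact (Complex.measurable_re measurableSet_Ico).inter (Complex.measurable_im measurableSet_Ico)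

theorem xm4_square {f : ℝ → ℝ≥0∞} (hf : Measurable f) :
    ∫⁻ z in xm4_Q, f z.re = ∫⁻ x in Ico (0 : ℝ) 1, f x := by
  have h := Complex.volume_preserving_equiv_real_prod.setLIntegral_comp_preimage_emb
    Complex.measurableEquivRealProd.measurableEmbedding (fun q : ℝ × ℝ => f q.1)
    (Ico (0 : ℝ) 1 ×ˢ Ico (0 : ℝ) 1)
  have e : Complex.measurableEquivRealProd ⁻¹' (Ico (0 : ℝ) 1 ×ˢ Ico (0 : ℝ) 1) = xm4_Q := rfl
  rw [e] at h
  have h2 : ∀ z : ℂ, (Complex.measurableEquivRealProd z).1 = z.re := fun z => rfl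
  simp only [h2] at h
  rw [h, Measure.volume_eq_prod, ← Measure.prod_restrict,
    lintegral_prod (fun q : ℝ × ℝ => f q.1) (hf.comp measurable_fst).aemeasurable]
  refine lintegral_congr fun x => ?_
  simp only [lintegral_const, Measure.restrict_apply MeasurableSet.univ,
    univ_inter, Real.volume_Ico, sub_zero, ENNReal.ofReal_one, mul_one]

theorem xm4_mp : MeasurePreserving (fun p : E3 => ((p 1, p 0, p 2) : ℂ × ℂ × ℂ)) := by
  have h1 := volume_preserving_piFinSuccAbove (fun _ : Fin 3 => ℂ) 1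
  have h2 := (MeasurePreserving.id (volume : Measure ℂ)).prod (volume_preserving_finTwoArrow ℂ)
  exact h2.comp h1

theorem xm4_fubini {Φ : E3 → ℝ≥0∞} (hΦ : Measurable Φ) :
    ∫⁻ p in FD, Φ p = ∫⁻ a in xm4_Q, ∫⁻ b in xm4_Q, ∫⁻ c : ℂ, Φ ![b, a, c] := by
  set G : ℂ × ℂ × ℂ → ℝ≥0∞ := fun q => FD.indicator Φ ![q.2.1, q.1, q.2.2] with hG
  have hm : Measurable fun q : ℂ × ℂ × ℂ => (![q.2.1, q.1, q.2.2] : E3) := by
    rw [measurable_pi_iff]
    intro i
    fin_cases i
    · exact measurable_snd.fst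
    · exact measurable_fst
    · exact measurable_snd.snd
  have hGm : Measurable G := (hΦ.indicator xm2_meas_FD).comp hm
  have h3 : ∀ p : E3, FD.indicator Φ p = G (p 1, p 0, p 2) := by
    intro p
    rw [hG]
    congr 1
    ext i
    fin_cases i <;> rfl
  rw [← lintegral_indicator xm2_meas_FD]
  simp only [h3]
  rw [xm4_mp.lintegral_comp hGm, Measure.volume_eq_prod, lintegral_prod _ hGm.aemeasurable,
    ← lintegral_indicator xm4_meas_Q]
  refine lintegral_congr fun a => ?_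
  have hGa : Measurable fun q : ℂ × ℂ => G (a, q) := hGm.comp measurable_prodMk_left
  rw [Measure.volume_eq_prod, lintegral_prod _ hGa.aemeasurable]
  by_cases ha : a ∈ xm4_Q
  · rw [indicator_of_mem ha, ← lintegral_indicator xm4_meas_Q]
    refine lintegral_congr fun b => ?_
    by_cases hb : b ∈ xm4_Q
    · rw [indicator_of_mem hb]
      refine lintegral_congr fun c => ?_
      have hc : (![b, a, c] : E3) ∈ FD := ⟨hb.1, hb.2, ha.1, ha.2⟩
      rw [hG]
      simp only []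
      rw [indicator_of_mem hc]
    · rw [indicator_of_notMem hb]
      refine (lintegral_congr fun c => ?_).trans lintegral_zero
      have hc : (![b, a, c] : E3) ∉ FD := fun h => hb ⟨h.1, h.2.1⟩
      rw [hG]
      simp only []
      rw [indicator_of_notMem hc]
  · rw [indicator_of_notMem ha]
    refine (lintegral_congr fun b => ?_).trans lintegral_zero
    refine (lintegral_congr fun c => ?_).trans lintegral_zero
    have hc : (![b, a, c] : E3) ∉ FD := fun h => ha ⟨h.2.2.1, h.2.2.2⟩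
    rw [hG]
    simp only []
    rw [indicator_of_notMem hc]

/-- polar coordinates -/
theorem xm4_polar {F : ℝ → ℝ≥0∞} (hF : Measurable F) :
    ∫⁻ w : ℂ, F ‖w‖ = ∫⁻ r in Ioi (0 : ℝ), ENNReal.ofReal (2 * Real.pi * r) * F r := by
  rw [← Complex.lintegral_comp_polarCoord_symm, polarCoord_target]
  have h1 : ∀ p ∈ Ioi (0 : ℝ) ×ˢ Ioo (-Real.pi) Real.pi,
      ENNReal.ofReal p.1 • F ‖Complex.polarCoord.symm p‖ = ENNReal.ofReal p.1 * F p.1 := by
    intro p hp
    rw [Complex.norm_polarCoord_symm, abs_of_pos hp.1, smul_eq_mul]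
  rw [setLIntegral_congr_fun (measurableSet_Ioi.prod measurableSet_Ioo) h1,
    Measure.volume_eq_prod, ← Measure.prod_restrict]
  have hm : Measurable fun q : ℝ × ℝ => ENNReal.ofReal q.1 * F q.1 := by fun_prop
  rw [lintegral_prod (fun q : ℝ × ℝ => ENNReal.ofReal q.1 * F q.1) hm.aemeasurable]
  refine setLIntegral_congr_fun measurableSet_Ioi fun r hr => ?_
  simp only [lintegral_const, Measure.restrict_apply MeasurableSet.univ, univ_inter,
    Real.volume_Ioo]
  rw [show Real.pi - -Real.pi = 2 * Real.pi by ring, mul_right_comm,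
    ← ENNReal.ofReal_mul (le_of_lt hr), mul_comm r]

/-- logarithmic substitution -/
theorem xm4_log (F : ℝ → ℝ≥0∞) :
    ∫⁻ r in Ioi (0 : ℝ), ENNReal.ofReal (2 * Real.pi * r) * F r
      = ∫⁻ t : ℝ, ENNReal.ofReal (2 * Real.pi * Real.exp (2 * t)) * F (Real.exp t) := by
  have h := lintegral_image_eq_lintegral_abs_deriv_mul (s := univ) (f := Real.exp)
    (f' := Real.exp) MeasurableSet.univ (fun x _ => (Real.hasDerivAt_exp x).hasDerivWithinAt)
    Real.exp_injective.injOn (fun r => ENNReal.ofReal (2 * Real.pi * r) * F r)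
  rw [image_univ, Real.range_exp, Measure.restrict_univ] at h
  rw [h]
  refine lintegral_congr fun t => ?_
  rw [← mul_assoc, ← ENNReal.ofReal_mul (abs_nonneg _), abs_of_pos (Real.exp_pos t)]
  congr 2
  rw [two_mul t, Real.exp_add]
  ring

theorem xm4_meas_v2 : Measurable v2 := by
  unfold v2 yy
  have h1 : Measurable fun r : ℝ => Real.exp (2 * r) := by fun_prop
  exact ((measurable_const.mul (h1.div (measurable_const.add h1))).mul
    (measurable_const.sub (h1.div (measurable_const.add h1))))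

/-- the integral over one fibre -/
theorem xm4_inner {k : ℝ → ℝ} (hk : Measurable k) (h0 : ∀ ρ, 0 ≤ k ρ) (c : ℝ) :
    ∫⁻ w : ℂ, ENNReal.ofReal (if w = 0 then 0 else k (c + Real.log ‖w‖)) *
        ENNReal.ofReal (Real.exp (2 * c) / (1 + ‖w‖ ^ 2 * Real.exp (2 * c)) ^ 2)
      = ∫⁻ ρ : ℝ, ENNReal.ofReal (Real.pi * (k ρ * v2 ρ)) := by
  have hF : Measurable fun r : ℝ => ENNReal.ofReal (k (c + Real.log r)) *
      ENNReal.ofReal (Real.exp (2 * c) / (1 + r ^ 2 * Real.exp (2 * c)) ^ 2) := by fun_prop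
  have h1 : ∫⁻ w : ℂ, ENNReal.ofReal (if w = 0 then 0 else k (c + Real.log ‖w‖)) *
        ENNReal.ofReal (Real.exp (2 * c) / (1 + ‖w‖ ^ 2 * Real.exp (2 * c)) ^ 2)
      = ∫⁻ w : ℂ, (fun r : ℝ => ENNReal.ofReal (k (c + Real.log r)) *
      ENNReal.ofReal (Real.exp (2 * c) / (1 + r ^ 2 * Real.exp (2 * c)) ^ 2)) ‖w‖ := by
    refine lintegral_congr_ae ?_
    have h2 : ∀ᵐ w : ℂ, w ≠ 0 := by
      rw [ae_iff]
      simp
    filter_upwards [h2] with w hw
    rw [if_neg hw]
  rw [h1, xm4_polar hF, xm4_log]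
  have h2 : ∀ t : ℝ, ENNReal.ofReal (2 * Real.pi * Real.exp (2 * t)) *
      (ENNReal.ofReal (k (c + Real.log (Real.exp t))) *
        ENNReal.ofReal (Real.exp (2 * c) / (1 + Real.exp t ^ 2 * Real.exp (2 * c)) ^ 2))
      = (fun ρ => ENNReal.ofReal (Real.pi * (k ρ * v2 ρ))) (t + c) := by
    intro t
    simp only []
    have hp := Real.pi_pos
    rw [Real.log_exp, add_comm c t, ← ENNReal.ofReal_mul (h0 _), ← ENNReal.ofReal_mul (by positivity)]
    congr 1
    have e1 : Real.exp t ^ 2 = Real.exp (2 * t) := by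
      rw [← Real.exp_nat_mul]; norm_num
    have e2 : Real.exp (2 * (t + c)) = Real.exp (2 * t) * Real.exp (2 * c) := by
      rw [mul_add, Real.exp_add]
    unfold v2 yy
    rw [e1, e2]
    have h3 : (1 + Real.exp (2 * t) * Real.exp (2 * c)) ≠ 0 := by positivity
    field_simp
    ring
  rw [lintegral_congr h2]
  exact lintegral_add_right_eq_self (fun ρ => ENNReal.ofReal (Real.pi * (k ρ * v2 ρ))) c

/-- Fubini and polar coordinates -/
theorem lintegral_FD {h : ℝ → ℝ → ℝ → ℝ}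
    (hm : Measurable fun x : ℝ × ℝ × ℝ => h x.1 x.2.1 x.2.2) (h0 : ∀ x0 x1 ρ, 0 ≤ h x0 x1 ρ) :
    ∫⁻ p in FD, ENNReal.ofReal (lft h false p) * ENNReal.ofReal (theta false p) =
      ∫⁻ x1 in Ico (0 : ℝ) 1, ∫⁻ x0 in Ico (0 : ℝ) 1, ∫⁻ ρ : ℝ,
        ENNReal.ofReal (Real.pi * (h x0 x1 ρ * v2 ρ)) := by
  have hΦ : Measurable fun p : E3 =>
      ENNReal.ofReal (lft h false p) * ENNReal.ofReal (theta false p) :=
    (measurable_lft hm false).ennreal_ofReal.mul (xm2_meas_theta false)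
  rw [xm4_fubini hΦ]
  have h1 : ∀ a b : ℂ, ∫⁻ c : ℂ, ENNReal.ofReal (lft h false ![b, a, c]) *
        ENNReal.ofReal (theta false ![b, a, c])
      = ∫⁻ ρ : ℝ, ENNReal.ofReal (Real.pi * (h b.re a.re ρ * v2 ρ)) := by
    intro a b
    have hk : Measurable (h b.re a.re) :=
      hm.comp (measurable_const.prodMk (measurable_const.prodMk measurable_id))
    rw [← xm4_inner hk (h0 _ _) (Real.pi * (b.re ^ 2 + a.re ^ 2))]
    refine lintegral_congr fun c => ?_
    have e1 : (![b, a, c] : E3) 0 = b := rfl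
    have e2 : (![b, a, c] : E3) 1 = a := rfl
    have e3 : (![b, a, c] : E3) 2 = c := rfl
    have hs : sg false = 1 := rfl
    congr 2
    · unfold lft rho xx
      rw [e1, e2, e3, hs, one_mul]
    · unfold theta NN xx
      rw [e1, e2, e3]
      simp only [Bool.false_eq_true, if_false]
      rw [mul_assoc]
  have hmH : Measurable fun q : ℝ × ℝ =>
      ∫⁻ ρ : ℝ, ENNReal.ofReal (Real.pi * (h q.1 q.2 ρ * v2 ρ)) := by
    have hm3 : Measurable fun q : (ℝ × ℝ) × ℝ =>
        ENNReal.ofReal (Real.pi * (h q.1.1 q.1.2 q.2 * v2 q.2)) := by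
      have hm4 : Measurable fun q : (ℝ × ℝ) × ℝ => h q.1.1 q.1.2 q.2 :=
        hm.comp (measurable_fst.fst.prodMk (measurable_fst.snd.prodMk measurable_snd))
      exact (measurable_const.mul (hm4.mul (xm4_meas_v2.comp measurable_snd))).ennreal_ofReal
    exact hm3.lintegral_prod_right'
  have h2 : ∀ a : ℂ, ∫⁻ b in xm4_Q, ∫⁻ ρ : ℝ, ENNReal.ofReal (Real.pi * (h b.re a.re ρ * v2 ρ))
      = ∫⁻ x0 in Ico (0 : ℝ) 1, ∫⁻ ρ : ℝ, ENNReal.ofReal (Real.pi * (h x0 a.re ρ * v2 ρ)) := by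
    intro a
    exact xm4_square (f := fun x0 =>
      ∫⁻ ρ : ℝ, ENNReal.ofReal (Real.pi * (h x0 a.re ρ * v2 ρ)))
      (hmH.comp (measurable_id.prodMk measurable_const))
  simp only [h1, h2]
  have hmH2 : Measurable fun x1 : ℝ => ∫⁻ x0 in Ico (0 : ℝ) 1, ∫⁻ ρ : ℝ,
      ENNReal.ofReal (Real.pi * (h x0 x1 ρ * v2 ρ)) := by
    have hm5 : Measurable fun q : ℝ × ℝ =>
      ∫⁻ ρ : ℝ, ENNReal.ofReal (Real.pi * (h q.2 q.1 ρ * v2 ρ)) := hmH.comp measurable_swap
    exact hm5.lintegral_prod_right'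
  exact xm4_square hmH2

end HMA
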