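import Pool.Agent.HMA.TransB

/-! module XREL: the equivalence relation defining the threefold -/

open MeasureTheory Filter Topology Set Matrix
open scoped Manifold ContDiff ENNReal ComplexOrder

namespace HMA

/-- `(s, p) ~ (t, q)` iff `q = GG a b c d s t p` for some integers -/
def Rel (m m' : Bool × E3) : Prop :=
  ∃ a b c d : ℤ, (m.1 ≠ m'.1 → m.2 2 ≠ 0) ∧ m'.2 = GG a b c d m.1 m'.1 m.2

private theorem xrel_cf_ne (p : E3) (a b : ℤ) : cf p a b ≠ 0 := Complex.exp_ne_zero _

private theorem xrel_GG0 (a b c d : ℤ) (s t : Bool) (p : E3) :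
    GG a b c d s t p 0 = p 0 + (a + c * Complex.I) := rfl

private theorem xrel_GG1 (a b c d : ℤ) (s t : Bool) (p : E3) :
    GG a b c d s t p 1 = p 1 + (b + d * Complex.I) := rfl

private theorem xrel_GG2 (a b c d : ℤ) (s t : Bool) (p : E3) :
    GG a b c d s t p 2 = if s then (if t then p 2 / cf p a b else cf p a b / p 2)
    else (if t then 1 / (cf p a b * p 2) else cf p a b * p 2) := rfl

private theorem xrel_cocycle (a b c d a' b' : ℤ) (s t : Bool) (p : E3) :
    cf (GG a b c d s t p) a' b' * cf p a b = cf p (a + a') (b + b') := by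
  unfold cf
  rw [xrel_GG0, xrel_GG1, ← Complex.exp_add, Complex.exp_eq_exp_iff_exists_int]
  refine ⟨-(a' * c + b' * d), ?_⟩
  push_cast
  ring

/-- composition law -/
theorem GG_comp (a b c d a' b' c' d' : ℤ) (s t u : Bool) {p : E3} (h1 : s ≠ t → p 2 ≠ 0)
    (h2 : t ≠ u → p 2 ≠ 0) :
    GG a' b' c' d' t u (GG a b c d s t p) = GG (a + a') (b + b') (c + c') (d + d') s u p := by
  funext i
  fin_cases i
  · show GG a' b' c' d' t u (GG a b c d s t p) 0 = GG (a + a') (b + b') (c + c') (d + d') s u p 0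
    rw [xrel_GG0, xrel_GG0, xrel_GG0]
    push_cast
    ring
  · show GG a' b' c' d' t u (GG a b c d s t p) 1 = GG (a + a') (b + b') (c + c') (d + d') s u p 1
    rw [xrel_GG1, xrel_GG1, xrel_GG1]
    push_cast
    ring
  · show GG a' b' c' d' t u (GG a b c d s t p) 2 = GG (a + a') (b + b') (c + c') (d + d') s u p 2
    rw [xrel_GG2, xrel_GG2, xrel_GG2 (a + a'), ← xrel_cocycle a b c d a' b' s t p]
    have hc := xrel_cf_ne p a b
    have hc' := xrel_cf_ne (GG a b c d s t p) a' b'
    generalize cf (GG a b c d s t p) a' b' = x at *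
    generalize cf p a b = y at *
    cases s <;> cases t <;> cases u <;> simp only [if_true, if_false, Bool.false_eq_true]
    · ring
    · congr 1
      ring
    · rw [div_div_eq_mul_div, div_one]
      ring
    · rw [div_div]
      congr 1
      ring
    · rw [mul_div_assoc]
    · rw [← mul_div_assoc, one_div_div]
    · rw [div_div_eq_mul_div]
    · rw [div_div, mul_comm y x]

theorem GG_zero (s : Bool) (p : E3) : GG 0 0 0 0 s s p = p := by
  have hc : cf p 0 0 = 1 := by
    unfold cf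
    simp
  funext i
  fin_cases i
  · show GG 0 0 0 0 s s p 0 = p 0
    rw [xrel_GG0]
    simp
  · show GG 0 0 0 0 s s p 1 = p 1
    rw [xrel_GG1]
    simp
  · show GG 0 0 0 0 s s p 2 = p 2
    rw [xrel_GG2, hc]
    cases s <;> simp

private theorem xrel_two_ne {a b c d : ℤ} {s t : Bool} {p : E3} (hp : p 2 ≠ 0) :
    GG a b c d s t p 2 ≠ 0 := by
  rw [xrel_GG2]
  have hc := xrel_cf_ne p a b
  cases s <;> cases t <;> simp [hc, hp]

private theorem xrel_two_eq {a b c d : ℤ} {s : Bool} {p : E3} (hp : GG a b c d s s p 2 ≠ 0) :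
    p 2 ≠ 0 := by
  intro h
  apply hp
  rw [xrel_GG2, h]
  cases s <;> simp

theorem rel_equiv : Equivalence Rel := by
  refine ⟨fun m => ⟨0, 0, 0, 0, fun h => absurd rfl h, (GG_zero _ _).symm⟩, ?_, ?_⟩
  · rintro ⟨s, p⟩ ⟨t, q⟩ ⟨a, b, c, d, h, h'⟩
    simp only at h h'
    refine ⟨-a, -b, -c, -d, ?_, ?_⟩
    · intro hts
      simp only at hts ⊢
      rw [h']
      exact xrel_two_ne (h (Ne.symm hts))
    · simp only
      rw [h', GG_comp a b c d (-a) (-b) (-c) (-d) s t s h (fun hh => h hh.symm)]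
      simp only [add_neg_cancel]
      rw [GG_zero]
  · rintro ⟨s, p⟩ ⟨t, q⟩ ⟨u, r⟩ ⟨a, b, c, d, h, h'⟩ ⟨a', b', c', d', k, k'⟩
    simp only at h h' k k'
    have h2 : t ≠ u → p 2 ≠ 0 := by
      intro htu
      by_cases hst : s = t
      · subst hst
        have := k htu
        rw [h'] at this
        exact xrel_two_eq this
      · exact h hst
    refine ⟨a + a', b + b', c + c', d + d', ?_, ?_⟩
    · intro hsu
      simp only at hsu ⊢
      by_cases hst : s = t
      · subst hst
        exact h2 hsu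
      · exact h hst
    · simp only
      rw [k', h', GG_comp a b c d a' b' c' d' s t u h h2]

private theorem xrel_int_zero {a c : ℤ} (h : ‖((a : ℂ) + c * Complex.I)‖ < 1) : a = 0 ∧ c = 0 := by
  have h1 := Complex.abs_re_le_norm ((a : ℂ) + c * Complex.I)
  have h2 := Complex.abs_im_le_norm ((a : ℂ) + c * Complex.I)
  simp only [Complex.add_re, Complex.intCast_re, Complex.mul_re, Complex.I_re, mul_zero,
    Complex.intCast_im, Complex.I_im, mul_one, sub_zero, add_zero, Complex.add_im,
    Complex.mul_im, zero_add, sub_self] at h1 h2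
  have h3 : |(a : ℝ)| < 1 := lt_of_le_of_lt h1 h
  have h4 : |(c : ℝ)| < 1 := lt_of_le_of_lt h2 h
  constructor
  · exact Int.abs_lt_one_iff.1 (by exact_mod_cast h3)
  · exact Int.abs_lt_one_iff.1 (by exact_mod_cast h4)

/-- on a ball of radius `1/2` equivalent points (of the same sheet) coincide -/
theorem eq_of_rel_ball {s : Bool} {p q q' : E3} (hq : q ∈ Metric.ball p (1 / 2))
    (hq' : q' ∈ Metric.ball p (1 / 2)) (h : Rel (s, q) (s, q')) : q = q' := by
  obtain ⟨a, b, c, d, -, h'⟩ := h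
  simp only at h'
  have hd : ‖q' - q‖ < 1 := by
    rw [← dist_eq_norm]
    rw [Metric.mem_ball] at hq hq'
    have := dist_triangle_right q' q p
    linarith
  have h0 : ‖(q' - q) 0‖ < 1 := lt_of_le_of_lt (norm_le_pi_norm (q' - q) 0) hd
  have h1 : ‖(q' - q) 1‖ < 1 := lt_of_le_of_lt (norm_le_pi_norm (q' - q) 1) hd
  rw [Pi.sub_apply, h'] at h0 h1
  rw [xrel_GG0, add_sub_cancel_left] at h0
  rw [xrel_GG1, add_sub_cancel_left] at h1
  obtain ⟨ha, hc⟩ := xrel_int_zero h0
  obtain ⟨hb, hd'⟩ := xrel_int_zero h1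
  subst ha hc hb hd'
  rw [h', GG_zero]

private theorem xrel_round (z : ℂ) :
    ‖z + (((-round z.re : ℤ) : ℂ) + ((-round z.im : ℤ) : ℂ) * Complex.I)‖ ≤ 2 := by
  refine (Complex.norm_le_abs_re_add_abs_im _).trans ?_
  have h1 := abs_sub_round z.re
  have h2 := abs_sub_round z.im
  have e1 : (z + (((-round z.re : ℤ) : ℂ) + ((-round z.im : ℤ) : ℂ) * Complex.I)).re
      = z.re - round z.re := by
    simp [sub_eq_add_neg]
  have e2 : (z + (((-round z.re : ℤ) : ℂ) + ((-round z.im : ℤ) : ℂ) * Complex.I)).im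
      = z.im - round z.im := by
    simp [sub_eq_add_neg]
  rw [e1, e2]
  linarith

/-- every point is equivalent to a point of a compact set -/
theorem exists_rel_compact (m : Bool × E3) : ∃ m' : Bool × E3, Rel m m' ∧
    m'.2 ∈ Metric.closedBall (0 : E3) 2 := by
  obtain ⟨s, p⟩ := m
  set q : E3 := GG (-round (p 0).re) (-round (p 1).re) (-round (p 0).im) (-round (p 1).im) s s p
    with hq
  have hq0 : ‖q 0‖ ≤ 2 := by
    rw [hq, xrel_GG0]
    exact xrel_round (p 0)
  have hq1 : ‖q 1‖ ≤ 2 := by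
    rw [hq, xrel_GG1]
    exact xrel_round (p 1)
  have hr : Rel (s, p) (s, q) := ⟨_, _, _, _, fun h => absurd rfl h, hq⟩
  by_cases hw : ‖q 2‖ ≤ 2
  · refine ⟨(s, q), hr, ?_⟩
    rw [mem_closedBall_zero_iff, pi_norm_le_iff_of_nonneg (by norm_num)]
    intro i
    fin_cases i
    · exact hq0
    · exact hq1
    · exact hw
  · have hw' : 2 < ‖q 2‖ := lt_of_not_ge hw
    have hne : q 2 ≠ 0 := by
      intro h0
      rw [h0, norm_zero] at hw'
      linarith
    set r : E3 := GG 0 0 0 0 s (!s) q with hrr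
    have hrel : Rel (s, q) (!s, r) := ⟨0, 0, 0, 0, fun _ => hne, hrr⟩
    refine ⟨(!s, r), rel_equiv.trans hr hrel, ?_⟩
    have hc : cf q 0 0 = 1 := by
      unfold cf
      simp
    rw [mem_closedBall_zero_iff, pi_norm_le_iff_of_nonneg (by norm_num)]
    intro i
    fin_cases i
    · show ‖r 0‖ ≤ 2
      rw [hrr, xrel_GG0]
      simpa using hq0
    · show ‖r 1‖ ≤ 2
      rw [hrr, xrel_GG1]
      simpa using hq1
    · show ‖r 2‖ ≤ 2
      have e : r 2 = 1 / q 2 := by
        rw [hrr, xrel_GG2, hc]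
        cases s <;> simp
      rw [e, norm_div, norm_one]
      rw [div_le_iff₀ (by linarith)]
      nlinarith

end HMA
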