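import Pool.Agent.HMA.XRel

/-! module XRELB: the relation is closed -/

open MeasureTheory Filter Topology Set Matrix
open scoped Manifold ContDiff ENNReal ComplexOrder

namespace HMA

/-- the factor of automorphy with real parameters -/
noncomputable def XRelB_cf (p : E3) (x y : ℝ) : ℂ :=
  Complex.exp (-(2 * Real.pi * (x * p 0 + y * p 1)) - Real.pi * (x ^ 2 + y ^ 2))

theorem XRelB_cf_int (p : E3) (a b : ℤ) : XRelB_cf p (a : ℝ) (b : ℝ) = cf p a b := by
  unfold XRelB_cf cf
  push_cast
  rfl

/-- the equation for the fibre coordinate -/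
def XRelB_eq (s t : Bool) (p q : E3) (c : ℂ) : Prop :=
  if s then (if t then q 2 * c = p 2 else q 2 * p 2 = c)
  else (if t then q 2 * (c * p 2) = 1 else q 2 = c * p 2)

theorem XRelB_iff (s t : Bool) (p q : E3) : Rel (s, p) (t, q) ↔
    (∃ a c : ℤ, q 0 - p 0 = a + c * Complex.I) ∧ (∃ b d : ℤ, q 1 - p 1 = b + d * Complex.I) ∧
      XRelB_eq s t p q (XRelB_cf p (q 0 - p 0).re (q 1 - p 1).re) := by
  have hcf : ∀ a b : ℤ, cf p a b ≠ 0 := fun a b => Complex.exp_ne_zero _
  constructor
  · rintro ⟨a, b, c, d, h1, h2⟩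
    simp only at h1 h2
    have e0 : q 0 - p 0 = a + c * Complex.I := by
      rw [h2]
      simp [GG]
    have e1 : q 1 - p 1 = b + d * Complex.I := by
      rw [h2]
      simp [GG]
    refine ⟨⟨a, c, e0⟩, ⟨b, d, e1⟩, ?_⟩
    have r0 : (q 0 - p 0).re = (a : ℝ) := by rw [e0]; simp
    have r1 : (q 1 - p 1).re = (b : ℝ) := by rw [e1]; simp
    rw [r0, r1, XRelB_cf_int]
    have e2 : q 2 = if s then (if t then p 2 / cf p a b else cf p a b / p 2)
      else (if t then 1 / (cf p a b * p 2) else cf p a b * p 2) := by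
      rw [h2]
      simp [GG]
    have h3 := hcf a b
    unfold XRelB_eq
    cases s <;> cases t <;> simp only [Bool.false_eq_true, if_false, if_true, ne_eq,
      not_true_eq_false, false_implies, reduceCtorEq, not_false_eq_true, true_implies] at e2 h1 ⊢
    · exact e2
    · rw [e2]
      field_simp
    · rw [e2]
      field_simp
    · rw [e2]
      field_simp
  · rintro ⟨⟨a, c, e0⟩, ⟨b, d, e1⟩, h⟩
    have r0 : (q 0 - p 0).re = (a : ℝ) := by rw [e0]; simp
    have r1 : (q 1 - p 1).re = (b : ℝ) := by rw [e1]; simp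
    rw [r0, r1, XRelB_cf_int] at h
    have h3 := hcf a b
    have hp : s ≠ t → p 2 ≠ 0 := by
      intro hst hp
      unfold XRelB_eq at h
      cases s <;> cases t <;> simp only [Bool.false_eq_true, if_false, if_true, hp, mul_zero] at h
      · exact hst rfl
      · exact zero_ne_one h
      · exact h3 h.symm
      · exact hst rfl
    refine ⟨a, b, c, d, hp, ?_⟩
    simp only
    funext i
    fin_cases i
    · simp only [GG, Fin.zero_eta, Matrix.cons_val_zero]
      rw [← e0]
      ring
    · simp only [GG, Fin.mk_one, Matrix.cons_val_one, Matrix.cons_val_zero]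
      rw [← e1]
      ring
    · simp only [GG, Fin.reduceFinMk, Matrix.cons_val]
      unfold XRelB_eq at h
      cases s <;> cases t <;> simp only [Bool.false_eq_true, if_false, if_true, ne_eq,
        not_true_eq_false, false_implies, reduceCtorEq, not_false_eq_true, true_implies] at h hp ⊢
      · exact h
      · rw [eq_div_iff (mul_ne_zero h3 hp)]
        exact h
      · rw [eq_div_iff hp]
        exact h
      · rw [eq_div_iff h3]
        exact h

theorem XRelB_closed_zi : IsClosed {z : ℂ | ∃ a c : ℤ, z = a + c * Complex.I} := by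
  have h : {z : ℂ | ∃ a c : ℤ, z = a + c * Complex.I} =
      Complex.re ⁻¹' (Set.range ((↑) : ℤ → ℝ)) ∩ Complex.im ⁻¹' (Set.range ((↑) : ℤ → ℝ)) := by
    ext z
    constructor
    · rintro ⟨a, c, rfl⟩
      exact ⟨⟨a, by simp⟩, ⟨c, by simp⟩⟩
    · rintro ⟨⟨a, ha⟩, ⟨c, hc⟩⟩
      refine ⟨a, c, ?_⟩
      apply Complex.ext
      · simp [ha]
      · simp [hc]
  rw [h]
  have hZ : IsClosed (Set.range ((↑) : ℤ → ℝ)) := Int.isClosedEmbedding_coe_real.isClosed_range
  exact (hZ.preimage Complex.continuous_re).inter (hZ.preimage Complex.continuous_im)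

theorem XRelB_closed (s t : Bool) : IsClosed {x : E3 × E3 | Rel (s, x.1) (t, x.2)} := by
  simp only [XRelB_iff]
  have hc : ∀ i : Fin 3, Continuous fun x : E3 × E3 => x.1 i := fun i =>
    (continuous_apply i).comp continuous_fst
  have hd : ∀ i : Fin 3, Continuous fun x : E3 × E3 => x.2 i := fun i =>
    (continuous_apply i).comp continuous_snd
  have h0 : IsClosed {x : E3 × E3 | ∃ a c : ℤ, x.2 0 - x.1 0 = a + c * Complex.I} :=
    XRelB_closed_zi.preimage ((hd 0).sub (hc 0))
  have h1 : IsClosed {x : E3 × E3 | ∃ a c : ℤ, x.2 1 - x.1 1 = a + c * Complex.I} :=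
    XRelB_closed_zi.preimage ((hd 1).sub (hc 1))
  have hr : ∀ i : Fin 3, Continuous fun x : E3 × E3 => (((x.2 i - x.1 i).re : ℝ) : ℂ) := fun i =>
    Complex.continuous_ofReal.comp (Complex.continuous_re.comp ((hd i).sub (hc i)))
  have hcf : Continuous fun x : E3 × E3 =>
      XRelB_cf x.1 (x.2 0 - x.1 0).re (x.2 1 - x.1 1).re := by
    unfold XRelB_cf
    have e0 := hr 0
    have e1 := hr 1
    have e2 := hc 0
    have e3 := hc 1
    exact Complex.continuous_exp.comp (((continuous_const.mul ((e0.mul e2).add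
      (e1.mul e3))).neg).sub (continuous_const.mul ((e0.pow 2).add (e1.pow 2))))
  have h2 : IsClosed {x : E3 × E3 | XRelB_eq s t x.1 x.2
      (XRelB_cf x.1 (x.2 0 - x.1 0).re (x.2 1 - x.1 1).re)} := by
    unfold XRelB_eq
    cases s <;> cases t <;> simp only [Bool.false_eq_true, if_false, if_true]
    · exact isClosed_eq (hd 2) (hcf.mul (hc 2))
    · exact isClosed_eq ((hd 2).mul (hcf.mul (hc 2))) continuous_const
    · exact isClosed_eq ((hd 2).mul (hc 2)) hcf
    · exact isClosed_eq ((hd 2).mul hcf) (hc 2)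
  exact h0.inter (h1.inter h2)

/-- the relation is closed -/
theorem isClosed_rel : IsClosed {x : (Bool × E3) × (Bool × E3) | Rel x.1 x.2} := by
  have h : {x : (Bool × E3) × (Bool × E3) | Rel x.1 x.2} = ⋃ s : Bool, ⋃ t : Bool,
      ({x | x.1.1 = s} ∩ {x | x.2.1 = t}) ∩
        (fun x : (Bool × E3) × (Bool × E3) => (x.1.2, x.2.2)) ⁻¹'
          {x : E3 × E3 | Rel (s, x.1) (t, x.2)} := by
    ext ⟨⟨s, p⟩, ⟨t, q⟩⟩
    simp only [Set.mem_iUnion]
    constructor
    · intro h
      exact ⟨s, t, ⟨rfl, rfl⟩, h⟩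
    · rintro ⟨s', t', ⟨h1, h2⟩, h3⟩
      have h1' : s = s' := h1
      have h2' : t = t' := h2
      subst h1'
      subst h2'
      exact h3
  rw [h]
  refine isClosed_iUnion_of_finite fun s => isClosed_iUnion_of_finite fun t => ?_
  refine IsClosed.inter (IsClosed.inter ?_ ?_) ?_
  · exact isClosed_eq (continuous_fst.comp continuous_fst) continuous_const
  · exact isClosed_eq (continuous_fst.comp continuous_snd) continuous_const
  · exact (XRelB_closed s t).preimage
      ((continuous_snd.comp continuous_fst).prodMk (continuous_snd.comp continuous_snd))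

end HMA
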