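import Pool.Agent.HMA.XDefs
import Pool.Agent.HMA.XRelB

/-! module XTOP: topology of the threefold -/

open MeasureTheory Filter Topology Set Matrix
open scoped Manifold ContDiff ENNReal ComplexOrder

namespace HMA

/-- the full quotient map -/
private def pr (m : Bool × E3) : X := Quotient.mk stp m

private theorem pr_def (s : Bool) (p : E3) : pr (s, p) = mk s p := rfl

private theorem continuous_pr : Continuous pr := continuous_quotient_mk'

private theorem pr_surj : Function.Surjective pr := fun x => by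
  obtain ⟨s, p, h⟩ := mk_surj x
  exact ⟨(s, p), h.symm⟩

theorem isOpenMap_mk (s : Bool) : IsOpenMap (mk s) := by
  intro U hU
  have hq : IsQuotientMap pr := isQuotientMap_quotient_mk'
  rw [← hq.isOpen_preimage, isOpen_iff_mem_nhds]
  rintro ⟨t, q⟩ ⟨p, hp, hpq⟩
  have hrel : Rel (t, q) (s, p) := mk_eq_iff.1 (show mk t q = mk s p from hpq.symm)
  obtain ⟨a, b, c, d, h1, h2⟩ := hrel
  simp only at h1 h2
  have hcont : ContinuousAt (GG a b c d t s) q := (contDiffAt_GG a b c d t s h1).continuousAt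
  have e1 : ∀ᶠ q' in 𝓝 q, GG a b c d t s q' ∈ U := by
    apply hcont.eventually_mem
    rw [← h2]
    exact hU.mem_nhds hp
  have e2 : ∀ᶠ q' in 𝓝 q, (t ≠ s → q' 2 ≠ 0) := by
    by_cases hts : t = s
    · exact Eventually.of_forall fun _ h => absurd hts h
    · have hc : ContinuousAt (fun q' : E3 => q' 2) q := (continuous_apply 2).continuousAt
      filter_upwards [hc.eventually_ne (h1 hts)] with q' hq' _ using hq'
  rw [nhds_prod_eq, nhds_discrete]
  rw [Filter.mem_prod_iff]
  refine ⟨{t}, by simp, {q' | GG a b c d t s q' ∈ U ∧ (t ≠ s → q' 2 ≠ 0)}, e1.and e2, ?_⟩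
  rintro ⟨t', q'⟩ ⟨ht', hq'1, hq'2⟩
  simp only [mem_singleton_iff] at ht'
  subst ht'
  refine ⟨GG a b c d t' s q', hq'1, ?_⟩
  have : mk t' q' = mk s (GG a b c d t' s q') := mk_eq_iff.2 ⟨a, b, c, d, hq'2, rfl⟩
  exact this.symm

private theorem isOpenMap_pr : IsOpenMap pr := by
  intro W hW
  have h : pr '' W = ⋃ s : Bool, mk s '' {p | (s, p) ∈ W} := by
    ext x
    simp only [mem_image, mem_iUnion]
    constructor
    · rintro ⟨⟨s, p⟩, hp, rfl⟩
      exact ⟨s, p, hp, rfl⟩
    · rintro ⟨s, p, hp, rfl⟩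
      exact ⟨(s, p), hp, rfl⟩
  rw [h]
  refine isOpen_iUnion fun s => isOpenMap_mk s _ ?_
  exact hW.preimage (Continuous.prodMk_right s)

instance : T2Space X := by
  have h : IsOpenQuotientMap pr := ⟨pr_surj, continuous_pr, isOpenMap_pr⟩
  rw [t2Space_iff_of_isOpenQuotientMap h]
  have : {x : (Bool × E3) × (Bool × E3) | pr x.1 = pr x.2} =
      {x : (Bool × E3) × (Bool × E3) | Rel x.1 x.2} := by
    ext ⟨⟨s, p⟩, ⟨t, q⟩⟩
    exact mk_eq_iff
  rw [this]
  exact isClosed_rel

instance : CompactSpace X := by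
  constructor
  have h : (univ : Set X) = pr '' ((univ : Set Bool) ×ˢ Metric.closedBall (0 : E3) 2) := by
    ext x
    simp only [mem_univ, true_iff]
    obtain ⟨s, p, rfl⟩ := mk_surj x
    obtain ⟨⟨t, q⟩, h1, h2⟩ := exists_rel_compact (s, p)
    exact ⟨(t, q), ⟨mem_univ _, h2⟩, (mk_eq_iff.2 h1).symm⟩
  rw [h]
  exact (isCompact_univ.prod (isCompact_closedBall _ _)).image continuous_pr

instance : ConnectedSpace X := by
  rw [connectedSpace_iff_univ]
  have h : (univ : Set X) = range (mk false) ∪ range (mk true) := by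
    ext x
    simp only [mem_univ, true_iff]
    obtain ⟨s, p, rfl⟩ := mk_surj x
    cases s
    · exact Or.inl ⟨p, rfl⟩
    · exact Or.inr ⟨p, rfl⟩
  have hc : ∀ s, IsConnected (range (mk s)) := fun s => isConnected_range (continuous_mk s)
  rw [h]
  refine IsConnected.union ?_ (hc false) (hc true)
  have hp : (fun _ => 1 : E3) 2 ≠ 0 := one_ne_zero
  refine ⟨mk false (fun _ => 1), ⟨_, rfl⟩, ⟨GG 0 0 0 0 false true (fun _ => 1), ?_⟩⟩
  symm
  exact mk_eq_iff.2 ⟨0, 0, 0, 0, fun _ => hp, rfl⟩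

end HMA
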